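import Pool.Agent.Lib_helper60.X10a.Da

/-!
# A point of order ten, `t = -1`: the fibres
-/

set_option autoImplicit false
set_option maxRecDepth 100000

namespace Pool.Agent.X10.Ca

/-- a fibre -/
def e01_0 : Cfg :=
    ⟨[(0, 1), (1, 1)], [(false, []), (false, []), (false, []), (false, [([.ofNat 20, .ofNat 20,
      .ofNat 20, .ofNat 20], [.negSucc 19, .ofNat 0, .ofNat 10, .negSucc 1, .ofNat 1,
      .ofNat 0])]), (false, []), (false, [([.ofNat 20, .ofNat 20, .ofNat 40, .ofNat 40, .ofNat 60,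
      .ofNat 60], [.negSucc 59, .ofNat 0, .ofNat 30, .negSucc 4, .ofNat 0, .negSucc 0])]), (false,
      [([.ofNat 2, .ofNat 4, .ofNat 6, .ofNat 8, .ofNat 10, .ofNat 12, .ofNat 14], [.negSucc 15,
      .ofNat 2, .ofNat 7, .negSucc 0, .ofNat 0, .ofNat 0])]), (false, [([.ofNat 1, .ofNat 1,
      .ofNat 1, .ofNat 1, .ofNat 1, .ofNat 1, .ofNat 1, .ofNat 1], [.negSucc 0, .negSucc 0,
      .ofNat 1, .ofNat 0, .ofNat 0, .ofNat 0])]), (true, []), (true, [])]⟩

lemma e01_0_ok : okE dt e01_0 = true := by decide +kernel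

/-- a fibre -/
def e01_1 : Cfg :=
    ⟨[(0, 1), (1, 2)], [(false, []), (false, []), (false, []), (false, [([.ofNat 20, .ofNat 20,
      .ofNat 20, .ofNat 20], [.negSucc 19, .ofNat 0, .ofNat 10, .negSucc 1, .ofNat 1, .ofNat 0,
      .ofNat 0])]), (false, [([.ofNat 120, .ofNat 200, .ofNat 160, .ofNat 400, .ofNat 280],
      [.negSucc 279, .ofNat 0, .ofNat 135, .negSucc 24, .ofNat 0, .negSucc 5, .negSucc 1])]),
      (false, [([.ofNat 20, .ofNat 20, .ofNat 40, .ofNat 40, .ofNat 60, .ofNat 60], [.negSucc 59,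
      .ofNat 0, .ofNat 30, .negSucc 4, .ofNat 0, .negSucc 0, .ofNat 0])]), (false, [([.ofNat 2,
      .ofNat 4, .ofNat 6, .ofNat 8, .ofNat 10, .ofNat 12, .ofNat 14], [.negSucc 15, .ofNat 2,
      .ofNat 7, .negSucc 0, .ofNat 0, .ofNat 0, .ofNat 0])]), (false, [([.ofNat 1, .ofNat 1,
      .ofNat 1, .ofNat 1, .ofNat 1, .ofNat 1, .ofNat 1, .ofNat 1], [.negSucc 0, .negSucc 0,
      .ofNat 1, .ofNat 0, .ofNat 0, .ofNat 0, .ofNat 0])]), (true, []), (true, [])]⟩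

lemma e01_1_ok : okE dt e01_1 = true := by decide +kernel

/-- a fibre -/
def e01_2 : Cfg :=
    ⟨[(0, 1), (1, 3)], [(false, []), (false, []), (false, [([.ofNat 320, .ofNat 800, .negSucc 159],
      [.negSucc 79, .negSucc 279, .ofNat 365, .negSucc 4, .ofNat 40, .ofNat 24, .negSucc 5,
      .ofNat 2])]), (false, [([.ofNat 20, .ofNat 20, .ofNat 20, .ofNat 20], [.negSucc 19,
      .ofNat 0, .ofNat 10, .negSucc 1, .ofNat 1, .ofNat 0, .ofNat 0, .ofNat 0])]), (false,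
      [([.ofNat 120, .ofNat 200, .ofNat 160, .ofNat 400, .ofNat 280], [.negSucc 279, .ofNat 0,
      .ofNat 135, .negSucc 24, .ofNat 0, .negSucc 5, .negSucc 1, .ofNat 0])]), (false,
      [([.ofNat 20, .ofNat 20, .ofNat 40, .ofNat 40, .ofNat 60, .ofNat 60], [.negSucc 59,
      .ofNat 0, .ofNat 30, .negSucc 4, .ofNat 0, .negSucc 0, .ofNat 0, .ofNat 0])]), (false,
      [([.ofNat 2, .ofNat 4, .ofNat 6, .ofNat 8, .ofNat 10, .ofNat 12, .ofNat 14], [.negSucc 15,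
      .ofNat 2, .ofNat 7, .negSucc 0, .ofNat 0, .ofNat 0, .ofNat 0, .ofNat 0])]), (false,
      [([.ofNat 1, .ofNat 1, .ofNat 1, .ofNat 1, .ofNat 1, .ofNat 1, .ofNat 1, .ofNat 1],
      [.negSucc 0, .negSucc 0, .ofNat 1, .ofNat 0, .ofNat 0, .ofNat 0, .ofNat 0, .ofNat 0])]),
      (true, []), (true, [])]⟩

lemma e01_2_ok : okE dt e01_2 = true := by decide +kernel

/-- a fibre -/
def e01_3 : Cfg :=
    ⟨[(0, 1), (1, 4)], [(false, []), (false, [([.ofNat 2400, .negSucc 1319], [.ofNat 660,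
      .negSucc 1199, .ofNat 580, .ofNat 0, .ofNat 100, .ofNat 12, .negSucc 35, .ofNat 6,
      .ofNat 1])]), (false, [([.ofNat 320, .ofNat 800, .negSucc 159], [.negSucc 79, .negSucc 279,
      .ofNat 365, .negSucc 4, .ofNat 40, .ofNat 24, .negSucc 5, .ofNat 2, .ofNat 0])]), (false,
      [([.ofNat 20, .ofNat 20, .ofNat 20, .ofNat 20], [.negSucc 19, .ofNat 0, .ofNat 10,
      .negSucc 1, .ofNat 1, .ofNat 0, .ofNat 0, .ofNat 0, .ofNat 0])]), (false, [([.ofNat 120,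
      .ofNat 200, .ofNat 160, .ofNat 400, .ofNat 280], [.negSucc 279, .ofNat 0, .ofNat 135,
      .negSucc 24, .ofNat 0, .negSucc 5, .negSucc 1, .ofNat 0, .ofNat 0])]), (false, [([.ofNat 20,
      .ofNat 20, .ofNat 40, .ofNat 40, .ofNat 60, .ofNat 60], [.negSucc 59, .ofNat 0, .ofNat 30,
      .negSucc 4, .ofNat 0, .negSucc 0, .ofNat 0, .ofNat 0, .ofNat 0])]), (false, [([.ofNat 2,
      .ofNat 4, .ofNat 6, .ofNat 8, .ofNat 10, .ofNat 12, .ofNat 14], [.negSucc 15, .ofNat 2,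
      .ofNat 7, .negSucc 0, .ofNat 0, .ofNat 0, .ofNat 0, .ofNat 0, .ofNat 0])]), (false,
      [([.ofNat 1, .ofNat 1, .ofNat 1, .ofNat 1, .ofNat 1, .ofNat 1, .ofNat 1, .ofNat 1],
      [.negSucc 0, .negSucc 0, .ofNat 1, .ofNat 0, .ofNat 0, .ofNat 0, .ofNat 0, .ofNat 0,
      .ofNat 0])]), (true, []), (true, [])]⟩

lemma e01_3_ok : okE dt e01_3 = true := by decide +kernel

/-- a fibre -/
def e01_4 : Cfg :=
    ⟨[(0, 2), (1, 1)], [(false, []), (false, []), (false, []), (false, [([.ofNat 20, .ofNat 20,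
      .ofNat 20, .ofNat 20], [.negSucc 19, .ofNat 0, .ofNat 10, .ofNat 0, .negSucc 1, .ofNat 1,
      .ofNat 0])]), (false, [([.ofNat 80, .negSucc 79, .ofNat 160, .negSucc 79, .ofNat 40],
      [.negSucc 139, .ofNat 120, .ofNat 5, .negSucc 1, .ofNat 5, .ofNat 0, .ofNat 12])]), (false,
      [([.ofNat 240, .ofNat 320, .ofNat 400, .ofNat 640, .ofNat 640, .ofNat 760], [.negSucc 859,
      .ofNat 120, .ofNat 365, .negSucc 1, .negSucc 54, .ofNat 0, .ofNat 0])]), (false,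
      [([.ofNat 55, .negSucc 9, .ofNat 5, .ofNat 20, .negSucc 44, .ofNat 10, .ofNat 5],
      [.negSucc 9, .negSucc 4, .ofNat 10, .ofNat 1, .ofNat 0, .ofNat 0, .ofNat 0])]), (false,
      [([.ofNat 1, .ofNat 1, .ofNat 1, .ofNat 1, .ofNat 1, .ofNat 1, .ofNat 1, .ofNat 1],
      [.negSucc 0, .negSucc 0, .ofNat 1, .ofNat 0, .ofNat 0, .ofNat 0, .ofNat 0])]), (true, []),
      (true, [])]⟩

lemma e01_4_ok : okE dt e01_4 = true := by decide +kernel

/-- a fibre -/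
def e01_5 : Cfg :=
    ⟨[(0, 2), (1, 2)], [(false, []), (false, []), (false, [([.ofNat 800, .negSucc 399, .ofNat 200],
      [.negSucc 499, .ofNat 360, .ofNat 65, .negSucc 5, .ofNat 1, .ofNat 32, .ofNat 48,
      .ofNat 4])]), (false, [([.ofNat 20, .ofNat 20, .ofNat 20, .ofNat 20], [.negSucc 19,
      .ofNat 0, .ofNat 10, .ofNat 0, .negSucc 1, .ofNat 1, .ofNat 0, .ofNat 0])]), (false,
      [([.ofNat 80, .negSucc 79, .ofNat 160, .negSucc 79, .ofNat 40], [.negSucc 139, .ofNat 120,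
      .ofNat 5, .negSucc 1, .ofNat 5, .ofNat 0, .ofNat 12, .ofNat 0])]), (false, [([.ofNat 240,
      .ofNat 320, .ofNat 400, .ofNat 640, .ofNat 640, .ofNat 760], [.negSucc 859, .ofNat 120,
      .ofNat 365, .negSucc 1, .negSucc 54, .ofNat 0, .ofNat 0, .ofNat 0])]), (false, [([.ofNat 55,
      .negSucc 9, .ofNat 5, .ofNat 20, .negSucc 44, .ofNat 10, .ofNat 5], [.negSucc 9, .negSucc 4,
      .ofNat 10, .ofNat 1, .ofNat 0, .ofNat 0, .ofNat 0, .ofNat 0])]), (false, [([.ofNat 1,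
      .ofNat 1, .ofNat 1, .ofNat 1, .ofNat 1, .ofNat 1, .ofNat 1, .ofNat 1], [.negSucc 0,
      .negSucc 0, .ofNat 1, .ofNat 0, .ofNat 0, .ofNat 0, .ofNat 0, .ofNat 0])]), (true, []),
      (true, [])]⟩

lemma e01_5_ok : okE dt e01_5 = true := by decide +kernel

/-- a fibre -/
def e01_6 : Cfg :=
    ⟨[(0, 2), (1, 3)], [(false, []), (false, [([.ofNat 4800, .negSucc 1199], [.ofNat 600,
      .negSucc 2119, .ofNat 1695, .ofNat 12, .negSucc 26, .ofNat 136, .ofNat 24, .negSucc 37,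
      .ofNat 10])]), (false, [([.ofNat 800, .negSucc 399, .ofNat 200], [.negSucc 499, .ofNat 360,
      .ofNat 65, .negSucc 5, .ofNat 1, .ofNat 32, .ofNat 48, .ofNat 4, .ofNat 0])]), (false,
      [([.ofNat 20, .ofNat 20, .ofNat 20, .ofNat 20], [.negSucc 19, .ofNat 0, .ofNat 10, .ofNat 0,
      .negSucc 1, .ofNat 1, .ofNat 0, .ofNat 0, .ofNat 0])]), (false, [([.ofNat 80, .negSucc 79,
      .ofNat 160, .negSucc 79, .ofNat 40], [.negSucc 139, .ofNat 120, .ofNat 5, .negSucc 1,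
      .ofNat 5, .ofNat 0, .ofNat 12, .ofNat 0, .ofNat 0])]), (false, [([.ofNat 240, .ofNat 320,
      .ofNat 400, .ofNat 640, .ofNat 640, .ofNat 760], [.negSucc 859, .ofNat 120, .ofNat 365,
      .negSucc 1, .negSucc 54, .ofNat 0, .ofNat 0, .ofNat 0, .ofNat 0])]), (false, [([.ofNat 55,
      .negSucc 9, .ofNat 5, .ofNat 20, .negSucc 44, .ofNat 10, .ofNat 5], [.negSucc 9, .negSucc 4,
      .ofNat 10, .ofNat 1, .ofNat 0, .ofNat 0, .ofNat 0, .ofNat 0, .ofNat 0])]), (false,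
      [([.ofNat 1, .ofNat 1, .ofNat 1, .ofNat 1, .ofNat 1, .ofNat 1, .ofNat 1, .ofNat 1],
      [.negSucc 0, .negSucc 0, .ofNat 1, .ofNat 0, .ofNat 0, .ofNat 0, .ofNat 0, .ofNat 0,
      .ofNat 0])]), (true, []), (true, [])]⟩

lemma e01_6_ok : okE dt e01_6 = true := by decide +kernel

/-- a fibre -/
def e01_7 : Cfg :=
    ⟨[(0, 3), (1, 1)], [(false, []), (false, []), (false, [([.ofNat 2880, .negSucc 479, .ofNat 480],
      [.negSucc 1459, .ofNat 720, .ofNat 505, .negSucc 25, .ofNat 2, .negSucc 2, .ofNat 64,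
      .ofNat 96])]), (false, [([.ofNat 20, .ofNat 20, .ofNat 20, .ofNat 20], [.negSucc 19,
      .ofNat 0, .ofNat 10, .ofNat 0, .ofNat 0, .negSucc 1, .ofNat 1, .ofNat 0])]), (false,
      [([.ofNat 640, .ofNat 640, .negSucc 319, .ofNat 1120, .ofNat 1120], [.negSucc 939,
      .ofNat 240, .ofNat 175, .ofNat 10, .negSucc 1, .negSucc 84, .ofNat 0, .ofNat 0])]), (false,
      [([.ofNat 2040, .negSucc 799, .negSucc 119, .ofNat 7200, .negSucc 719, .ofNat 300],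
      [.negSucc 2139, .negSucc 299, .ofNat 2140, .negSucc 71, .ofNat 11, .ofNat 0, .ofNat 0,
      .ofNat 0])]), (false, [([.ofNat 55, .negSucc 9, .ofNat 5, .ofNat 20, .negSucc 44, .ofNat 10,
      .ofNat 5], [.negSucc 9, .negSucc 4, .ofNat 10, .ofNat 1, .ofNat 0, .ofNat 0, .ofNat 0,
      .ofNat 0])]), (false, [([.ofNat 1, .ofNat 1, .ofNat 1, .ofNat 1, .ofNat 1, .ofNat 1,
      .ofNat 1, .ofNat 1], [.negSucc 0, .negSucc 0, .ofNat 1, .ofNat 0, .ofNat 0, .ofNat 0,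
      .ofNat 0, .ofNat 0])]), (true, []), (true, [])]⟩

lemma e01_7_ok : okE dt e01_7 = true := by decide +kernel

/-- a fibre -/
def e01_8 : Cfg :=
    ⟨[(0, 3), (1, 2)], [(false, []), (false, [([.ofNat 4800, .negSucc 1199], [.ofNat 1700,
      .negSucc 2879, .ofNat 1355, .negSucc 21, .ofNat 10, .negSucc 32, .negSucc 255, .negSucc 383,
      .negSucc 71])]), (false, [([.ofNat 2880, .negSucc 479, .ofNat 480], [.negSucc 1459,
      .ofNat 720, .ofNat 505, .negSucc 25, .ofNat 2, .negSucc 2, .ofNat 64, .ofNat 96,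
      .ofNat 0])]), (false, [([.ofNat 20, .ofNat 20, .ofNat 20, .ofNat 20], [.negSucc 19,
      .ofNat 0, .ofNat 10, .ofNat 0, .ofNat 0, .negSucc 1, .ofNat 1, .ofNat 0, .ofNat 0])]),
      (false, [([.ofNat 640, .ofNat 640, .negSucc 319, .ofNat 1120, .ofNat 1120], [.negSucc 939,
      .ofNat 240, .ofNat 175, .ofNat 10, .negSucc 1, .negSucc 84, .ofNat 0, .ofNat 0,
      .ofNat 0])]), (false, [([.ofNat 2040, .negSucc 799, .negSucc 119, .ofNat 7200, .negSucc 719,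
      .ofNat 300], [.negSucc 2139, .negSucc 299, .ofNat 2140, .negSucc 71, .ofNat 11, .ofNat 0,
      .ofNat 0, .ofNat 0, .ofNat 0])]), (false, [([.ofNat 55, .negSucc 9, .ofNat 5, .ofNat 20,
      .negSucc 44, .ofNat 10, .ofNat 5], [.negSucc 9, .negSucc 4, .ofNat 10, .ofNat 1, .ofNat 0,
      .ofNat 0, .ofNat 0, .ofNat 0, .ofNat 0])]), (false, [([.ofNat 1, .ofNat 1, .ofNat 1,
      .ofNat 1, .ofNat 1, .ofNat 1, .ofNat 1, .ofNat 1], [.negSucc 0, .negSucc 0, .ofNat 1,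
      .ofNat 0, .ofNat 0, .ofNat 0, .ofNat 0, .ofNat 0, .ofNat 0])]), (true, []), (true, [])]⟩

lemma e01_8_ok : okE dt e01_8 = true := by decide +kernel

/-- a fibre -/
def e01_9 : Cfg :=
    ⟨[(0, 3), (1, 3)], [(false, []), (false, [([.ofNat 4800, .negSucc 1199], [.ofNat 1700,
      .negSucc 2879, .ofNat 1355, .negSucc 21, .ofNat 10, .negSucc 32, .negSucc 255, .negSucc 383,
      .negSucc 71, .ofNat 0])]), (false, [([.ofNat 2880, .negSucc 479, .ofNat 480],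
      [.negSucc 1459, .ofNat 720, .ofNat 505, .negSucc 25, .ofNat 2, .negSucc 2, .ofNat 64,
      .ofNat 96, .ofNat 0, .ofNat 0])]), (false, [([.ofNat 20, .ofNat 20, .ofNat 20, .ofNat 20],
      [.negSucc 19, .ofNat 0, .ofNat 10, .ofNat 0, .ofNat 0, .negSucc 1, .ofNat 1, .ofNat 0,
      .ofNat 0, .ofNat 0])]), (false, [([.ofNat 640, .ofNat 640, .negSucc 319, .ofNat 1120,
      .ofNat 1120], [.negSucc 939, .ofNat 240, .ofNat 175, .ofNat 10, .negSucc 1, .negSucc 84,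
      .ofNat 0, .ofNat 0, .ofNat 0, .ofNat 0])]), (false, [([.ofNat 2040, .negSucc 799,
      .negSucc 119, .ofNat 7200, .negSucc 719, .ofNat 300], [.negSucc 2139, .negSucc 299,
      .ofNat 2140, .negSucc 71, .ofNat 11, .ofNat 0, .ofNat 0, .ofNat 0, .ofNat 0, .ofNat 0])]),
      (false, [([.ofNat 55, .negSucc 9, .ofNat 5, .ofNat 20, .negSucc 44, .ofNat 10, .ofNat 5],
      [.negSucc 9, .negSucc 4, .ofNat 10, .ofNat 1, .ofNat 0, .ofNat 0, .ofNat 0, .ofNat 0,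
      .ofNat 0, .ofNat 0])]), (false, [([.ofNat 1, .ofNat 1, .ofNat 1, .ofNat 1, .ofNat 1,
      .ofNat 1, .ofNat 1, .ofNat 1], [.negSucc 0, .negSucc 0, .ofNat 1, .ofNat 0, .ofNat 0,
      .ofNat 0, .ofNat 0, .ofNat 0, .ofNat 0, .ofNat 0])]), (true, []), (true, [])]⟩

lemma e01_9_ok : okE dt e01_9 = true := by decide +kernel

/-- a fibre -/
def e01_10 : Cfg :=
    ⟨[(0, 4), (1, 1)], [(false, []), (false, [([.ofNat 960, .ofNat 8400], [.negSucc 5299, .ofNat 7920,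
      .negSucc 2014, .negSucc 121, .ofNat 2, .ofNat 12, .negSucc 794, .ofNat 160, .ofNat 96])]),
      (false, [([.ofNat 240, .negSucc 119, .negSucc 659], [.ofNat 320, .negSucc 599, .ofNat 210,
      .ofNat 8, .ofNat 0, .negSucc 0, .ofNat 66, .negSucc 7, .ofNat 0])]), (false, [([.ofNat 160,
      .ofNat 400, .ofNat 40, .negSucc 499], [.ofNat 160, .negSucc 599, .ofNat 290, .ofNat 8,
      .ofNat 0, .negSucc 0, .ofNat 50, .ofNat 0, .ofNat 0])]), (false, [([.ofNat 6400,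
      .ofNat 9120, .ofNat 3600, .ofNat 11880, .ofNat 2700], [.negSucc 6679, .negSucc 7799,
      .ofNat 6680, .ofNat 236, .negSucc 19, .negSucc 16, .ofNat 0, .ofNat 0, .ofNat 0])]), (false,
      [([.ofNat 2040, .negSucc 799, .negSucc 119, .ofNat 7200, .negSucc 719, .ofNat 300],
      [.negSucc 2139, .negSucc 299, .ofNat 2140, .negSucc 71, .ofNat 11, .ofNat 0, .ofNat 0,
      .ofNat 0, .ofNat 0])]), (false, [([.ofNat 55, .negSucc 9, .ofNat 5, .ofNat 20, .negSucc 44,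
      .ofNat 10, .ofNat 5], [.negSucc 9, .negSucc 4, .ofNat 10, .ofNat 1, .ofNat 0, .ofNat 0,
      .ofNat 0, .ofNat 0, .ofNat 0])]), (false, [([.ofNat 1, .ofNat 1, .ofNat 1, .ofNat 1,
      .ofNat 1, .ofNat 1, .ofNat 1, .ofNat 1], [.negSucc 0, .negSucc 0, .ofNat 1, .ofNat 0,
      .ofNat 0, .ofNat 0, .ofNat 0, .ofNat 0, .ofNat 0])]), (true, []), (true, [])]⟩

lemma e01_10_ok : okE dt e01_10 = true := by decide +kernel

/-- the fibres with solutions -/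
def E01 : List Cfg := [
    e01_0, e01_1, e01_2, e01_3, e01_4, e01_5, e01_6, e01_7, e01_8, e01_9, e01_10]

/-- the fibres without solutions -/
def Z01 : List Cfg := [
    ⟨[(0, 1), (1, 5)], [(false, [([.ofNat 14400], [.negSucc 5759, .ofNat 1560, .ofNat 7135,
      .ofNat 225, .negSucc 799, .ofNat 288, .ofNat 270, .negSucc 29, .negSucc 19, .ofNat 2])]),
      (false, [([.ofNat 2400, .negSucc 1319], [.ofNat 660, .negSucc 1199, .ofNat 580, .ofNat 0,
      .ofNat 100, .ofNat 12, .negSucc 35, .ofNat 6, .ofNat 1, .ofNat 0])]), (false, [([.ofNat 320,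
      .ofNat 800, .negSucc 159], [.negSucc 79, .negSucc 279, .ofNat 365, .negSucc 4, .ofNat 40,
      .ofNat 24, .negSucc 5, .ofNat 2, .ofNat 0, .ofNat 0])]), (false, [([.ofNat 20, .ofNat 20,
      .ofNat 20, .ofNat 20], [.negSucc 19, .ofNat 0, .ofNat 10, .negSucc 1, .ofNat 1, .ofNat 0,
      .ofNat 0, .ofNat 0, .ofNat 0, .ofNat 0])]), (false, [([.ofNat 120, .ofNat 200, .ofNat 160,
      .ofNat 400, .ofNat 280], [.negSucc 279, .ofNat 0, .ofNat 135, .negSucc 24, .ofNat 0,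
      .negSucc 5, .negSucc 1, .ofNat 0, .ofNat 0, .ofNat 0])]), (false, [([.ofNat 20, .ofNat 20,
      .ofNat 40, .ofNat 40, .ofNat 60, .ofNat 60], [.negSucc 59, .ofNat 0, .ofNat 30, .negSucc 4,
      .ofNat 0, .negSucc 0, .ofNat 0, .ofNat 0, .ofNat 0, .ofNat 0])]), (false, [([.ofNat 2,
      .ofNat 4, .ofNat 6, .ofNat 8, .ofNat 10, .ofNat 12, .ofNat 14], [.negSucc 15, .ofNat 2,
      .ofNat 7, .negSucc 0, .ofNat 0, .ofNat 0, .ofNat 0, .ofNat 0, .ofNat 0, .ofNat 0])]),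
      (false, [([.ofNat 1, .ofNat 1, .ofNat 1, .ofNat 1, .ofNat 1, .ofNat 1, .ofNat 1, .ofNat 1],
      [.negSucc 0, .negSucc 0, .ofNat 1, .ofNat 0, .ofNat 0, .ofNat 0, .ofNat 0, .ofNat 0,
      .ofNat 0, .ofNat 0])]), (true, []), (true, [])]⟩,
    ⟨[(0, 2), (1, 4)], [(false, [([.ofNat 1440], [.negSucc 719, .ofNat 280, .ofNat 535, .ofNat 12,
      .negSucc 26, .negSucc 63, .ofNat 0, .ofNat 34, .negSucc 1, .negSucc 1])]), (false,
      [([.ofNat 4800, .negSucc 1199], [.ofNat 600, .negSucc 2119, .ofNat 1695, .ofNat 12,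
      .negSucc 26, .ofNat 136, .ofNat 24, .negSucc 37, .ofNat 10, .ofNat 0])]), (false,
      [([.ofNat 800, .negSucc 399, .ofNat 200], [.negSucc 499, .ofNat 360, .ofNat 65, .negSucc 5,
      .ofNat 1, .ofNat 32, .ofNat 48, .ofNat 4, .ofNat 0, .ofNat 0])]), (false, [([.ofNat 20,
      .ofNat 20, .ofNat 20, .ofNat 20], [.negSucc 19, .ofNat 0, .ofNat 10, .ofNat 0, .negSucc 1,
      .ofNat 1, .ofNat 0, .ofNat 0, .ofNat 0, .ofNat 0])]), (false, [([.ofNat 80, .negSucc 79,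
      .ofNat 160, .negSucc 79, .ofNat 40], [.negSucc 139, .ofNat 120, .ofNat 5, .negSucc 1,
      .ofNat 5, .ofNat 0, .ofNat 12, .ofNat 0, .ofNat 0, .ofNat 0])]), (false, [([.ofNat 240,
      .ofNat 320, .ofNat 400, .ofNat 640, .ofNat 640, .ofNat 760], [.negSucc 859, .ofNat 120,
      .ofNat 365, .negSucc 1, .negSucc 54, .ofNat 0, .ofNat 0, .ofNat 0, .ofNat 0, .ofNat 0])]),
      (false, [([.ofNat 55, .negSucc 9, .ofNat 5, .ofNat 20, .negSucc 44, .ofNat 10, .ofNat 5],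
      [.negSucc 9, .negSucc 4, .ofNat 10, .ofNat 1, .ofNat 0, .ofNat 0, .ofNat 0, .ofNat 0,
      .ofNat 0, .ofNat 0])]), (false, [([.ofNat 1, .ofNat 1, .ofNat 1, .ofNat 1, .ofNat 1,
      .ofNat 1, .ofNat 1, .ofNat 1], [.negSucc 0, .negSucc 0, .ofNat 1, .ofNat 0, .ofNat 0,
      .ofNat 0, .ofNat 0, .ofNat 0, .ofNat 0, .ofNat 0])]), (true, []), (true, [])]⟩,
    ⟨[(0, 4), (1, 2)], [(false, [([.ofNat 7200], [.negSucc 4699, .ofNat 7080, .negSucc 1904,
      .negSucc 97, .ofNat 0, .ofNat 10, .negSucc 656, .ofNat 176, .ofNat 144, .ofNat 12])]),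
      (false, [([.ofNat 960, .ofNat 8400], [.negSucc 5299, .ofNat 7920, .negSucc 2014,
      .negSucc 121, .ofNat 2, .ofNat 12, .negSucc 794, .ofNat 160, .ofNat 96, .ofNat 0])]),
      (false, [([.ofNat 240, .negSucc 119, .negSucc 659], [.ofNat 320, .negSucc 599, .ofNat 210,
      .ofNat 8, .ofNat 0, .negSucc 0, .ofNat 66, .negSucc 7, .ofNat 0, .ofNat 0])]), (false,
      [([.ofNat 160, .ofNat 400, .ofNat 40, .negSucc 499], [.ofNat 160, .negSucc 599, .ofNat 290,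
      .ofNat 8, .ofNat 0, .negSucc 0, .ofNat 50, .ofNat 0, .ofNat 0, .ofNat 0])]), (false,
      [([.ofNat 6400, .ofNat 9120, .ofNat 3600, .ofNat 11880, .ofNat 2700], [.negSucc 6679,
      .negSucc 7799, .ofNat 6680, .ofNat 236, .negSucc 19, .negSucc 16, .ofNat 0, .ofNat 0,
      .ofNat 0, .ofNat 0])]), (false, [([.ofNat 2040, .negSucc 799, .negSucc 119, .ofNat 7200,
      .negSucc 719, .ofNat 300], [.negSucc 2139, .negSucc 299, .ofNat 2140, .negSucc 71,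
      .ofNat 11, .ofNat 0, .ofNat 0, .ofNat 0, .ofNat 0, .ofNat 0])]), (false, [([.ofNat 55,
      .negSucc 9, .ofNat 5, .ofNat 20, .negSucc 44, .ofNat 10, .ofNat 5], [.negSucc 9, .negSucc 4,
      .ofNat 10, .ofNat 1, .ofNat 0, .ofNat 0, .ofNat 0, .ofNat 0, .ofNat 0, .ofNat 0])]), (false,
      [([.ofNat 1, .ofNat 1, .ofNat 1, .ofNat 1, .ofNat 1, .ofNat 1, .ofNat 1, .ofNat 1],
      [.negSucc 0, .negSucc 0, .ofNat 1, .ofNat 0, .ofNat 0, .ofNat 0, .ofNat 0, .ofNat 0,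
      .ofNat 0, .ofNat 0])]), (true, []), (true, [])]⟩,
    ⟨[(0, 5), (1, 1)], [(false, [([.ofNat 72000], [.negSucc 45059, .ofNat 70560, .negSucc 22734,
      .negSucc 1049, .ofNat 10, .ofNat 100, .negSucc 1, .negSucc 6074, .ofNat 1600,
      .ofNat 1728])]), (false, [([.ofNat 17280, .ofNat 79200], [.negSucc 50339, .ofNat 72000,
      .negSucc 13534, .negSucc 1145, .ofNat 26, .ofNat 116, .ofNat 2, .negSucc 8234, .ofNat 1280,
      .ofNat 0])]), (false, [([.ofNat 38400, .negSucc 1919, .negSucc 26399], [.ofNat 860,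
      .negSucc 23999, .ofNat 20065, .ofNat 134, .ofNat 26, .negSucc 43, .ofNat 2, .ofNat 2325,
      .ofNat 0, .ofNat 0])]), (false, [([.ofNat 14880, .negSucc 39599, .ofNat 7560, .ofNat 6300],
      [.ofNat 13160, .negSucc 7799, .negSucc 13159, .ofNat 476, .negSucc 51, .negSucc 4,
      .negSucc 3, .ofNat 0, .ofNat 0, .ofNat 0])]), (false, [([.ofNat 6400, .ofNat 9120,
      .ofNat 3600, .ofNat 11880, .ofNat 2700], [.negSucc 6679, .negSucc 7799, .ofNat 6680,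
      .ofNat 236, .negSucc 19, .negSucc 16, .ofNat 0, .ofNat 0, .ofNat 0, .ofNat 0])]), (false,
      [([.ofNat 2040, .negSucc 799, .negSucc 119, .ofNat 7200, .negSucc 719, .ofNat 300],
      [.negSucc 2139, .negSucc 299, .ofNat 2140, .negSucc 71, .ofNat 11, .ofNat 0, .ofNat 0,
      .ofNat 0, .ofNat 0, .ofNat 0])]), (false, [([.ofNat 55, .negSucc 9, .ofNat 5, .ofNat 20,
      .negSucc 44, .ofNat 10, .ofNat 5], [.negSucc 9, .negSucc 4, .ofNat 10, .ofNat 1, .ofNat 0,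
      .ofNat 0, .ofNat 0, .ofNat 0, .ofNat 0, .ofNat 0])]), (false, [([.ofNat 1, .ofNat 1,
      .ofNat 1, .ofNat 1, .ofNat 1, .ofNat 1, .ofNat 1, .ofNat 1], [.negSucc 0, .negSucc 0,
      .ofNat 1, .ofNat 0, .ofNat 0, .ofNat 0, .ofNat 0, .ofNat 0, .ofNat 0, .ofNat 0])]), (true,
      []), (true, [])]⟩]

lemma E01_ok : E01.all (okE dt) = true := by
  simp only [E01, List.all_cons, List.all_nil, Bool.and_self,
    e01_0_ok, e01_1_ok, e01_2_ok, e01_3_ok, e01_4_ok, e01_5_ok, e01_6_ok, e01_7_ok, e01_8_ok,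
    e01_9_ok, e01_10_ok]

lemma Z01_ok : Z01.all (okZ dt) = true := by decide +kernel

lemma cov01 : (prods 2).all (fun a => cov E01 Z01 (([0, 1] : List (Fin 10)).zip a)) = true := by
  decide +kernel

theorem typ01 : Typ dt [0, 1] E01 Z01 := ⟨E01_ok, Z01_ok, cov01, by decide +kernel⟩

/-- a fibre -/
def e02_0 : Cfg :=
    ⟨[(0, 1), (2, 1)], [(false, []), (false, []), (false, []), (false, []), (false, []), (false,
      [([.ofNat 20, .ofNat 40, .ofNat 0, .negSucc 39, .negSucc 19, .ofNat 0], [.negSucc 19,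
      .ofNat 20, .ofNat 0, .ofNat 1, .negSucc 2, .ofNat 0])]), (false, [([.ofNat 12, .ofNat 8,
      .ofNat 4, .ofNat 0, .negSucc 3, .negSucc 7, .negSucc 11], [.ofNat 16, .negSucc 15, .ofNat 0,
      .ofNat 1, .ofNat 0, .ofNat 0])]), (true, []), (false, [([.ofNat 1, .ofNat 0, .ofNat 1,
      .ofNat 1, .ofNat 1, .ofNat 1, .ofNat 1, .ofNat 1, .ofNat 1], [.negSucc 0, .negSucc 0,
      .ofNat 1, .ofNat 0, .ofNat 0, .ofNat 0])]), (true, [])]⟩

lemma e02_0_ok : okE dt e02_0 = true := by decide +kernel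

/-- a fibre -/
def e02_1 : Cfg :=
    ⟨[(0, 1), (2, 2)], [(false, []), (false, []), (false, []), (false, []), (false, [([.ofNat 240,
      .negSucc 59, .negSucc 39, .ofNat 40, .negSucc 199], [.negSucc 39, .ofNat 0, .ofNat 20,
      .ofNat 1, .negSucc 2, .ofNat 0, .ofNat 4])]), (false, [([.ofNat 20, .ofNat 40, .ofNat 0,
      .negSucc 39, .negSucc 19, .ofNat 0], [.negSucc 19, .ofNat 20, .ofNat 0, .ofNat 1,
      .negSucc 2, .ofNat 0, .ofNat 0])]), (false, [([.ofNat 12, .ofNat 8, .ofNat 4, .ofNat 0,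
      .negSucc 3, .negSucc 7, .negSucc 11], [.ofNat 16, .negSucc 15, .ofNat 0, .ofNat 1, .ofNat 0,
      .ofNat 0, .ofNat 0])]), (true, []), (false, [([.ofNat 1, .ofNat 0, .ofNat 1, .ofNat 1,
      .ofNat 1, .ofNat 1, .ofNat 1, .ofNat 1, .ofNat 1], [.negSucc 0, .negSucc 0, .ofNat 1,
      .ofNat 0, .ofNat 0, .ofNat 0, .ofNat 0])]), (true, [])]⟩

lemma e02_1_ok : okE dt e02_1 = true := by decide +kernel

/-- a fibre -/
def e02_2 : Cfg :=
    ⟨[(0, 1), (2, 3)], [(false, []), (false, []), (false, []), (false, [([.ofNat 660, .negSucc 599,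
      .negSucc 279, .ofNat 2600], [.ofNat 280, .negSucc 559, .ofNat 660, .ofNat 5, .negSucc 14,
      .ofNat 0, .negSucc 27, .ofNat 4])]), (false, [([.ofNat 240, .negSucc 59, .negSucc 39,
      .ofNat 40, .negSucc 199], [.negSucc 39, .ofNat 0, .ofNat 20, .ofNat 1, .negSucc 2, .ofNat 0,
      .ofNat 4, .ofNat 0])]), (false, [([.ofNat 20, .ofNat 40, .ofNat 0, .negSucc 39, .negSucc 19,
      .ofNat 0], [.negSucc 19, .ofNat 20, .ofNat 0, .ofNat 1, .negSucc 2, .ofNat 0, .ofNat 0,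
      .ofNat 0])]), (false, [([.ofNat 12, .ofNat 8, .ofNat 4, .ofNat 0, .negSucc 3, .negSucc 7,
      .negSucc 11], [.ofNat 16, .negSucc 15, .ofNat 0, .ofNat 1, .ofNat 0, .ofNat 0, .ofNat 0,
      .ofNat 0])]), (true, []), (false, [([.ofNat 1, .ofNat 0, .ofNat 1, .ofNat 1, .ofNat 1,
      .ofNat 1, .ofNat 1, .ofNat 1, .ofNat 1], [.negSucc 0, .negSucc 0, .ofNat 1, .ofNat 0,
      .ofNat 0, .ofNat 0, .ofNat 0, .ofNat 0])]), (true, [])]⟩

lemma e02_2_ok : okE dt e02_2 = true := by decide +kernel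

/-- a fibre -/
def e02_3 : Cfg :=
    ⟨[(0, 1), (2, 4)], [(false, []), (false, []), (false, [([.ofNat 4000, .negSucc 1359,
      .negSucc 9999], [.ofNat 13240, .negSucc 5359, .negSucc 2639, .ofNat 95, .ofNat 540,
      .ofNat 0, .negSucc 47, .ofNat 10, .ofNat 11])]), (false, [([.ofNat 660, .negSucc 599,
      .negSucc 279, .ofNat 2600], [.ofNat 280, .negSucc 559, .ofNat 660, .ofNat 5, .negSucc 14,
      .ofNat 0, .negSucc 27, .ofNat 4, .ofNat 0])]), (false, [([.ofNat 240, .negSucc 59,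
      .negSucc 39, .ofNat 40, .negSucc 199], [.negSucc 39, .ofNat 0, .ofNat 20, .ofNat 1,
      .negSucc 2, .ofNat 0, .ofNat 4, .ofNat 0, .ofNat 0])]), (false, [([.ofNat 20, .ofNat 40,
      .ofNat 0, .negSucc 39, .negSucc 19, .ofNat 0], [.negSucc 19, .ofNat 20, .ofNat 0, .ofNat 1,
      .negSucc 2, .ofNat 0, .ofNat 0, .ofNat 0, .ofNat 0])]), (false, [([.ofNat 12, .ofNat 8,
      .ofNat 4, .ofNat 0, .negSucc 3, .negSucc 7, .negSucc 11], [.ofNat 16, .negSucc 15, .ofNat 0,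
      .ofNat 1, .ofNat 0, .ofNat 0, .ofNat 0, .ofNat 0, .ofNat 0])]), (true, []), (false,
      [([.ofNat 1, .ofNat 0, .ofNat 1, .ofNat 1, .ofNat 1, .ofNat 1, .ofNat 1, .ofNat 1,
      .ofNat 1], [.negSucc 0, .negSucc 0, .ofNat 1, .ofNat 0, .ofNat 0, .ofNat 0, .ofNat 0,
      .ofNat 0, .ofNat 0])]), (true, [])]⟩

lemma e02_3_ok : okE dt e02_3 = true := by decide +kernel

/-- a fibre -/
def e02_4 : Cfg :=
    ⟨[(0, 1), (2, 5)], [(false, []), (false, [([.ofNat 10880, .ofNat 98000], [.negSucc 86119,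
      .ofNat 7280, .ofNat 38720, .negSucc 984, .negSucc 2519, .ofNat 0, .ofNat 144, .negSucc 39,
      .negSucc 72, .ofNat 5])]), (false, [([.ofNat 4000, .negSucc 1359, .negSucc 9999],
      [.ofNat 13240, .negSucc 5359, .negSucc 2639, .ofNat 95, .ofNat 540, .ofNat 0, .negSucc 47,
      .ofNat 10, .ofNat 11, .ofNat 0])]), (false, [([.ofNat 660, .negSucc 599, .negSucc 279,
      .ofNat 2600], [.ofNat 280, .negSucc 559, .ofNat 660, .ofNat 5, .negSucc 14, .ofNat 0,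
      .negSucc 27, .ofNat 4, .ofNat 0, .ofNat 0])]), (false, [([.ofNat 240, .negSucc 59,
      .negSucc 39, .ofNat 40, .negSucc 199], [.negSucc 39, .ofNat 0, .ofNat 20, .ofNat 1,
      .negSucc 2, .ofNat 0, .ofNat 4, .ofNat 0, .ofNat 0, .ofNat 0])]), (false, [([.ofNat 20,
      .ofNat 40, .ofNat 0, .negSucc 39, .negSucc 19, .ofNat 0], [.negSucc 19, .ofNat 20, .ofNat 0,
      .ofNat 1, .negSucc 2, .ofNat 0, .ofNat 0, .ofNat 0, .ofNat 0, .ofNat 0])]), (false,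
      [([.ofNat 12, .ofNat 8, .ofNat 4, .ofNat 0, .negSucc 3, .negSucc 7, .negSucc 11],
      [.ofNat 16, .negSucc 15, .ofNat 0, .ofNat 1, .ofNat 0, .ofNat 0, .ofNat 0, .ofNat 0,
      .ofNat 0, .ofNat 0])]), (true, []), (false, [([.ofNat 1, .ofNat 0, .ofNat 1, .ofNat 1,
      .ofNat 1, .ofNat 1, .ofNat 1, .ofNat 1, .ofNat 1], [.negSucc 0, .negSucc 0, .ofNat 1,
      .ofNat 0, .ofNat 0, .ofNat 0, .ofNat 0, .ofNat 0, .ofNat 0, .ofNat 0])]), (true, [])]⟩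

lemma e02_4_ok : okE dt e02_4 = true := by decide +kernel

/-- a fibre -/
def e02_5 : Cfg :=
    ⟨[(0, 2), (2, 1)], [(false, []), (false, []), (false, []), (false, []), (false, [([.ofNat 320,
      .ofNat 60, .negSucc 519, .negSucc 39, .ofNat 200], [.negSucc 479, .ofNat 480, .ofNat 20,
      .ofNat 4, .negSucc 6, .negSucc 28, .ofNat 0])]), (false, [([.ofNat 290, .ofNat 100,
      .negSucc 89, .ofNat 200, .negSucc 229, .negSucc 299], [.ofNat 430, .negSucc 429,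
      .negSucc 29, .negSucc 5, .ofNat 25, .ofNat 0, .ofNat 0])]), (false, [([.ofNat 50,
      .negSucc 14, .ofNat 0, .ofNat 15, .negSucc 49, .ofNat 5, .ofNat 0], [.negSucc 4, .ofNat 5,
      .ofNat 5, .ofNat 1, .ofNat 0, .ofNat 0, .ofNat 0])]), (true, []), (false, [([.ofNat 1,
      .ofNat 0, .ofNat 1, .ofNat 1, .ofNat 1, .ofNat 1, .ofNat 1, .ofNat 1, .ofNat 1],
      [.negSucc 0, .negSucc 0, .ofNat 1, .ofNat 0, .ofNat 0, .ofNat 0, .ofNat 0])]), (true, [])]⟩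

lemma e02_5_ok : okE dt e02_5 = true := by decide +kernel

/-- a fibre -/
def e02_6 : Cfg :=
    ⟨[(0, 2), (2, 2)], [(false, []), (false, []), (false, []), (false, [([.ofNat 420, .negSucc 1399,
      .negSucc 279, .ofNat 1400], [.negSucc 1279, .ofNat 1440, .negSucc 19, .ofNat 12,
      .negSucc 24, .negSucc 74, .ofNat 0, .negSucc 15])]), (false, [([.ofNat 320, .ofNat 60,
      .negSucc 519, .negSucc 39, .ofNat 200], [.negSucc 479, .ofNat 480, .ofNat 20, .ofNat 4,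
      .negSucc 6, .negSucc 28, .ofNat 0, .ofNat 0])]), (false, [([.ofNat 290, .ofNat 100,
      .negSucc 89, .ofNat 200, .negSucc 229, .negSucc 299], [.ofNat 430, .negSucc 429,
      .negSucc 29, .negSucc 5, .ofNat 25, .ofNat 0, .ofNat 0, .ofNat 0])]), (false, [([.ofNat 50,
      .negSucc 14, .ofNat 0, .ofNat 15, .negSucc 49, .ofNat 5, .ofNat 0], [.negSucc 4, .ofNat 5,
      .ofNat 5, .ofNat 1, .ofNat 0, .ofNat 0, .ofNat 0, .ofNat 0])]), (true, []), (false,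
      [([.ofNat 1, .ofNat 0, .ofNat 1, .ofNat 1, .ofNat 1, .ofNat 1, .ofNat 1, .ofNat 1,
      .ofNat 1], [.negSucc 0, .negSucc 0, .ofNat 1, .ofNat 0, .ofNat 0, .ofNat 0, .ofNat 0,
      .ofNat 0])]), (true, [])]⟩

lemma e02_6_ok : okE dt e02_6 = true := by decide +kernel

/-- a fibre -/
def e02_7 : Cfg :=
    ⟨[(0, 2), (2, 3)], [(false, []), (false, []), (false, [([.ofNat 5600, .ofNat 560, .ofNat 1400],
      [.ofNat 8020, .negSucc 9879, .ofNat 2420, .negSucc 65, .ofNat 155, .ofNat 360, .ofNat 0,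
      .negSucc 9, .ofNat 14])]), (false, [([.ofNat 420, .negSucc 1399, .negSucc 279, .ofNat 1400],
      [.negSucc 1279, .ofNat 1440, .negSucc 19, .ofNat 12, .negSucc 24, .negSucc 74, .ofNat 0,
      .negSucc 15, .ofNat 0])]), (false, [([.ofNat 320, .ofNat 60, .negSucc 519, .negSucc 39,
      .ofNat 200], [.negSucc 479, .ofNat 480, .ofNat 20, .ofNat 4, .negSucc 6, .negSucc 28,
      .ofNat 0, .ofNat 0, .ofNat 0])]), (false, [([.ofNat 290, .ofNat 100, .negSucc 89,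
      .ofNat 200, .negSucc 229, .negSucc 299], [.ofNat 430, .negSucc 429, .negSucc 29, .negSucc 5,
      .ofNat 25, .ofNat 0, .ofNat 0, .ofNat 0, .ofNat 0])]), (false, [([.ofNat 50, .negSucc 14,
      .ofNat 0, .ofNat 15, .negSucc 49, .ofNat 5, .ofNat 0], [.negSucc 4, .ofNat 5, .ofNat 5,
      .ofNat 1, .ofNat 0, .ofNat 0, .ofNat 0, .ofNat 0, .ofNat 0])]), (true, []), (false,
      [([.ofNat 1, .ofNat 0, .ofNat 1, .ofNat 1, .ofNat 1, .ofNat 1, .ofNat 1, .ofNat 1,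
      .ofNat 1], [.negSucc 0, .negSucc 0, .ofNat 1, .ofNat 0, .ofNat 0, .ofNat 0, .ofNat 0,
      .ofNat 0, .ofNat 0])]), (true, [])]⟩

lemma e02_7_ok : okE dt e02_7 = true := by decide +kernel

/-- a fibre -/
def e02_8 : Cfg :=
    ⟨[(0, 2), (2, 4)], [(false, []), (false, [([.ofNat 1120, .ofNat 7000], [.negSucc 4779,
      .negSucc 1079, .ofNat 2780, .negSucc 29, .ofNat 10, .negSucc 179, .ofNat 0, .ofNat 26,
      .ofNat 0, .negSucc 6])]), (false, [([.ofNat 5600, .ofNat 560, .ofNat 1400], [.ofNat 8020,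
      .negSucc 9879, .ofNat 2420, .negSucc 65, .ofNat 155, .ofNat 360, .ofNat 0, .negSucc 9,
      .ofNat 14, .ofNat 0])]), (false, [([.ofNat 420, .negSucc 1399, .negSucc 279, .ofNat 1400],
      [.negSucc 1279, .ofNat 1440, .negSucc 19, .ofNat 12, .negSucc 24, .negSucc 74, .ofNat 0,
      .negSucc 15, .ofNat 0, .ofNat 0])]), (false, [([.ofNat 320, .ofNat 60, .negSucc 519,
      .negSucc 39, .ofNat 200], [.negSucc 479, .ofNat 480, .ofNat 20, .ofNat 4, .negSucc 6,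
      .negSucc 28, .ofNat 0, .ofNat 0, .ofNat 0, .ofNat 0])]), (false, [([.ofNat 290, .ofNat 100,
      .negSucc 89, .ofNat 200, .negSucc 229, .negSucc 299], [.ofNat 430, .negSucc 429,
      .negSucc 29, .negSucc 5, .ofNat 25, .ofNat 0, .ofNat 0, .ofNat 0, .ofNat 0, .ofNat 0])]),
      (false, [([.ofNat 50, .negSucc 14, .ofNat 0, .ofNat 15, .negSucc 49, .ofNat 5, .ofNat 0],
      [.negSucc 4, .ofNat 5, .ofNat 5, .ofNat 1, .ofNat 0, .ofNat 0, .ofNat 0, .ofNat 0, .ofNat 0,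
      .ofNat 0])]), (true, []), (false, [([.ofNat 1, .ofNat 0, .ofNat 1, .ofNat 1, .ofNat 1,
      .ofNat 1, .ofNat 1, .ofNat 1, .ofNat 1], [.negSucc 0, .negSucc 0, .ofNat 1, .ofNat 0,
      .ofNat 0, .ofNat 0, .ofNat 0, .ofNat 0, .ofNat 0, .ofNat 0])]), (true, [])]⟩

lemma e02_8_ok : okE dt e02_8 = true := by decide +kernel

/-- a fibre -/
def e02_9 : Cfg :=
    ⟨[(0, 3), (2, 1)], [(false, []), (false, []), (false, []), (false, [([.ofNat 180, .ofNat 1000,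
      .ofNat 40, .ofNat 1000], [.negSucc 2479, .ofNat 1920, .ofNat 780, .negSucc 3, .ofNat 4,
      .negSucc 64, .negSucc 54, .ofNat 0])]), (false, [([.ofNat 4400, .negSucc 479,
      .negSucc 14399, .negSucc 839, .negSucc 4499], [.ofNat 11380, .negSucc 7319, .negSucc 5379,
      .ofNat 84, .negSucc 28, .ofNat 375, .ofNat 0, .ofNat 0])]), (false, [([.ofNat 150,
      .negSucc 99, .negSucc 29, .ofNat 600, .negSucc 89, .ofNat 0], [.negSucc 169, .ofNat 30,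
      .ofNat 170, .negSucc 5, .ofNat 1, .ofNat 0, .ofNat 0, .ofNat 0])]), (false, [([.ofNat 50,
      .negSucc 14, .ofNat 0, .ofNat 15, .negSucc 49, .ofNat 5, .ofNat 0], [.negSucc 4, .ofNat 5,
      .ofNat 5, .ofNat 1, .ofNat 0, .ofNat 0, .ofNat 0, .ofNat 0])]), (true, []), (false,
      [([.ofNat 1, .ofNat 0, .ofNat 1, .ofNat 1, .ofNat 1, .ofNat 1, .ofNat 1, .ofNat 1,
      .ofNat 1], [.negSucc 0, .negSucc 0, .ofNat 1, .ofNat 0, .ofNat 0, .ofNat 0, .ofNat 0,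
      .ofNat 0])]), (true, [])]⟩

lemma e02_9_ok : okE dt e02_9 = true := by decide +kernel

/-- a fibre -/
def e02_10 : Cfg :=
    ⟨[(0, 3), (2, 2)], [(false, []), (false, []), (false, [([.ofNat 2800, .ofNat 280, .ofNat 700],
      [.negSucc 3379, .ofNat 2280, .ofNat 1380, .negSucc 15, .ofNat 7, .negSucc 94, .negSucc 39,
      .ofNat 0, .ofNat 12])]), (false, [([.ofNat 180, .ofNat 1000, .ofNat 40, .ofNat 1000],
      [.negSucc 2479, .ofNat 1920, .ofNat 780, .negSucc 3, .ofNat 4, .negSucc 64, .negSucc 54,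
      .ofNat 0, .ofNat 0])]), (false, [([.ofNat 4400, .negSucc 479, .negSucc 14399, .negSucc 839,
      .negSucc 4499], [.ofNat 11380, .negSucc 7319, .negSucc 5379, .ofNat 84, .negSucc 28,
      .ofNat 375, .ofNat 0, .ofNat 0, .ofNat 0])]), (false, [([.ofNat 150, .negSucc 99,
      .negSucc 29, .ofNat 600, .negSucc 89, .ofNat 0], [.negSucc 169, .ofNat 30, .ofNat 170,
      .negSucc 5, .ofNat 1, .ofNat 0, .ofNat 0, .ofNat 0, .ofNat 0])]), (false, [([.ofNat 50,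
      .negSucc 14, .ofNat 0, .ofNat 15, .negSucc 49, .ofNat 5, .ofNat 0], [.negSucc 4, .ofNat 5,
      .ofNat 5, .ofNat 1, .ofNat 0, .ofNat 0, .ofNat 0, .ofNat 0, .ofNat 0])]), (true, []),
      (false, [([.ofNat 1, .ofNat 0, .ofNat 1, .ofNat 1, .ofNat 1, .ofNat 1, .ofNat 1, .ofNat 1,
      .ofNat 1], [.negSucc 0, .negSucc 0, .ofNat 1, .ofNat 0, .ofNat 0, .ofNat 0, .ofNat 0,
      .ofNat 0, .ofNat 0])]), (true, [])]⟩

lemma e02_10_ok : okE dt e02_10 = true := by decide +kernel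

/-- a fibre -/
def e02_11 : Cfg :=
    ⟨[(0, 3), (2, 3)], [(false, []), (false, []), (false, [([.ofNat 2800, .ofNat 280, .ofNat 700],
      [.negSucc 3379, .ofNat 2280, .ofNat 1380, .negSucc 15, .ofNat 7, .negSucc 94, .negSucc 39,
      .ofNat 0, .ofNat 12, .ofNat 0])]), (false, [([.ofNat 180, .ofNat 1000, .ofNat 40,
      .ofNat 1000], [.negSucc 2479, .ofNat 1920, .ofNat 780, .negSucc 3, .ofNat 4, .negSucc 64,
      .negSucc 54, .ofNat 0, .ofNat 0, .ofNat 0])]), (false, [([.ofNat 4400, .negSucc 479,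
      .negSucc 14399, .negSucc 839, .negSucc 4499], [.ofNat 11380, .negSucc 7319, .negSucc 5379,
      .ofNat 84, .negSucc 28, .ofNat 375, .ofNat 0, .ofNat 0, .ofNat 0, .ofNat 0])]), (false,
      [([.ofNat 150, .negSucc 99, .negSucc 29, .ofNat 600, .negSucc 89, .ofNat 0], [.negSucc 169,
      .ofNat 30, .ofNat 170, .negSucc 5, .ofNat 1, .ofNat 0, .ofNat 0, .ofNat 0, .ofNat 0,
      .ofNat 0])]), (false, [([.ofNat 50, .negSucc 14, .ofNat 0, .ofNat 15, .negSucc 49, .ofNat 5,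
      .ofNat 0], [.negSucc 4, .ofNat 5, .ofNat 5, .ofNat 1, .ofNat 0, .ofNat 0, .ofNat 0,
      .ofNat 0, .ofNat 0, .ofNat 0])]), (true, []), (false, [([.ofNat 1, .ofNat 0, .ofNat 1,
      .ofNat 1, .ofNat 1, .ofNat 1, .ofNat 1, .ofNat 1, .ofNat 1], [.negSucc 0, .negSucc 0,
      .ofNat 1, .ofNat 0, .ofNat 0, .ofNat 0, .ofNat 0, .ofNat 0, .ofNat 0, .ofNat 0])]), (true,
      [])]⟩

lemma e02_11_ok : okE dt e02_11 = true := by decide +kernel

/-- a fibre -/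
def e02_12 : Cfg :=
    ⟨[(0, 3), (2, 4)], [(false, []), (false, [([.ofNat 1120, .ofNat 7000], [.negSucc 4779,
      .negSucc 1079, .ofNat 2780, .negSucc 29, .ofNat 0, .ofNat 10, .negSucc 179, .ofNat 0,
      .ofNat 26, .ofNat 0, .negSucc 6])]), (false, [([.ofNat 2800, .ofNat 280, .ofNat 700],
      [.negSucc 3379, .ofNat 2280, .ofNat 1380, .negSucc 15, .ofNat 7, .negSucc 94, .negSucc 39,
      .ofNat 0, .ofNat 12, .ofNat 0, .ofNat 0])]), (false, [([.ofNat 180, .ofNat 1000, .ofNat 40,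
      .ofNat 1000], [.negSucc 2479, .ofNat 1920, .ofNat 780, .negSucc 3, .ofNat 4, .negSucc 64,
      .negSucc 54, .ofNat 0, .ofNat 0, .ofNat 0, .ofNat 0])]), (false, [([.ofNat 4400,
      .negSucc 479, .negSucc 14399, .negSucc 839, .negSucc 4499], [.ofNat 11380, .negSucc 7319,
      .negSucc 5379, .ofNat 84, .negSucc 28, .ofNat 375, .ofNat 0, .ofNat 0, .ofNat 0, .ofNat 0,
      .ofNat 0])]), (false, [([.ofNat 150, .negSucc 99, .negSucc 29, .ofNat 600, .negSucc 89,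
      .ofNat 0], [.negSucc 169, .ofNat 30, .ofNat 170, .negSucc 5, .ofNat 1, .ofNat 0, .ofNat 0,
      .ofNat 0, .ofNat 0, .ofNat 0, .ofNat 0])]), (false, [([.ofNat 50, .negSucc 14, .ofNat 0,
      .ofNat 15, .negSucc 49, .ofNat 5, .ofNat 0], [.negSucc 4, .ofNat 5, .ofNat 5, .ofNat 1,
      .ofNat 0, .ofNat 0, .ofNat 0, .ofNat 0, .ofNat 0, .ofNat 0, .ofNat 0])]), (true, []),
      (false, [([.ofNat 1, .ofNat 0, .ofNat 1, .ofNat 1, .ofNat 1, .ofNat 1, .ofNat 1, .ofNat 1,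
      .ofNat 1], [.negSucc 0, .negSucc 0, .ofNat 1, .ofNat 0, .ofNat 0, .ofNat 0, .ofNat 0,
      .ofNat 0, .ofNat 0, .ofNat 0, .ofNat 0])]), (true, [])]⟩

lemma e02_12_ok : okE dt e02_12 = true := by decide +kernel

/-- a fibre -/
def e02_13 : Cfg :=
    ⟨[(0, 4), (2, 1)], [(false, []), (false, []), (false, [([.ofNat 400, .ofNat 520, .ofNat 3100],
      [.negSucc 3559, .ofNat 1920, .ofNat 360, .negSucc 27, .ofNat 4, .ofNat 3, .negSucc 169,
      .negSucc 39, .ofNat 0])]), (false, [([.ofNat 480, .ofNat 1200, .negSucc 1799,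
      .negSucc 8699], [.ofNat 6440, .negSucc 1919, .ofNat 760, .ofNat 92, .negSucc 3, .negSucc 10,
      .ofNat 450, .ofNat 0, .ofNat 0])]), (false, [([.ofNat 2400, .negSucc 479, .negSucc 8399,
      .ofNat 360, .ofNat 1500], [.ofNat 3280, .negSucc 3119, .negSucc 3279, .ofNat 4, .negSucc 13,
      .ofNat 5, .ofNat 0, .ofNat 0, .ofNat 0])]), (false, [([.ofNat 150, .negSucc 99, .negSucc 29,
      .ofNat 600, .negSucc 89, .ofNat 0], [.negSucc 169, .ofNat 30, .ofNat 170, .negSucc 5,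
      .ofNat 1, .ofNat 0, .ofNat 0, .ofNat 0, .ofNat 0])]), (false, [([.ofNat 50, .negSucc 14,
      .ofNat 0, .ofNat 15, .negSucc 49, .ofNat 5, .ofNat 0], [.negSucc 4, .ofNat 5, .ofNat 5,
      .ofNat 1, .ofNat 0, .ofNat 0, .ofNat 0, .ofNat 0, .ofNat 0])]), (true, []), (false,
      [([.ofNat 1, .ofNat 0, .ofNat 1, .ofNat 1, .ofNat 1, .ofNat 1, .ofNat 1, .ofNat 1,
      .ofNat 1], [.negSucc 0, .negSucc 0, .ofNat 1, .ofNat 0, .ofNat 0, .ofNat 0, .ofNat 0,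
      .ofNat 0, .ofNat 0])]), (true, [])]⟩

lemma e02_13_ok : okE dt e02_13 = true := by decide +kernel

/-- a fibre -/
def e02_14 : Cfg :=
    ⟨[(0, 4), (2, 2)], [(false, []), (false, [([.ofNat 1120, .ofNat 7000], [.negSucc 7179,
      .ofNat 3720, .ofNat 380, .negSucc 59, .ofNat 7, .ofNat 7, .negSucc 364, .negSucc 79,
      .ofNat 0, .negSucc 3])]), (false, [([.ofNat 400, .ofNat 520, .ofNat 3100], [.negSucc 3559,
      .ofNat 1920, .ofNat 360, .negSucc 27, .ofNat 4, .ofNat 3, .negSucc 169, .negSucc 39,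
      .ofNat 0, .ofNat 0])]), (false, [([.ofNat 480, .ofNat 1200, .negSucc 1799, .negSucc 8699],
      [.ofNat 6440, .negSucc 1919, .ofNat 760, .ofNat 92, .negSucc 3, .negSucc 10, .ofNat 450,
      .ofNat 0, .ofNat 0, .ofNat 0])]), (false, [([.ofNat 2400, .negSucc 479, .negSucc 8399,
      .ofNat 360, .ofNat 1500], [.ofNat 3280, .negSucc 3119, .negSucc 3279, .ofNat 4, .negSucc 13,
      .ofNat 5, .ofNat 0, .ofNat 0, .ofNat 0, .ofNat 0])]), (false, [([.ofNat 150, .negSucc 99,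
      .negSucc 29, .ofNat 600, .negSucc 89, .ofNat 0], [.negSucc 169, .ofNat 30, .ofNat 170,
      .negSucc 5, .ofNat 1, .ofNat 0, .ofNat 0, .ofNat 0, .ofNat 0, .ofNat 0])]), (false,
      [([.ofNat 50, .negSucc 14, .ofNat 0, .ofNat 15, .negSucc 49, .ofNat 5, .ofNat 0],
      [.negSucc 4, .ofNat 5, .ofNat 5, .ofNat 1, .ofNat 0, .ofNat 0, .ofNat 0, .ofNat 0, .ofNat 0,
      .ofNat 0])]), (true, []), (false, [([.ofNat 1, .ofNat 0, .ofNat 1, .ofNat 1, .ofNat 1,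
      .ofNat 1, .ofNat 1, .ofNat 1, .ofNat 1], [.negSucc 0, .negSucc 0, .ofNat 1, .ofNat 0,
      .ofNat 0, .ofNat 0, .ofNat 0, .ofNat 0, .ofNat 0, .ofNat 0])]), (true, [])]⟩

lemma e02_14_ok : okE dt e02_14 = true := by decide +kernel

/-- a fibre -/
def e02_15 : Cfg :=
    ⟨[(0, 4), (2, 3)], [(false, []), (false, [([.ofNat 1120, .ofNat 7000], [.negSucc 7179,
      .ofNat 3720, .ofNat 380, .negSucc 59, .ofNat 7, .ofNat 7, .negSucc 364, .negSucc 79,
      .ofNat 0, .negSucc 3, .ofNat 0])]), (false, [([.ofNat 400, .ofNat 520, .ofNat 3100],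
      [.negSucc 3559, .ofNat 1920, .ofNat 360, .negSucc 27, .ofNat 4, .ofNat 3, .negSucc 169,
      .negSucc 39, .ofNat 0, .ofNat 0, .ofNat 0])]), (false, [([.ofNat 480, .ofNat 1200,
      .negSucc 1799, .negSucc 8699], [.ofNat 6440, .negSucc 1919, .ofNat 760, .ofNat 92,
      .negSucc 3, .negSucc 10, .ofNat 450, .ofNat 0, .ofNat 0, .ofNat 0, .ofNat 0])]), (false,
      [([.ofNat 2400, .negSucc 479, .negSucc 8399, .ofNat 360, .ofNat 1500], [.ofNat 3280,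
      .negSucc 3119, .negSucc 3279, .ofNat 4, .negSucc 13, .ofNat 5, .ofNat 0, .ofNat 0, .ofNat 0,
      .ofNat 0, .ofNat 0])]), (false, [([.ofNat 150, .negSucc 99, .negSucc 29, .ofNat 600,
      .negSucc 89, .ofNat 0], [.negSucc 169, .ofNat 30, .ofNat 170, .negSucc 5, .ofNat 1,
      .ofNat 0, .ofNat 0, .ofNat 0, .ofNat 0, .ofNat 0, .ofNat 0])]), (false, [([.ofNat 50,
      .negSucc 14, .ofNat 0, .ofNat 15, .negSucc 49, .ofNat 5, .ofNat 0], [.negSucc 4, .ofNat 5,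
      .ofNat 5, .ofNat 1, .ofNat 0, .ofNat 0, .ofNat 0, .ofNat 0, .ofNat 0, .ofNat 0,
      .ofNat 0])]), (true, []), (false, [([.ofNat 1, .ofNat 0, .ofNat 1, .ofNat 1, .ofNat 1,
      .ofNat 1, .ofNat 1, .ofNat 1, .ofNat 1], [.negSucc 0, .negSucc 0, .ofNat 1, .ofNat 0,
      .ofNat 0, .ofNat 0, .ofNat 0, .ofNat 0, .ofNat 0, .ofNat 0, .ofNat 0])]), (true, [])]⟩

lemma e02_15_ok : okE dt e02_15 = true := by decide +kernel

/-- a fibre -/
def e02_16 : Cfg :=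
    ⟨[(0, 4), (2, 4)], [(false, []), (false, [([.ofNat 1120, .ofNat 7000], [.negSucc 7179,
      .ofNat 3720, .ofNat 380, .negSucc 59, .ofNat 7, .ofNat 7, .negSucc 364, .negSucc 79,
      .ofNat 0, .negSucc 3, .ofNat 0, .ofNat 0])]), (false, [([.ofNat 400, .ofNat 520,
      .ofNat 3100], [.negSucc 3559, .ofNat 1920, .ofNat 360, .negSucc 27, .ofNat 4, .ofNat 3,
      .negSucc 169, .negSucc 39, .ofNat 0, .ofNat 0, .ofNat 0, .ofNat 0])]), (false,
      [([.ofNat 480, .ofNat 1200, .negSucc 1799, .negSucc 8699], [.ofNat 6440, .negSucc 1919,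
      .ofNat 760, .ofNat 92, .negSucc 3, .negSucc 10, .ofNat 450, .ofNat 0, .ofNat 0, .ofNat 0,
      .ofNat 0, .ofNat 0])]), (false, [([.ofNat 2400, .negSucc 479, .negSucc 8399, .ofNat 360,
      .ofNat 1500], [.ofNat 3280, .negSucc 3119, .negSucc 3279, .ofNat 4, .negSucc 13, .ofNat 5,
      .ofNat 0, .ofNat 0, .ofNat 0, .ofNat 0, .ofNat 0, .ofNat 0])]), (false, [([.ofNat 150,
      .negSucc 99, .negSucc 29, .ofNat 600, .negSucc 89, .ofNat 0], [.negSucc 169, .ofNat 30,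
      .ofNat 170, .negSucc 5, .ofNat 1, .ofNat 0, .ofNat 0, .ofNat 0, .ofNat 0, .ofNat 0,
      .ofNat 0, .ofNat 0])]), (false, [([.ofNat 50, .negSucc 14, .ofNat 0, .ofNat 15, .negSucc 49,
      .ofNat 5, .ofNat 0], [.negSucc 4, .ofNat 5, .ofNat 5, .ofNat 1, .ofNat 0, .ofNat 0,
      .ofNat 0, .ofNat 0, .ofNat 0, .ofNat 0, .ofNat 0, .ofNat 0])]), (true, []), (false,
      [([.ofNat 1, .ofNat 0, .ofNat 1, .ofNat 1, .ofNat 1, .ofNat 1, .ofNat 1, .ofNat 1,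
      .ofNat 1], [.negSucc 0, .negSucc 0, .ofNat 1, .ofNat 0, .ofNat 0, .ofNat 0, .ofNat 0,
      .ofNat 0, .ofNat 0, .ofNat 0, .ofNat 0, .ofNat 0])]), (true, [])]⟩

lemma e02_16_ok : okE dt e02_16 = true := by decide +kernel

/-- a fibre -/
def e02_17 : Cfg :=
    ⟨[(0, 5), (2, 1)], [(false, []), (false, [([.ofNat 28320, .ofNat 171000], [.negSucc 178759,
      .ofNat 94560, .ofNat 8360, .negSucc 1495, .ofNat 184, .ofNat 176, .negSucc 0, .negSucc 9209,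
      .negSucc 1919, .ofNat 0])]), (false, [([.ofNat 19200, .negSucc 3359, .negSucc 22199],
      [.ofNat 7880, .negSucc 2399, .ofNat 8920, .ofNat 152, .ofNat 8, .negSucc 31, .ofNat 1,
      .ofNat 1050, .ofNat 0, .ofNat 0])]), (false, [([.ofNat 3360, .negSucc 49199, .negSucc 2519,
      .ofNat 5700], [.ofNat 21440, .negSucc 6239, .negSucc 21439, .ofNat 188, .negSucc 51,
      .ofNat 19, .negSucc 2, .ofNat 0, .ofNat 0, .ofNat 0])]), (false, [([.ofNat 2400,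
      .negSucc 479, .negSucc 8399, .ofNat 360, .ofNat 1500], [.ofNat 3280, .negSucc 3119,
      .negSucc 3279, .ofNat 4, .negSucc 13, .ofNat 5, .ofNat 0, .ofNat 0, .ofNat 0, .ofNat 0])]),
      (false, [([.ofNat 150, .negSucc 99, .negSucc 29, .ofNat 600, .negSucc 89, .ofNat 0],
      [.negSucc 169, .ofNat 30, .ofNat 170, .negSucc 5, .ofNat 1, .ofNat 0, .ofNat 0, .ofNat 0,
      .ofNat 0, .ofNat 0])]), (false, [([.ofNat 50, .negSucc 14, .ofNat 0, .ofNat 15, .negSucc 49,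
      .ofNat 5, .ofNat 0], [.negSucc 4, .ofNat 5, .ofNat 5, .ofNat 1, .ofNat 0, .ofNat 0,
      .ofNat 0, .ofNat 0, .ofNat 0, .ofNat 0])]), (true, []), (false, [([.ofNat 1, .ofNat 0,
      .ofNat 1, .ofNat 1, .ofNat 1, .ofNat 1, .ofNat 1, .ofNat 1, .ofNat 1], [.negSucc 0,
      .negSucc 0, .ofNat 1, .ofNat 0, .ofNat 0, .ofNat 0, .ofNat 0, .ofNat 0, .ofNat 0,
      .ofNat 0])]), (true, [])]⟩

lemma e02_17_ok : okE dt e02_17 = true := by decide +kernel

/-- the fibres with solutions -/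
def E02 : List Cfg := [
    e02_0, e02_1, e02_2, e02_3, e02_4, e02_5, e02_6, e02_7, e02_8, e02_9, e02_10, e02_11, e02_12,
    e02_13, e02_14, e02_15, e02_16, e02_17]

/-- the fibres without solutions -/
def Z02 : List Cfg := [
    ⟨[(0, 1), (2, 6)], [(false, [([.ofNat 1170000], [.ofNat 1312920, .negSucc 1165839, .ofNat 471040,
      .ofNat 16155, .ofNat 36360, .ofNat 0, .negSucc 17775, .ofNat 4016, .ofNat 451, .ofNat 25,
      .negSucc 33])]), (false, [([.ofNat 10880, .ofNat 98000], [.negSucc 86119, .ofNat 7280,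
      .ofNat 38720, .negSucc 984, .negSucc 2519, .ofNat 0, .ofNat 144, .negSucc 39, .negSucc 72,
      .ofNat 5, .ofNat 0])]), (false, [([.ofNat 4000, .negSucc 1359, .negSucc 9999],
      [.ofNat 13240, .negSucc 5359, .negSucc 2639, .ofNat 95, .ofNat 540, .ofNat 0, .negSucc 47,
      .ofNat 10, .ofNat 11, .ofNat 0, .ofNat 0])]), (false, [([.ofNat 660, .negSucc 599,
      .negSucc 279, .ofNat 2600], [.ofNat 280, .negSucc 559, .ofNat 660, .ofNat 5, .negSucc 14,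
      .ofNat 0, .negSucc 27, .ofNat 4, .ofNat 0, .ofNat 0, .ofNat 0])]), (false, [([.ofNat 240,
      .negSucc 59, .negSucc 39, .ofNat 40, .negSucc 199], [.negSucc 39, .ofNat 0, .ofNat 20,
      .ofNat 1, .negSucc 2, .ofNat 0, .ofNat 4, .ofNat 0, .ofNat 0, .ofNat 0, .ofNat 0])]),
      (false, [([.ofNat 20, .ofNat 40, .ofNat 0, .negSucc 39, .negSucc 19, .ofNat 0],
      [.negSucc 19, .ofNat 20, .ofNat 0, .ofNat 1, .negSucc 2, .ofNat 0, .ofNat 0, .ofNat 0,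
      .ofNat 0, .ofNat 0, .ofNat 0])]), (false, [([.ofNat 12, .ofNat 8, .ofNat 4, .ofNat 0,
      .negSucc 3, .negSucc 7, .negSucc 11], [.ofNat 16, .negSucc 15, .ofNat 0, .ofNat 1, .ofNat 0,
      .ofNat 0, .ofNat 0, .ofNat 0, .ofNat 0, .ofNat 0, .ofNat 0])]), (true, []), (false,
      [([.ofNat 1, .ofNat 0, .ofNat 1, .ofNat 1, .ofNat 1, .ofNat 1, .ofNat 1, .ofNat 1,
      .ofNat 1], [.negSucc 0, .negSucc 0, .ofNat 1, .ofNat 0, .ofNat 0, .ofNat 0, .ofNat 0,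
      .ofNat 0, .ofNat 0, .ofNat 0, .ofNat 0])]), (true, [])]⟩,
    ⟨[(0, 2), (2, 5)], [(false, [([.ofNat 42000], [.negSucc 55559, .ofNat 24880, .ofNat 16400,
      .ofNat 408, .negSucc 1514, .negSucc 1079, .ofNat 0, .negSucc 151, .negSucc 55, .negSucc 6,
      .ofNat 7])]), (false, [([.ofNat 1120, .ofNat 7000], [.negSucc 4779, .negSucc 1079,
      .ofNat 2780, .negSucc 29, .ofNat 10, .negSucc 179, .ofNat 0, .ofNat 26, .ofNat 0,
      .negSucc 6, .ofNat 0])]), (false, [([.ofNat 5600, .ofNat 560, .ofNat 1400], [.ofNat 8020,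
      .negSucc 9879, .ofNat 2420, .negSucc 65, .ofNat 155, .ofNat 360, .ofNat 0, .negSucc 9,
      .ofNat 14, .ofNat 0, .ofNat 0])]), (false, [([.ofNat 420, .negSucc 1399, .negSucc 279,
      .ofNat 1400], [.negSucc 1279, .ofNat 1440, .negSucc 19, .ofNat 12, .negSucc 24, .negSucc 74,
      .ofNat 0, .negSucc 15, .ofNat 0, .ofNat 0, .ofNat 0])]), (false, [([.ofNat 320, .ofNat 60,
      .negSucc 519, .negSucc 39, .ofNat 200], [.negSucc 479, .ofNat 480, .ofNat 20, .ofNat 4,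
      .negSucc 6, .negSucc 28, .ofNat 0, .ofNat 0, .ofNat 0, .ofNat 0, .ofNat 0])]), (false,
      [([.ofNat 290, .ofNat 100, .negSucc 89, .ofNat 200, .negSucc 229, .negSucc 299],
      [.ofNat 430, .negSucc 429, .negSucc 29, .negSucc 5, .ofNat 25, .ofNat 0, .ofNat 0, .ofNat 0,
      .ofNat 0, .ofNat 0, .ofNat 0])]), (false, [([.ofNat 50, .negSucc 14, .ofNat 0, .ofNat 15,
      .negSucc 49, .ofNat 5, .ofNat 0], [.negSucc 4, .ofNat 5, .ofNat 5, .ofNat 1, .ofNat 0,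
      .ofNat 0, .ofNat 0, .ofNat 0, .ofNat 0, .ofNat 0, .ofNat 0])]), (true, []), (false,
      [([.ofNat 1, .ofNat 0, .ofNat 1, .ofNat 1, .ofNat 1, .ofNat 1, .ofNat 1, .ofNat 1,
      .ofNat 1], [.negSucc 0, .negSucc 0, .ofNat 1, .ofNat 0, .ofNat 0, .ofNat 0, .ofNat 0,
      .ofNat 0, .ofNat 0, .ofNat 0, .ofNat 0])]), (true, [])]⟩,
    ⟨[(0, 5), (2, 2)], [(false, [([.ofNat 42000], [.negSucc 19539, .negSucc 3479, .ofNat 8740,
      .negSucc 147, .negSucc 48, .ofNat 7, .ofNat 7, .negSucc 134, .negSucc 719, .ofNat 0,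
      .negSucc 707])]), (false, [([.ofNat 28320, .ofNat 171000], [.negSucc 178759, .ofNat 94560,
      .ofNat 8360, .negSucc 1495, .ofNat 184, .ofNat 176, .negSucc 0, .negSucc 9209,
      .negSucc 1919, .ofNat 0, .ofNat 0])]), (false, [([.ofNat 19200, .negSucc 3359,
      .negSucc 22199], [.ofNat 7880, .negSucc 2399, .ofNat 8920, .ofNat 152, .ofNat 8,
      .negSucc 31, .ofNat 1, .ofNat 1050, .ofNat 0, .ofNat 0, .ofNat 0])]), (false,
      [([.ofNat 3360, .negSucc 49199, .negSucc 2519, .ofNat 5700], [.ofNat 21440, .negSucc 6239,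
      .negSucc 21439, .ofNat 188, .negSucc 51, .ofNat 19, .negSucc 2, .ofNat 0, .ofNat 0,
      .ofNat 0, .ofNat 0])]), (false, [([.ofNat 2400, .negSucc 479, .negSucc 8399, .ofNat 360,
      .ofNat 1500], [.ofNat 3280, .negSucc 3119, .negSucc 3279, .ofNat 4, .negSucc 13, .ofNat 5,
      .ofNat 0, .ofNat 0, .ofNat 0, .ofNat 0, .ofNat 0])]), (false, [([.ofNat 150, .negSucc 99,
      .negSucc 29, .ofNat 600, .negSucc 89, .ofNat 0], [.negSucc 169, .ofNat 30, .ofNat 170,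
      .negSucc 5, .ofNat 1, .ofNat 0, .ofNat 0, .ofNat 0, .ofNat 0, .ofNat 0, .ofNat 0])]),
      (false, [([.ofNat 50, .negSucc 14, .ofNat 0, .ofNat 15, .negSucc 49, .ofNat 5, .ofNat 0],
      [.negSucc 4, .ofNat 5, .ofNat 5, .ofNat 1, .ofNat 0, .ofNat 0, .ofNat 0, .ofNat 0, .ofNat 0,
      .ofNat 0, .ofNat 0])]), (true, []), (false, [([.ofNat 1, .ofNat 0, .ofNat 1, .ofNat 1,
      .ofNat 1, .ofNat 1, .ofNat 1, .ofNat 1, .ofNat 1], [.negSucc 0, .negSucc 0, .ofNat 1,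
      .ofNat 0, .ofNat 0, .ofNat 0, .ofNat 0, .ofNat 0, .ofNat 0, .ofNat 0, .ofNat 0])]), (true,
      [])]⟩,
    ⟨[(0, 6), (2, 1)], [(false, [([.ofNat 1170000], [.negSucc 4341399, .ofNat 4669920, .ofNat 1036600,
      .ofNat 19376, .ofNat 5420, .negSucc 925, .negSucc 40, .ofNat 59, .negSucc 105029,
      .negSucc 135359, .ofNat 0])]), (false, [([.ofNat 67680, .ofNat 369000], [.negSucc 280039,
      .ofNat 67680, .negSucc 15159, .negSucc 4231, .ofNat 256, .ofNat 452, .negSucc 0, .negSucc 1,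
      .negSucc 18449, .ofNat 0, .ofNat 0])]), (false, [([.ofNat 1180800, .ofNat 30240,
      .negSucc 73799], [.negSucc 495519, .ofNat 89280, .ofNat 495520, .negSucc 5463, .ofNat 1388,
      .negSucc 385, .ofNat 58, .negSucc 6, .ofNat 0, .ofNat 0, .ofNat 0])]), (false,
      [([.ofNat 3360, .negSucc 49199, .negSucc 2519, .ofNat 5700], [.ofNat 21440, .negSucc 6239,
      .negSucc 21439, .ofNat 188, .negSucc 51, .ofNat 19, .negSucc 2, .ofNat 0, .ofNat 0,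
      .ofNat 0, .ofNat 0])]), (false, [([.ofNat 2400, .negSucc 479, .negSucc 8399, .ofNat 360,
      .ofNat 1500], [.ofNat 3280, .negSucc 3119, .negSucc 3279, .ofNat 4, .negSucc 13, .ofNat 5,
      .ofNat 0, .ofNat 0, .ofNat 0, .ofNat 0, .ofNat 0])]), (false, [([.ofNat 150, .negSucc 99,
      .negSucc 29, .ofNat 600, .negSucc 89, .ofNat 0], [.negSucc 169, .ofNat 30, .ofNat 170,
      .negSucc 5, .ofNat 1, .ofNat 0, .ofNat 0, .ofNat 0, .ofNat 0, .ofNat 0, .ofNat 0])]),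
      (false, [([.ofNat 50, .negSucc 14, .ofNat 0, .ofNat 15, .negSucc 49, .ofNat 5, .ofNat 0],
      [.negSucc 4, .ofNat 5, .ofNat 5, .ofNat 1, .ofNat 0, .ofNat 0, .ofNat 0, .ofNat 0, .ofNat 0,
      .ofNat 0, .ofNat 0])]), (true, []), (false, [([.ofNat 1, .ofNat 0, .ofNat 1, .ofNat 1,
      .ofNat 1, .ofNat 1, .ofNat 1, .ofNat 1, .ofNat 1], [.negSucc 0, .negSucc 0, .ofNat 1,
      .ofNat 0, .ofNat 0, .ofNat 0, .ofNat 0, .ofNat 0, .ofNat 0, .ofNat 0, .ofNat 0])]), (true,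
      [])]⟩]

lemma E02_ok : E02.all (okE dt) = true := by
  simp only [E02, List.all_cons, List.all_nil, Bool.and_self,
    e02_0_ok, e02_1_ok, e02_2_ok, e02_3_ok, e02_4_ok, e02_5_ok, e02_6_ok, e02_7_ok, e02_8_ok,
    e02_9_ok, e02_10_ok, e02_11_ok, e02_12_ok, e02_13_ok, e02_14_ok, e02_15_ok, e02_16_ok,
    e02_17_ok]

lemma Z02_ok : Z02.all (okZ dt) = true := by decide +kernel

lemma cov02 : (prods 2).all (fun a => cov E02 Z02 (([0, 2] : List (Fin 10)).zip a)) = true := by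
  decide +kernel

theorem typ02 : Typ dt [0, 2] E02 Z02 := ⟨E02_ok, Z02_ok, cov02, by decide +kernel⟩

/-- a fibre -/
def e03_0 : Cfg :=
    ⟨[(0, 1), (3, 1)], [(false, []), (false, []), (false, []), (false, [([.ofNat 20, .negSucc 19,
      .ofNat 0, .ofNat 0], [.ofNat 0, .ofNat 0, .ofNat 0, .negSucc 0, .negSucc 1, .negSucc 2])]),
      (false, []), (false, [([.ofNat 60, .ofNat 120, .ofNat 40, .negSucc 39, .negSucc 119,
      .negSucc 59], [.ofNat 0, .ofNat 0, .ofNat 0, .ofNat 4, .negSucc 6, .ofNat 0])]), (true, []),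
      (false, [([.ofNat 14, .ofNat 0, .ofNat 22, .ofNat 16, .ofNat 10, .ofNat 4, .negSucc 1,
      .negSucc 7], [.ofNat 14, .negSucc 27, .ofNat 7, .ofNat 1, .ofNat 0, .ofNat 0])]), (false,
      [([.ofNat 1, .ofNat 1, .ofNat 0, .ofNat 1, .ofNat 1, .ofNat 1, .ofNat 1, .ofNat 1,
      .ofNat 1], [.negSucc 0, .negSucc 0, .ofNat 1, .ofNat 0, .ofNat 0, .ofNat 0])]), (true, [])]⟩

lemma e03_0_ok : okE dt e03_0 = true := by decide +kernel

/-- a fibre -/
def e03_1 : Cfg :=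
    ⟨[(0, 1), (3, 2)], [(false, []), (false, []), (false, []), (false, [([.ofNat 20, .negSucc 19,
      .ofNat 0, .ofNat 0], [.ofNat 0, .ofNat 0, .ofNat 0, .negSucc 0, .negSucc 1, .negSucc 2,
      .ofNat 0])]), (false, [([.ofNat 60, .negSucc 279, .ofNat 100, .ofNat 0, .negSucc 59],
      [.negSucc 359, .ofNat 60, .negSucc 14, .negSucc 0, .negSucc 1, .ofNat 0, .negSucc 5])]),
      (false, [([.ofNat 60, .ofNat 120, .ofNat 40, .negSucc 39, .negSucc 119, .negSucc 59],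
      [.ofNat 0, .ofNat 0, .ofNat 0, .ofNat 4, .negSucc 6, .ofNat 0, .ofNat 0])]), (true, []),
      (false, [([.ofNat 14, .ofNat 0, .ofNat 22, .ofNat 16, .ofNat 10, .ofNat 4, .negSucc 1,
      .negSucc 7], [.ofNat 14, .negSucc 27, .ofNat 7, .ofNat 1, .ofNat 0, .ofNat 0, .ofNat 0])]),
      (false, [([.ofNat 1, .ofNat 1, .ofNat 0, .ofNat 1, .ofNat 1, .ofNat 1, .ofNat 1, .ofNat 1,
      .ofNat 1], [.negSucc 0, .negSucc 0, .ofNat 1, .ofNat 0, .ofNat 0, .ofNat 0, .ofNat 0])]),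
      (true, [])]⟩

lemma e03_1_ok : okE dt e03_1 = true := by decide +kernel

/-- a fibre -/
def e03_2 : Cfg :=
    ⟨[(0, 1), (3, 3)], [(false, []), (false, []), (false, [([.ofNat 420, .negSucc 99, .ofNat 120],
      [.negSucc 419, .negSucc 139, .ofNat 230, .ofNat 15, .ofNat 30, .ofNat 51, .ofNat 0,
      .ofNat 1])]), (false, [([.ofNat 20, .negSucc 19, .ofNat 0, .ofNat 0], [.ofNat 0, .ofNat 0,
      .ofNat 0, .negSucc 0, .negSucc 1, .negSucc 2, .ofNat 0, .ofNat 0])]), (false, [([.ofNat 60,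
      .negSucc 279, .ofNat 100, .ofNat 0, .negSucc 59], [.negSucc 359, .ofNat 60, .negSucc 14,
      .negSucc 0, .negSucc 1, .ofNat 0, .negSucc 5, .ofNat 0])]), (false, [([.ofNat 60,
      .ofNat 120, .ofNat 40, .negSucc 39, .negSucc 119, .negSucc 59], [.ofNat 0, .ofNat 0,
      .ofNat 0, .ofNat 4, .negSucc 6, .ofNat 0, .ofNat 0, .ofNat 0])]), (true, []), (false,
      [([.ofNat 14, .ofNat 0, .ofNat 22, .ofNat 16, .ofNat 10, .ofNat 4, .negSucc 1, .negSucc 7],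
      [.ofNat 14, .negSucc 27, .ofNat 7, .ofNat 1, .ofNat 0, .ofNat 0, .ofNat 0, .ofNat 0])]),
      (false, [([.ofNat 1, .ofNat 1, .ofNat 0, .ofNat 1, .ofNat 1, .ofNat 1, .ofNat 1, .ofNat 1,
      .ofNat 1], [.negSucc 0, .negSucc 0, .ofNat 1, .ofNat 0, .ofNat 0, .ofNat 0, .ofNat 0,
      .ofNat 0])]), (true, [])]⟩

lemma e03_2_ok : okE dt e03_2 = true := by decide +kernel

/-- a fibre -/
def e03_3 : Cfg :=
    ⟨[(0, 1), (3, 4)], [(false, []), (false, [([.ofNat 2200, .negSucc 1379], [.ofNat 80640,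
      .ofNat 7420, .negSucc 15699, .ofNat 1350, .ofNat 2175, .ofNat 3078, .ofNat 812, .negSucc 70,
      .ofNat 7])]), (false, [([.ofNat 420, .negSucc 99, .ofNat 120], [.negSucc 419, .negSucc 139,
      .ofNat 230, .ofNat 15, .ofNat 30, .ofNat 51, .ofNat 0, .ofNat 1, .ofNat 0])]), (false,
      [([.ofNat 20, .negSucc 19, .ofNat 0, .ofNat 0], [.ofNat 0, .ofNat 0, .ofNat 0, .negSucc 0,
      .negSucc 1, .negSucc 2, .ofNat 0, .ofNat 0, .ofNat 0])]), (false, [([.ofNat 60,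
      .negSucc 279, .ofNat 100, .ofNat 0, .negSucc 59], [.negSucc 359, .ofNat 60, .negSucc 14,
      .negSucc 0, .negSucc 1, .ofNat 0, .negSucc 5, .ofNat 0, .ofNat 0])]), (false, [([.ofNat 60,
      .ofNat 120, .ofNat 40, .negSucc 39, .negSucc 119, .negSucc 59], [.ofNat 0, .ofNat 0,
      .ofNat 0, .ofNat 4, .negSucc 6, .ofNat 0, .ofNat 0, .ofNat 0, .ofNat 0])]), (true, []),
      (false, [([.ofNat 14, .ofNat 0, .ofNat 22, .ofNat 16, .ofNat 10, .ofNat 4, .negSucc 1,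
      .negSucc 7], [.ofNat 14, .negSucc 27, .ofNat 7, .ofNat 1, .ofNat 0, .ofNat 0, .ofNat 0,
      .ofNat 0, .ofNat 0])]), (false, [([.ofNat 1, .ofNat 1, .ofNat 0, .ofNat 1, .ofNat 1,
      .ofNat 1, .ofNat 1, .ofNat 1, .ofNat 1], [.negSucc 0, .negSucc 0, .ofNat 1, .ofNat 0,
      .ofNat 0, .ofNat 0, .ofNat 0, .ofNat 0, .ofNat 0])]), (true, [])]⟩

lemma e03_3_ok : okE dt e03_3 = true := by decide +kernel

/-- a fibre -/
def e03_4 : Cfg :=
    ⟨[(0, 2), (3, 1)], [(false, []), (false, []), (false, []), (false, [([.ofNat 20, .negSucc 19,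
      .ofNat 0, .ofNat 0], [.ofNat 0, .ofNat 0, .ofNat 0, .ofNat 0, .negSucc 0, .negSucc 1,
      .negSucc 2])]), (false, [([.ofNat 120, .ofNat 140, .negSucc 319, .negSucc 59, .negSucc 59],
      [.ofNat 0, .negSucc 359, .ofNat 45, .ofNat 6, .ofNat 5, .negSucc 4, .ofNat 0])]), (false,
      [([.ofNat 100, .negSucc 79, .negSucc 259, .ofNat 680, .negSucc 59, .ofNat 40], [.ofNat 0,
      .ofNat 840, .negSucc 104, .negSucc 13, .negSucc 4, .ofNat 0, .ofNat 0])]), (true, []),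
      (false, [([.ofNat 5, .ofNat 0, .ofNat 15, .ofNat 0, .negSucc 14, .ofNat 50, .negSucc 4,
      .ofNat 0], [.ofNat 5, .ofNat 50, .negSucc 4, .negSucc 0, .ofNat 0, .ofNat 0, .ofNat 0])]),
      (false, [([.ofNat 1, .ofNat 1, .ofNat 0, .ofNat 1, .ofNat 1, .ofNat 1, .ofNat 1, .ofNat 1,
      .ofNat 1], [.negSucc 0, .negSucc 0, .ofNat 1, .ofNat 0, .ofNat 0, .ofNat 0, .ofNat 0])]),
      (true, [])]⟩

lemma e03_4_ok : okE dt e03_4 = true := by decide +kernel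

/-- a fibre -/
def e03_5 : Cfg :=
    ⟨[(0, 2), (3, 2)], [(false, []), (false, []), (false, [([.ofNat 60, .negSucc 19, .ofNat 20],
      [.ofNat 240, .negSucc 159, .ofNat 25, .ofNat 2, .ofNat 14, .ofNat 23, .ofNat 35,
      .ofNat 4])]), (false, [([.ofNat 20, .negSucc 19, .ofNat 0, .ofNat 0], [.ofNat 0, .ofNat 0,
      .ofNat 0, .ofNat 0, .negSucc 0, .negSucc 1, .negSucc 2, .ofNat 0])]), (false, [([.ofNat 120,
      .ofNat 140, .negSucc 319, .negSucc 59, .negSucc 59], [.ofNat 0, .negSucc 359, .ofNat 45,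
      .ofNat 6, .ofNat 5, .negSucc 4, .ofNat 0, .ofNat 0])]), (false, [([.ofNat 100, .negSucc 79,
      .negSucc 259, .ofNat 680, .negSucc 59, .ofNat 40], [.ofNat 0, .ofNat 840, .negSucc 104,
      .negSucc 13, .negSucc 4, .ofNat 0, .ofNat 0, .ofNat 0])]), (true, []), (false, [([.ofNat 5,
      .ofNat 0, .ofNat 15, .ofNat 0, .negSucc 14, .ofNat 50, .negSucc 4, .ofNat 0], [.ofNat 5,
      .ofNat 50, .negSucc 4, .negSucc 0, .ofNat 0, .ofNat 0, .ofNat 0, .ofNat 0])]), (false,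
      [([.ofNat 1, .ofNat 1, .ofNat 0, .ofNat 1, .ofNat 1, .ofNat 1, .ofNat 1, .ofNat 1,
      .ofNat 1], [.negSucc 0, .negSucc 0, .ofNat 1, .ofNat 0, .ofNat 0, .ofNat 0, .ofNat 0,
      .ofNat 0])]), (true, [])]⟩

lemma e03_5_ok : okE dt e03_5 = true := by decide +kernel

/-- a fibre -/
def e03_6 : Cfg :=
    ⟨[(0, 2), (3, 3)], [(false, []), (false, [([.ofNat 40, .negSucc 19], [.negSucc 2099, .ofNat 980,
      .ofNat 55, .negSucc 13, .negSucc 82, .negSucc 130, .negSucc 193, .negSucc 27, .ofNat 1])]),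
      (false, [([.ofNat 60, .negSucc 19, .ofNat 20], [.ofNat 240, .negSucc 159, .ofNat 25,
      .ofNat 2, .ofNat 14, .ofNat 23, .ofNat 35, .ofNat 4, .ofNat 0])]), (false, [([.ofNat 20,
      .negSucc 19, .ofNat 0, .ofNat 0], [.ofNat 0, .ofNat 0, .ofNat 0, .ofNat 0, .negSucc 0,
      .negSucc 1, .negSucc 2, .ofNat 0, .ofNat 0])]), (false, [([.ofNat 120, .ofNat 140,
      .negSucc 319, .negSucc 59, .negSucc 59], [.ofNat 0, .negSucc 359, .ofNat 45, .ofNat 6,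
      .ofNat 5, .negSucc 4, .ofNat 0, .ofNat 0, .ofNat 0])]), (false, [([.ofNat 100, .negSucc 79,
      .negSucc 259, .ofNat 680, .negSucc 59, .ofNat 40], [.ofNat 0, .ofNat 840, .negSucc 104,
      .negSucc 13, .negSucc 4, .ofNat 0, .ofNat 0, .ofNat 0, .ofNat 0])]), (true, []), (false,
      [([.ofNat 5, .ofNat 0, .ofNat 15, .ofNat 0, .negSucc 14, .ofNat 50, .negSucc 4, .ofNat 0],
      [.ofNat 5, .ofNat 50, .negSucc 4, .negSucc 0, .ofNat 0, .ofNat 0, .ofNat 0, .ofNat 0,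
      .ofNat 0])]), (false, [([.ofNat 1, .ofNat 1, .ofNat 0, .ofNat 1, .ofNat 1, .ofNat 1,
      .ofNat 1, .ofNat 1, .ofNat 1], [.negSucc 0, .negSucc 0, .ofNat 1, .ofNat 0, .ofNat 0,
      .ofNat 0, .ofNat 0, .ofNat 0, .ofNat 0])]), (true, [])]⟩

lemma e03_6_ok : okE dt e03_6 = true := by decide +kernel

/-- a fibre -/
def e03_7 : Cfg :=
    ⟨[(0, 3), (3, 1)], [(false, []), (false, []), (false, [([.ofNat 180, .negSucc 139, .ofNat 100],
      [.ofNat 280, .ofNat 2880, .negSucc 714, .negSucc 33, .negSucc 1, .negSucc 55, .negSucc 86,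
      .negSucc 118])]), (false, [([.ofNat 2380, .negSucc 2919, .ofNat 420, .negSucc 299],
      [.negSucc 839, .negSucc 8639, .ofNat 2145, .ofNat 102, .ofNat 6, .ofNat 49, .ofNat 23,
      .ofNat 0])]), (false, [([.ofNat 460, .ofNat 2520, .negSucc 3659, .ofNat 120, .negSucc 479],
      [.negSucc 699, .negSucc 8579, .ofNat 1960, .ofNat 108, .ofNat 5, .ofNat 60, .ofNat 0,
      .ofNat 0])]), (false, [([.ofNat 240, .negSucc 99, .negSucc 119, .ofNat 900, .negSucc 119,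
      .ofNat 0], [.negSucc 139, .ofNat 300, .ofNat 140, .negSucc 11, .ofNat 1, .ofNat 0, .ofNat 0,
      .ofNat 0])]), (true, []), (false, [([.ofNat 5, .ofNat 0, .ofNat 15, .ofNat 0, .negSucc 14,
      .ofNat 50, .negSucc 4, .ofNat 0], [.ofNat 5, .ofNat 50, .negSucc 4, .negSucc 0, .ofNat 0,
      .ofNat 0, .ofNat 0, .ofNat 0])]), (false, [([.ofNat 1, .ofNat 1, .ofNat 0, .ofNat 1,
      .ofNat 1, .ofNat 1, .ofNat 1, .ofNat 1, .ofNat 1], [.negSucc 0, .negSucc 0, .ofNat 1,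
      .ofNat 0, .ofNat 0, .ofNat 0, .ofNat 0, .ofNat 0])]), (true, [])]⟩

lemma e03_7_ok : okE dt e03_7 = true := by decide +kernel

/-- a fibre -/
def e03_8 : Cfg :=
    ⟨[(0, 3), (3, 2)], [(false, []), (false, [([.ofNat 40, .negSucc 19], [.ofNat 220, .negSucc 1679,
      .ofNat 395, .ofNat 20, .ofNat 1, .ofNat 49, .ofNat 78, .ofNat 112, .ofNat 6])]), (false,
      [([.ofNat 180, .negSucc 139, .ofNat 100], [.ofNat 280, .ofNat 2880, .negSucc 714,
      .negSucc 33, .negSucc 1, .negSucc 55, .negSucc 86, .negSucc 118, .ofNat 0])]), (false,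
      [([.ofNat 2380, .negSucc 2919, .ofNat 420, .negSucc 299], [.negSucc 839, .negSucc 8639,
      .ofNat 2145, .ofNat 102, .ofNat 6, .ofNat 49, .ofNat 23, .ofNat 0, .ofNat 0])]), (false,
      [([.ofNat 460, .ofNat 2520, .negSucc 3659, .ofNat 120, .negSucc 479], [.negSucc 699,
      .negSucc 8579, .ofNat 1960, .ofNat 108, .ofNat 5, .ofNat 60, .ofNat 0, .ofNat 0,
      .ofNat 0])]), (false, [([.ofNat 240, .negSucc 99, .negSucc 119, .ofNat 900, .negSucc 119,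
      .ofNat 0], [.negSucc 139, .ofNat 300, .ofNat 140, .negSucc 11, .ofNat 1, .ofNat 0, .ofNat 0,
      .ofNat 0, .ofNat 0])]), (true, []), (false, [([.ofNat 5, .ofNat 0, .ofNat 15, .ofNat 0,
      .negSucc 14, .ofNat 50, .negSucc 4, .ofNat 0], [.ofNat 5, .ofNat 50, .negSucc 4, .negSucc 0,
      .ofNat 0, .ofNat 0, .ofNat 0, .ofNat 0, .ofNat 0])]), (false, [([.ofNat 1, .ofNat 1,
      .ofNat 0, .ofNat 1, .ofNat 1, .ofNat 1, .ofNat 1, .ofNat 1, .ofNat 1], [.negSucc 0,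
      .negSucc 0, .ofNat 1, .ofNat 0, .ofNat 0, .ofNat 0, .ofNat 0, .ofNat 0, .ofNat 0])]), (true,
      [])]⟩

lemma e03_8_ok : okE dt e03_8 = true := by decide +kernel

/-- a fibre -/
def e03_9 : Cfg :=
    ⟨[(0, 3), (3, 3)], [(false, []), (false, [([.ofNat 40, .negSucc 19], [.ofNat 220, .negSucc 1679,
      .ofNat 395, .ofNat 20, .ofNat 1, .ofNat 49, .ofNat 78, .ofNat 112, .ofNat 6, .ofNat 0])]),
      (false, [([.ofNat 180, .negSucc 139, .ofNat 100], [.ofNat 280, .ofNat 2880, .negSucc 714,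
      .negSucc 33, .negSucc 1, .negSucc 55, .negSucc 86, .negSucc 118, .ofNat 0, .ofNat 0])]),
      (false, [([.ofNat 2380, .negSucc 2919, .ofNat 420, .negSucc 299], [.negSucc 839,
      .negSucc 8639, .ofNat 2145, .ofNat 102, .ofNat 6, .ofNat 49, .ofNat 23, .ofNat 0, .ofNat 0,
      .ofNat 0])]), (false, [([.ofNat 460, .ofNat 2520, .negSucc 3659, .ofNat 120, .negSucc 479],
      [.negSucc 699, .negSucc 8579, .ofNat 1960, .ofNat 108, .ofNat 5, .ofNat 60, .ofNat 0,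
      .ofNat 0, .ofNat 0, .ofNat 0])]), (false, [([.ofNat 240, .negSucc 99, .negSucc 119,
      .ofNat 900, .negSucc 119, .ofNat 0], [.negSucc 139, .ofNat 300, .ofNat 140, .negSucc 11,
      .ofNat 1, .ofNat 0, .ofNat 0, .ofNat 0, .ofNat 0, .ofNat 0])]), (true, []), (false,
      [([.ofNat 5, .ofNat 0, .ofNat 15, .ofNat 0, .negSucc 14, .ofNat 50, .negSucc 4, .ofNat 0],
      [.ofNat 5, .ofNat 50, .negSucc 4, .negSucc 0, .ofNat 0, .ofNat 0, .ofNat 0, .ofNat 0,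
      .ofNat 0, .ofNat 0])]), (false, [([.ofNat 1, .ofNat 1, .ofNat 0, .ofNat 1, .ofNat 1,
      .ofNat 1, .ofNat 1, .ofNat 1, .ofNat 1], [.negSucc 0, .negSucc 0, .ofNat 1, .ofNat 0,
      .ofNat 0, .ofNat 0, .ofNat 0, .ofNat 0, .ofNat 0, .ofNat 0])]), (true, [])]⟩

lemma e03_9_ok : okE dt e03_9 = true := by decide +kernel

/-- a fibre -/
def e03_10 : Cfg :=
    ⟨[(0, 4), (3, 1)], [(false, []), (false, [([.ofNat 2360, .negSucc 1299], [.ofNat 800,
      .negSucc 10079, .ofNat 2560, .ofNat 148, .ofNat 2, .negSucc 2, .ofNat 260, .ofNat 420,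
      .ofNat 476])]), (false, [([.ofNat 240, .ofNat 600, .negSucc 299], [.ofNat 640, .ofNat 480,
      .negSucc 99, .ofNat 4, .negSucc 1, .negSucc 0, .ofNat 12, .ofNat 24, .ofNat 0])]), (false,
      [([.ofNat 57120, .negSucc 75599, .negSucc 3719, .negSucc 299], [.negSucc 34879,
      .negSucc 218399, .ofNat 53780, .ofNat 2356, .ofNat 190, .ofNat 23, .ofNat 900, .ofNat 0,
      .ofNat 0])]), (false, [([.ofNat 300, .negSucc 839, .ofNat 900, .ofNat 240, .negSucc 299],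
      [.ofNat 1060, .ofNat 3900, .negSucc 1059, .negSucc 31, .negSucc 4, .negSucc 0, .ofNat 0,
      .ofNat 0, .ofNat 0])]), (false, [([.ofNat 240, .negSucc 99, .negSucc 119, .ofNat 900,
      .negSucc 119, .ofNat 0], [.negSucc 139, .ofNat 300, .ofNat 140, .negSucc 11, .ofNat 1,
      .ofNat 0, .ofNat 0, .ofNat 0, .ofNat 0])]), (true, []), (false, [([.ofNat 5, .ofNat 0,
      .ofNat 15, .ofNat 0, .negSucc 14, .ofNat 50, .negSucc 4, .ofNat 0], [.ofNat 5, .ofNat 50,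
      .negSucc 4, .negSucc 0, .ofNat 0, .ofNat 0, .ofNat 0, .ofNat 0, .ofNat 0])]), (false,
      [([.ofNat 1, .ofNat 1, .ofNat 0, .ofNat 1, .ofNat 1, .ofNat 1, .ofNat 1, .ofNat 1,
      .ofNat 1], [.negSucc 0, .negSucc 0, .ofNat 1, .ofNat 0, .ofNat 0, .ofNat 0, .ofNat 0,
      .ofNat 0, .ofNat 0])]), (true, [])]⟩

lemma e03_10_ok : okE dt e03_10 = true := by decide +kernel

/-- the fibres with solutions -/
def E03 : List Cfg := [
    e03_0, e03_1, e03_2, e03_3, e03_4, e03_5, e03_6, e03_7, e03_8, e03_9, e03_10]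

/-- the fibres without solutions -/
def Z03 : List Cfg := [
    ⟨[(0, 1), (3, 5)], [(false, [([.ofNat 600], [.ofNat 114480, .ofNat 15320, .negSucc 24679,
      .ofNat 1800, .ofNat 2850, .ofNat 4176, .ofNat 1160, .negSucc 99, .ofNat 10, .negSucc 0])]),
      (false, [([.ofNat 2200, .negSucc 1379], [.ofNat 80640, .ofNat 7420, .negSucc 15699,
      .ofNat 1350, .ofNat 2175, .ofNat 3078, .ofNat 812, .negSucc 70, .ofNat 7, .ofNat 0])]),
      (false, [([.ofNat 420, .negSucc 99, .ofNat 120], [.negSucc 419, .negSucc 139, .ofNat 230,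
      .ofNat 15, .ofNat 30, .ofNat 51, .ofNat 0, .ofNat 1, .ofNat 0, .ofNat 0])]), (false,
      [([.ofNat 20, .negSucc 19, .ofNat 0, .ofNat 0], [.ofNat 0, .ofNat 0, .ofNat 0, .negSucc 0,
      .negSucc 1, .negSucc 2, .ofNat 0, .ofNat 0, .ofNat 0, .ofNat 0])]), (false, [([.ofNat 60,
      .negSucc 279, .ofNat 100, .ofNat 0, .negSucc 59], [.negSucc 359, .ofNat 60, .negSucc 14,
      .negSucc 0, .negSucc 1, .ofNat 0, .negSucc 5, .ofNat 0, .ofNat 0, .ofNat 0])]), (false,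
      [([.ofNat 60, .ofNat 120, .ofNat 40, .negSucc 39, .negSucc 119, .negSucc 59], [.ofNat 0,
      .ofNat 0, .ofNat 0, .ofNat 4, .negSucc 6, .ofNat 0, .ofNat 0, .ofNat 0, .ofNat 0,
      .ofNat 0])]), (true, []), (false, [([.ofNat 14, .ofNat 0, .ofNat 22, .ofNat 16, .ofNat 10,
      .ofNat 4, .negSucc 1, .negSucc 7], [.ofNat 14, .negSucc 27, .ofNat 7, .ofNat 1, .ofNat 0,
      .ofNat 0, .ofNat 0, .ofNat 0, .ofNat 0, .ofNat 0])]), (false, [([.ofNat 1, .ofNat 1,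
      .ofNat 0, .ofNat 1, .ofNat 1, .ofNat 1, .ofNat 1, .ofNat 1, .ofNat 1], [.negSucc 0,
      .negSucc 0, .ofNat 1, .ofNat 0, .ofNat 0, .ofNat 0, .ofNat 0, .ofNat 0, .ofNat 0,
      .ofNat 0])]), (true, [])]⟩,
    ⟨[(0, 2), (3, 4)], [(false, [([.ofNat 40], [.negSucc 28019, .ofNat 6640, .ofNat 2675,
      .negSucc 109, .negSucc 844, .negSucc 1339, .negSucc 1963, .negSucc 335, .ofNat 18,
      .negSucc 0])]), (false, [([.ofNat 40, .negSucc 19], [.negSucc 2099, .ofNat 980, .ofNat 55,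
      .negSucc 13, .negSucc 82, .negSucc 130, .negSucc 193, .negSucc 27, .ofNat 1, .ofNat 0])]),
      (false, [([.ofNat 60, .negSucc 19, .ofNat 20], [.ofNat 240, .negSucc 159, .ofNat 25,
      .ofNat 2, .ofNat 14, .ofNat 23, .ofNat 35, .ofNat 4, .ofNat 0, .ofNat 0])]), (false,
      [([.ofNat 20, .negSucc 19, .ofNat 0, .ofNat 0], [.ofNat 0, .ofNat 0, .ofNat 0, .ofNat 0,
      .negSucc 0, .negSucc 1, .negSucc 2, .ofNat 0, .ofNat 0, .ofNat 0])]), (false, [([.ofNat 120,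
      .ofNat 140, .negSucc 319, .negSucc 59, .negSucc 59], [.ofNat 0, .negSucc 359, .ofNat 45,
      .ofNat 6, .ofNat 5, .negSucc 4, .ofNat 0, .ofNat 0, .ofNat 0, .ofNat 0])]), (false,
      [([.ofNat 100, .negSucc 79, .negSucc 259, .ofNat 680, .negSucc 59, .ofNat 40], [.ofNat 0,
      .ofNat 840, .negSucc 104, .negSucc 13, .negSucc 4, .ofNat 0, .ofNat 0, .ofNat 0, .ofNat 0,
      .ofNat 0])]), (true, []), (false, [([.ofNat 5, .ofNat 0, .ofNat 15, .ofNat 0, .negSucc 14,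
      .ofNat 50, .negSucc 4, .ofNat 0], [.ofNat 5, .ofNat 50, .negSucc 4, .negSucc 0, .ofNat 0,
      .ofNat 0, .ofNat 0, .ofNat 0, .ofNat 0, .ofNat 0])]), (false, [([.ofNat 1, .ofNat 1,
      .ofNat 0, .ofNat 1, .ofNat 1, .ofNat 1, .ofNat 1, .ofNat 1, .ofNat 1], [.negSucc 0,
      .negSucc 0, .ofNat 1, .ofNat 0, .ofNat 0, .ofNat 0, .ofNat 0, .ofNat 0, .ofNat 0,
      .ofNat 0])]), (true, [])]⟩,
    ⟨[(0, 4), (3, 2)], [(false, [([.ofNat 40], [.ofNat 4060, .negSucc 29679, .ofNat 6915, .ofNat 344,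
      .ofNat 19, .ofNat 1, .ofNat 877, .ofNat 1394, .ofNat 2044, .ofNat 118])]), (false,
      [([.ofNat 2360, .negSucc 1299], [.ofNat 800, .negSucc 10079, .ofNat 2560, .ofNat 148,
      .ofNat 2, .negSucc 2, .ofNat 260, .ofNat 420, .ofNat 476, .ofNat 0])]), (false,
      [([.ofNat 240, .ofNat 600, .negSucc 299], [.ofNat 640, .ofNat 480, .negSucc 99, .ofNat 4,
      .negSucc 1, .negSucc 0, .ofNat 12, .ofNat 24, .ofNat 0, .ofNat 0])]), (false,
      [([.ofNat 57120, .negSucc 75599, .negSucc 3719, .negSucc 299], [.negSucc 34879,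
      .negSucc 218399, .ofNat 53780, .ofNat 2356, .ofNat 190, .ofNat 23, .ofNat 900, .ofNat 0,
      .ofNat 0, .ofNat 0])]), (false, [([.ofNat 300, .negSucc 839, .ofNat 900, .ofNat 240,
      .negSucc 299], [.ofNat 1060, .ofNat 3900, .negSucc 1059, .negSucc 31, .negSucc 4,
      .negSucc 0, .ofNat 0, .ofNat 0, .ofNat 0, .ofNat 0])]), (false, [([.ofNat 240, .negSucc 99,
      .negSucc 119, .ofNat 900, .negSucc 119, .ofNat 0], [.negSucc 139, .ofNat 300, .ofNat 140,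
      .negSucc 11, .ofNat 1, .ofNat 0, .ofNat 0, .ofNat 0, .ofNat 0, .ofNat 0])]), (true, []),
      (false, [([.ofNat 5, .ofNat 0, .ofNat 15, .ofNat 0, .negSucc 14, .ofNat 50, .negSucc 4,
      .ofNat 0], [.ofNat 5, .ofNat 50, .negSucc 4, .negSucc 0, .ofNat 0, .ofNat 0, .ofNat 0,
      .ofNat 0, .ofNat 0, .ofNat 0])]), (false, [([.ofNat 1, .ofNat 1, .ofNat 0, .ofNat 1,
      .ofNat 1, .ofNat 1, .ofNat 1, .ofNat 1, .ofNat 1], [.negSucc 0, .negSucc 0, .ofNat 1,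
      .ofNat 0, .ofNat 0, .ofNat 0, .ofNat 0, .ofNat 0, .ofNat 0, .ofNat 0])]), (true, [])]⟩,
    ⟨[(0, 5), (3, 1)], [(false, [([.ofNat 33000], [.ofNat 1592480, .ofNat 8039520, .negSucc 2307619,
      .negSucc 81999, .negSucc 7629, .negSucc 649, .negSucc 58, .negSucc 130499, .negSucc 203999,
      .negSucc 298223])]), (false, [([.ofNat 2982240, .negSucc 1576199], [.ofNat 4222880,
      .ofNat 3477600, .negSucc 1419379, .ofNat 21632, .negSucc 12861, .negSucc 5101, .negSucc 118,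
      .ofNat 65340, .ofNat 119280, .ofNat 0])]), (false, [([.ofNat 1192800, .negSucc 239,
      .ofNat 85200], [.negSucc 1042079, .negSucc 1091999, .ofNat 922380, .negSucc 1751,
      .ofNat 2922, .ofNat 132, .ofNat 119, .negSucc 5699, .ofNat 0, .ofNat 0])]), (false,
      [([.ofNat 9120, .ofNat 18000, .negSucc 599, .ofNat 2100], [.negSucc 31839, .negSucc 62399,
      .ofNat 31840, .ofNat 332, .ofNat 104, .ofNat 7, .ofNat 3, .ofNat 0, .ofNat 0, .ofNat 0])]),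
      (false, [([.ofNat 300, .negSucc 839, .ofNat 900, .ofNat 240, .negSucc 299], [.ofNat 1060,
      .ofNat 3900, .negSucc 1059, .negSucc 31, .negSucc 4, .negSucc 0, .ofNat 0, .ofNat 0,
      .ofNat 0, .ofNat 0])]), (false, [([.ofNat 240, .negSucc 99, .negSucc 119, .ofNat 900,
      .negSucc 119, .ofNat 0], [.negSucc 139, .ofNat 300, .ofNat 140, .negSucc 11, .ofNat 1,
      .ofNat 0, .ofNat 0, .ofNat 0, .ofNat 0, .ofNat 0])]), (true, []), (false, [([.ofNat 5,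
      .ofNat 0, .ofNat 15, .ofNat 0, .negSucc 14, .ofNat 50, .negSucc 4, .ofNat 0], [.ofNat 5,
      .ofNat 50, .negSucc 4, .negSucc 0, .ofNat 0, .ofNat 0, .ofNat 0, .ofNat 0, .ofNat 0,
      .ofNat 0])]), (false, [([.ofNat 1, .ofNat 1, .ofNat 0, .ofNat 1, .ofNat 1, .ofNat 1,
      .ofNat 1, .ofNat 1, .ofNat 1], [.negSucc 0, .negSucc 0, .ofNat 1, .ofNat 0, .ofNat 0,
      .ofNat 0, .ofNat 0, .ofNat 0, .ofNat 0, .ofNat 0])]), (true, [])]⟩]

lemma E03_ok : E03.all (okE dt) = true := by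
  simp only [E03, List.all_cons, List.all_nil, Bool.and_self,
    e03_0_ok, e03_1_ok, e03_2_ok, e03_3_ok, e03_4_ok, e03_5_ok, e03_6_ok, e03_7_ok, e03_8_ok,
    e03_9_ok, e03_10_ok]

lemma Z03_ok : Z03.all (okZ dt) = true := by decide +kernel

lemma cov03 : (prods 2).all (fun a => cov E03 Z03 (([0, 3] : List (Fin 10)).zip a)) = true := by
  decide +kernel

theorem typ03 : Typ dt [0, 3] E03 Z03 := ⟨E03_ok, Z03_ok, cov03, by decide +kernel⟩

end Pool.Agent.X10.Ca
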