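import Pool.Agent.Lib_helper60.X10a.Da

/-!
# A point of order ten, `t = -1`: the fibres
-/

set_option autoImplicit false
set_option maxRecDepth 100000

namespace Pool.Agent.X10.Ca

/-- a fibre -/
def e04_0 : Cfg :=
    ⟨[(0, 1), (4, 1)], [(false, []), (false, []), (false, []), (false, []), (false, [([.ofNat 40,
      .ofNat 20, .ofNat 0, .negSucc 19, .negSucc 39], [.ofNat 0, .ofNat 0, .ofNat 0, .ofNat 1,
      .negSucc 2, .ofNat 0])]), (true, []), (false, []), (false, [([.ofNat 12, .ofNat 24,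
      .ofNat 0, .ofNat 28, .ofNat 20, .ofNat 12, .ofNat 4, .negSucc 3], [.ofNat 12, .negSucc 35,
      .ofNat 12, .ofNat 1, .ofNat 0, .ofNat 0])]), (false, [([.ofNat 1, .ofNat 1, .ofNat 1,
      .ofNat 0, .ofNat 1, .ofNat 1, .ofNat 1, .ofNat 1, .ofNat 1], [.negSucc 0, .negSucc 0,
      .ofNat 1, .ofNat 0, .ofNat 0, .ofNat 0])]), (true, [])]⟩

lemma e04_0_ok : okE dt e04_0 = true := by decide +kernel

/-- a fibre -/
def e04_1 : Cfg :=
    ⟨[(0, 1), (4, 2)], [(false, []), (false, []), (false, []), (false, []), (false, [([.ofNat 40,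
      .ofNat 20, .ofNat 0, .negSucc 19, .negSucc 39], [.ofNat 0, .ofNat 0, .ofNat 0, .ofNat 1,
      .negSucc 2, .ofNat 0, .ofNat 0])]), (true, []), (false, [([.ofNat 720, .ofNat 0, .ofNat 940,
      .ofNat 560, .negSucc 539, .negSucc 199, .negSucc 819], [.ofNat 1440, .negSucc 1319,
      .ofNat 0, .ofNat 55, .ofNat 0, .ofNat 0, .negSucc 11])]), (false, [([.ofNat 12, .ofNat 24,
      .ofNat 0, .ofNat 28, .ofNat 20, .ofNat 12, .ofNat 4, .negSucc 3], [.ofNat 12, .negSucc 35,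
      .ofNat 12, .ofNat 1, .ofNat 0, .ofNat 0, .ofNat 0])]), (false, [([.ofNat 1, .ofNat 1,
      .ofNat 1, .ofNat 0, .ofNat 1, .ofNat 1, .ofNat 1, .ofNat 1, .ofNat 1], [.negSucc 0,
      .negSucc 0, .ofNat 1, .ofNat 0, .ofNat 0, .ofNat 0, .ofNat 0])]), (true, [])]⟩

lemma e04_1_ok : okE dt e04_1 = true := by decide +kernel

/-- a fibre -/
def e04_2 : Cfg :=
    ⟨[(0, 1), (4, 3)], [(false, []), (false, []), (false, []), (false, [([.ofNat 660, .negSucc 5399,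
      .ofNat 60, .ofNat 400], [.ofNat 1920, .ofNat 1680, .negSucc 2079, .ofNat 15, .ofNat 5,
      .ofNat 0, .negSucc 55, .negSucc 7])]), (false, [([.ofNat 40, .ofNat 20, .ofNat 0,
      .negSucc 19, .negSucc 39], [.ofNat 0, .ofNat 0, .ofNat 0, .ofNat 1, .negSucc 2, .ofNat 0,
      .ofNat 0, .ofNat 0])]), (true, []), (false, [([.ofNat 720, .ofNat 0, .ofNat 940, .ofNat 560,
      .negSucc 539, .negSucc 199, .negSucc 819], [.ofNat 1440, .negSucc 1319, .ofNat 0, .ofNat 55,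
      .ofNat 0, .ofNat 0, .negSucc 11, .ofNat 0])]), (false, [([.ofNat 12, .ofNat 24, .ofNat 0,
      .ofNat 28, .ofNat 20, .ofNat 12, .ofNat 4, .negSucc 3], [.ofNat 12, .negSucc 35, .ofNat 12,
      .ofNat 1, .ofNat 0, .ofNat 0, .ofNat 0, .ofNat 0])]), (false, [([.ofNat 1, .ofNat 1,
      .ofNat 1, .ofNat 0, .ofNat 1, .ofNat 1, .ofNat 1, .ofNat 1, .ofNat 1], [.negSucc 0,
      .negSucc 0, .ofNat 1, .ofNat 0, .ofNat 0, .ofNat 0, .ofNat 0, .ofNat 0])]), (true, [])]⟩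

lemma e04_2_ok : okE dt e04_2 = true := by decide +kernel

/-- a fibre -/
def e04_3 : Cfg :=
    ⟨[(0, 1), (4, 4)], [(false, []), (false, []), (false, [([.ofNat 56700, .ofNat 4320, .ofNat 1300],
      [.negSucc 28079, .negSucc 5979, .ofNat 18980, .negSucc 404, .negSucc 409, .ofNat 0,
      .ofNat 456, .ofNat 73, .ofNat 11])]), (false, [([.ofNat 660, .negSucc 5399, .ofNat 60,
      .ofNat 400], [.ofNat 1920, .ofNat 1680, .negSucc 2079, .ofNat 15, .ofNat 5, .ofNat 0,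
      .negSucc 55, .negSucc 7, .ofNat 0])]), (false, [([.ofNat 40, .ofNat 20, .ofNat 0,
      .negSucc 19, .negSucc 39], [.ofNat 0, .ofNat 0, .ofNat 0, .ofNat 1, .negSucc 2, .ofNat 0,
      .ofNat 0, .ofNat 0, .ofNat 0])]), (true, []), (false, [([.ofNat 720, .ofNat 0, .ofNat 940,
      .ofNat 560, .negSucc 539, .negSucc 199, .negSucc 819], [.ofNat 1440, .negSucc 1319,
      .ofNat 0, .ofNat 55, .ofNat 0, .ofNat 0, .negSucc 11, .ofNat 0, .ofNat 0])]), (false,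
      [([.ofNat 12, .ofNat 24, .ofNat 0, .ofNat 28, .ofNat 20, .ofNat 12, .ofNat 4, .negSucc 3],
      [.ofNat 12, .negSucc 35, .ofNat 12, .ofNat 1, .ofNat 0, .ofNat 0, .ofNat 0, .ofNat 0,
      .ofNat 0])]), (false, [([.ofNat 1, .ofNat 1, .ofNat 1, .ofNat 0, .ofNat 1, .ofNat 1,
      .ofNat 1, .ofNat 1, .ofNat 1], [.negSucc 0, .negSucc 0, .ofNat 1, .ofNat 0, .ofNat 0,
      .ofNat 0, .ofNat 0, .ofNat 0, .ofNat 0])]), (true, [])]⟩

lemma e04_3_ok : okE dt e04_3 = true := by decide +kernel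

/-- a fibre -/
def e04_4 : Cfg :=
    ⟨[(0, 1), (4, 5)], [(false, []), (false, [([.ofNat 79920, .ofNat 16000], [.negSucc 149039,
      .ofNat 128000, .negSucc 35199, .negSucc 3239, .negSucc 1879, .ofNat 0, .negSucc 47,
      .ofNat 10, .ofNat 32, .negSucc 20])]), (false, [([.ofNat 56700, .ofNat 4320, .ofNat 1300],
      [.negSucc 28079, .negSucc 5979, .ofNat 18980, .negSucc 404, .negSucc 409, .ofNat 0,
      .ofNat 456, .ofNat 73, .ofNat 11, .ofNat 0])]), (false, [([.ofNat 660, .negSucc 5399,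
      .ofNat 60, .ofNat 400], [.ofNat 1920, .ofNat 1680, .negSucc 2079, .ofNat 15, .ofNat 5,
      .ofNat 0, .negSucc 55, .negSucc 7, .ofNat 0, .ofNat 0])]), (false, [([.ofNat 40, .ofNat 20,
      .ofNat 0, .negSucc 19, .negSucc 39], [.ofNat 0, .ofNat 0, .ofNat 0, .ofNat 1, .negSucc 2,
      .ofNat 0, .ofNat 0, .ofNat 0, .ofNat 0, .ofNat 0])]), (true, []), (false, [([.ofNat 720,
      .ofNat 0, .ofNat 940, .ofNat 560, .negSucc 539, .negSucc 199, .negSucc 819], [.ofNat 1440,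
      .negSucc 1319, .ofNat 0, .ofNat 55, .ofNat 0, .ofNat 0, .negSucc 11, .ofNat 0, .ofNat 0,
      .ofNat 0])]), (false, [([.ofNat 12, .ofNat 24, .ofNat 0, .ofNat 28, .ofNat 20, .ofNat 12,
      .ofNat 4, .negSucc 3], [.ofNat 12, .negSucc 35, .ofNat 12, .ofNat 1, .ofNat 0, .ofNat 0,
      .ofNat 0, .ofNat 0, .ofNat 0, .ofNat 0])]), (false, [([.ofNat 1, .ofNat 1, .ofNat 1,
      .ofNat 0, .ofNat 1, .ofNat 1, .ofNat 1, .ofNat 1, .ofNat 1], [.negSucc 0, .negSucc 0,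
      .ofNat 1, .ofNat 0, .ofNat 0, .ofNat 0, .ofNat 0, .ofNat 0, .ofNat 0, .ofNat 0])]), (true,
      [])]⟩

lemma e04_4_ok : okE dt e04_4 = true := by decide +kernel

/-- a fibre -/
def e04_5 : Cfg :=
    ⟨[(0, 1), (4, 6)], [(false, []), (false, [([.ofNat 79920, .ofNat 16000], [.negSucc 149039,
      .ofNat 128000, .negSucc 35199, .negSucc 3239, .negSucc 1879, .ofNat 0, .negSucc 47,
      .ofNat 10, .ofNat 32, .negSucc 20, .ofNat 0])]), (false, [([.ofNat 56700, .ofNat 4320,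
      .ofNat 1300], [.negSucc 28079, .negSucc 5979, .ofNat 18980, .negSucc 404, .negSucc 409,
      .ofNat 0, .ofNat 456, .ofNat 73, .ofNat 11, .ofNat 0, .ofNat 0])]), (false, [([.ofNat 660,
      .negSucc 5399, .ofNat 60, .ofNat 400], [.ofNat 1920, .ofNat 1680, .negSucc 2079, .ofNat 15,
      .ofNat 5, .ofNat 0, .negSucc 55, .negSucc 7, .ofNat 0, .ofNat 0, .ofNat 0])]), (false,
      [([.ofNat 40, .ofNat 20, .ofNat 0, .negSucc 19, .negSucc 39], [.ofNat 0, .ofNat 0, .ofNat 0,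
      .ofNat 1, .negSucc 2, .ofNat 0, .ofNat 0, .ofNat 0, .ofNat 0, .ofNat 0, .ofNat 0])]), (true,
      []), (false, [([.ofNat 720, .ofNat 0, .ofNat 940, .ofNat 560, .negSucc 539, .negSucc 199,
      .negSucc 819], [.ofNat 1440, .negSucc 1319, .ofNat 0, .ofNat 55, .ofNat 0, .ofNat 0,
      .negSucc 11, .ofNat 0, .ofNat 0, .ofNat 0, .ofNat 0])]), (false, [([.ofNat 12, .ofNat 24,
      .ofNat 0, .ofNat 28, .ofNat 20, .ofNat 12, .ofNat 4, .negSucc 3], [.ofNat 12, .negSucc 35,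
      .ofNat 12, .ofNat 1, .ofNat 0, .ofNat 0, .ofNat 0, .ofNat 0, .ofNat 0, .ofNat 0,
      .ofNat 0])]), (false, [([.ofNat 1, .ofNat 1, .ofNat 1, .ofNat 0, .ofNat 1, .ofNat 1,
      .ofNat 1, .ofNat 1, .ofNat 1], [.negSucc 0, .negSucc 0, .ofNat 1, .ofNat 0, .ofNat 0,
      .ofNat 0, .ofNat 0, .ofNat 0, .ofNat 0, .ofNat 0, .ofNat 0])]), (true, [])]⟩

lemma e04_5_ok : okE dt e04_5 = true := by decide +kernel

/-- a fibre -/
def e04_6 : Cfg :=
    ⟨[(0, 2), (4, 1)], [(false, []), (false, []), (false, []), (false, []), (false, [([.ofNat 40,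
      .ofNat 20, .ofNat 0, .negSucc 19, .negSucc 39], [.ofNat 0, .ofNat 0, .ofNat 0, .ofNat 0,
      .ofNat 1, .negSucc 2, .ofNat 0])]), (true, []), (false, [([.ofNat 720, .ofNat 0, .ofNat 140,
      .ofNat 280, .negSucc 539, .ofNat 80, .negSucc 19], [.ofNat 0, .ofNat 0, .ofNat 120,
      .ofNat 12, .ofNat 5, .ofNat 0, .ofNat 0])]), (false, [([.ofNat 5, .negSucc 49, .ofNat 0,
      .ofNat 0, .negSucc 14, .ofNat 50, .negSucc 4, .ofNat 0], [.ofNat 5, .negSucc 14, .negSucc 4,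
      .negSucc 0, .ofNat 0, .ofNat 0, .ofNat 0])]), (false, [([.ofNat 1, .ofNat 1, .ofNat 1,
      .ofNat 0, .ofNat 1, .ofNat 1, .ofNat 1, .ofNat 1, .ofNat 1], [.negSucc 0, .negSucc 0,
      .ofNat 1, .ofNat 0, .ofNat 0, .ofNat 0, .ofNat 0])]), (true, [])]⟩

lemma e04_6_ok : okE dt e04_6 = true := by decide +kernel

/-- a fibre -/
def e04_7 : Cfg :=
    ⟨[(0, 2), (4, 2)], [(false, []), (false, []), (false, []), (false, [([.ofNat 20, .ofNat 0,
      .negSucc 19, .ofNat 0], [.negSucc 239, .ofNat 220, .ofNat 20, .ofNat 2, .negSucc 4,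
      .negSucc 9, .ofNat 0, .ofNat 2])]), (false, [([.ofNat 40, .ofNat 20, .ofNat 0, .negSucc 19,
      .negSucc 39], [.ofNat 0, .ofNat 0, .ofNat 0, .ofNat 0, .ofNat 1, .negSucc 2, .ofNat 0,
      .ofNat 0])]), (true, []), (false, [([.ofNat 720, .ofNat 0, .ofNat 140, .ofNat 280,
      .negSucc 539, .ofNat 80, .negSucc 19], [.ofNat 0, .ofNat 0, .ofNat 120, .ofNat 12, .ofNat 5,
      .ofNat 0, .ofNat 0, .ofNat 0])]), (false, [([.ofNat 5, .negSucc 49, .ofNat 0, .ofNat 0,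
      .negSucc 14, .ofNat 50, .negSucc 4, .ofNat 0], [.ofNat 5, .negSucc 14, .negSucc 4,
      .negSucc 0, .ofNat 0, .ofNat 0, .ofNat 0, .ofNat 0])]), (false, [([.ofNat 1, .ofNat 1,
      .ofNat 1, .ofNat 0, .ofNat 1, .ofNat 1, .ofNat 1, .ofNat 1, .ofNat 1], [.negSucc 0,
      .negSucc 0, .ofNat 1, .ofNat 0, .ofNat 0, .ofNat 0, .ofNat 0, .ofNat 0])]), (true, [])]⟩

lemma e04_7_ok : okE dt e04_7 = true := by decide +kernel

/-- a fibre -/
def e04_8 : Cfg :=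
    ⟨[(0, 2), (4, 3)], [(false, []), (false, []), (false, [([.ofNat 5400, .negSucc 719, .negSucc 399],
      [.negSucc 9839, .ofNat 5580, .ofNat 2740, .ofNat 66, .negSucc 179, .negSucc 334, .ofNat 0,
      .ofNat 122, .ofNat 8])]), (false, [([.ofNat 20, .ofNat 0, .negSucc 19, .ofNat 0],
      [.negSucc 239, .ofNat 220, .ofNat 20, .ofNat 2, .negSucc 4, .negSucc 9, .ofNat 0, .ofNat 2,
      .ofNat 0])]), (false, [([.ofNat 40, .ofNat 20, .ofNat 0, .negSucc 19, .negSucc 39],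
      [.ofNat 0, .ofNat 0, .ofNat 0, .ofNat 0, .ofNat 1, .negSucc 2, .ofNat 0, .ofNat 0,
      .ofNat 0])]), (true, []), (false, [([.ofNat 720, .ofNat 0, .ofNat 140, .ofNat 280,
      .negSucc 539, .ofNat 80, .negSucc 19], [.ofNat 0, .ofNat 0, .ofNat 120, .ofNat 12, .ofNat 5,
      .ofNat 0, .ofNat 0, .ofNat 0, .ofNat 0])]), (false, [([.ofNat 5, .negSucc 49, .ofNat 0,
      .ofNat 0, .negSucc 14, .ofNat 50, .negSucc 4, .ofNat 0], [.ofNat 5, .negSucc 14, .negSucc 4,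
      .negSucc 0, .ofNat 0, .ofNat 0, .ofNat 0, .ofNat 0, .ofNat 0])]), (false, [([.ofNat 1,
      .ofNat 1, .ofNat 1, .ofNat 0, .ofNat 1, .ofNat 1, .ofNat 1, .ofNat 1, .ofNat 1],
      [.negSucc 0, .negSucc 0, .ofNat 1, .ofNat 0, .ofNat 0, .ofNat 0, .ofNat 0, .ofNat 0,
      .ofNat 0])]), (true, [])]⟩

lemma e04_8_ok : okE dt e04_8 = true := by decide +kernel

/-- a fibre -/
def e04_9 : Cfg :=
    ⟨[(0, 2), (4, 4)], [(false, []), (false, [([.ofNat 2160, .ofNat 1000], [.ofNat 13680,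
      .negSucc 11739, .negSucc 1779, .negSucc 125, .ofNat 270, .ofNat 565, .ofNat 0, .negSucc 149,
      .negSucc 1, .ofNat 2])]), (false, [([.ofNat 5400, .negSucc 719, .negSucc 399],
      [.negSucc 9839, .ofNat 5580, .ofNat 2740, .ofNat 66, .negSucc 179, .negSucc 334, .ofNat 0,
      .ofNat 122, .ofNat 8, .ofNat 0])]), (false, [([.ofNat 20, .ofNat 0, .negSucc 19, .ofNat 0],
      [.negSucc 239, .ofNat 220, .ofNat 20, .ofNat 2, .negSucc 4, .negSucc 9, .ofNat 0, .ofNat 2,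
      .ofNat 0, .ofNat 0])]), (false, [([.ofNat 40, .ofNat 20, .ofNat 0, .negSucc 19,
      .negSucc 39], [.ofNat 0, .ofNat 0, .ofNat 0, .ofNat 0, .ofNat 1, .negSucc 2, .ofNat 0,
      .ofNat 0, .ofNat 0, .ofNat 0])]), (true, []), (false, [([.ofNat 720, .ofNat 0, .ofNat 140,
      .ofNat 280, .negSucc 539, .ofNat 80, .negSucc 19], [.ofNat 0, .ofNat 0, .ofNat 120,
      .ofNat 12, .ofNat 5, .ofNat 0, .ofNat 0, .ofNat 0, .ofNat 0, .ofNat 0])]), (false,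
      [([.ofNat 5, .negSucc 49, .ofNat 0, .ofNat 0, .negSucc 14, .ofNat 50, .negSucc 4, .ofNat 0],
      [.ofNat 5, .negSucc 14, .negSucc 4, .negSucc 0, .ofNat 0, .ofNat 0, .ofNat 0, .ofNat 0,
      .ofNat 0, .ofNat 0])]), (false, [([.ofNat 1, .ofNat 1, .ofNat 1, .ofNat 0, .ofNat 1,
      .ofNat 1, .ofNat 1, .ofNat 1, .ofNat 1], [.negSucc 0, .negSucc 0, .ofNat 1, .ofNat 0,
      .ofNat 0, .ofNat 0, .ofNat 0, .ofNat 0, .ofNat 0, .ofNat 0])]), (true, [])]⟩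

lemma e04_9_ok : okE dt e04_9 = true := by decide +kernel

/-- a fibre -/
def e04_10 : Cfg :=
    ⟨[(0, 3), (4, 1)], [(false, []), (false, []), (false, []), (false, [([.ofNat 140, .ofNat 5400,
      .negSucc 859, .negSucc 399], [.negSucc 1119, .negSucc 1919, .ofNat 1520, .negSucc 55,
      .ofNat 8, .ofNat 25, .negSucc 24, .ofNat 0])]), (false, [([.ofNat 500, .ofNat 40,
      .negSucc 8099, .ofNat 1040, .ofNat 100], [.ofNat 1680, .ofNat 2880, .negSucc 2279,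
      .ofNat 84, .negSucc 11, .negSucc 24, .ofNat 0, .ofNat 0])]), (true, []), (false,
      [([.ofNat 300, .ofNat 0, .ofNat 100, .ofNat 120, .negSucc 899, .ofNat 120, .ofNat 0],
      [.ofNat 140, .ofNat 240, .negSucc 139, .ofNat 12, .negSucc 0, .ofNat 0, .ofNat 0,
      .ofNat 0])]), (false, [([.ofNat 5, .negSucc 49, .ofNat 0, .ofNat 0, .negSucc 14, .ofNat 50,
      .negSucc 4, .ofNat 0], [.ofNat 5, .negSucc 14, .negSucc 4, .negSucc 0, .ofNat 0, .ofNat 0,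
      .ofNat 0, .ofNat 0])]), (false, [([.ofNat 1, .ofNat 1, .ofNat 1, .ofNat 0, .ofNat 1,
      .ofNat 1, .ofNat 1, .ofNat 1, .ofNat 1], [.negSucc 0, .negSucc 0, .ofNat 1, .ofNat 0,
      .ofNat 0, .ofNat 0, .ofNat 0, .ofNat 0])]), (true, [])]⟩

lemma e04_10_ok : okE dt e04_10 = true := by decide +kernel

/-- a fibre -/
def e04_11 : Cfg :=
    ⟨[(0, 3), (4, 2)], [(false, []), (false, []), (false, [([.ofNat 5400, .negSucc 719, .negSucc 399],
      [.ofNat 560, .negSucc 3459, .ofNat 1380, .negSucc 69, .ofNat 8, .ofNat 60, .ofNat 45,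
      .ofNat 0, .negSucc 13])]), (false, [([.ofNat 140, .ofNat 5400, .negSucc 859, .negSucc 399],
      [.negSucc 1119, .negSucc 1919, .ofNat 1520, .negSucc 55, .ofNat 8, .ofNat 25, .negSucc 24,
      .ofNat 0, .ofNat 0])]), (false, [([.ofNat 500, .ofNat 40, .negSucc 8099, .ofNat 1040,
      .ofNat 100], [.ofNat 1680, .ofNat 2880, .negSucc 2279, .ofNat 84, .negSucc 11, .negSucc 24,
      .ofNat 0, .ofNat 0, .ofNat 0])]), (true, []), (false, [([.ofNat 300, .ofNat 0, .ofNat 100,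
      .ofNat 120, .negSucc 899, .ofNat 120, .ofNat 0], [.ofNat 140, .ofNat 240, .negSucc 139,
      .ofNat 12, .negSucc 0, .ofNat 0, .ofNat 0, .ofNat 0, .ofNat 0])]), (false, [([.ofNat 5,
      .negSucc 49, .ofNat 0, .ofNat 0, .negSucc 14, .ofNat 50, .negSucc 4, .ofNat 0], [.ofNat 5,
      .negSucc 14, .negSucc 4, .negSucc 0, .ofNat 0, .ofNat 0, .ofNat 0, .ofNat 0, .ofNat 0])]),
      (false, [([.ofNat 1, .ofNat 1, .ofNat 1, .ofNat 0, .ofNat 1, .ofNat 1, .ofNat 1, .ofNat 1,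
      .ofNat 1], [.negSucc 0, .negSucc 0, .ofNat 1, .ofNat 0, .ofNat 0, .ofNat 0, .ofNat 0,
      .ofNat 0, .ofNat 0])]), (true, [])]⟩

lemma e04_11_ok : okE dt e04_11 = true := by decide +kernel

/-- a fibre -/
def e04_12 : Cfg :=
    ⟨[(0, 3), (4, 3)], [(false, []), (false, []), (false, [([.ofNat 5400, .negSucc 719, .negSucc 399],
      [.ofNat 560, .negSucc 3459, .ofNat 1380, .negSucc 69, .ofNat 8, .ofNat 60, .ofNat 45,
      .ofNat 0, .negSucc 13, .ofNat 0])]), (false, [([.ofNat 140, .ofNat 5400, .negSucc 859,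
      .negSucc 399], [.negSucc 1119, .negSucc 1919, .ofNat 1520, .negSucc 55, .ofNat 8, .ofNat 25,
      .negSucc 24, .ofNat 0, .ofNat 0, .ofNat 0])]), (false, [([.ofNat 500, .ofNat 40,
      .negSucc 8099, .ofNat 1040, .ofNat 100], [.ofNat 1680, .ofNat 2880, .negSucc 2279,
      .ofNat 84, .negSucc 11, .negSucc 24, .ofNat 0, .ofNat 0, .ofNat 0, .ofNat 0])]), (true, []),
      (false, [([.ofNat 300, .ofNat 0, .ofNat 100, .ofNat 120, .negSucc 899, .ofNat 120,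
      .ofNat 0], [.ofNat 140, .ofNat 240, .negSucc 139, .ofNat 12, .negSucc 0, .ofNat 0, .ofNat 0,
      .ofNat 0, .ofNat 0, .ofNat 0])]), (false, [([.ofNat 5, .negSucc 49, .ofNat 0, .ofNat 0,
      .negSucc 14, .ofNat 50, .negSucc 4, .ofNat 0], [.ofNat 5, .negSucc 14, .negSucc 4,
      .negSucc 0, .ofNat 0, .ofNat 0, .ofNat 0, .ofNat 0, .ofNat 0, .ofNat 0])]), (false,
      [([.ofNat 1, .ofNat 1, .ofNat 1, .ofNat 0, .ofNat 1, .ofNat 1, .ofNat 1, .ofNat 1,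
      .ofNat 1], [.negSucc 0, .negSucc 0, .ofNat 1, .ofNat 0, .ofNat 0, .ofNat 0, .ofNat 0,
      .ofNat 0, .ofNat 0, .ofNat 0])]), (true, [])]⟩

lemma e04_12_ok : okE dt e04_12 = true := by decide +kernel

/-- a fibre -/
def e04_13 : Cfg :=
    ⟨[(0, 3), (4, 4)], [(false, []), (false, [([.ofNat 1080, .ofNat 500], [.ofNat 5540, .negSucc 4739,
      .negSucc 719, .negSucc 45, .negSucc 0, .ofNat 105, .ofNat 235, .ofNat 0, .negSucc 57,
      .ofNat 0, .ofNat 1])]), (false, [([.ofNat 5400, .negSucc 719, .negSucc 399], [.ofNat 560,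
      .negSucc 3459, .ofNat 1380, .negSucc 69, .ofNat 8, .ofNat 60, .ofNat 45, .ofNat 0,
      .negSucc 13, .ofNat 0, .ofNat 0])]), (false, [([.ofNat 140, .ofNat 5400, .negSucc 859,
      .negSucc 399], [.negSucc 1119, .negSucc 1919, .ofNat 1520, .negSucc 55, .ofNat 8, .ofNat 25,
      .negSucc 24, .ofNat 0, .ofNat 0, .ofNat 0, .ofNat 0])]), (false, [([.ofNat 500, .ofNat 40,
      .negSucc 8099, .ofNat 1040, .ofNat 100], [.ofNat 1680, .ofNat 2880, .negSucc 2279,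
      .ofNat 84, .negSucc 11, .negSucc 24, .ofNat 0, .ofNat 0, .ofNat 0, .ofNat 0, .ofNat 0])]),
      (true, []), (false, [([.ofNat 300, .ofNat 0, .ofNat 100, .ofNat 120, .negSucc 899,
      .ofNat 120, .ofNat 0], [.ofNat 140, .ofNat 240, .negSucc 139, .ofNat 12, .negSucc 0,
      .ofNat 0, .ofNat 0, .ofNat 0, .ofNat 0, .ofNat 0, .ofNat 0])]), (false, [([.ofNat 5,
      .negSucc 49, .ofNat 0, .ofNat 0, .negSucc 14, .ofNat 50, .negSucc 4, .ofNat 0], [.ofNat 5,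
      .negSucc 14, .negSucc 4, .negSucc 0, .ofNat 0, .ofNat 0, .ofNat 0, .ofNat 0, .ofNat 0,
      .ofNat 0, .ofNat 0])]), (false, [([.ofNat 1, .ofNat 1, .ofNat 1, .ofNat 0, .ofNat 1,
      .ofNat 1, .ofNat 1, .ofNat 1, .ofNat 1], [.negSucc 0, .negSucc 0, .ofNat 1, .ofNat 0,
      .ofNat 0, .ofNat 0, .ofNat 0, .ofNat 0, .ofNat 0, .ofNat 0, .ofNat 0])]), (true, [])]⟩

lemma e04_13_ok : okE dt e04_13 = true := by decide +kernel

/-- a fibre -/
def e04_14 : Cfg :=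
    ⟨[(0, 4), (4, 1)], [(false, []), (false, []), (false, [([.ofNat 54000, .negSucc 14759,
      .negSucc 7499], [.negSucc 15679, .negSucc 14159, .ofNat 14080, .negSucc 643, .ofNat 94,
      .ofNat 7, .ofNat 180, .negSucc 739, .ofNat 0])]), (false, [([.ofNat 2960, .ofNat 75600,
      .negSucc 7639, .negSucc 3099], [.negSucc 12479, .negSucc 30479, .ofNat 22080, .negSucc 723,
      .ofNat 102, .negSucc 4, .ofNat 400, .ofNat 0, .ofNat 0])]), (false, [([.ofNat 1600,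
      .ofNat 720, .negSucc 10799, .ofNat 1800, .negSucc 299], [.ofNat 2880, .ofNat 3120,
      .negSucc 2879, .ofNat 124, .negSucc 17, .negSucc 0, .ofNat 0, .ofNat 0, .ofNat 0])]), (true,
      []), (false, [([.ofNat 300, .ofNat 0, .ofNat 100, .ofNat 120, .negSucc 899, .ofNat 120,
      .ofNat 0], [.ofNat 140, .ofNat 240, .negSucc 139, .ofNat 12, .negSucc 0, .ofNat 0, .ofNat 0,
      .ofNat 0, .ofNat 0])]), (false, [([.ofNat 5, .negSucc 49, .ofNat 0, .ofNat 0, .negSucc 14,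
      .ofNat 50, .negSucc 4, .ofNat 0], [.ofNat 5, .negSucc 14, .negSucc 4, .negSucc 0, .ofNat 0,
      .ofNat 0, .ofNat 0, .ofNat 0, .ofNat 0])]), (false, [([.ofNat 1, .ofNat 1, .ofNat 1,
      .ofNat 0, .ofNat 1, .ofNat 1, .ofNat 1, .ofNat 1, .ofNat 1], [.negSucc 0, .negSucc 0,
      .ofNat 1, .ofNat 0, .ofNat 0, .ofNat 0, .ofNat 0, .ofNat 0, .ofNat 0])]), (true, [])]⟩

lemma e04_14_ok : okE dt e04_14 = true := by decide +kernel

/-- a fibre -/
def e04_15 : Cfg :=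
    ⟨[(0, 4), (4, 2)], [(false, []), (false, [([.ofNat 1080, .ofNat 500], [.ofNat 3040, .negSucc 2919,
      .negSucc 39, .negSucc 7, .negSucc 1, .negSucc 0, .ofNat 60, .ofNat 170, .ofNat 0,
      .negSucc 19])]), (false, [([.ofNat 54000, .negSucc 14759, .negSucc 7499], [.negSucc 15679,
      .negSucc 14159, .ofNat 14080, .negSucc 643, .ofNat 94, .ofNat 7, .ofNat 180, .negSucc 739,
      .ofNat 0, .ofNat 0])]), (false, [([.ofNat 2960, .ofNat 75600, .negSucc 7639, .negSucc 3099],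
      [.negSucc 12479, .negSucc 30479, .ofNat 22080, .negSucc 723, .ofNat 102, .negSucc 4,
      .ofNat 400, .ofNat 0, .ofNat 0, .ofNat 0])]), (false, [([.ofNat 1600, .ofNat 720,
      .negSucc 10799, .ofNat 1800, .negSucc 299], [.ofNat 2880, .ofNat 3120, .negSucc 2879,
      .ofNat 124, .negSucc 17, .negSucc 0, .ofNat 0, .ofNat 0, .ofNat 0, .ofNat 0])]), (true, []),
      (false, [([.ofNat 300, .ofNat 0, .ofNat 100, .ofNat 120, .negSucc 899, .ofNat 120,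
      .ofNat 0], [.ofNat 140, .ofNat 240, .negSucc 139, .ofNat 12, .negSucc 0, .ofNat 0, .ofNat 0,
      .ofNat 0, .ofNat 0, .ofNat 0])]), (false, [([.ofNat 5, .negSucc 49, .ofNat 0, .ofNat 0,
      .negSucc 14, .ofNat 50, .negSucc 4, .ofNat 0], [.ofNat 5, .negSucc 14, .negSucc 4,
      .negSucc 0, .ofNat 0, .ofNat 0, .ofNat 0, .ofNat 0, .ofNat 0, .ofNat 0])]), (false,
      [([.ofNat 1, .ofNat 1, .ofNat 1, .ofNat 0, .ofNat 1, .ofNat 1, .ofNat 1, .ofNat 1,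
      .ofNat 1], [.negSucc 0, .negSucc 0, .ofNat 1, .ofNat 0, .ofNat 0, .ofNat 0, .ofNat 0,
      .ofNat 0, .ofNat 0, .ofNat 0])]), (true, [])]⟩

lemma e04_15_ok : okE dt e04_15 = true := by decide +kernel

/-- a fibre -/
def e04_16 : Cfg :=
    ⟨[(0, 4), (4, 3)], [(false, []), (false, [([.ofNat 1080, .ofNat 500], [.ofNat 3040, .negSucc 2919,
      .negSucc 39, .negSucc 7, .negSucc 1, .negSucc 0, .ofNat 60, .ofNat 170, .ofNat 0,
      .negSucc 19, .ofNat 0])]), (false, [([.ofNat 54000, .negSucc 14759, .negSucc 7499],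
      [.negSucc 15679, .negSucc 14159, .ofNat 14080, .negSucc 643, .ofNat 94, .ofNat 7,
      .ofNat 180, .negSucc 739, .ofNat 0, .ofNat 0, .ofNat 0])]), (false, [([.ofNat 2960,
      .ofNat 75600, .negSucc 7639, .negSucc 3099], [.negSucc 12479, .negSucc 30479, .ofNat 22080,
      .negSucc 723, .ofNat 102, .negSucc 4, .ofNat 400, .ofNat 0, .ofNat 0, .ofNat 0,
      .ofNat 0])]), (false, [([.ofNat 1600, .ofNat 720, .negSucc 10799, .ofNat 1800,
      .negSucc 299], [.ofNat 2880, .ofNat 3120, .negSucc 2879, .ofNat 124, .negSucc 17,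
      .negSucc 0, .ofNat 0, .ofNat 0, .ofNat 0, .ofNat 0, .ofNat 0])]), (true, []), (false,
      [([.ofNat 300, .ofNat 0, .ofNat 100, .ofNat 120, .negSucc 899, .ofNat 120, .ofNat 0],
      [.ofNat 140, .ofNat 240, .negSucc 139, .ofNat 12, .negSucc 0, .ofNat 0, .ofNat 0, .ofNat 0,
      .ofNat 0, .ofNat 0, .ofNat 0])]), (false, [([.ofNat 5, .negSucc 49, .ofNat 0, .ofNat 0,
      .negSucc 14, .ofNat 50, .negSucc 4, .ofNat 0], [.ofNat 5, .negSucc 14, .negSucc 4,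
      .negSucc 0, .ofNat 0, .ofNat 0, .ofNat 0, .ofNat 0, .ofNat 0, .ofNat 0, .ofNat 0])]),
      (false, [([.ofNat 1, .ofNat 1, .ofNat 1, .ofNat 0, .ofNat 1, .ofNat 1, .ofNat 1, .ofNat 1,
      .ofNat 1], [.negSucc 0, .negSucc 0, .ofNat 1, .ofNat 0, .ofNat 0, .ofNat 0, .ofNat 0,
      .ofNat 0, .ofNat 0, .ofNat 0, .ofNat 0])]), (true, [])]⟩

lemma e04_16_ok : okE dt e04_16 = true := by decide +kernel

/-- a fibre -/
def e04_17 : Cfg :=
    ⟨[(0, 4), (4, 4)], [(false, []), (false, [([.ofNat 1080, .ofNat 500], [.ofNat 3040, .negSucc 2919,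
      .negSucc 39, .negSucc 7, .negSucc 1, .negSucc 0, .ofNat 60, .ofNat 170, .ofNat 0,
      .negSucc 19, .ofNat 0, .ofNat 0])]), (false, [([.ofNat 54000, .negSucc 14759,
      .negSucc 7499], [.negSucc 15679, .negSucc 14159, .ofNat 14080, .negSucc 643, .ofNat 94,
      .ofNat 7, .ofNat 180, .negSucc 739, .ofNat 0, .ofNat 0, .ofNat 0, .ofNat 0])]), (false,
      [([.ofNat 2960, .ofNat 75600, .negSucc 7639, .negSucc 3099], [.negSucc 12479,
      .negSucc 30479, .ofNat 22080, .negSucc 723, .ofNat 102, .negSucc 4, .ofNat 400, .ofNat 0,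
      .ofNat 0, .ofNat 0, .ofNat 0, .ofNat 0])]), (false, [([.ofNat 1600, .ofNat 720,
      .negSucc 10799, .ofNat 1800, .negSucc 299], [.ofNat 2880, .ofNat 3120, .negSucc 2879,
      .ofNat 124, .negSucc 17, .negSucc 0, .ofNat 0, .ofNat 0, .ofNat 0, .ofNat 0, .ofNat 0,
      .ofNat 0])]), (true, []), (false, [([.ofNat 300, .ofNat 0, .ofNat 100, .ofNat 120,
      .negSucc 899, .ofNat 120, .ofNat 0], [.ofNat 140, .ofNat 240, .negSucc 139, .ofNat 12,
      .negSucc 0, .ofNat 0, .ofNat 0, .ofNat 0, .ofNat 0, .ofNat 0, .ofNat 0, .ofNat 0])]),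
      (false, [([.ofNat 5, .negSucc 49, .ofNat 0, .ofNat 0, .negSucc 14, .ofNat 50, .negSucc 4,
      .ofNat 0], [.ofNat 5, .negSucc 14, .negSucc 4, .negSucc 0, .ofNat 0, .ofNat 0, .ofNat 0,
      .ofNat 0, .ofNat 0, .ofNat 0, .ofNat 0, .ofNat 0])]), (false, [([.ofNat 1, .ofNat 1,
      .ofNat 1, .ofNat 0, .ofNat 1, .ofNat 1, .ofNat 1, .ofNat 1, .ofNat 1], [.negSucc 0,
      .negSucc 0, .ofNat 1, .ofNat 0, .ofNat 0, .ofNat 0, .ofNat 0, .ofNat 0, .ofNat 0, .ofNat 0,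
      .ofNat 0, .ofNat 0])]), (true, [])]⟩

lemma e04_17_ok : okE dt e04_17 = true := by decide +kernel

/-- a fibre -/
def e04_18 : Cfg :=
    ⟨[(0, 5), (4, 1)], [(false, []), (false, [([.ofNat 73440, .ofNat 39000], [.ofNat 26720,
      .negSucc 26159, .ofNat 19680, .ofNat 1016, .negSucc 165, .negSucc 77, .ofNat 5, .ofNat 180,
      .ofNat 5260, .ofNat 0])]), (false, [([.ofNat 2840400, .negSucc 232919, .negSucc 105899],
      [.negSucc 627039, .negSucc 938399, .ofNat 886240, .negSucc 26355, .ofNat 3716, .negSucc 208,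
      .ofNat 37, .ofNat 10800, .ofNat 0, .ofNat 0])]), (false, [([.ofNat 2160, .negSucc 21599,
      .ofNat 720, .ofNat 600], [.ofNat 7840, .ofNat 3120, .negSucc 7839, .ofNat 184, .negSucc 25,
      .ofNat 2, .negSucc 0, .ofNat 0, .ofNat 0, .ofNat 0])]), (false, [([.ofNat 1600, .ofNat 720,
      .negSucc 10799, .ofNat 1800, .negSucc 299], [.ofNat 2880, .ofNat 3120, .negSucc 2879,
      .ofNat 124, .negSucc 17, .negSucc 0, .ofNat 0, .ofNat 0, .ofNat 0, .ofNat 0])]), (true, []),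
      (false, [([.ofNat 300, .ofNat 0, .ofNat 100, .ofNat 120, .negSucc 899, .ofNat 120,
      .ofNat 0], [.ofNat 140, .ofNat 240, .negSucc 139, .ofNat 12, .negSucc 0, .ofNat 0, .ofNat 0,
      .ofNat 0, .ofNat 0, .ofNat 0])]), (false, [([.ofNat 5, .negSucc 49, .ofNat 0, .ofNat 0,
      .negSucc 14, .ofNat 50, .negSucc 4, .ofNat 0], [.ofNat 5, .negSucc 14, .negSucc 4,
      .negSucc 0, .ofNat 0, .ofNat 0, .ofNat 0, .ofNat 0, .ofNat 0, .ofNat 0])]), (false,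
      [([.ofNat 1, .ofNat 1, .ofNat 1, .ofNat 0, .ofNat 1, .ofNat 1, .ofNat 1, .ofNat 1,
      .ofNat 1], [.negSucc 0, .negSucc 0, .ofNat 1, .ofNat 0, .ofNat 0, .ofNat 0, .ofNat 0,
      .ofNat 0, .ofNat 0, .ofNat 0])]), (true, [])]⟩

lemma e04_18_ok : okE dt e04_18 = true := by decide +kernel

/-- a fibre -/
def e04_19 : Cfg :=
    ⟨[(0, 6), (4, 1)], [(false, []), (false, [([.ofNat 2129760, .ofNat 1131000], [.negSucc 5705439,
      .ofNat 9277440, .ofNat 2422240, .ofNat 75752, .negSucc 1131, .negSucc 3313, .ofNat 934,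
      .negSucc 262, .negSucc 136799, .ofNat 0, .ofNat 0])]), (false, [([.ofNat 410400,
      .negSucc 9359, .negSucc 2399], [.negSucc 155679, .negSucc 29759, .ofNat 155680,
      .negSucc 2943, .ofNat 524, .negSucc 67, .ofNat 16, .negSucc 2, .ofNat 0, .ofNat 0,
      .ofNat 0])]), (false, [([.ofNat 2160, .negSucc 21599, .ofNat 720, .ofNat 600], [.ofNat 7840,
      .ofNat 3120, .negSucc 7839, .ofNat 184, .negSucc 25, .ofNat 2, .negSucc 0, .ofNat 0,
      .ofNat 0, .ofNat 0, .ofNat 0])]), (false, [([.ofNat 1600, .ofNat 720, .negSucc 10799,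
      .ofNat 1800, .negSucc 299], [.ofNat 2880, .ofNat 3120, .negSucc 2879, .ofNat 124,
      .negSucc 17, .negSucc 0, .ofNat 0, .ofNat 0, .ofNat 0, .ofNat 0, .ofNat 0])]), (true, []),
      (false, [([.ofNat 300, .ofNat 0, .ofNat 100, .ofNat 120, .negSucc 899, .ofNat 120,
      .ofNat 0], [.ofNat 140, .ofNat 240, .negSucc 139, .ofNat 12, .negSucc 0, .ofNat 0, .ofNat 0,
      .ofNat 0, .ofNat 0, .ofNat 0, .ofNat 0])]), (false, [([.ofNat 5, .negSucc 49, .ofNat 0,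
      .ofNat 0, .negSucc 14, .ofNat 50, .negSucc 4, .ofNat 0], [.ofNat 5, .negSucc 14, .negSucc 4,
      .negSucc 0, .ofNat 0, .ofNat 0, .ofNat 0, .ofNat 0, .ofNat 0, .ofNat 0, .ofNat 0])]),
      (false, [([.ofNat 1, .ofNat 1, .ofNat 1, .ofNat 0, .ofNat 1, .ofNat 1, .ofNat 1, .ofNat 1,
      .ofNat 1], [.negSucc 0, .negSucc 0, .ofNat 1, .ofNat 0, .ofNat 0, .ofNat 0, .ofNat 0,
      .ofNat 0, .ofNat 0, .ofNat 0, .ofNat 0])]), (true, [])]⟩

lemma e04_19_ok : okE dt e04_19 = true := by decide +kernel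

/-- the fibres with solutions -/
def E04 : List Cfg := [
    e04_0, e04_1, e04_2, e04_3, e04_4, e04_5, e04_6, e04_7, e04_8, e04_9, e04_10, e04_11, e04_12,
    e04_13, e04_14, e04_15, e04_16, e04_17, e04_18, e04_19]

/-- the fibres without solutions -/
def Z04 : List Cfg := [
    ⟨[(0, 1), (4, 7)], [(false, [([.ofNat 464000], [.ofNat 552960, .negSucc 1225279, .ofNat 482880,
      .ofNat 25920, .ofNat 15040, .ofNat 0, .ofNat 384, .negSucc 2891, .negSucc 255, .ofNat 316,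
      .ofNat 0, .negSucc 36])]), (false, [([.ofNat 79920, .ofNat 16000], [.negSucc 149039,
      .ofNat 128000, .negSucc 35199, .negSucc 3239, .negSucc 1879, .ofNat 0, .negSucc 47,
      .ofNat 10, .ofNat 32, .negSucc 20, .ofNat 0, .ofNat 0])]), (false, [([.ofNat 56700,
      .ofNat 4320, .ofNat 1300], [.negSucc 28079, .negSucc 5979, .ofNat 18980, .negSucc 404,
      .negSucc 409, .ofNat 0, .ofNat 456, .ofNat 73, .ofNat 11, .ofNat 0, .ofNat 0, .ofNat 0])]),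
      (false, [([.ofNat 660, .negSucc 5399, .ofNat 60, .ofNat 400], [.ofNat 1920, .ofNat 1680,
      .negSucc 2079, .ofNat 15, .ofNat 5, .ofNat 0, .negSucc 55, .negSucc 7, .ofNat 0, .ofNat 0,
      .ofNat 0, .ofNat 0])]), (false, [([.ofNat 40, .ofNat 20, .ofNat 0, .negSucc 19,
      .negSucc 39], [.ofNat 0, .ofNat 0, .ofNat 0, .ofNat 1, .negSucc 2, .ofNat 0, .ofNat 0,
      .ofNat 0, .ofNat 0, .ofNat 0, .ofNat 0, .ofNat 0])]), (true, []), (false, [([.ofNat 720,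
      .ofNat 0, .ofNat 940, .ofNat 560, .negSucc 539, .negSucc 199, .negSucc 819], [.ofNat 1440,
      .negSucc 1319, .ofNat 0, .ofNat 55, .ofNat 0, .ofNat 0, .negSucc 11, .ofNat 0, .ofNat 0,
      .ofNat 0, .ofNat 0, .ofNat 0])]), (false, [([.ofNat 12, .ofNat 24, .ofNat 0, .ofNat 28,
      .ofNat 20, .ofNat 12, .ofNat 4, .negSucc 3], [.ofNat 12, .negSucc 35, .ofNat 12, .ofNat 1,
      .ofNat 0, .ofNat 0, .ofNat 0, .ofNat 0, .ofNat 0, .ofNat 0, .ofNat 0, .ofNat 0])]), (false,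
      [([.ofNat 1, .ofNat 1, .ofNat 1, .ofNat 0, .ofNat 1, .ofNat 1, .ofNat 1, .ofNat 1,
      .ofNat 1], [.negSucc 0, .negSucc 0, .ofNat 1, .ofNat 0, .ofNat 0, .ofNat 0, .ofNat 0,
      .ofNat 0, .ofNat 0, .ofNat 0, .ofNat 0, .ofNat 0])]), (true, [])]⟩,
    ⟨[(0, 2), (4, 5)], [(false, [([.ofNat 1000], [.ofNat 31200, .negSucc 26779, .negSucc 1459,
      .negSucc 221, .ofNat 630, .ofNat 1085, .ofNat 0, .negSucc 261, .negSucc 3, .ofNat 2,
      .ofNat 1])]), (false, [([.ofNat 2160, .ofNat 1000], [.ofNat 13680, .negSucc 11739,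
      .negSucc 1779, .negSucc 125, .ofNat 270, .ofNat 565, .ofNat 0, .negSucc 149, .negSucc 1,
      .ofNat 2, .ofNat 0])]), (false, [([.ofNat 5400, .negSucc 719, .negSucc 399], [.negSucc 9839,
      .ofNat 5580, .ofNat 2740, .ofNat 66, .negSucc 179, .negSucc 334, .ofNat 0, .ofNat 122,
      .ofNat 8, .ofNat 0, .ofNat 0])]), (false, [([.ofNat 20, .ofNat 0, .negSucc 19, .ofNat 0],
      [.negSucc 239, .ofNat 220, .ofNat 20, .ofNat 2, .negSucc 4, .negSucc 9, .ofNat 0, .ofNat 2,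
      .ofNat 0, .ofNat 0, .ofNat 0])]), (false, [([.ofNat 40, .ofNat 20, .ofNat 0, .negSucc 19,
      .negSucc 39], [.ofNat 0, .ofNat 0, .ofNat 0, .ofNat 0, .ofNat 1, .negSucc 2, .ofNat 0,
      .ofNat 0, .ofNat 0, .ofNat 0, .ofNat 0])]), (true, []), (false, [([.ofNat 720, .ofNat 0,
      .ofNat 140, .ofNat 280, .negSucc 539, .ofNat 80, .negSucc 19], [.ofNat 0, .ofNat 0,
      .ofNat 120, .ofNat 12, .ofNat 5, .ofNat 0, .ofNat 0, .ofNat 0, .ofNat 0, .ofNat 0,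
      .ofNat 0])]), (false, [([.ofNat 5, .negSucc 49, .ofNat 0, .ofNat 0, .negSucc 14, .ofNat 50,
      .negSucc 4, .ofNat 0], [.ofNat 5, .negSucc 14, .negSucc 4, .negSucc 0, .ofNat 0, .ofNat 0,
      .ofNat 0, .ofNat 0, .ofNat 0, .ofNat 0, .ofNat 0])]), (false, [([.ofNat 1, .ofNat 1,
      .ofNat 1, .ofNat 0, .ofNat 1, .ofNat 1, .ofNat 1, .ofNat 1, .ofNat 1], [.negSucc 0,
      .negSucc 0, .ofNat 1, .ofNat 0, .ofNat 0, .ofNat 0, .ofNat 0, .ofNat 0, .ofNat 0, .ofNat 0,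
      .ofNat 0])]), (true, [])]⟩,
    ⟨[(0, 5), (4, 2)], [(false, [([.ofNat 1000], [.negSucc 35999, .ofNat 34480, .ofNat 4480,
      .ofNat 312, .negSucc 5, .negSucc 1, .ofNat 1, .negSucc 779, .negSucc 1259, .ofNat 0,
      .ofNat 272])]), (false, [([.ofNat 73440, .ofNat 39000], [.ofNat 26720, .negSucc 26159,
      .ofNat 19680, .ofNat 1016, .negSucc 165, .negSucc 77, .ofNat 5, .ofNat 180, .ofNat 5260,
      .ofNat 0, .ofNat 0])]), (false, [([.ofNat 2840400, .negSucc 232919, .negSucc 105899],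
      [.negSucc 627039, .negSucc 938399, .ofNat 886240, .negSucc 26355, .ofNat 3716, .negSucc 208,
      .ofNat 37, .ofNat 10800, .ofNat 0, .ofNat 0, .ofNat 0])]), (false, [([.ofNat 2160,
      .negSucc 21599, .ofNat 720, .ofNat 600], [.ofNat 7840, .ofNat 3120, .negSucc 7839,
      .ofNat 184, .negSucc 25, .ofNat 2, .negSucc 0, .ofNat 0, .ofNat 0, .ofNat 0, .ofNat 0])]),
      (false, [([.ofNat 1600, .ofNat 720, .negSucc 10799, .ofNat 1800, .negSucc 299],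
      [.ofNat 2880, .ofNat 3120, .negSucc 2879, .ofNat 124, .negSucc 17, .negSucc 0, .ofNat 0,
      .ofNat 0, .ofNat 0, .ofNat 0, .ofNat 0])]), (true, []), (false, [([.ofNat 300, .ofNat 0,
      .ofNat 100, .ofNat 120, .negSucc 899, .ofNat 120, .ofNat 0], [.ofNat 140, .ofNat 240,
      .negSucc 139, .ofNat 12, .negSucc 0, .ofNat 0, .ofNat 0, .ofNat 0, .ofNat 0, .ofNat 0,
      .ofNat 0])]), (false, [([.ofNat 5, .negSucc 49, .ofNat 0, .ofNat 0, .negSucc 14, .ofNat 50,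
      .negSucc 4, .ofNat 0], [.ofNat 5, .negSucc 14, .negSucc 4, .negSucc 0, .ofNat 0, .ofNat 0,
      .ofNat 0, .ofNat 0, .ofNat 0, .ofNat 0, .ofNat 0])]), (false, [([.ofNat 1, .ofNat 1,
      .ofNat 1, .ofNat 0, .ofNat 1, .ofNat 1, .ofNat 1, .ofNat 1, .ofNat 1], [.negSucc 0,
      .negSucc 0, .ofNat 1, .ofNat 0, .ofNat 0, .ofNat 0, .ofNat 0, .ofNat 0, .ofNat 0, .ofNat 0,
      .ofNat 0])]), (true, [])]⟩,
    ⟨[(0, 7), (4, 1)], [(false, [([.ofNat 5046000], [.negSucc 17790079, .ofNat 12030720,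
      .ofNat 5175680, .negSucc 5167, .negSucc 24691, .ofNat 4652, .ofNat 3848, .negSucc 257,
      .negSucc 492, .negSucc 525599, .ofNat 0, .ofNat 0])]), (false, [([.ofNat 315360,
      .negSucc 26999], [.negSucc 159199, .ofNat 910080, .ofNat 159200, .ofNat 11416, .ofNat 784,
      .negSucc 669, .negSucc 9, .negSucc 28, .ofNat 19, .ofNat 0, .ofNat 0, .ofNat 0])]), (false,
      [([.ofNat 410400, .negSucc 9359, .negSucc 2399], [.negSucc 155679, .negSucc 29759,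
      .ofNat 155680, .negSucc 2943, .ofNat 524, .negSucc 67, .ofNat 16, .negSucc 2, .ofNat 0,
      .ofNat 0, .ofNat 0, .ofNat 0])]), (false, [([.ofNat 2160, .negSucc 21599, .ofNat 720,
      .ofNat 600], [.ofNat 7840, .ofNat 3120, .negSucc 7839, .ofNat 184, .negSucc 25, .ofNat 2,
      .negSucc 0, .ofNat 0, .ofNat 0, .ofNat 0, .ofNat 0, .ofNat 0])]), (false, [([.ofNat 1600,
      .ofNat 720, .negSucc 10799, .ofNat 1800, .negSucc 299], [.ofNat 2880, .ofNat 3120,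
      .negSucc 2879, .ofNat 124, .negSucc 17, .negSucc 0, .ofNat 0, .ofNat 0, .ofNat 0, .ofNat 0,
      .ofNat 0, .ofNat 0])]), (true, []), (false, [([.ofNat 300, .ofNat 0, .ofNat 100, .ofNat 120,
      .negSucc 899, .ofNat 120, .ofNat 0], [.ofNat 140, .ofNat 240, .negSucc 139, .ofNat 12,
      .negSucc 0, .ofNat 0, .ofNat 0, .ofNat 0, .ofNat 0, .ofNat 0, .ofNat 0, .ofNat 0])]),
      (false, [([.ofNat 5, .negSucc 49, .ofNat 0, .ofNat 0, .negSucc 14, .ofNat 50, .negSucc 4,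
      .ofNat 0], [.ofNat 5, .negSucc 14, .negSucc 4, .negSucc 0, .ofNat 0, .ofNat 0, .ofNat 0,
      .ofNat 0, .ofNat 0, .ofNat 0, .ofNat 0, .ofNat 0])]), (false, [([.ofNat 1, .ofNat 1,
      .ofNat 1, .ofNat 0, .ofNat 1, .ofNat 1, .ofNat 1, .ofNat 1, .ofNat 1], [.negSucc 0,
      .negSucc 0, .ofNat 1, .ofNat 0, .ofNat 0, .ofNat 0, .ofNat 0, .ofNat 0, .ofNat 0, .ofNat 0,
      .ofNat 0, .ofNat 0])]), (true, [])]⟩]

lemma E04_ok : E04.all (okE dt) = true := by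
  simp only [E04, List.all_cons, List.all_nil, Bool.and_self,
    e04_0_ok, e04_1_ok, e04_2_ok, e04_3_ok, e04_4_ok, e04_5_ok, e04_6_ok, e04_7_ok, e04_8_ok,
    e04_9_ok, e04_10_ok, e04_11_ok, e04_12_ok, e04_13_ok, e04_14_ok, e04_15_ok, e04_16_ok,
    e04_17_ok, e04_18_ok, e04_19_ok]

lemma Z04_ok : Z04.all (okZ dt) = true := by decide +kernel

lemma cov04 : (prods 2).all (fun a => cov E04 Z04 (([0, 4] : List (Fin 10)).zip a)) = true := by
  decide +kernel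

theorem typ04 : Typ dt [0, 4] E04 Z04 := ⟨E04_ok, Z04_ok, cov04, by decide +kernel⟩

/-- a fibre -/
def e05_0 : Cfg :=
    ⟨[(0, 1), (5, 1)], [(false, []), (false, []), (false, []), (false, []), (true, []), (false, []),
      (false, [([.ofNat 20, .ofNat 20, .ofNat 0, .ofNat 20, .ofNat 20, .ofNat 0, .ofNat 0],
      [.ofNat 0, .negSucc 19, .ofNat 10, .ofNat 1, .ofNat 0, .ofNat 1])]), (false, [([.ofNat 10,
      .ofNat 20, .ofNat 30, .ofNat 0, .ofNat 30, .ofNat 20, .ofNat 10, .ofNat 0], [.ofNat 10,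
      .negSucc 39, .ofNat 15, .ofNat 1, .ofNat 0, .ofNat 0])]), (false, [([.ofNat 1, .ofNat 1,
      .ofNat 1, .ofNat 1, .ofNat 0, .ofNat 1, .ofNat 1, .ofNat 1, .ofNat 1], [.negSucc 0,
      .negSucc 0, .ofNat 1, .ofNat 0, .ofNat 0, .ofNat 0])]), (true, [])]⟩

lemma e05_0_ok : okE dt e05_0 = true := by decide +kernel

/-- a fibre -/
def e05_1 : Cfg :=
    ⟨[(0, 1), (5, 2)], [(false, []), (false, []), (false, []), (false, []), (true, []), (false,
      [([.ofNat 120, .ofNat 0, .ofNat 120, .negSucc 19, .ofNat 200, .negSucc 59], [.ofNat 160,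
      .negSucc 259, .ofNat 55, .ofNat 1, .ofNat 0, .negSucc 11, .ofNat 2])]), (false,
      [([.ofNat 20, .ofNat 20, .ofNat 0, .ofNat 20, .ofNat 20, .ofNat 0, .ofNat 0], [.ofNat 0,
      .negSucc 19, .ofNat 10, .ofNat 1, .ofNat 0, .ofNat 1, .ofNat 0])]), (false, [([.ofNat 10,
      .ofNat 20, .ofNat 30, .ofNat 0, .ofNat 30, .ofNat 20, .ofNat 10, .ofNat 0], [.ofNat 10,
      .negSucc 39, .ofNat 15, .ofNat 1, .ofNat 0, .ofNat 0, .ofNat 0])]), (false, [([.ofNat 1,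
      .ofNat 1, .ofNat 1, .ofNat 1, .ofNat 0, .ofNat 1, .ofNat 1, .ofNat 1, .ofNat 1],
      [.negSucc 0, .negSucc 0, .ofNat 1, .ofNat 0, .ofNat 0, .ofNat 0, .ofNat 0])]), (true, [])]⟩

lemma e05_1_ok : okE dt e05_1 = true := by decide +kernel

/-- a fibre -/
def e05_2 : Cfg :=
    ⟨[(0, 1), (5, 3)], [(false, []), (false, []), (false, [([.ofNat 60, .negSucc 599, .ofNat 180],
      [.negSucc 319, .ofNat 340, .negSucc 324, .negSucc 14, .ofNat 0, .negSucc 23, .negSucc 5,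
      .negSucc 1])]), (false, []), (true, []), (false, [([.ofNat 120, .ofNat 0, .ofNat 120,
      .negSucc 19, .ofNat 200, .negSucc 59], [.ofNat 160, .negSucc 259, .ofNat 55, .ofNat 1,
      .ofNat 0, .negSucc 11, .ofNat 2, .ofNat 0])]), (false, [([.ofNat 20, .ofNat 20, .ofNat 0,
      .ofNat 20, .ofNat 20, .ofNat 0, .ofNat 0], [.ofNat 0, .negSucc 19, .ofNat 10, .ofNat 1,
      .ofNat 0, .ofNat 1, .ofNat 0, .ofNat 0])]), (false, [([.ofNat 10, .ofNat 20, .ofNat 30,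
      .ofNat 0, .ofNat 30, .ofNat 20, .ofNat 10, .ofNat 0], [.ofNat 10, .negSucc 39, .ofNat 15,
      .ofNat 1, .ofNat 0, .ofNat 0, .ofNat 0, .ofNat 0])]), (false, [([.ofNat 1, .ofNat 1,
      .ofNat 1, .ofNat 1, .ofNat 0, .ofNat 1, .ofNat 1, .ofNat 1, .ofNat 1], [.negSucc 0,
      .negSucc 0, .ofNat 1, .ofNat 0, .ofNat 0, .ofNat 0, .ofNat 0, .ofNat 0])]), (true, [])]⟩

lemma e05_2_ok : okE dt e05_2 = true := by decide +kernel

/-- a fibre -/
def e05_3 : Cfg :=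
    ⟨[(0, 1), (5, 4)], [(false, []), (false, []), (false, [([.ofNat 60, .negSucc 599, .ofNat 180],
      [.negSucc 319, .ofNat 340, .negSucc 324, .negSucc 14, .ofNat 0, .negSucc 23, .negSucc 5,
      .negSucc 1, .ofNat 0])]), (false, [([.ofNat 600, .negSucc 1539, .ofNat 1000, .negSucc 1499],
      [.ofNat 1920, .negSucc 2019, .ofNat 455, .ofNat 5, .ofNat 0, .negSucc 95, .ofNat 42,
      .ofNat 0, .negSucc 1])]), (true, []), (false, [([.ofNat 120, .ofNat 0, .ofNat 120,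
      .negSucc 19, .ofNat 200, .negSucc 59], [.ofNat 160, .negSucc 259, .ofNat 55, .ofNat 1,
      .ofNat 0, .negSucc 11, .ofNat 2, .ofNat 0, .ofNat 0])]), (false, [([.ofNat 20, .ofNat 20,
      .ofNat 0, .ofNat 20, .ofNat 20, .ofNat 0, .ofNat 0], [.ofNat 0, .negSucc 19, .ofNat 10,
      .ofNat 1, .ofNat 0, .ofNat 1, .ofNat 0, .ofNat 0, .ofNat 0])]), (false, [([.ofNat 10,
      .ofNat 20, .ofNat 30, .ofNat 0, .ofNat 30, .ofNat 20, .ofNat 10, .ofNat 0], [.ofNat 10,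
      .negSucc 39, .ofNat 15, .ofNat 1, .ofNat 0, .ofNat 0, .ofNat 0, .ofNat 0, .ofNat 0])]),
      (false, [([.ofNat 1, .ofNat 1, .ofNat 1, .ofNat 1, .ofNat 0, .ofNat 1, .ofNat 1, .ofNat 1,
      .ofNat 1], [.negSucc 0, .negSucc 0, .ofNat 1, .ofNat 0, .ofNat 0, .ofNat 0, .ofNat 0,
      .ofNat 0, .ofNat 0])]), (true, [])]⟩

lemma e05_3_ok : okE dt e05_3 = true := by decide +kernel

/-- a fibre -/
def e05_4 : Cfg :=
    ⟨[(0, 1), (5, 5)], [(false, []), (false, []), (false, [([.ofNat 60, .negSucc 599, .ofNat 180],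
      [.negSucc 319, .ofNat 340, .negSucc 324, .negSucc 14, .ofNat 0, .negSucc 23, .negSucc 5,
      .negSucc 1, .ofNat 0, .ofNat 0])]), (false, [([.ofNat 600, .negSucc 1539, .ofNat 1000,
      .negSucc 1499], [.ofNat 1920, .negSucc 2019, .ofNat 455, .ofNat 5, .ofNat 0, .negSucc 95,
      .ofNat 42, .ofNat 0, .negSucc 1, .ofNat 0])]), (true, []), (false, [([.ofNat 120, .ofNat 0,
      .ofNat 120, .negSucc 19, .ofNat 200, .negSucc 59], [.ofNat 160, .negSucc 259, .ofNat 55,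
      .ofNat 1, .ofNat 0, .negSucc 11, .ofNat 2, .ofNat 0, .ofNat 0, .ofNat 0])]), (false,
      [([.ofNat 20, .ofNat 20, .ofNat 0, .ofNat 20, .ofNat 20, .ofNat 0, .ofNat 0], [.ofNat 0,
      .negSucc 19, .ofNat 10, .ofNat 1, .ofNat 0, .ofNat 1, .ofNat 0, .ofNat 0, .ofNat 0,
      .ofNat 0])]), (false, [([.ofNat 10, .ofNat 20, .ofNat 30, .ofNat 0, .ofNat 30, .ofNat 20,
      .ofNat 10, .ofNat 0], [.ofNat 10, .negSucc 39, .ofNat 15, .ofNat 1, .ofNat 0, .ofNat 0,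
      .ofNat 0, .ofNat 0, .ofNat 0, .ofNat 0])]), (false, [([.ofNat 1, .ofNat 1, .ofNat 1,
      .ofNat 1, .ofNat 0, .ofNat 1, .ofNat 1, .ofNat 1, .ofNat 1], [.negSucc 0, .negSucc 0,
      .ofNat 1, .ofNat 0, .ofNat 0, .ofNat 0, .ofNat 0, .ofNat 0, .ofNat 0, .ofNat 0])]), (true,
      [])]⟩

lemma e05_4_ok : okE dt e05_4 = true := by decide +kernel

/-- a fibre -/
def e05_5 : Cfg :=
    ⟨[(0, 1), (5, 6)], [(false, []), (false, [([.ofNat 86400, .ofNat 3600], [.ofNat 23840,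
      .negSucc 31439, .ofNat 40260, .ofNat 1440, .ofNat 0, .ofNat 2988, .ofNat 520, .ofNat 240,
      .ofNat 20, .ofNat 0, .ofNat 1])]), (false, [([.ofNat 60, .negSucc 599, .ofNat 180],
      [.negSucc 319, .ofNat 340, .negSucc 324, .negSucc 14, .ofNat 0, .negSucc 23, .negSucc 5,
      .negSucc 1, .ofNat 0, .ofNat 0, .ofNat 0])]), (false, [([.ofNat 600, .negSucc 1539,
      .ofNat 1000, .negSucc 1499], [.ofNat 1920, .negSucc 2019, .ofNat 455, .ofNat 5, .ofNat 0,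
      .negSucc 95, .ofNat 42, .ofNat 0, .negSucc 1, .ofNat 0, .ofNat 0])]), (true, []), (false,
      [([.ofNat 120, .ofNat 0, .ofNat 120, .negSucc 19, .ofNat 200, .negSucc 59], [.ofNat 160,
      .negSucc 259, .ofNat 55, .ofNat 1, .ofNat 0, .negSucc 11, .ofNat 2, .ofNat 0, .ofNat 0,
      .ofNat 0, .ofNat 0])]), (false, [([.ofNat 20, .ofNat 20, .ofNat 0, .ofNat 20, .ofNat 20,
      .ofNat 0, .ofNat 0], [.ofNat 0, .negSucc 19, .ofNat 10, .ofNat 1, .ofNat 0, .ofNat 1,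
      .ofNat 0, .ofNat 0, .ofNat 0, .ofNat 0, .ofNat 0])]), (false, [([.ofNat 10, .ofNat 20,
      .ofNat 30, .ofNat 0, .ofNat 30, .ofNat 20, .ofNat 10, .ofNat 0], [.ofNat 10, .negSucc 39,
      .ofNat 15, .ofNat 1, .ofNat 0, .ofNat 0, .ofNat 0, .ofNat 0, .ofNat 0, .ofNat 0,
      .ofNat 0])]), (false, [([.ofNat 1, .ofNat 1, .ofNat 1, .ofNat 1, .ofNat 0, .ofNat 1,
      .ofNat 1, .ofNat 1, .ofNat 1], [.negSucc 0, .negSucc 0, .ofNat 1, .ofNat 0, .ofNat 0,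
      .ofNat 0, .ofNat 0, .ofNat 0, .ofNat 0, .ofNat 0, .ofNat 0])]), (true, [])]⟩

lemma e05_5_ok : okE dt e05_5 = true := by decide +kernel

/-- a fibre -/
def e05_6 : Cfg :=
    ⟨[(0, 1), (5, 7)], [(false, []), (false, [([.ofNat 86400, .ofNat 3600], [.ofNat 23840,
      .negSucc 31439, .ofNat 40260, .ofNat 1440, .ofNat 0, .ofNat 2988, .ofNat 520, .ofNat 240,
      .ofNat 20, .ofNat 0, .ofNat 1, .ofNat 0])]), (false, [([.ofNat 60, .negSucc 599,
      .ofNat 180], [.negSucc 319, .ofNat 340, .negSucc 324, .negSucc 14, .ofNat 0, .negSucc 23,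
      .negSucc 5, .negSucc 1, .ofNat 0, .ofNat 0, .ofNat 0, .ofNat 0])]), (false, [([.ofNat 600,
      .negSucc 1539, .ofNat 1000, .negSucc 1499], [.ofNat 1920, .negSucc 2019, .ofNat 455,
      .ofNat 5, .ofNat 0, .negSucc 95, .ofNat 42, .ofNat 0, .negSucc 1, .ofNat 0, .ofNat 0,
      .ofNat 0])]), (true, []), (false, [([.ofNat 120, .ofNat 0, .ofNat 120, .negSucc 19,
      .ofNat 200, .negSucc 59], [.ofNat 160, .negSucc 259, .ofNat 55, .ofNat 1, .ofNat 0,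
      .negSucc 11, .ofNat 2, .ofNat 0, .ofNat 0, .ofNat 0, .ofNat 0, .ofNat 0])]), (false,
      [([.ofNat 20, .ofNat 20, .ofNat 0, .ofNat 20, .ofNat 20, .ofNat 0, .ofNat 0], [.ofNat 0,
      .negSucc 19, .ofNat 10, .ofNat 1, .ofNat 0, .ofNat 1, .ofNat 0, .ofNat 0, .ofNat 0,
      .ofNat 0, .ofNat 0, .ofNat 0])]), (false, [([.ofNat 10, .ofNat 20, .ofNat 30, .ofNat 0,
      .ofNat 30, .ofNat 20, .ofNat 10, .ofNat 0], [.ofNat 10, .negSucc 39, .ofNat 15, .ofNat 1,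
      .ofNat 0, .ofNat 0, .ofNat 0, .ofNat 0, .ofNat 0, .ofNat 0, .ofNat 0, .ofNat 0])]), (false,
      [([.ofNat 1, .ofNat 1, .ofNat 1, .ofNat 1, .ofNat 0, .ofNat 1, .ofNat 1, .ofNat 1,
      .ofNat 1], [.negSucc 0, .negSucc 0, .ofNat 1, .ofNat 0, .ofNat 0, .ofNat 0, .ofNat 0,
      .ofNat 0, .ofNat 0, .ofNat 0, .ofNat 0, .ofNat 0])]), (true, [])]⟩

lemma e05_6_ok : okE dt e05_6 = true := by decide +kernel

/-- a fibre -/
def e05_7 : Cfg :=
    ⟨[(0, 2), (5, 1)], [(false, []), (false, []), (false, []), (false, []), (true, []), (false,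
      [([.ofNat 120, .ofNat 0, .ofNat 60, .ofNat 200, .negSucc 19, .ofNat 0], [.ofNat 0,
      .negSucc 79, .ofNat 35, .negSucc 1, .ofNat 5, .ofNat 0, .ofNat 6])]), (false, [([.ofNat 120,
      .ofNat 0, .ofNat 0, .ofNat 60, .negSucc 79, .ofNat 20, .ofNat 0], [.ofNat 0, .negSucc 39,
      .ofNat 25, .ofNat 2, .ofNat 1, .ofNat 0, .ofNat 0])]), (false, [([.ofNat 5, .negSucc 49,
      .ofNat 15, .ofNat 0, .negSucc 14, .ofNat 50, .negSucc 4, .ofNat 0], [.ofNat 5, .ofNat 0,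
      .negSucc 4, .negSucc 0, .ofNat 0, .ofNat 0, .ofNat 0])]), (false, [([.ofNat 1, .ofNat 1,
      .ofNat 1, .ofNat 1, .ofNat 0, .ofNat 1, .ofNat 1, .ofNat 1, .ofNat 1], [.negSucc 0,
      .negSucc 0, .ofNat 1, .ofNat 0, .ofNat 0, .ofNat 0, .ofNat 0])]), (true, [])]⟩

lemma e05_7_ok : okE dt e05_7 = true := by decide +kernel

/-- a fibre -/
def e05_8 : Cfg :=
    ⟨[(0, 2), (5, 2)], [(false, []), (false, []), (false, []), (false, [([.ofNat 30, .negSucc 109,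
      .ofNat 110, .negSucc 29], [.ofNat 80, .negSucc 89, .ofNat 10, .ofNat 1, .negSucc 1,
      .ofNat 0, .negSucc 8, .ofNat 1])]), (true, []), (false, [([.ofNat 120, .ofNat 0, .ofNat 60,
      .ofNat 200, .negSucc 19, .ofNat 0], [.ofNat 0, .negSucc 79, .ofNat 35, .negSucc 1, .ofNat 5,
      .ofNat 0, .ofNat 6, .ofNat 0])]), (false, [([.ofNat 120, .ofNat 0, .ofNat 0, .ofNat 60,
      .negSucc 79, .ofNat 20, .ofNat 0], [.ofNat 0, .negSucc 39, .ofNat 25, .ofNat 2, .ofNat 1,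
      .ofNat 0, .ofNat 0, .ofNat 0])]), (false, [([.ofNat 5, .negSucc 49, .ofNat 15, .ofNat 0,
      .negSucc 14, .ofNat 50, .negSucc 4, .ofNat 0], [.ofNat 5, .ofNat 0, .negSucc 4, .negSucc 0,
      .ofNat 0, .ofNat 0, .ofNat 0, .ofNat 0])]), (false, [([.ofNat 1, .ofNat 1, .ofNat 1,
      .ofNat 1, .ofNat 0, .ofNat 1, .ofNat 1, .ofNat 1, .ofNat 1], [.negSucc 0, .negSucc 0,
      .ofNat 1, .ofNat 0, .ofNat 0, .ofNat 0, .ofNat 0, .ofNat 0])]), (true, [])]⟩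

lemma e05_8_ok : okE dt e05_8 = true := by decide +kernel

/-- a fibre -/
def e05_9 : Cfg :=
    ⟨[(0, 2), (5, 3)], [(false, []), (false, []), (false, [([.ofNat 60, .negSucc 599, .ofNat 180],
      [.negSucc 319, .ofNat 340, .negSucc 324, .ofNat 0, .negSucc 14, .ofNat 0, .negSucc 23,
      .negSucc 5, .negSucc 1])]), (false, [([.ofNat 30, .negSucc 109, .ofNat 110, .negSucc 29],
      [.ofNat 80, .negSucc 89, .ofNat 10, .ofNat 1, .negSucc 1, .ofNat 0, .negSucc 8, .ofNat 1,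
      .ofNat 0])]), (true, []), (false, [([.ofNat 120, .ofNat 0, .ofNat 60, .ofNat 200,
      .negSucc 19, .ofNat 0], [.ofNat 0, .negSucc 79, .ofNat 35, .negSucc 1, .ofNat 5, .ofNat 0,
      .ofNat 6, .ofNat 0, .ofNat 0])]), (false, [([.ofNat 120, .ofNat 0, .ofNat 0, .ofNat 60,
      .negSucc 79, .ofNat 20, .ofNat 0], [.ofNat 0, .negSucc 39, .ofNat 25, .ofNat 2, .ofNat 1,
      .ofNat 0, .ofNat 0, .ofNat 0, .ofNat 0])]), (false, [([.ofNat 5, .negSucc 49, .ofNat 15,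
      .ofNat 0, .negSucc 14, .ofNat 50, .negSucc 4, .ofNat 0], [.ofNat 5, .ofNat 0, .negSucc 4,
      .negSucc 0, .ofNat 0, .ofNat 0, .ofNat 0, .ofNat 0, .ofNat 0])]), (false, [([.ofNat 1,
      .ofNat 1, .ofNat 1, .ofNat 1, .ofNat 0, .ofNat 1, .ofNat 1, .ofNat 1, .ofNat 1],
      [.negSucc 0, .negSucc 0, .ofNat 1, .ofNat 0, .ofNat 0, .ofNat 0, .ofNat 0, .ofNat 0,
      .ofNat 0])]), (true, [])]⟩

lemma e05_9_ok : okE dt e05_9 = true := by decide +kernel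

/-- a fibre -/
def e05_10 : Cfg :=
    ⟨[(0, 2), (5, 4)], [(false, []), (false, [([.ofNat 2700, .negSucc 1439], [.ofNat 1920,
      .negSucc 1979, .ofNat 1915, .negSucc 9, .ofNat 105, .ofNat 0, .ofNat 174, .ofNat 44,
      .ofNat 11, .negSucc 0])]), (false, [([.ofNat 60, .negSucc 599, .ofNat 180], [.negSucc 319,
      .ofNat 340, .negSucc 324, .ofNat 0, .negSucc 14, .ofNat 0, .negSucc 23, .negSucc 5,
      .negSucc 1, .ofNat 0])]), (false, [([.ofNat 30, .negSucc 109, .ofNat 110, .negSucc 29],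
      [.ofNat 80, .negSucc 89, .ofNat 10, .ofNat 1, .negSucc 1, .ofNat 0, .negSucc 8, .ofNat 1,
      .ofNat 0, .ofNat 0])]), (true, []), (false, [([.ofNat 120, .ofNat 0, .ofNat 60, .ofNat 200,
      .negSucc 19, .ofNat 0], [.ofNat 0, .negSucc 79, .ofNat 35, .negSucc 1, .ofNat 5, .ofNat 0,
      .ofNat 6, .ofNat 0, .ofNat 0, .ofNat 0])]), (false, [([.ofNat 120, .ofNat 0, .ofNat 0,
      .ofNat 60, .negSucc 79, .ofNat 20, .ofNat 0], [.ofNat 0, .negSucc 39, .ofNat 25, .ofNat 2,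
      .ofNat 1, .ofNat 0, .ofNat 0, .ofNat 0, .ofNat 0, .ofNat 0])]), (false, [([.ofNat 5,
      .negSucc 49, .ofNat 15, .ofNat 0, .negSucc 14, .ofNat 50, .negSucc 4, .ofNat 0], [.ofNat 5,
      .ofNat 0, .negSucc 4, .negSucc 0, .ofNat 0, .ofNat 0, .ofNat 0, .ofNat 0, .ofNat 0,
      .ofNat 0])]), (false, [([.ofNat 1, .ofNat 1, .ofNat 1, .ofNat 1, .ofNat 0, .ofNat 1,
      .ofNat 1, .ofNat 1, .ofNat 1], [.negSucc 0, .negSucc 0, .ofNat 1, .ofNat 0, .ofNat 0,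
      .ofNat 0, .ofNat 0, .ofNat 0, .ofNat 0, .ofNat 0])]), (true, [])]⟩

lemma e05_10_ok : okE dt e05_10 = true := by decide +kernel

/-- a fibre -/
def e05_11 : Cfg :=
    ⟨[(0, 2), (5, 5)], [(false, []), (false, [([.ofNat 2700, .negSucc 1439], [.ofNat 1920,
      .negSucc 1979, .ofNat 1915, .negSucc 9, .ofNat 105, .ofNat 0, .ofNat 174, .ofNat 44,
      .ofNat 11, .negSucc 0, .ofNat 0])]), (false, [([.ofNat 60, .negSucc 599, .ofNat 180],
      [.negSucc 319, .ofNat 340, .negSucc 324, .ofNat 0, .negSucc 14, .ofNat 0, .negSucc 23,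
      .negSucc 5, .negSucc 1, .ofNat 0, .ofNat 0])]), (false, [([.ofNat 30, .negSucc 109,
      .ofNat 110, .negSucc 29], [.ofNat 80, .negSucc 89, .ofNat 10, .ofNat 1, .negSucc 1,
      .ofNat 0, .negSucc 8, .ofNat 1, .ofNat 0, .ofNat 0, .ofNat 0])]), (true, []), (false,
      [([.ofNat 120, .ofNat 0, .ofNat 60, .ofNat 200, .negSucc 19, .ofNat 0], [.ofNat 0,
      .negSucc 79, .ofNat 35, .negSucc 1, .ofNat 5, .ofNat 0, .ofNat 6, .ofNat 0, .ofNat 0,
      .ofNat 0, .ofNat 0])]), (false, [([.ofNat 120, .ofNat 0, .ofNat 0, .ofNat 60, .negSucc 79,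
      .ofNat 20, .ofNat 0], [.ofNat 0, .negSucc 39, .ofNat 25, .ofNat 2, .ofNat 1, .ofNat 0,
      .ofNat 0, .ofNat 0, .ofNat 0, .ofNat 0, .ofNat 0])]), (false, [([.ofNat 5, .negSucc 49,
      .ofNat 15, .ofNat 0, .negSucc 14, .ofNat 50, .negSucc 4, .ofNat 0], [.ofNat 5, .ofNat 0,
      .negSucc 4, .negSucc 0, .ofNat 0, .ofNat 0, .ofNat 0, .ofNat 0, .ofNat 0, .ofNat 0,
      .ofNat 0])]), (false, [([.ofNat 1, .ofNat 1, .ofNat 1, .ofNat 1, .ofNat 0, .ofNat 1,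
      .ofNat 1, .ofNat 1, .ofNat 1], [.negSucc 0, .negSucc 0, .ofNat 1, .ofNat 0, .ofNat 0,
      .ofNat 0, .ofNat 0, .ofNat 0, .ofNat 0, .ofNat 0, .ofNat 0])]), (true, [])]⟩

lemma e05_11_ok : okE dt e05_11 = true := by decide +kernel

/-- a fibre -/
def e05_12 : Cfg :=
    ⟨[(0, 3), (5, 1)], [(false, []), (false, []), (false, []), (false, [([.ofNat 180, .negSucc 599,
      .ofNat 60, .ofNat 0], [.ofNat 280, .negSucc 319, .negSucc 264, .ofNat 6, .negSucc 1,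
      .ofNat 15, .ofNat 0, .ofNat 24])]), (true, []), (false, [([.ofNat 480, .ofNat 0, .ofNat 60,
      .ofNat 1400, .negSucc 139, .ofNat 0], [.negSucc 279, .ofNat 0, .ofNat 405, .negSucc 13,
      .ofNat 2, .ofNat 5, .ofNat 0, .ofNat 0])]), (false, [([.ofNat 300, .negSucc 239, .ofNat 0,
      .ofNat 120, .negSucc 899, .ofNat 120, .ofNat 0], [.ofNat 140, .negSucc 99, .negSucc 139,
      .ofNat 12, .negSucc 0, .ofNat 0, .ofNat 0, .ofNat 0])]), (false, [([.ofNat 5, .negSucc 49,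
      .ofNat 15, .ofNat 0, .negSucc 14, .ofNat 50, .negSucc 4, .ofNat 0], [.ofNat 5, .ofNat 0,
      .negSucc 4, .negSucc 0, .ofNat 0, .ofNat 0, .ofNat 0, .ofNat 0])]), (false, [([.ofNat 1,
      .ofNat 1, .ofNat 1, .ofNat 1, .ofNat 0, .ofNat 1, .ofNat 1, .ofNat 1, .ofNat 1],
      [.negSucc 0, .negSucc 0, .ofNat 1, .ofNat 0, .ofNat 0, .ofNat 0, .ofNat 0, .ofNat 0])]),
      (true, [])]⟩

lemma e05_12_ok : okE dt e05_12 = true := by decide +kernel

/-- a fibre -/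
def e05_13 : Cfg :=
    ⟨[(0, 3), (5, 2)], [(false, []), (false, []), (false, [([.ofNat 60, .negSucc 599, .ofNat 180],
      [.negSucc 199, .ofNat 220, .negSucc 324, .ofNat 0, .negSucc 1, .ofNat 27, .ofNat 0,
      .ofNat 78, .negSucc 5])]), (false, [([.ofNat 180, .negSucc 599, .ofNat 60, .ofNat 0],
      [.ofNat 280, .negSucc 319, .negSucc 264, .ofNat 6, .negSucc 1, .ofNat 15, .ofNat 0,
      .ofNat 24, .ofNat 0])]), (true, []), (false, [([.ofNat 480, .ofNat 0, .ofNat 60,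
      .ofNat 1400, .negSucc 139, .ofNat 0], [.negSucc 279, .ofNat 0, .ofNat 405, .negSucc 13,
      .ofNat 2, .ofNat 5, .ofNat 0, .ofNat 0, .ofNat 0])]), (false, [([.ofNat 300, .negSucc 239,
      .ofNat 0, .ofNat 120, .negSucc 899, .ofNat 120, .ofNat 0], [.ofNat 140, .negSucc 99,
      .negSucc 139, .ofNat 12, .negSucc 0, .ofNat 0, .ofNat 0, .ofNat 0, .ofNat 0])]), (false,
      [([.ofNat 5, .negSucc 49, .ofNat 15, .ofNat 0, .negSucc 14, .ofNat 50, .negSucc 4,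
      .ofNat 0], [.ofNat 5, .ofNat 0, .negSucc 4, .negSucc 0, .ofNat 0, .ofNat 0, .ofNat 0,
      .ofNat 0, .ofNat 0])]), (false, [([.ofNat 1, .ofNat 1, .ofNat 1, .ofNat 1, .ofNat 0,
      .ofNat 1, .ofNat 1, .ofNat 1, .ofNat 1], [.negSucc 0, .negSucc 0, .ofNat 1, .ofNat 0,
      .ofNat 0, .ofNat 0, .ofNat 0, .ofNat 0, .ofNat 0])]), (true, [])]⟩

lemma e05_13_ok : okE dt e05_13 = true := by decide +kernel

/-- a fibre -/
def e05_14 : Cfg :=
    ⟨[(0, 3), (5, 3)], [(false, []), (false, []), (false, [([.ofNat 60, .negSucc 599, .ofNat 180],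
      [.negSucc 199, .ofNat 220, .negSucc 324, .ofNat 0, .negSucc 1, .ofNat 27, .ofNat 0,
      .ofNat 78, .negSucc 5, .ofNat 0])]), (false, [([.ofNat 180, .negSucc 599, .ofNat 60,
      .ofNat 0], [.ofNat 280, .negSucc 319, .negSucc 264, .ofNat 6, .negSucc 1, .ofNat 15,
      .ofNat 0, .ofNat 24, .ofNat 0, .ofNat 0])]), (true, []), (false, [([.ofNat 480, .ofNat 0,
      .ofNat 60, .ofNat 1400, .negSucc 139, .ofNat 0], [.negSucc 279, .ofNat 0, .ofNat 405,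
      .negSucc 13, .ofNat 2, .ofNat 5, .ofNat 0, .ofNat 0, .ofNat 0, .ofNat 0])]), (false,
      [([.ofNat 300, .negSucc 239, .ofNat 0, .ofNat 120, .negSucc 899, .ofNat 120, .ofNat 0],
      [.ofNat 140, .negSucc 99, .negSucc 139, .ofNat 12, .negSucc 0, .ofNat 0, .ofNat 0, .ofNat 0,
      .ofNat 0, .ofNat 0])]), (false, [([.ofNat 5, .negSucc 49, .ofNat 15, .ofNat 0, .negSucc 14,
      .ofNat 50, .negSucc 4, .ofNat 0], [.ofNat 5, .ofNat 0, .negSucc 4, .negSucc 0, .ofNat 0,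
      .ofNat 0, .ofNat 0, .ofNat 0, .ofNat 0, .ofNat 0])]), (false, [([.ofNat 1, .ofNat 1,
      .ofNat 1, .ofNat 1, .ofNat 0, .ofNat 1, .ofNat 1, .ofNat 1, .ofNat 1], [.negSucc 0,
      .negSucc 0, .ofNat 1, .ofNat 0, .ofNat 0, .ofNat 0, .ofNat 0, .ofNat 0, .ofNat 0,
      .ofNat 0])]), (true, [])]⟩

lemma e05_14_ok : okE dt e05_14 = true := by decide +kernel

/-- a fibre -/
def e05_15 : Cfg :=
    ⟨[(0, 3), (5, 4)], [(false, []), (false, [([.ofNat 2700, .negSucc 1439], [.ofNat 1260,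
      .negSucc 1319, .ofNat 1915, .negSucc 9, .ofNat 11, .negSucc 125, .ofNat 0, .negSucc 386,
      .ofNat 44, .ofNat 0, .negSucc 0])]), (false, [([.ofNat 60, .negSucc 599, .ofNat 180],
      [.negSucc 199, .ofNat 220, .negSucc 324, .ofNat 0, .negSucc 1, .ofNat 27, .ofNat 0,
      .ofNat 78, .negSucc 5, .ofNat 0, .ofNat 0])]), (false, [([.ofNat 180, .negSucc 599,
      .ofNat 60, .ofNat 0], [.ofNat 280, .negSucc 319, .negSucc 264, .ofNat 6, .negSucc 1,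
      .ofNat 15, .ofNat 0, .ofNat 24, .ofNat 0, .ofNat 0, .ofNat 0])]), (true, []), (false,
      [([.ofNat 480, .ofNat 0, .ofNat 60, .ofNat 1400, .negSucc 139, .ofNat 0], [.negSucc 279,
      .ofNat 0, .ofNat 405, .negSucc 13, .ofNat 2, .ofNat 5, .ofNat 0, .ofNat 0, .ofNat 0,
      .ofNat 0, .ofNat 0])]), (false, [([.ofNat 300, .negSucc 239, .ofNat 0, .ofNat 120,
      .negSucc 899, .ofNat 120, .ofNat 0], [.ofNat 140, .negSucc 99, .negSucc 139, .ofNat 12,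
      .negSucc 0, .ofNat 0, .ofNat 0, .ofNat 0, .ofNat 0, .ofNat 0, .ofNat 0])]), (false,
      [([.ofNat 5, .negSucc 49, .ofNat 15, .ofNat 0, .negSucc 14, .ofNat 50, .negSucc 4,
      .ofNat 0], [.ofNat 5, .ofNat 0, .negSucc 4, .negSucc 0, .ofNat 0, .ofNat 0, .ofNat 0,
      .ofNat 0, .ofNat 0, .ofNat 0, .ofNat 0])]), (false, [([.ofNat 1, .ofNat 1, .ofNat 1,
      .ofNat 1, .ofNat 0, .ofNat 1, .ofNat 1, .ofNat 1, .ofNat 1], [.negSucc 0, .negSucc 0,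
      .ofNat 1, .ofNat 0, .ofNat 0, .ofNat 0, .ofNat 0, .ofNat 0, .ofNat 0, .ofNat 0,
      .ofNat 0])]), (true, [])]⟩

lemma e05_15_ok : okE dt e05_15 = true := by decide +kernel

/-- a fibre -/
def e05_16 : Cfg :=
    ⟨[(0, 3), (5, 5)], [(false, []), (false, [([.ofNat 2700, .negSucc 1439], [.ofNat 1260,
      .negSucc 1319, .ofNat 1915, .negSucc 9, .ofNat 11, .negSucc 125, .ofNat 0, .negSucc 386,
      .ofNat 44, .ofNat 0, .negSucc 0, .ofNat 0])]), (false, [([.ofNat 60, .negSucc 599,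
      .ofNat 180], [.negSucc 199, .ofNat 220, .negSucc 324, .ofNat 0, .negSucc 1, .ofNat 27,
      .ofNat 0, .ofNat 78, .negSucc 5, .ofNat 0, .ofNat 0, .ofNat 0])]), (false, [([.ofNat 180,
      .negSucc 599, .ofNat 60, .ofNat 0], [.ofNat 280, .negSucc 319, .negSucc 264, .ofNat 6,
      .negSucc 1, .ofNat 15, .ofNat 0, .ofNat 24, .ofNat 0, .ofNat 0, .ofNat 0, .ofNat 0])]),
      (true, []), (false, [([.ofNat 480, .ofNat 0, .ofNat 60, .ofNat 1400, .negSucc 139,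
      .ofNat 0], [.negSucc 279, .ofNat 0, .ofNat 405, .negSucc 13, .ofNat 2, .ofNat 5, .ofNat 0,
      .ofNat 0, .ofNat 0, .ofNat 0, .ofNat 0, .ofNat 0])]), (false, [([.ofNat 300, .negSucc 239,
      .ofNat 0, .ofNat 120, .negSucc 899, .ofNat 120, .ofNat 0], [.ofNat 140, .negSucc 99,
      .negSucc 139, .ofNat 12, .negSucc 0, .ofNat 0, .ofNat 0, .ofNat 0, .ofNat 0, .ofNat 0,
      .ofNat 0, .ofNat 0])]), (false, [([.ofNat 5, .negSucc 49, .ofNat 15, .ofNat 0, .negSucc 14,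
      .ofNat 50, .negSucc 4, .ofNat 0], [.ofNat 5, .ofNat 0, .negSucc 4, .negSucc 0, .ofNat 0,
      .ofNat 0, .ofNat 0, .ofNat 0, .ofNat 0, .ofNat 0, .ofNat 0, .ofNat 0])]), (false,
      [([.ofNat 1, .ofNat 1, .ofNat 1, .ofNat 1, .ofNat 0, .ofNat 1, .ofNat 1, .ofNat 1,
      .ofNat 1], [.negSucc 0, .negSucc 0, .ofNat 1, .ofNat 0, .ofNat 0, .ofNat 0, .ofNat 0,
      .ofNat 0, .ofNat 0, .ofNat 0, .ofNat 0, .ofNat 0])]), (true, [])]⟩

lemma e05_16_ok : okE dt e05_16 = true := by decide +kernel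

/-- a fibre -/
def e05_17 : Cfg :=
    ⟨[(0, 4), (5, 1)], [(false, []), (false, []), (false, [([.ofNat 6000, .ofNat 1560, .negSucc 899],
      [.negSucc 1999, .ofNat 1120, .ofNat 4160, .negSucc 11, .ofNat 22, .negSucc 2, .negSucc 179,
      .ofNat 0, .negSucc 443])]), (false, [([.ofNat 2220, .negSucc 3399, .ofNat 1780,
      .negSucc 599], [.ofNat 2120, .negSucc 3199, .negSucc 494, .ofNat 66, .negSucc 9, .negSucc 1,
      .ofNat 65, .ofNat 0, .ofNat 0])]), (true, []), (false, [([.ofNat 3120, .ofNat 0,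
      .negSucc 719, .ofNat 10800, .negSucc 1799, .ofNat 300], [.negSucc 2879, .ofNat 1600,
      .ofNat 2880, .negSucc 123, .ofNat 18, .ofNat 1, .ofNat 0, .ofNat 0, .ofNat 0])]), (false,
      [([.ofNat 300, .negSucc 239, .ofNat 0, .ofNat 120, .negSucc 899, .ofNat 120, .ofNat 0],
      [.ofNat 140, .negSucc 99, .negSucc 139, .ofNat 12, .negSucc 0, .ofNat 0, .ofNat 0, .ofNat 0,
      .ofNat 0])]), (false, [([.ofNat 5, .negSucc 49, .ofNat 15, .ofNat 0, .negSucc 14, .ofNat 50,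
      .negSucc 4, .ofNat 0], [.ofNat 5, .ofNat 0, .negSucc 4, .negSucc 0, .ofNat 0, .ofNat 0,
      .ofNat 0, .ofNat 0, .ofNat 0])]), (false, [([.ofNat 1, .ofNat 1, .ofNat 1, .ofNat 1,
      .ofNat 0, .ofNat 1, .ofNat 1, .ofNat 1, .ofNat 1], [.negSucc 0, .negSucc 0, .ofNat 1,
      .ofNat 0, .ofNat 0, .ofNat 0, .ofNat 0, .ofNat 0, .ofNat 0])]), (true, [])]⟩

lemma e05_17_ok : okE dt e05_17 = true := by decide +kernel

/-- a fibre -/
def e05_18 : Cfg :=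
    ⟨[(0, 4), (5, 2)], [(false, []), (false, [([.ofNat 20520, .negSucc 6299], [.ofNat 6000,
      .negSucc 6959, .ofNat 12220, .negSucc 3, .ofNat 74, .negSucc 0, .negSucc 959, .ofNat 0,
      .negSucc 2747, .ofNat 200])]), (false, [([.ofNat 6000, .ofNat 1560, .negSucc 899],
      [.negSucc 1999, .ofNat 1120, .ofNat 4160, .negSucc 11, .ofNat 22, .negSucc 2, .negSucc 179,
      .ofNat 0, .negSucc 443, .ofNat 0])]), (false, [([.ofNat 2220, .negSucc 3399, .ofNat 1780,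
      .negSucc 599], [.ofNat 2120, .negSucc 3199, .negSucc 494, .ofNat 66, .negSucc 9, .negSucc 1,
      .ofNat 65, .ofNat 0, .ofNat 0, .ofNat 0])]), (true, []), (false, [([.ofNat 3120, .ofNat 0,
      .negSucc 719, .ofNat 10800, .negSucc 1799, .ofNat 300], [.negSucc 2879, .ofNat 1600,
      .ofNat 2880, .negSucc 123, .ofNat 18, .ofNat 1, .ofNat 0, .ofNat 0, .ofNat 0, .ofNat 0])]),
      (false, [([.ofNat 300, .negSucc 239, .ofNat 0, .ofNat 120, .negSucc 899, .ofNat 120,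
      .ofNat 0], [.ofNat 140, .negSucc 99, .negSucc 139, .ofNat 12, .negSucc 0, .ofNat 0,
      .ofNat 0, .ofNat 0, .ofNat 0, .ofNat 0])]), (false, [([.ofNat 5, .negSucc 49, .ofNat 15,
      .ofNat 0, .negSucc 14, .ofNat 50, .negSucc 4, .ofNat 0], [.ofNat 5, .ofNat 0, .negSucc 4,
      .negSucc 0, .ofNat 0, .ofNat 0, .ofNat 0, .ofNat 0, .ofNat 0, .ofNat 0])]), (false,
      [([.ofNat 1, .ofNat 1, .ofNat 1, .ofNat 1, .ofNat 0, .ofNat 1, .ofNat 1, .ofNat 1,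
      .ofNat 1], [.negSucc 0, .negSucc 0, .ofNat 1, .ofNat 0, .ofNat 0, .ofNat 0, .ofNat 0,
      .ofNat 0, .ofNat 0, .ofNat 0])]), (true, [])]⟩

lemma e05_18_ok : okE dt e05_18 = true := by decide +kernel

/-- a fibre -/
def e05_19 : Cfg :=
    ⟨[(0, 4), (5, 3)], [(false, []), (false, [([.ofNat 20520, .negSucc 6299], [.ofNat 6000,
      .negSucc 6959, .ofNat 12220, .negSucc 3, .ofNat 74, .negSucc 0, .negSucc 959, .ofNat 0,
      .negSucc 2747, .ofNat 200, .ofNat 0])]), (false, [([.ofNat 6000, .ofNat 1560, .negSucc 899],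
      [.negSucc 1999, .ofNat 1120, .ofNat 4160, .negSucc 11, .ofNat 22, .negSucc 2, .negSucc 179,
      .ofNat 0, .negSucc 443, .ofNat 0, .ofNat 0])]), (false, [([.ofNat 2220, .negSucc 3399,
      .ofNat 1780, .negSucc 599], [.ofNat 2120, .negSucc 3199, .negSucc 494, .ofNat 66,
      .negSucc 9, .negSucc 1, .ofNat 65, .ofNat 0, .ofNat 0, .ofNat 0, .ofNat 0])]), (true, []),
      (false, [([.ofNat 3120, .ofNat 0, .negSucc 719, .ofNat 10800, .negSucc 1799, .ofNat 300],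
      [.negSucc 2879, .ofNat 1600, .ofNat 2880, .negSucc 123, .ofNat 18, .ofNat 1, .ofNat 0,
      .ofNat 0, .ofNat 0, .ofNat 0, .ofNat 0])]), (false, [([.ofNat 300, .negSucc 239, .ofNat 0,
      .ofNat 120, .negSucc 899, .ofNat 120, .ofNat 0], [.ofNat 140, .negSucc 99, .negSucc 139,
      .ofNat 12, .negSucc 0, .ofNat 0, .ofNat 0, .ofNat 0, .ofNat 0, .ofNat 0, .ofNat 0])]),
      (false, [([.ofNat 5, .negSucc 49, .ofNat 15, .ofNat 0, .negSucc 14, .ofNat 50, .negSucc 4,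
      .ofNat 0], [.ofNat 5, .ofNat 0, .negSucc 4, .negSucc 0, .ofNat 0, .ofNat 0, .ofNat 0,
      .ofNat 0, .ofNat 0, .ofNat 0, .ofNat 0])]), (false, [([.ofNat 1, .ofNat 1, .ofNat 1,
      .ofNat 1, .ofNat 0, .ofNat 1, .ofNat 1, .ofNat 1, .ofNat 1], [.negSucc 0, .negSucc 0,
      .ofNat 1, .ofNat 0, .ofNat 0, .ofNat 0, .ofNat 0, .ofNat 0, .ofNat 0, .ofNat 0,
      .ofNat 0])]), (true, [])]⟩

lemma e05_19_ok : okE dt e05_19 = true := by decide +kernel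

/-- a fibre -/
def e05_20 : Cfg :=
    ⟨[(0, 5), (5, 1)], [(false, []), (false, []), (false, [([.ofNat 318000, .ofNat 82680,
      .negSucc 47699], [.negSucc 132639, .negSucc 135999, .ofNat 171640, .negSucc 635, .ofNat 56,
      .negSucc 158, .ofNat 37, .ofNat 1560, .ofNat 0, .ofNat 0])]), (false, [([.ofNat 1440,
      .negSucc 10799, .negSucc 1079, .ofNat 900], [.ofNat 4960, .ofNat 1600, .negSucc 4959,
      .ofNat 60, .negSucc 7, .ofNat 3, .negSucc 0, .ofNat 0, .ofNat 0, .ofNat 0])]), (true, []),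
      (false, [([.ofNat 3120, .ofNat 0, .negSucc 719, .ofNat 10800, .negSucc 1799, .ofNat 300],
      [.negSucc 2879, .ofNat 1600, .ofNat 2880, .negSucc 123, .ofNat 18, .ofNat 1, .ofNat 0,
      .ofNat 0, .ofNat 0, .ofNat 0])]), (false, [([.ofNat 300, .negSucc 239, .ofNat 0, .ofNat 120,
      .negSucc 899, .ofNat 120, .ofNat 0], [.ofNat 140, .negSucc 99, .negSucc 139, .ofNat 12,
      .negSucc 0, .ofNat 0, .ofNat 0, .ofNat 0, .ofNat 0, .ofNat 0])]), (false, [([.ofNat 5,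
      .negSucc 49, .ofNat 15, .ofNat 0, .negSucc 14, .ofNat 50, .negSucc 4, .ofNat 0], [.ofNat 5,
      .ofNat 0, .negSucc 4, .negSucc 0, .ofNat 0, .ofNat 0, .ofNat 0, .ofNat 0, .ofNat 0,
      .ofNat 0])]), (false, [([.ofNat 1, .ofNat 1, .ofNat 1, .ofNat 1, .ofNat 0, .ofNat 1,
      .ofNat 1, .ofNat 1, .ofNat 1], [.negSucc 0, .negSucc 0, .ofNat 1, .ofNat 0, .ofNat 0,
      .ofNat 0, .ofNat 0, .ofNat 0, .ofNat 0, .ofNat 0])]), (true, [])]⟩

lemma e05_20_ok : okE dt e05_20 = true := by decide +kernel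

/-- a fibre -/
def e05_21 : Cfg :=
    ⟨[(0, 5), (5, 2)], [(false, []), (false, [([.ofNat 1087560, .negSucc 333899], [.ofNat 153120,
      .negSucc 1577999, .ofNat 345380, .negSucc 211, .negSucc 2947, .negSucc 52, .ofNat 229,
      .ofNat 17820, .ofNat 0, .ofNat 0, .ofNat 10600])]), (false, [([.ofNat 318000, .ofNat 82680,
      .negSucc 47699], [.negSucc 132639, .negSucc 135999, .ofNat 171640, .negSucc 635, .ofNat 56,
      .negSucc 158, .ofNat 37, .ofNat 1560, .ofNat 0, .ofNat 0, .ofNat 0])]), (false,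
      [([.ofNat 1440, .negSucc 10799, .negSucc 1079, .ofNat 900], [.ofNat 4960, .ofNat 1600,
      .negSucc 4959, .ofNat 60, .negSucc 7, .ofNat 3, .negSucc 0, .ofNat 0, .ofNat 0, .ofNat 0,
      .ofNat 0])]), (true, []), (false, [([.ofNat 3120, .ofNat 0, .negSucc 719, .ofNat 10800,
      .negSucc 1799, .ofNat 300], [.negSucc 2879, .ofNat 1600, .ofNat 2880, .negSucc 123,
      .ofNat 18, .ofNat 1, .ofNat 0, .ofNat 0, .ofNat 0, .ofNat 0, .ofNat 0])]), (false,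
      [([.ofNat 300, .negSucc 239, .ofNat 0, .ofNat 120, .negSucc 899, .ofNat 120, .ofNat 0],
      [.ofNat 140, .negSucc 99, .negSucc 139, .ofNat 12, .negSucc 0, .ofNat 0, .ofNat 0, .ofNat 0,
      .ofNat 0, .ofNat 0, .ofNat 0])]), (false, [([.ofNat 5, .negSucc 49, .ofNat 15, .ofNat 0,
      .negSucc 14, .ofNat 50, .negSucc 4, .ofNat 0], [.ofNat 5, .ofNat 0, .negSucc 4, .negSucc 0,
      .ofNat 0, .ofNat 0, .ofNat 0, .ofNat 0, .ofNat 0, .ofNat 0, .ofNat 0])]), (false,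
      [([.ofNat 1, .ofNat 1, .ofNat 1, .ofNat 1, .ofNat 0, .ofNat 1, .ofNat 1, .ofNat 1,
      .ofNat 1], [.negSucc 0, .negSucc 0, .ofNat 1, .ofNat 0, .ofNat 0, .ofNat 0, .ofNat 0,
      .ofNat 0, .ofNat 0, .ofNat 0, .ofNat 0])]), (true, [])]⟩

lemma e05_21_ok : okE dt e05_21 = true := by decide +kernel

/-- a fibre -/
def e05_22 : Cfg :=
    ⟨[(0, 5), (5, 3)], [(false, []), (false, [([.ofNat 1087560, .negSucc 333899], [.ofNat 153120,
      .negSucc 1577999, .ofNat 345380, .negSucc 211, .negSucc 2947, .negSucc 52, .ofNat 229,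
      .ofNat 17820, .ofNat 0, .ofNat 0, .ofNat 10600, .ofNat 0])]), (false, [([.ofNat 318000,
      .ofNat 82680, .negSucc 47699], [.negSucc 132639, .negSucc 135999, .ofNat 171640,
      .negSucc 635, .ofNat 56, .negSucc 158, .ofNat 37, .ofNat 1560, .ofNat 0, .ofNat 0, .ofNat 0,
      .ofNat 0])]), (false, [([.ofNat 1440, .negSucc 10799, .negSucc 1079, .ofNat 900],
      [.ofNat 4960, .ofNat 1600, .negSucc 4959, .ofNat 60, .negSucc 7, .ofNat 3, .negSucc 0,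
      .ofNat 0, .ofNat 0, .ofNat 0, .ofNat 0, .ofNat 0])]), (true, []), (false, [([.ofNat 3120,
      .ofNat 0, .negSucc 719, .ofNat 10800, .negSucc 1799, .ofNat 300], [.negSucc 2879,
      .ofNat 1600, .ofNat 2880, .negSucc 123, .ofNat 18, .ofNat 1, .ofNat 0, .ofNat 0, .ofNat 0,
      .ofNat 0, .ofNat 0, .ofNat 0])]), (false, [([.ofNat 300, .negSucc 239, .ofNat 0, .ofNat 120,
      .negSucc 899, .ofNat 120, .ofNat 0], [.ofNat 140, .negSucc 99, .negSucc 139, .ofNat 12,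
      .negSucc 0, .ofNat 0, .ofNat 0, .ofNat 0, .ofNat 0, .ofNat 0, .ofNat 0, .ofNat 0])]),
      (false, [([.ofNat 5, .negSucc 49, .ofNat 15, .ofNat 0, .negSucc 14, .ofNat 50, .negSucc 4,
      .ofNat 0], [.ofNat 5, .ofNat 0, .negSucc 4, .negSucc 0, .ofNat 0, .ofNat 0, .ofNat 0,
      .ofNat 0, .ofNat 0, .ofNat 0, .ofNat 0, .ofNat 0])]), (false, [([.ofNat 1, .ofNat 1,
      .ofNat 1, .ofNat 1, .ofNat 0, .ofNat 1, .ofNat 1, .ofNat 1, .ofNat 1], [.negSucc 0,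
      .negSucc 0, .ofNat 1, .ofNat 0, .ofNat 0, .ofNat 0, .ofNat 0, .ofNat 0, .ofNat 0, .ofNat 0,
      .ofNat 0, .ofNat 0])]), (true, [])]⟩

lemma e05_22_ok : okE dt e05_22 = true := by decide +kernel

/-- a fibre -/
def e05_23 : Cfg :=
    ⟨[(0, 6), (5, 1)], [(false, []), (false, [([.ofNat 7097760, .negSucc 3911399], [.ofNat 191520,
      .negSucc 11535999, .ofNat 3696480, .ofNat 117448, .negSucc 28907, .negSucc 7737,
      .ofNat 1854, .ofNat 265, .ofNat 155520, .ofNat 0, .ofNat 0])]), (false, [([.ofNat 1555200,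
      .ofNat 56160, .negSucc 41399], [.negSucc 658079, .negSucc 99199, .ofNat 658080,
      .negSucc 8871, .ofNat 1692, .negSucc 397, .ofNat 90, .negSucc 12, .ofNat 0, .ofNat 0,
      .ofNat 0])]), (false, [([.ofNat 1440, .negSucc 10799, .negSucc 1079, .ofNat 900],
      [.ofNat 4960, .ofNat 1600, .negSucc 4959, .ofNat 60, .negSucc 7, .ofNat 3, .negSucc 0,
      .ofNat 0, .ofNat 0, .ofNat 0, .ofNat 0])]), (true, []), (false, [([.ofNat 3120, .ofNat 0,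
      .negSucc 719, .ofNat 10800, .negSucc 1799, .ofNat 300], [.negSucc 2879, .ofNat 1600,
      .ofNat 2880, .negSucc 123, .ofNat 18, .ofNat 1, .ofNat 0, .ofNat 0, .ofNat 0, .ofNat 0,
      .ofNat 0])]), (false, [([.ofNat 300, .negSucc 239, .ofNat 0, .ofNat 120, .negSucc 899,
      .ofNat 120, .ofNat 0], [.ofNat 140, .negSucc 99, .negSucc 139, .ofNat 12, .negSucc 0,
      .ofNat 0, .ofNat 0, .ofNat 0, .ofNat 0, .ofNat 0, .ofNat 0])]), (false, [([.ofNat 5,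
      .negSucc 49, .ofNat 15, .ofNat 0, .negSucc 14, .ofNat 50, .negSucc 4, .ofNat 0], [.ofNat 5,
      .ofNat 0, .negSucc 4, .negSucc 0, .ofNat 0, .ofNat 0, .ofNat 0, .ofNat 0, .ofNat 0,
      .ofNat 0, .ofNat 0])]), (false, [([.ofNat 1, .ofNat 1, .ofNat 1, .ofNat 1, .ofNat 0,
      .ofNat 1, .ofNat 1, .ofNat 1, .ofNat 1], [.negSucc 0, .negSucc 0, .ofNat 1, .ofNat 0,
      .ofNat 0, .ofNat 0, .ofNat 0, .ofNat 0, .ofNat 0, .ofNat 0, .ofNat 0])]), (true, [])]⟩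

lemma e05_23_ok : okE dt e05_23 = true := by decide +kernel

/-- a fibre -/
def e05_24 : Cfg :=
    ⟨[(0, 7), (5, 1)], [(false, []), (false, [([.ofNat 133920, .negSucc 73799], [.negSucc 123359,
      .negSucc 252799, .ofNat 123360, .ofNat 2216, .negSucc 995, .negSucc 145, .ofNat 78,
      .ofNat 5, .negSucc 5, .ofNat 0, .ofNat 0, .ofNat 0])]), (false, [([.ofNat 1555200,
      .ofNat 56160, .negSucc 41399], [.negSucc 658079, .negSucc 99199, .ofNat 658080,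
      .negSucc 8871, .ofNat 1692, .negSucc 397, .ofNat 90, .negSucc 12, .ofNat 0, .ofNat 0,
      .ofNat 0, .ofNat 0])]), (false, [([.ofNat 1440, .negSucc 10799, .negSucc 1079, .ofNat 900],
      [.ofNat 4960, .ofNat 1600, .negSucc 4959, .ofNat 60, .negSucc 7, .ofNat 3, .negSucc 0,
      .ofNat 0, .ofNat 0, .ofNat 0, .ofNat 0, .ofNat 0])]), (true, []), (false, [([.ofNat 3120,
      .ofNat 0, .negSucc 719, .ofNat 10800, .negSucc 1799, .ofNat 300], [.negSucc 2879,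
      .ofNat 1600, .ofNat 2880, .negSucc 123, .ofNat 18, .ofNat 1, .ofNat 0, .ofNat 0, .ofNat 0,
      .ofNat 0, .ofNat 0, .ofNat 0])]), (false, [([.ofNat 300, .negSucc 239, .ofNat 0, .ofNat 120,
      .negSucc 899, .ofNat 120, .ofNat 0], [.ofNat 140, .negSucc 99, .negSucc 139, .ofNat 12,
      .negSucc 0, .ofNat 0, .ofNat 0, .ofNat 0, .ofNat 0, .ofNat 0, .ofNat 0, .ofNat 0])]),
      (false, [([.ofNat 5, .negSucc 49, .ofNat 15, .ofNat 0, .negSucc 14, .ofNat 50, .negSucc 4,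
      .ofNat 0], [.ofNat 5, .ofNat 0, .negSucc 4, .negSucc 0, .ofNat 0, .ofNat 0, .ofNat 0,
      .ofNat 0, .ofNat 0, .ofNat 0, .ofNat 0, .ofNat 0])]), (false, [([.ofNat 1, .ofNat 1,
      .ofNat 1, .ofNat 1, .ofNat 0, .ofNat 1, .ofNat 1, .ofNat 1, .ofNat 1], [.negSucc 0,
      .negSucc 0, .ofNat 1, .ofNat 0, .ofNat 0, .ofNat 0, .ofNat 0, .ofNat 0, .ofNat 0, .ofNat 0,
      .ofNat 0, .ofNat 0])]), (true, [])]⟩

lemma e05_24_ok : okE dt e05_24 = true := by decide +kernel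

/-- the fibres with solutions -/
def E05 : List Cfg := [
    e05_0, e05_1, e05_2, e05_3, e05_4, e05_5, e05_6, e05_7, e05_8, e05_9, e05_10, e05_11, e05_12,
    e05_13, e05_14, e05_15, e05_16, e05_17, e05_18, e05_19, e05_20, e05_21, e05_22, e05_23, e05_24]

/-- the fibres without solutions -/
def Z05 : List Cfg := [
    ⟨[(0, 1), (5, 8)], [(false, [([.ofNat 196560], [.negSucc 39519, .ofNat 117360, .negSucc 35819,
      .negSucc 2159, .ofNat 0, .ofNat 1836, .negSucc 1735, .negSucc 143, .ofNat 44, .ofNat 0,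
      .ofNat 19, .ofNat 0, .negSucc 0])]), (false, [([.ofNat 86400, .ofNat 3600], [.ofNat 23840,
      .negSucc 31439, .ofNat 40260, .ofNat 1440, .ofNat 0, .ofNat 2988, .ofNat 520, .ofNat 240,
      .ofNat 20, .ofNat 0, .ofNat 1, .ofNat 0, .ofNat 0])]), (false, [([.ofNat 60, .negSucc 599,
      .ofNat 180], [.negSucc 319, .ofNat 340, .negSucc 324, .negSucc 14, .ofNat 0, .negSucc 23,
      .negSucc 5, .negSucc 1, .ofNat 0, .ofNat 0, .ofNat 0, .ofNat 0, .ofNat 0])]), (false,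
      [([.ofNat 600, .negSucc 1539, .ofNat 1000, .negSucc 1499], [.ofNat 1920, .negSucc 2019,
      .ofNat 455, .ofNat 5, .ofNat 0, .negSucc 95, .ofNat 42, .ofNat 0, .negSucc 1, .ofNat 0,
      .ofNat 0, .ofNat 0, .ofNat 0])]), (true, []), (false, [([.ofNat 120, .ofNat 0, .ofNat 120,
      .negSucc 19, .ofNat 200, .negSucc 59], [.ofNat 160, .negSucc 259, .ofNat 55, .ofNat 1,
      .ofNat 0, .negSucc 11, .ofNat 2, .ofNat 0, .ofNat 0, .ofNat 0, .ofNat 0, .ofNat 0,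
      .ofNat 0])]), (false, [([.ofNat 20, .ofNat 20, .ofNat 0, .ofNat 20, .ofNat 20, .ofNat 0,
      .ofNat 0], [.ofNat 0, .negSucc 19, .ofNat 10, .ofNat 1, .ofNat 0, .ofNat 1, .ofNat 0,
      .ofNat 0, .ofNat 0, .ofNat 0, .ofNat 0, .ofNat 0, .ofNat 0])]), (false, [([.ofNat 10,
      .ofNat 20, .ofNat 30, .ofNat 0, .ofNat 30, .ofNat 20, .ofNat 10, .ofNat 0], [.ofNat 10,
      .negSucc 39, .ofNat 15, .ofNat 1, .ofNat 0, .ofNat 0, .ofNat 0, .ofNat 0, .ofNat 0,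
      .ofNat 0, .ofNat 0, .ofNat 0, .ofNat 0])]), (false, [([.ofNat 1, .ofNat 1, .ofNat 1,
      .ofNat 1, .ofNat 0, .ofNat 1, .ofNat 1, .ofNat 1, .ofNat 1], [.negSucc 0, .negSucc 0,
      .ofNat 1, .ofNat 0, .ofNat 0, .ofNat 0, .ofNat 0, .ofNat 0, .ofNat 0, .ofNat 0, .ofNat 0,
      .ofNat 0, .ofNat 0])]), (true, [])]⟩,
    ⟨[(0, 2), (5, 6)], [(false, [([.ofNat 49680], [.negSucc 37599, .ofNat 31920, .negSucc 21019,
      .ofNat 320, .negSucc 1919, .ofNat 0, .negSucc 2579, .negSucc 887, .negSucc 111, .ofNat 52,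
      .ofNat 0, .ofNat 1])]), (false, [([.ofNat 2700, .negSucc 1439], [.ofNat 1920, .negSucc 1979,
      .ofNat 1915, .negSucc 9, .ofNat 105, .ofNat 0, .ofNat 174, .ofNat 44, .ofNat 11, .negSucc 0,
      .ofNat 0, .ofNat 0])]), (false, [([.ofNat 60, .negSucc 599, .ofNat 180], [.negSucc 319,
      .ofNat 340, .negSucc 324, .ofNat 0, .negSucc 14, .ofNat 0, .negSucc 23, .negSucc 5,
      .negSucc 1, .ofNat 0, .ofNat 0, .ofNat 0])]), (false, [([.ofNat 30, .negSucc 109,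
      .ofNat 110, .negSucc 29], [.ofNat 80, .negSucc 89, .ofNat 10, .ofNat 1, .negSucc 1,
      .ofNat 0, .negSucc 8, .ofNat 1, .ofNat 0, .ofNat 0, .ofNat 0, .ofNat 0])]), (true, []),
      (false, [([.ofNat 120, .ofNat 0, .ofNat 60, .ofNat 200, .negSucc 19, .ofNat 0], [.ofNat 0,
      .negSucc 79, .ofNat 35, .negSucc 1, .ofNat 5, .ofNat 0, .ofNat 6, .ofNat 0, .ofNat 0,
      .ofNat 0, .ofNat 0, .ofNat 0])]), (false, [([.ofNat 120, .ofNat 0, .ofNat 0, .ofNat 60,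
      .negSucc 79, .ofNat 20, .ofNat 0], [.ofNat 0, .negSucc 39, .ofNat 25, .ofNat 2, .ofNat 1,
      .ofNat 0, .ofNat 0, .ofNat 0, .ofNat 0, .ofNat 0, .ofNat 0, .ofNat 0])]), (false,
      [([.ofNat 5, .negSucc 49, .ofNat 15, .ofNat 0, .negSucc 14, .ofNat 50, .negSucc 4,
      .ofNat 0], [.ofNat 5, .ofNat 0, .negSucc 4, .negSucc 0, .ofNat 0, .ofNat 0, .ofNat 0,
      .ofNat 0, .ofNat 0, .ofNat 0, .ofNat 0, .ofNat 0])]), (false, [([.ofNat 1, .ofNat 1,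
      .ofNat 1, .ofNat 1, .ofNat 0, .ofNat 1, .ofNat 1, .ofNat 1, .ofNat 1], [.negSucc 0,
      .negSucc 0, .ofNat 1, .ofNat 0, .ofNat 0, .ofNat 0, .ofNat 0, .ofNat 0, .ofNat 0, .ofNat 0,
      .ofNat 0, .ofNat 0])]), (true, [])]⟩,
    ⟨[(0, 4), (5, 4)], [(false, [([.ofNat 23220], [.negSucc 17879, .ofNat 15360, .negSucc 11669,
      .ofNat 360, .negSucc 47, .negSucc 4, .negSucc 11, .ofNat 0, .ofNat 966, .negSucc 671,
      .ofNat 0, .ofNat 38])]), (false, [([.ofNat 20520, .negSucc 6299], [.ofNat 6000,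
      .negSucc 6959, .ofNat 12220, .negSucc 3, .ofNat 74, .negSucc 0, .negSucc 959, .ofNat 0,
      .negSucc 2747, .ofNat 200, .ofNat 0, .ofNat 0])]), (false, [([.ofNat 6000, .ofNat 1560,
      .negSucc 899], [.negSucc 1999, .ofNat 1120, .ofNat 4160, .negSucc 11, .ofNat 22, .negSucc 2,
      .negSucc 179, .ofNat 0, .negSucc 443, .ofNat 0, .ofNat 0, .ofNat 0])]), (false,
      [([.ofNat 2220, .negSucc 3399, .ofNat 1780, .negSucc 599], [.ofNat 2120, .negSucc 3199,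
      .negSucc 494, .ofNat 66, .negSucc 9, .negSucc 1, .ofNat 65, .ofNat 0, .ofNat 0, .ofNat 0,
      .ofNat 0, .ofNat 0])]), (true, []), (false, [([.ofNat 3120, .ofNat 0, .negSucc 719,
      .ofNat 10800, .negSucc 1799, .ofNat 300], [.negSucc 2879, .ofNat 1600, .ofNat 2880,
      .negSucc 123, .ofNat 18, .ofNat 1, .ofNat 0, .ofNat 0, .ofNat 0, .ofNat 0, .ofNat 0,
      .ofNat 0])]), (false, [([.ofNat 300, .negSucc 239, .ofNat 0, .ofNat 120, .negSucc 899,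
      .ofNat 120, .ofNat 0], [.ofNat 140, .negSucc 99, .negSucc 139, .ofNat 12, .negSucc 0,
      .ofNat 0, .ofNat 0, .ofNat 0, .ofNat 0, .ofNat 0, .ofNat 0, .ofNat 0])]), (false,
      [([.ofNat 5, .negSucc 49, .ofNat 15, .ofNat 0, .negSucc 14, .ofNat 50, .negSucc 4,
      .ofNat 0], [.ofNat 5, .ofNat 0, .negSucc 4, .negSucc 0, .ofNat 0, .ofNat 0, .ofNat 0,
      .ofNat 0, .ofNat 0, .ofNat 0, .ofNat 0, .ofNat 0])]), (false, [([.ofNat 1, .ofNat 1,
      .ofNat 1, .ofNat 1, .ofNat 0, .ofNat 1, .ofNat 1, .ofNat 1, .ofNat 1], [.negSucc 0,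
      .negSucc 0, .ofNat 1, .ofNat 0, .ofNat 0, .ofNat 0, .ofNat 0, .ofNat 0, .ofNat 0, .ofNat 0,
      .ofNat 0, .ofNat 0])]), (true, [])]⟩,
    ⟨[(0, 6), (5, 2)], [(false, [([.ofNat 6582600], [.ofNat 3069600, .ofNat 4702400, .negSucc 5481199,
      .negSucc 451559, .ofNat 36740, .ofNat 28090, .negSucc 1365, .negSucc 1006, .negSucc 149039,
      .ofNat 0, .ofNat 0, .ofNat 262880])]), (false, [([.ofNat 7097760, .negSucc 3911399],
      [.ofNat 191520, .negSucc 11535999, .ofNat 3696480, .ofNat 117448, .negSucc 28907,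
      .negSucc 7737, .ofNat 1854, .ofNat 265, .ofNat 155520, .ofNat 0, .ofNat 0, .ofNat 0])]),
      (false, [([.ofNat 1555200, .ofNat 56160, .negSucc 41399], [.negSucc 658079, .negSucc 99199,
      .ofNat 658080, .negSucc 8871, .ofNat 1692, .negSucc 397, .ofNat 90, .negSucc 12, .ofNat 0,
      .ofNat 0, .ofNat 0, .ofNat 0])]), (false, [([.ofNat 1440, .negSucc 10799, .negSucc 1079,
      .ofNat 900], [.ofNat 4960, .ofNat 1600, .negSucc 4959, .ofNat 60, .negSucc 7, .ofNat 3,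
      .negSucc 0, .ofNat 0, .ofNat 0, .ofNat 0, .ofNat 0, .ofNat 0])]), (true, []), (false,
      [([.ofNat 3120, .ofNat 0, .negSucc 719, .ofNat 10800, .negSucc 1799, .ofNat 300],
      [.negSucc 2879, .ofNat 1600, .ofNat 2880, .negSucc 123, .ofNat 18, .ofNat 1, .ofNat 0,
      .ofNat 0, .ofNat 0, .ofNat 0, .ofNat 0, .ofNat 0])]), (false, [([.ofNat 300, .negSucc 239,
      .ofNat 0, .ofNat 120, .negSucc 899, .ofNat 120, .ofNat 0], [.ofNat 140, .negSucc 99,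
      .negSucc 139, .ofNat 12, .negSucc 0, .ofNat 0, .ofNat 0, .ofNat 0, .ofNat 0, .ofNat 0,
      .ofNat 0, .ofNat 0])]), (false, [([.ofNat 5, .negSucc 49, .ofNat 15, .ofNat 0, .negSucc 14,
      .ofNat 50, .negSucc 4, .ofNat 0], [.ofNat 5, .ofNat 0, .negSucc 4, .negSucc 0, .ofNat 0,
      .ofNat 0, .ofNat 0, .ofNat 0, .ofNat 0, .ofNat 0, .ofNat 0, .ofNat 0])]), (false,
      [([.ofNat 1, .ofNat 1, .ofNat 1, .ofNat 1, .ofNat 0, .ofNat 1, .ofNat 1, .ofNat 1,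
      .ofNat 1], [.negSucc 0, .negSucc 0, .ofNat 1, .ofNat 0, .ofNat 0, .ofNat 0, .ofNat 0,
      .ofNat 0, .ofNat 0, .ofNat 0, .ofNat 0, .ofNat 0])]), (true, [])]⟩,
    ⟨[(0, 8), (5, 1)], [(false, [([.ofNat 982800], [.ofNat 393600, .ofNat 1164800, .negSucc 393599,
      .negSucc 12319, .negSucc 599, .negSucc 819, .ofNat 168, .ofNat 316, .ofNat 30, .negSucc 30,
      .ofNat 0, .ofNat 0, .ofNat 0])]), (false, [([.ofNat 133920, .negSucc 73799],
      [.negSucc 123359, .negSucc 252799, .ofNat 123360, .ofNat 2216, .negSucc 995, .negSucc 145,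
      .ofNat 78, .ofNat 5, .negSucc 5, .ofNat 0, .ofNat 0, .ofNat 0, .ofNat 0])]), (false,
      [([.ofNat 1555200, .ofNat 56160, .negSucc 41399], [.negSucc 658079, .negSucc 99199,
      .ofNat 658080, .negSucc 8871, .ofNat 1692, .negSucc 397, .ofNat 90, .negSucc 12, .ofNat 0,
      .ofNat 0, .ofNat 0, .ofNat 0, .ofNat 0])]), (false, [([.ofNat 1440, .negSucc 10799,
      .negSucc 1079, .ofNat 900], [.ofNat 4960, .ofNat 1600, .negSucc 4959, .ofNat 60, .negSucc 7,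
      .ofNat 3, .negSucc 0, .ofNat 0, .ofNat 0, .ofNat 0, .ofNat 0, .ofNat 0, .ofNat 0])]), (true,
      []), (false, [([.ofNat 3120, .ofNat 0, .negSucc 719, .ofNat 10800, .negSucc 1799,
      .ofNat 300], [.negSucc 2879, .ofNat 1600, .ofNat 2880, .negSucc 123, .ofNat 18, .ofNat 1,
      .ofNat 0, .ofNat 0, .ofNat 0, .ofNat 0, .ofNat 0, .ofNat 0, .ofNat 0])]), (false,
      [([.ofNat 300, .negSucc 239, .ofNat 0, .ofNat 120, .negSucc 899, .ofNat 120, .ofNat 0],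
      [.ofNat 140, .negSucc 99, .negSucc 139, .ofNat 12, .negSucc 0, .ofNat 0, .ofNat 0, .ofNat 0,
      .ofNat 0, .ofNat 0, .ofNat 0, .ofNat 0, .ofNat 0])]), (false, [([.ofNat 5, .negSucc 49,
      .ofNat 15, .ofNat 0, .negSucc 14, .ofNat 50, .negSucc 4, .ofNat 0], [.ofNat 5, .ofNat 0,
      .negSucc 4, .negSucc 0, .ofNat 0, .ofNat 0, .ofNat 0, .ofNat 0, .ofNat 0, .ofNat 0,
      .ofNat 0, .ofNat 0, .ofNat 0])]), (false, [([.ofNat 1, .ofNat 1, .ofNat 1, .ofNat 1,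
      .ofNat 0, .ofNat 1, .ofNat 1, .ofNat 1, .ofNat 1], [.negSucc 0, .negSucc 0, .ofNat 1,
      .ofNat 0, .ofNat 0, .ofNat 0, .ofNat 0, .ofNat 0, .ofNat 0, .ofNat 0, .ofNat 0, .ofNat 0,
      .ofNat 0])]), (true, [])]⟩]

lemma E05_ok : E05.all (okE dt) = true := by
  simp only [E05, List.all_cons, List.all_nil, Bool.and_self,
    e05_0_ok, e05_1_ok, e05_2_ok, e05_3_ok, e05_4_ok, e05_5_ok, e05_6_ok, e05_7_ok, e05_8_ok,
    e05_9_ok, e05_10_ok, e05_11_ok, e05_12_ok, e05_13_ok, e05_14_ok, e05_15_ok, e05_16_ok,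
    e05_17_ok, e05_18_ok, e05_19_ok, e05_20_ok, e05_21_ok, e05_22_ok, e05_23_ok, e05_24_ok]

lemma Z05_ok : Z05.all (okZ dt) = true := by decide +kernel

lemma cov05 : (prods 2).all (fun a => cov E05 Z05 (([0, 5] : List (Fin 10)).zip a)) = true := by
  decide +kernel

theorem typ05 : Typ dt [0, 5] E05 Z05 := ⟨E05_ok, Z05_ok, cov05, by decide +kernel⟩

end Pool.Agent.X10.Ca
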