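import Pool.Agent.Lib_helper60.X10a.Da

/-!
# A point of order ten, `t = -1`: the fibres
-/

set_option autoImplicit false
set_option maxRecDepth 100000

namespace Pool.Agent.X10.Ca

/-- a fibre -/
def e012_0 : Cfg :=
    ⟨[(0, 1), (1, 1), (2, 1)], [(false, []), (false, []), (false, [([.ofNat 20, .ofNat 20, .ofNat 20],
      [.negSucc 19, .ofNat 20, .ofNat 0, .ofNat 6, .negSucc 1, .negSucc 0, .ofNat 0, .ofNat 0,
      .ofNat 1, .ofNat 0])]), (false, [([.ofNat 20, .ofNat 20, .ofNat 20, .ofNat 20],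
      [.negSucc 19, .ofNat 0, .ofNat 0, .ofNat 10, .negSucc 1, .ofNat 1, .ofNat 0, .ofNat 0,
      .ofNat 0, .ofNat 0])]), (false, [([.ofNat 20, .ofNat 20, .ofNat 40, .ofNat 40, .ofNat 60],
      [.negSucc 79, .ofNat 40, .ofNat 20, .ofNat 20, .negSucc 4, .ofNat 0, .ofNat 1, .ofNat 0,
      .ofNat 0, .ofNat 0])]), (false, [([.ofNat 2, .ofNat 4, .ofNat 6, .ofNat 8, .ofNat 10,
      .ofNat 12], [.negSucc 13, .ofNat 4, .ofNat 2, .ofNat 5, .negSucc 0, .ofNat 0, .ofNat 0,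
      .ofNat 0, .ofNat 0, .ofNat 0])]), (false, [([.ofNat 1, .ofNat 1, .ofNat 1, .ofNat 1,
      .ofNat 1, .ofNat 1, .ofNat 1], [.negSucc 0, .negSucc 0, .negSucc 0, .ofNat 1, .ofNat 0,
      .ofNat 0, .ofNat 0, .ofNat 0, .ofNat 0, .ofNat 0])]), (true, []), (true, []), (true, [])]⟩

lemma e012_0_ok : okE dt e012_0 = true := by decide +kernel

/-- a fibre -/
def e012_1 : Cfg :=
    ⟨[(0, 1), (1, 1), (2, 2)], [(false, []), (false, [([.ofNat 40, .negSucc 199], [.ofNat 200,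
      .negSucc 139, .negSucc 119, .negSucc 0, .ofNat 5, .ofNat 2, .negSucc 5, .ofNat 0, .ofNat 4,
      .ofNat 0, .ofNat 2])]), (false, [([.ofNat 20, .ofNat 20, .ofNat 20], [.negSucc 19,
      .ofNat 20, .ofNat 0, .ofNat 6, .negSucc 1, .negSucc 0, .ofNat 0, .ofNat 0, .ofNat 1,
      .ofNat 0, .ofNat 0])]), (false, [([.ofNat 20, .ofNat 20, .ofNat 20, .ofNat 20],
      [.negSucc 19, .ofNat 0, .ofNat 0, .ofNat 10, .negSucc 1, .ofNat 1, .ofNat 0, .ofNat 0,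
      .ofNat 0, .ofNat 0, .ofNat 0])]), (false, [([.ofNat 20, .ofNat 20, .ofNat 40, .ofNat 40,
      .ofNat 60], [.negSucc 79, .ofNat 40, .ofNat 20, .ofNat 20, .negSucc 4, .ofNat 0, .ofNat 1,
      .ofNat 0, .ofNat 0, .ofNat 0, .ofNat 0])]), (false, [([.ofNat 2, .ofNat 4, .ofNat 6,
      .ofNat 8, .ofNat 10, .ofNat 12], [.negSucc 13, .ofNat 4, .ofNat 2, .ofNat 5, .negSucc 0,
      .ofNat 0, .ofNat 0, .ofNat 0, .ofNat 0, .ofNat 0, .ofNat 0])]), (false, [([.ofNat 1,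
      .ofNat 1, .ofNat 1, .ofNat 1, .ofNat 1, .ofNat 1, .ofNat 1], [.negSucc 0, .negSucc 0,
      .negSucc 0, .ofNat 1, .ofNat 0, .ofNat 0, .ofNat 0, .ofNat 0, .ofNat 0, .ofNat 0,
      .ofNat 0])]), (true, []), (true, []), (true, [])]⟩

lemma e012_1_ok : okE dt e012_1 = true := by decide +kernel

/-- a fibre -/
def e012_2 : Cfg :=
    ⟨[(0, 1), (1, 2), (2, 1)], [(false, []), (false, [([.ofNat 240, .ofNat 0], [.ofNat 120,
      .negSucc 79, .negSucc 119, .ofNat 23, .negSucc 2, .negSucc 11, .negSucc 11, .negSucc 1,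
      .ofNat 0, .ofNat 8, .ofNat 0])]), (false, [([.ofNat 160, .negSucc 79, .ofNat 160],
      [.negSucc 279, .ofNat 240, .ofNat 120, .ofNat 25, .negSucc 12, .ofNat 4, .ofNat 12,
      .ofNat 2, .ofNat 0, .ofNat 0, .ofNat 0])]), (false, [([.ofNat 20, .ofNat 20, .ofNat 20,
      .ofNat 20], [.negSucc 19, .ofNat 0, .ofNat 0, .ofNat 10, .negSucc 1, .ofNat 1, .ofNat 0,
      .ofNat 0, .ofNat 0, .ofNat 0, .ofNat 0])]), (false, [([.ofNat 20, .ofNat 20, .ofNat 40,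
      .ofNat 40, .ofNat 60], [.negSucc 79, .ofNat 40, .ofNat 20, .ofNat 20, .negSucc 4, .ofNat 0,
      .ofNat 1, .ofNat 0, .ofNat 0, .ofNat 0, .ofNat 0])]), (false, [([.ofNat 2, .ofNat 4,
      .ofNat 6, .ofNat 8, .ofNat 10, .ofNat 12], [.negSucc 13, .ofNat 4, .ofNat 2, .ofNat 5,
      .negSucc 0, .ofNat 0, .ofNat 0, .ofNat 0, .ofNat 0, .ofNat 0, .ofNat 0])]), (false,
      [([.ofNat 1, .ofNat 1, .ofNat 1, .ofNat 1, .ofNat 1, .ofNat 1, .ofNat 1], [.negSucc 0,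
      .negSucc 0, .negSucc 0, .ofNat 1, .ofNat 0, .ofNat 0, .ofNat 0, .ofNat 0, .ofNat 0,
      .ofNat 0, .ofNat 0])]), (true, []), (true, []), (true, [])]⟩

lemma e012_2_ok : okE dt e012_2 = true := by decide +kernel

/-- a fibre -/
def e012_3 : Cfg :=
    ⟨[(0, 2), (1, 1), (2, 1)], [(false, []), (false, [([.ofNat 240, .ofNat 200], [.negSucc 179,
      .ofNat 200, .ofNat 80, .ofNat 43, .ofNat 2, .negSucc 24, .negSucc 15, .negSucc 7, .ofNat 0,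
      .ofNat 8, .ofNat 0])]), (false, [([.ofNat 160, .negSucc 79, .negSucc 39], [.ofNat 20,
      .negSucc 39, .negSucc 79, .ofNat 5, .negSucc 1, .ofNat 9, .ofNat 8, .ofNat 8, .ofNat 0,
      .ofNat 0, .ofNat 0])]), (false, [([.ofNat 20, .ofNat 20, .ofNat 20, .ofNat 20],
      [.negSucc 19, .ofNat 0, .ofNat 0, .ofNat 10, .ofNat 0, .negSucc 1, .ofNat 1, .ofNat 0,
      .ofNat 0, .ofNat 0, .ofNat 0])]), (false, [([.ofNat 160, .ofNat 320, .ofNat 320, .ofNat 560,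
      .ofNat 680], [.negSucc 819, .ofNat 360, .ofNat 240, .ofNat 235, .ofNat 2, .negSucc 64,
      .ofNat 0, .ofNat 0, .ofNat 0, .ofNat 0, .ofNat 0])]), (false, [([.ofNat 65, .ofNat 50,
      .ofNat 35, .ofNat 100, .ofNat 45, .ofNat 50], [.negSucc 44, .negSucc 49, .negSucc 54,
      .ofNat 45, .negSucc 0, .ofNat 0, .ofNat 0, .ofNat 0, .ofNat 0, .ofNat 0, .ofNat 0])]),
      (false, [([.ofNat 1, .ofNat 1, .ofNat 1, .ofNat 1, .ofNat 1, .ofNat 1, .ofNat 1],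
      [.negSucc 0, .negSucc 0, .negSucc 0, .ofNat 1, .ofNat 0, .ofNat 0, .ofNat 0, .ofNat 0,
      .ofNat 0, .ofNat 0, .ofNat 0])]), (true, []), (true, []), (true, [])]⟩

lemma e012_3_ok : okE dt e012_3 = true := by decide +kernel

/-- the fibres with solutions -/
def E012 : List Cfg := [
    e012_0, e012_1, e012_2, e012_3]

/-- the fibres without solutions -/
def Z012 : List Cfg := [
    ⟨[(0, 1), (1, 1), (2, 3)], [(false, [([.ofNat 2400], [.negSucc 959, .ofNat 1140, .ofNat 200,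
      .ofNat 363, .negSucc 44, .negSucc 55, .ofNat 24, .ofNat 0, .ofNat 8, .ofNat 0, .negSucc 21,
      .ofNat 2])]), (false, [([.ofNat 40, .negSucc 199], [.ofNat 200, .negSucc 139, .negSucc 119,
      .negSucc 0, .ofNat 5, .ofNat 2, .negSucc 5, .ofNat 0, .ofNat 4, .ofNat 0, .ofNat 2,
      .ofNat 0])]), (false, [([.ofNat 20, .ofNat 20, .ofNat 20], [.negSucc 19, .ofNat 20,
      .ofNat 0, .ofNat 6, .negSucc 1, .negSucc 0, .ofNat 0, .ofNat 0, .ofNat 1, .ofNat 0,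
      .ofNat 0, .ofNat 0])]), (false, [([.ofNat 20, .ofNat 20, .ofNat 20, .ofNat 20],
      [.negSucc 19, .ofNat 0, .ofNat 0, .ofNat 10, .negSucc 1, .ofNat 1, .ofNat 0, .ofNat 0,
      .ofNat 0, .ofNat 0, .ofNat 0, .ofNat 0])]), (false, [([.ofNat 20, .ofNat 20, .ofNat 40,
      .ofNat 40, .ofNat 60], [.negSucc 79, .ofNat 40, .ofNat 20, .ofNat 20, .negSucc 4, .ofNat 0,
      .ofNat 1, .ofNat 0, .ofNat 0, .ofNat 0, .ofNat 0, .ofNat 0])]), (false, [([.ofNat 2,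
      .ofNat 4, .ofNat 6, .ofNat 8, .ofNat 10, .ofNat 12], [.negSucc 13, .ofNat 4, .ofNat 2,
      .ofNat 5, .negSucc 0, .ofNat 0, .ofNat 0, .ofNat 0, .ofNat 0, .ofNat 0, .ofNat 0,
      .ofNat 0])]), (false, [([.ofNat 1, .ofNat 1, .ofNat 1, .ofNat 1, .ofNat 1, .ofNat 1,
      .ofNat 1], [.negSucc 0, .negSucc 0, .negSucc 0, .ofNat 1, .ofNat 0, .ofNat 0, .ofNat 0,
      .ofNat 0, .ofNat 0, .ofNat 0, .ofNat 0, .ofNat 0])]), (true, []), (true, []), (true, [])]⟩,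
    ⟨[(0, 1), (1, 2), (2, 2)], [(false, [([.ofNat 1200], [.negSucc 1079, .ofNat 760, .ofNat 600,
      .ofNat 29, .negSucc 32, .negSucc 23, .ofNat 24, .negSucc 1, .ofNat 0, .negSucc 15, .ofNat 0,
      .negSucc 11])]), (false, [([.ofNat 240, .ofNat 0], [.ofNat 120, .negSucc 79, .negSucc 119,
      .ofNat 23, .negSucc 2, .negSucc 11, .negSucc 11, .negSucc 1, .ofNat 0, .ofNat 8, .ofNat 0,
      .ofNat 0])]), (false, [([.ofNat 160, .negSucc 79, .ofNat 160], [.negSucc 279, .ofNat 240,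
      .ofNat 120, .ofNat 25, .negSucc 12, .ofNat 4, .ofNat 12, .ofNat 2, .ofNat 0, .ofNat 0,
      .ofNat 0, .ofNat 0])]), (false, [([.ofNat 20, .ofNat 20, .ofNat 20, .ofNat 20],
      [.negSucc 19, .ofNat 0, .ofNat 0, .ofNat 10, .negSucc 1, .ofNat 1, .ofNat 0, .ofNat 0,
      .ofNat 0, .ofNat 0, .ofNat 0, .ofNat 0])]), (false, [([.ofNat 20, .ofNat 20, .ofNat 40,
      .ofNat 40, .ofNat 60], [.negSucc 79, .ofNat 40, .ofNat 20, .ofNat 20, .negSucc 4, .ofNat 0,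
      .ofNat 1, .ofNat 0, .ofNat 0, .ofNat 0, .ofNat 0, .ofNat 0])]), (false, [([.ofNat 2,
      .ofNat 4, .ofNat 6, .ofNat 8, .ofNat 10, .ofNat 12], [.negSucc 13, .ofNat 4, .ofNat 2,
      .ofNat 5, .negSucc 0, .ofNat 0, .ofNat 0, .ofNat 0, .ofNat 0, .ofNat 0, .ofNat 0,
      .ofNat 0])]), (false, [([.ofNat 1, .ofNat 1, .ofNat 1, .ofNat 1, .ofNat 1, .ofNat 1,
      .ofNat 1], [.negSucc 0, .negSucc 0, .negSucc 0, .ofNat 1, .ofNat 0, .ofNat 0, .ofNat 0,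
      .ofNat 0, .ofNat 0, .ofNat 0, .ofNat 0, .ofNat 0])]), (true, []), (true, []), (true, [])]⟩,
    ⟨[(0, 1), (1, 3), (2, 1)], [(false, [([.ofNat 480], [.ofNat 0, .ofNat 440, .negSucc 239,
      .negSucc 222, .negSucc 32, .negSucc 79, .negSucc 47, .ofNat 2, .negSucc 1, .ofNat 0,
      .ofNat 32, .ofNat 0])]), (false, [([.ofNat 960, .negSucc 479], [.ofNat 480, .negSucc 759,
      .negSucc 239, .ofNat 315, .ofNat 21, .ofNat 32, .ofNat 0, .negSucc 9, .ofNat 2, .ofNat 0,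
      .ofNat 0, .ofNat 0])]), (false, [([.ofNat 160, .negSucc 79, .ofNat 160], [.negSucc 279,
      .ofNat 240, .ofNat 120, .ofNat 25, .negSucc 12, .ofNat 4, .ofNat 12, .ofNat 2, .ofNat 0,
      .ofNat 0, .ofNat 0, .ofNat 0])]), (false, [([.ofNat 20, .ofNat 20, .ofNat 20, .ofNat 20],
      [.negSucc 19, .ofNat 0, .ofNat 0, .ofNat 10, .negSucc 1, .ofNat 1, .ofNat 0, .ofNat 0,
      .ofNat 0, .ofNat 0, .ofNat 0, .ofNat 0])]), (false, [([.ofNat 20, .ofNat 20, .ofNat 40,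
      .ofNat 40, .ofNat 60], [.negSucc 79, .ofNat 40, .ofNat 20, .ofNat 20, .negSucc 4, .ofNat 0,
      .ofNat 1, .ofNat 0, .ofNat 0, .ofNat 0, .ofNat 0, .ofNat 0])]), (false, [([.ofNat 2,
      .ofNat 4, .ofNat 6, .ofNat 8, .ofNat 10, .ofNat 12], [.negSucc 13, .ofNat 4, .ofNat 2,
      .ofNat 5, .negSucc 0, .ofNat 0, .ofNat 0, .ofNat 0, .ofNat 0, .ofNat 0, .ofNat 0,
      .ofNat 0])]), (false, [([.ofNat 1, .ofNat 1, .ofNat 1, .ofNat 1, .ofNat 1, .ofNat 1,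
      .ofNat 1], [.negSucc 0, .negSucc 0, .negSucc 0, .ofNat 1, .ofNat 0, .ofNat 0, .ofNat 0,
      .ofNat 0, .ofNat 0, .ofNat 0, .ofNat 0, .ofNat 0])]), (true, []), (true, []), (true, [])]⟩,
    ⟨[(0, 2), (1, 1), (2, 2)], [(false, [([.ofNat 1400], [.negSucc 1379, .ofNat 1040, .ofNat 800,
      .ofNat 49, .ofNat 2, .negSucc 54, .negSucc 27, .ofNat 28, .ofNat 0, .negSucc 15, .ofNat 0,
      .negSucc 11])]), (false, [([.ofNat 240, .ofNat 200], [.negSucc 179, .ofNat 200, .ofNat 80,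
      .ofNat 43, .ofNat 2, .negSucc 24, .negSucc 15, .negSucc 7, .ofNat 0, .ofNat 8, .ofNat 0,
      .ofNat 0])]), (false, [([.ofNat 160, .negSucc 79, .negSucc 39], [.ofNat 20, .negSucc 39,
      .negSucc 79, .ofNat 5, .negSucc 1, .ofNat 9, .ofNat 8, .ofNat 8, .ofNat 0, .ofNat 0,
      .ofNat 0, .ofNat 0])]), (false, [([.ofNat 20, .ofNat 20, .ofNat 20, .ofNat 20],
      [.negSucc 19, .ofNat 0, .ofNat 0, .ofNat 10, .ofNat 0, .negSucc 1, .ofNat 1, .ofNat 0,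
      .ofNat 0, .ofNat 0, .ofNat 0, .ofNat 0])]), (false, [([.ofNat 160, .ofNat 320, .ofNat 320,
      .ofNat 560, .ofNat 680], [.negSucc 819, .ofNat 360, .ofNat 240, .ofNat 235, .ofNat 2,
      .negSucc 64, .ofNat 0, .ofNat 0, .ofNat 0, .ofNat 0, .ofNat 0, .ofNat 0])]), (false,
      [([.ofNat 65, .ofNat 50, .ofNat 35, .ofNat 100, .ofNat 45, .ofNat 50], [.negSucc 44,
      .negSucc 49, .negSucc 54, .ofNat 45, .negSucc 0, .ofNat 0, .ofNat 0, .ofNat 0, .ofNat 0,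
      .ofNat 0, .ofNat 0, .ofNat 0])]), (false, [([.ofNat 1, .ofNat 1, .ofNat 1, .ofNat 1,
      .ofNat 1, .ofNat 1, .ofNat 1], [.negSucc 0, .negSucc 0, .negSucc 0, .ofNat 1, .ofNat 0,
      .ofNat 0, .ofNat 0, .ofNat 0, .ofNat 0, .ofNat 0, .ofNat 0, .ofNat 0])]), (true, []), (true,
      []), (true, [])]⟩,
    ⟨[(0, 2), (1, 2), (2, 1)], [(false, [([.ofNat 100], [.negSucc 149, .ofNat 140, .ofNat 100,
      .ofNat 10, .ofNat 1, .negSucc 10, .negSucc 1, .ofNat 2, .ofNat 1, .ofNat 0, .ofNat 0,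
      .ofNat 0])]), (false, [([.ofNat 240, .ofNat 200], [.negSucc 179, .ofNat 200, .ofNat 80,
      .ofNat 43, .ofNat 2, .negSucc 24, .negSucc 15, .negSucc 7, .ofNat 0, .ofNat 0, .ofNat 8,
      .ofNat 0])]), (false, [([.ofNat 160, .negSucc 79, .negSucc 39], [.ofNat 20, .negSucc 39,
      .negSucc 79, .ofNat 5, .negSucc 1, .ofNat 9, .ofNat 8, .ofNat 8, .ofNat 0, .ofNat 0,
      .ofNat 0, .ofNat 0])]), (false, [([.ofNat 20, .ofNat 20, .ofNat 20, .ofNat 20],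
      [.negSucc 19, .ofNat 0, .ofNat 0, .ofNat 10, .ofNat 0, .negSucc 1, .ofNat 1, .ofNat 0,
      .ofNat 0, .ofNat 0, .ofNat 0, .ofNat 0])]), (false, [([.ofNat 160, .ofNat 320, .ofNat 320,
      .ofNat 560, .ofNat 680], [.negSucc 819, .ofNat 360, .ofNat 240, .ofNat 235, .ofNat 2,
      .negSucc 64, .ofNat 0, .ofNat 0, .ofNat 0, .ofNat 0, .ofNat 0, .ofNat 0])]), (false,
      [([.ofNat 65, .ofNat 50, .ofNat 35, .ofNat 100, .ofNat 45, .ofNat 50], [.negSucc 44,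
      .negSucc 49, .negSucc 54, .ofNat 45, .negSucc 0, .ofNat 0, .ofNat 0, .ofNat 0, .ofNat 0,
      .ofNat 0, .ofNat 0, .ofNat 0])]), (false, [([.ofNat 1, .ofNat 1, .ofNat 1, .ofNat 1,
      .ofNat 1, .ofNat 1, .ofNat 1], [.negSucc 0, .negSucc 0, .negSucc 0, .ofNat 1, .ofNat 0,
      .ofNat 0, .ofNat 0, .ofNat 0, .ofNat 0, .ofNat 0, .ofNat 0, .ofNat 0])]), (true, []), (true,
      []), (true, [])]⟩,
    ⟨[(0, 3), (1, 1), (2, 1)], [(false, [([.ofNat 400], [.negSucc 1099, .ofNat 640, .ofNat 1120,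
      .ofNat 243, .ofNat 2, .ofNat 2, .negSucc 64, .negSucc 15, .negSucc 15, .ofNat 0,
      .negSucc 31, .ofNat 0])]), (false, [([.ofNat 960, .ofNat 1200], [.negSucc 1819, .ofNat 1440,
      .ofNat 1440, .ofNat 415, .ofNat 10, .ofNat 2, .negSucc 164, .negSucc 79, .negSucc 47,
      .ofNat 0, .ofNat 0, .ofNat 0])]), (false, [([.ofNat 960, .ofNat 480, .ofNat 960],
      [.negSucc 1699, .ofNat 1200, .ofNat 960, .ofNat 445, .negSucc 1, .ofNat 2, .negSucc 110,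
      .negSucc 31, .ofNat 0, .ofNat 0, .ofNat 0, .ofNat 0])]), (false, [([.ofNat 640, .ofNat 1600,
      .ofNat 1120, .ofNat 1600], [.negSucc 2339, .ofNat 1200, .ofNat 960, .ofNat 765, .negSucc 1,
      .ofNat 2, .negSucc 174, .ofNat 0, .ofNat 0, .ofNat 0, .ofNat 0, .ofNat 0])]), (false,
      [([.ofNat 2800, .ofNat 1440, .negSucc 4799, .ofNat 2520, .ofNat 1500], [.ofNat 860,
      .negSucc 1499, .negSucc 2039, .negSucc 859, .ofNat 48, .negSucc 12, .ofNat 0, .ofNat 0,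
      .ofNat 0, .ofNat 0, .ofNat 0, .ofNat 0])]), (false, [([.ofNat 65, .ofNat 50, .ofNat 35,
      .ofNat 100, .ofNat 45, .ofNat 50], [.negSucc 44, .negSucc 49, .negSucc 54, .ofNat 45,
      .negSucc 0, .ofNat 0, .ofNat 0, .ofNat 0, .ofNat 0, .ofNat 0, .ofNat 0, .ofNat 0])]),
      (false, [([.ofNat 1, .ofNat 1, .ofNat 1, .ofNat 1, .ofNat 1, .ofNat 1, .ofNat 1],
      [.negSucc 0, .negSucc 0, .negSucc 0, .ofNat 1, .ofNat 0, .ofNat 0, .ofNat 0, .ofNat 0,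
      .ofNat 0, .ofNat 0, .ofNat 0, .ofNat 0])]), (true, []), (true, []), (true, [])]⟩]

lemma E012_ok : E012.all (okE dt) = true := by
  simp only [E012, List.all_cons, List.all_nil, Bool.and_self,
    e012_0_ok, e012_1_ok, e012_2_ok, e012_3_ok]

lemma Z012_ok : Z012.all (okZ dt) = true := by decide +kernel

lemma cov012 : (prods 3).all (fun a => cov E012 Z012 (([0, 1, 2] : List (Fin 10)).zip a)) = true := by
  decide +kernel

theorem typ012 : Typ dt [0, 1, 2] E012 Z012 := ⟨E012_ok, Z012_ok, cov012, by decide +kernel⟩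

/-- a fibre -/
def e013_0 : Cfg :=
    ⟨[(0, 1), (1, 1), (3, 1)], [(false, []), (false, [([.ofNat 20, .ofNat 20], [.negSucc 19,
      .negSucc 19, .ofNat 20, .ofNat 6, .ofNat 0, .negSucc 0, .negSucc 0, .negSucc 0, .ofNat 0,
      .ofNat 0])]), (false, [([.ofNat 20, .ofNat 20, .ofNat 20], [.negSucc 19, .ofNat 20,
      .negSucc 19, .ofNat 8, .negSucc 0, .ofNat 0, .ofNat 1, .ofNat 0, .ofNat 1, .ofNat 0])]),
      (false, [([.ofNat 20, .ofNat 20, .ofNat 20, .ofNat 20], [.negSucc 19, .ofNat 0, .ofNat 0,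
      .ofNat 10, .negSucc 1, .ofNat 1, .ofNat 0, .ofNat 0, .ofNat 0, .ofNat 0])]), (false,
      [([.ofNat 10, .ofNat 0, .ofNat 10, .ofNat 0, .ofNat 10], [.negSucc 19, .ofNat 10,
      .negSucc 9, .ofNat 5, .ofNat 0, .ofNat 0, .ofNat 1, .ofNat 0, .ofNat 0, .ofNat 0])]),
      (false, [([.ofNat 4, .ofNat 6, .ofNat 8, .ofNat 10, .ofNat 12, .ofNat 14], [.negSucc 15,
      .ofNat 2, .negSucc 1, .ofNat 7, .negSucc 0, .ofNat 0, .ofNat 0, .ofNat 0, .ofNat 0,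
      .ofNat 0])]), (true, []), (false, [([.ofNat 1, .ofNat 0, .ofNat 1, .ofNat 1, .ofNat 1,
      .ofNat 1, .ofNat 1, .ofNat 1], [.negSucc 0, .negSucc 0, .negSucc 0, .ofNat 1, .ofNat 0,
      .ofNat 0, .ofNat 0, .ofNat 0, .ofNat 0, .ofNat 0])]), (true, []), (true, [])]⟩

lemma e013_0_ok : okE dt e013_0 = true := by decide +kernel

/-- the fibres with solutions -/
def E013 : List Cfg := [
    e013_0]

/-- the fibres without solutions -/
def Z013 : List Cfg := [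
    ⟨[(0, 1), (1, 1), (3, 2)], [(false, [([.ofNat 40], [.ofNat 80, .ofNat 140, .negSucc 159, .ofNat 7,
      .ofNat 4, .negSucc 3, .ofNat 8, .ofNat 1, .ofNat 6, .ofNat 0, .ofNat 2])]), (false,
      [([.ofNat 20, .ofNat 20], [.negSucc 19, .negSucc 19, .ofNat 20, .ofNat 6, .ofNat 0,
      .negSucc 0, .negSucc 0, .negSucc 0, .ofNat 0, .ofNat 0, .ofNat 0])]), (false, [([.ofNat 20,
      .ofNat 20, .ofNat 20], [.negSucc 19, .ofNat 20, .negSucc 19, .ofNat 8, .negSucc 0, .ofNat 0,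
      .ofNat 1, .ofNat 0, .ofNat 1, .ofNat 0, .ofNat 0])]), (false, [([.ofNat 20, .ofNat 20,
      .ofNat 20, .ofNat 20], [.negSucc 19, .ofNat 0, .ofNat 0, .ofNat 10, .negSucc 1, .ofNat 1,
      .ofNat 0, .ofNat 0, .ofNat 0, .ofNat 0, .ofNat 0])]), (false, [([.ofNat 10, .ofNat 0,
      .ofNat 10, .ofNat 0, .ofNat 10], [.negSucc 19, .ofNat 10, .negSucc 9, .ofNat 5, .ofNat 0,
      .ofNat 0, .ofNat 1, .ofNat 0, .ofNat 0, .ofNat 0, .ofNat 0])]), (false, [([.ofNat 4,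
      .ofNat 6, .ofNat 8, .ofNat 10, .ofNat 12, .ofNat 14], [.negSucc 15, .ofNat 2, .negSucc 1,
      .ofNat 7, .negSucc 0, .ofNat 0, .ofNat 0, .ofNat 0, .ofNat 0, .ofNat 0, .ofNat 0])]), (true,
      []), (false, [([.ofNat 1, .ofNat 0, .ofNat 1, .ofNat 1, .ofNat 1, .ofNat 1, .ofNat 1,
      .ofNat 1], [.negSucc 0, .negSucc 0, .negSucc 0, .ofNat 1, .ofNat 0, .ofNat 0, .ofNat 0,
      .ofNat 0, .ofNat 0, .ofNat 0, .ofNat 0])]), (true, []), (true, [])]⟩,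
    ⟨[(0, 1), (1, 2), (3, 1)], [(false, [([.ofNat 240], [.negSucc 359, .negSucc 399, .ofNat 400,
      .ofNat 69, .ofNat 13, .negSucc 7, .negSucc 7, .ofNat 2, .negSucc 17, .negSucc 7,
      .ofNat 0])]), (false, [([.ofNat 20, .ofNat 20], [.negSucc 19, .negSucc 19, .ofNat 20,
      .ofNat 6, .ofNat 0, .negSucc 0, .negSucc 0, .ofNat 0, .negSucc 0, .ofNat 0, .ofNat 0])]),
      (false, [([.ofNat 160, .negSucc 199, .ofNat 40], [.negSucc 159, .ofNat 120, .negSucc 119,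
      .ofNat 25, .ofNat 5, .ofNat 10, .ofNat 18, .ofNat 2, .ofNat 0, .ofNat 0, .ofNat 0])]),
      (false, [([.ofNat 20, .ofNat 20, .ofNat 20, .ofNat 20], [.negSucc 19, .ofNat 0, .ofNat 0,
      .ofNat 10, .negSucc 1, .ofNat 1, .ofNat 0, .ofNat 0, .ofNat 0, .ofNat 0, .ofNat 0])]),
      (false, [([.ofNat 10, .ofNat 0, .ofNat 10, .ofNat 0, .ofNat 10], [.negSucc 19, .ofNat 10,
      .negSucc 9, .ofNat 5, .ofNat 0, .ofNat 0, .ofNat 1, .ofNat 0, .ofNat 0, .ofNat 0,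
      .ofNat 0])]), (false, [([.ofNat 4, .ofNat 6, .ofNat 8, .ofNat 10, .ofNat 12, .ofNat 14],
      [.negSucc 15, .ofNat 2, .negSucc 1, .ofNat 7, .negSucc 0, .ofNat 0, .ofNat 0, .ofNat 0,
      .ofNat 0, .ofNat 0, .ofNat 0])]), (true, []), (false, [([.ofNat 1, .ofNat 0, .ofNat 1,
      .ofNat 1, .ofNat 1, .ofNat 1, .ofNat 1, .ofNat 1], [.negSucc 0, .negSucc 0, .negSucc 0,
      .ofNat 1, .ofNat 0, .ofNat 0, .ofNat 0, .ofNat 0, .ofNat 0, .ofNat 0, .ofNat 0])]), (true,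
      []), (true, [])]⟩,
    ⟨[(0, 2), (1, 1), (3, 1)], [(false, [([.ofNat 40], [.negSucc 59, .negSucc 279, .ofNat 400,
      .negSucc 10, .negSucc 1, .ofNat 5, .negSucc 3, .negSucc 11, .negSucc 7, .negSucc 7,
      .ofNat 0])]), (false, [([.ofNat 20, .ofNat 20], [.negSucc 19, .negSucc 19, .ofNat 20,
      .ofNat 6, .ofNat 0, .ofNat 0, .negSucc 0, .negSucc 0, .negSucc 0, .ofNat 0, .ofNat 0])]),
      (false, [([.ofNat 160, .ofNat 0, .ofNat 40], [.negSucc 59, .ofNat 40, .ofNat 80, .ofNat 5,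
      .negSucc 1, .negSucc 2, .ofNat 4, .ofNat 4, .ofNat 0, .ofNat 0, .ofNat 0])]), (false,
      [([.ofNat 20, .ofNat 20, .ofNat 20, .ofNat 20], [.negSucc 19, .ofNat 0, .ofNat 0, .ofNat 10,
      .ofNat 0, .negSucc 1, .ofNat 1, .ofNat 0, .ofNat 0, .ofNat 0, .ofNat 0])]), (false,
      [([.ofNat 40, .ofNat 80, .negSucc 39, .ofNat 80, .ofNat 80], [.negSucc 99, .ofNat 0,
      .negSucc 119, .ofNat 55, .ofNat 2, .negSucc 4, .ofNat 0, .ofNat 0, .ofNat 0, .ofNat 0,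
      .ofNat 0])]), (false, [([.ofNat 10, .negSucc 4, .negSucc 19, .ofNat 45, .negSucc 9,
      .negSucc 4], [.ofNat 10, .ofNat 5, .ofNat 55, .negSucc 9, .negSucc 0, .ofNat 0, .ofNat 0,
      .ofNat 0, .ofNat 0, .ofNat 0, .ofNat 0])]), (true, []), (false, [([.ofNat 1, .ofNat 0,
      .ofNat 1, .ofNat 1, .ofNat 1, .ofNat 1, .ofNat 1, .ofNat 1], [.negSucc 0, .negSucc 0,
      .negSucc 0, .ofNat 1, .ofNat 0, .ofNat 0, .ofNat 0, .ofNat 0, .ofNat 0, .ofNat 0,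
      .ofNat 0])]), (true, []), (true, [])]⟩]

lemma E013_ok : E013.all (okE dt) = true := by
  simp only [E013, List.all_cons, List.all_nil, Bool.and_self,
    e013_0_ok]

lemma Z013_ok : Z013.all (okZ dt) = true := by decide +kernel

lemma cov013 : (prods 3).all (fun a => cov E013 Z013 (([0, 1, 3] : List (Fin 10)).zip a)) = true := by
  decide +kernel

theorem typ013 : Typ dt [0, 1, 3] E013 Z013 := ⟨E013_ok, Z013_ok, cov013, by decide +kernel⟩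

/-- a fibre -/
def e014_0 : Cfg :=
    ⟨[(0, 1), (1, 1), (4, 1)], [(false, []), (false, [([.ofNat 20, .ofNat 20], [.ofNat 0, .ofNat 0,
      .negSucc 19, .ofNat 6, .negSucc 0, .negSucc 0, .negSucc 0, .ofNat 0, .ofNat 1, .ofNat 0])]),
      (false, [([.ofNat 20, .ofNat 20, .ofNat 40], [.negSucc 59, .ofNat 0, .ofNat 20, .ofNat 12,
      .negSucc 0, .ofNat 0, .ofNat 1, .negSucc 0, .ofNat 0, .ofNat 0])]), (false, [([.ofNat 20,
      .ofNat 20, .ofNat 20, .ofNat 20], [.negSucc 19, .ofNat 0, .ofNat 0, .ofNat 10, .negSucc 1,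
      .ofNat 1, .ofNat 0, .ofNat 0, .ofNat 0, .ofNat 0])]), (false, [([.ofNat 20, .ofNat 40,
      .ofNat 40, .ofNat 60, .ofNat 60], [.negSucc 59, .ofNat 0, .negSucc 19, .ofNat 30,
      .negSucc 4, .ofNat 0, .negSucc 0, .ofNat 0, .ofNat 0, .ofNat 0])]), (true, []), (false,
      [([.ofNat 2, .ofNat 0, .ofNat 6, .ofNat 8, .ofNat 10, .ofNat 12, .ofNat 14], [.negSucc 15,
      .ofNat 2, .negSucc 3, .ofNat 7, .negSucc 0, .ofNat 0, .ofNat 0, .ofNat 0, .ofNat 0,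
      .ofNat 0])]), (false, [([.ofNat 1, .ofNat 1, .ofNat 0, .ofNat 1, .ofNat 1, .ofNat 1,
      .ofNat 1, .ofNat 1], [.negSucc 0, .negSucc 0, .negSucc 0, .ofNat 1, .ofNat 0, .ofNat 0,
      .ofNat 0, .ofNat 0, .ofNat 0, .ofNat 0])]), (true, []), (true, [])]⟩

lemma e014_0_ok : okE dt e014_0 = true := by decide +kernel

/-- the fibres with solutions -/
def E014 : List Cfg := [
    e014_0]

/-- the fibres without solutions -/
def Z014 : List Cfg := [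
    ⟨[(0, 1), (1, 1), (4, 2)], [(false, [([.ofNat 80], [.negSucc 299, .negSucc 119, .ofNat 260,
      .ofNat 15, .ofNat 3, .ofNat 6, .ofNat 12, .negSucc 5, .negSucc 6, .ofNat 0, .negSucc 1])]),
      (false, [([.ofNat 20, .ofNat 20], [.ofNat 0, .ofNat 0, .negSucc 19, .ofNat 6, .negSucc 0,
      .negSucc 0, .negSucc 0, .ofNat 0, .ofNat 1, .ofNat 0, .ofNat 0])]), (false, [([.ofNat 20,
      .ofNat 20, .ofNat 40], [.negSucc 59, .ofNat 0, .ofNat 20, .ofNat 12, .negSucc 0, .ofNat 0,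
      .ofNat 1, .negSucc 0, .ofNat 0, .ofNat 0, .ofNat 0])]), (false, [([.ofNat 20, .ofNat 20,
      .ofNat 20, .ofNat 20], [.negSucc 19, .ofNat 0, .ofNat 0, .ofNat 10, .negSucc 1, .ofNat 1,
      .ofNat 0, .ofNat 0, .ofNat 0, .ofNat 0, .ofNat 0])]), (false, [([.ofNat 20, .ofNat 40,
      .ofNat 40, .ofNat 60, .ofNat 60], [.negSucc 59, .ofNat 0, .negSucc 19, .ofNat 30,
      .negSucc 4, .ofNat 0, .negSucc 0, .ofNat 0, .ofNat 0, .ofNat 0, .ofNat 0])]), (true, []),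
      (false, [([.ofNat 2, .ofNat 0, .ofNat 6, .ofNat 8, .ofNat 10, .ofNat 12, .ofNat 14],
      [.negSucc 15, .ofNat 2, .negSucc 3, .ofNat 7, .negSucc 0, .ofNat 0, .ofNat 0, .ofNat 0,
      .ofNat 0, .ofNat 0, .ofNat 0])]), (false, [([.ofNat 1, .ofNat 1, .ofNat 0, .ofNat 1,
      .ofNat 1, .ofNat 1, .ofNat 1, .ofNat 1], [.negSucc 0, .negSucc 0, .negSucc 0, .ofNat 1,
      .ofNat 0, .ofNat 0, .ofNat 0, .ofNat 0, .ofNat 0, .ofNat 0, .ofNat 0])]), (true, []), (true,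
      [])]⟩,
    ⟨[(0, 1), (1, 2), (4, 1)], [(false, [([.ofNat 80], [.ofNat 80, .ofNat 0, .negSucc 279, .ofNat 37,
      .negSucc 4, .negSucc 7, .negSucc 7, .ofNat 2, .ofNat 2, .ofNat 6, .ofNat 0])]), (false,
      [([.ofNat 120, .ofNat 40], [.negSucc 79, .ofNat 0, .ofNat 160, .negSucc 0, .negSucc 0,
      .ofNat 2, .ofNat 2, .negSucc 1, .negSucc 1, .ofNat 0, .ofNat 0])]), (false, [([.ofNat 40,
      .negSucc 79, .ofNat 40], [.negSucc 39, .ofNat 0, .negSucc 119, .ofNat 25, .negSucc 0,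
      .negSucc 1, .ofNat 0, .ofNat 2, .ofNat 0, .ofNat 0, .ofNat 0])]), (false, [([.ofNat 20,
      .ofNat 20, .ofNat 20, .ofNat 20], [.negSucc 19, .ofNat 0, .ofNat 0, .ofNat 10, .negSucc 1,
      .ofNat 1, .ofNat 0, .ofNat 0, .ofNat 0, .ofNat 0, .ofNat 0])]), (false, [([.ofNat 20,
      .ofNat 40, .ofNat 40, .ofNat 60, .ofNat 60], [.negSucc 59, .ofNat 0, .negSucc 19, .ofNat 30,
      .negSucc 4, .ofNat 0, .negSucc 0, .ofNat 0, .ofNat 0, .ofNat 0, .ofNat 0])]), (true, []),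
      (false, [([.ofNat 2, .ofNat 0, .ofNat 6, .ofNat 8, .ofNat 10, .ofNat 12, .ofNat 14],
      [.negSucc 15, .ofNat 2, .negSucc 3, .ofNat 7, .negSucc 0, .ofNat 0, .ofNat 0, .ofNat 0,
      .ofNat 0, .ofNat 0, .ofNat 0])]), (false, [([.ofNat 1, .ofNat 1, .ofNat 0, .ofNat 1,
      .ofNat 1, .ofNat 1, .ofNat 1, .ofNat 1], [.negSucc 0, .negSucc 0, .negSucc 0, .ofNat 1,
      .ofNat 0, .ofNat 0, .ofNat 0, .ofNat 0, .ofNat 0, .ofNat 0, .ofNat 0])]), (true, []), (true,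
      [])]⟩,
    ⟨[(0, 2), (1, 1), (4, 1)], [(false, [([.ofNat 120], [.negSucc 579, .negSucc 119, .ofNat 480,
      .ofNat 43, .ofNat 2, .ofNat 3, .ofNat 4, .ofNat 12, .negSucc 11, .negSucc 15, .ofNat 0])]),
      (false, [([.ofNat 320, .ofNat 440], [.negSucc 579, .negSucc 119, .ofNat 160, .ofNat 139,
      .ofNat 2, .negSucc 12, .negSucc 11, .negSucc 3, .negSucc 11, .ofNat 0, .ofNat 0])]), (false,
      [([.ofNat 240, .negSucc 79, .ofNat 40], [.negSucc 139, .ofNat 120, .ofNat 80, .ofNat 5,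
      .negSucc 1, .ofNat 1, .ofNat 12, .ofNat 16, .ofNat 0, .ofNat 0, .ofNat 0])]), (false,
      [([.ofNat 20, .ofNat 20, .ofNat 20, .ofNat 20], [.negSucc 19, .ofNat 0, .ofNat 0, .ofNat 10,
      .ofNat 0, .negSucc 1, .ofNat 1, .ofNat 0, .ofNat 0, .ofNat 0, .ofNat 0])]), (false,
      [([.ofNat 320, .ofNat 400, .ofNat 640, .ofNat 640, .ofNat 760], [.negSucc 859, .ofNat 120,
      .negSucc 239, .ofNat 365, .negSucc 1, .negSucc 54, .ofNat 0, .ofNat 0, .ofNat 0, .ofNat 0,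
      .ofNat 0])]), (true, []), (false, [([.ofNat 55, .ofNat 0, .ofNat 5, .ofNat 20, .negSucc 44,
      .ofNat 10, .ofNat 5], [.negSucc 9, .negSucc 4, .ofNat 10, .ofNat 10, .ofNat 1, .ofNat 0,
      .ofNat 0, .ofNat 0, .ofNat 0, .ofNat 0, .ofNat 0])]), (false, [([.ofNat 1, .ofNat 1,
      .ofNat 0, .ofNat 1, .ofNat 1, .ofNat 1, .ofNat 1, .ofNat 1], [.negSucc 0, .negSucc 0,
      .negSucc 0, .ofNat 1, .ofNat 0, .ofNat 0, .ofNat 0, .ofNat 0, .ofNat 0, .ofNat 0,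
      .ofNat 0])]), (true, []), (true, [])]⟩]

lemma E014_ok : E014.all (okE dt) = true := by
  simp only [E014, List.all_cons, List.all_nil, Bool.and_self,
    e014_0_ok]

lemma Z014_ok : Z014.all (okZ dt) = true := by decide +kernel

lemma cov014 : (prods 3).all (fun a => cov E014 Z014 (([0, 1, 4] : List (Fin 10)).zip a)) = true := by
  decide +kernel

theorem typ014 : Typ dt [0, 1, 4] E014 Z014 := ⟨E014_ok, Z014_ok, cov014, by decide +kernel⟩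

/-- a fibre -/
def e015_0 : Cfg :=
    ⟨[(0, 1), (1, 1), (5, 1)], [(false, []), (false, []), (false, [([.ofNat 20, .ofNat 40, .ofNat 60],
      [.negSucc 79, .ofNat 0, .ofNat 0, .ofNat 20, .negSucc 2, .negSucc 0, .ofNat 0, .negSucc 0,
      .ofNat 0, .ofNat 0])]), (false, [([.ofNat 20, .ofNat 20, .ofNat 20, .ofNat 20],
      [.negSucc 19, .ofNat 0, .ofNat 0, .ofNat 10, .negSucc 1, .ofNat 1, .ofNat 0, .ofNat 0,
      .ofNat 0, .ofNat 0])]), (true, []), (false, [([.ofNat 20, .ofNat 0, .ofNat 40, .ofNat 40,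
      .ofNat 60, .ofNat 60], [.negSucc 59, .ofNat 0, .negSucc 19, .ofNat 30, .negSucc 4, .ofNat 0,
      .negSucc 0, .ofNat 0, .ofNat 0, .ofNat 0])]), (false, [([.ofNat 2, .ofNat 4, .ofNat 0,
      .ofNat 8, .ofNat 10, .ofNat 12, .ofNat 14], [.negSucc 15, .ofNat 2, .negSucc 5, .ofNat 7,
      .negSucc 0, .ofNat 0, .ofNat 0, .ofNat 0, .ofNat 0, .ofNat 0])]), (false, [([.ofNat 1,
      .ofNat 1, .ofNat 1, .ofNat 0, .ofNat 1, .ofNat 1, .ofNat 1, .ofNat 1], [.negSucc 0,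
      .negSucc 0, .negSucc 0, .ofNat 1, .ofNat 0, .ofNat 0, .ofNat 0, .ofNat 0, .ofNat 0,
      .ofNat 0])]), (true, []), (true, [])]⟩

lemma e015_0_ok : okE dt e015_0 = true := by decide +kernel

/-- a fibre -/
def e015_1 : Cfg :=
    ⟨[(0, 1), (1, 1), (5, 2)], [(false, []), (false, [([.ofNat 240, .ofNat 120], [.negSucc 159,
      .negSucc 239, .ofNat 100, .ofNat 75, .negSucc 2, .negSucc 0, .negSucc 5, .negSucc 5,
      .ofNat 0, .ofNat 0, .ofNat 2])]), (false, [([.ofNat 20, .ofNat 40, .ofNat 60], [.negSucc 79,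
      .ofNat 0, .ofNat 0, .ofNat 20, .negSucc 2, .negSucc 0, .ofNat 0, .negSucc 0, .ofNat 0,
      .ofNat 0, .ofNat 0])]), (false, [([.ofNat 20, .ofNat 20, .ofNat 20, .ofNat 20],
      [.negSucc 19, .ofNat 0, .ofNat 0, .ofNat 10, .negSucc 1, .ofNat 1, .ofNat 0, .ofNat 0,
      .ofNat 0, .ofNat 0, .ofNat 0])]), (true, []), (false, [([.ofNat 20, .ofNat 0, .ofNat 40,
      .ofNat 40, .ofNat 60, .ofNat 60], [.negSucc 59, .ofNat 0, .negSucc 19, .ofNat 30,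
      .negSucc 4, .ofNat 0, .negSucc 0, .ofNat 0, .ofNat 0, .ofNat 0, .ofNat 0])]), (false,
      [([.ofNat 2, .ofNat 4, .ofNat 0, .ofNat 8, .ofNat 10, .ofNat 12, .ofNat 14], [.negSucc 15,
      .ofNat 2, .negSucc 5, .ofNat 7, .negSucc 0, .ofNat 0, .ofNat 0, .ofNat 0, .ofNat 0,
      .ofNat 0, .ofNat 0])]), (false, [([.ofNat 1, .ofNat 1, .ofNat 1, .ofNat 0, .ofNat 1,
      .ofNat 1, .ofNat 1, .ofNat 1], [.negSucc 0, .negSucc 0, .negSucc 0, .ofNat 1, .ofNat 0,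
      .ofNat 0, .ofNat 0, .ofNat 0, .ofNat 0, .ofNat 0, .ofNat 0])]), (true, []), (true, [])]⟩

lemma e015_1_ok : okE dt e015_1 = true := by decide +kernel

/-- a fibre -/
def e015_2 : Cfg :=
    ⟨[(0, 1), (1, 2), (5, 1)], [(false, []), (false, [([.ofNat 280, .ofNat 200], [.negSucc 239,
      .ofNat 0, .negSucc 119, .ofNat 75, .negSucc 10, .negSucc 11, .negSucc 5, .negSucc 1,
      .negSucc 1, .ofNat 0, .ofNat 0])]), (false, [([.ofNat 40, .negSucc 199, .negSucc 79],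
      [.ofNat 80, .ofNat 0, .ofNat 120, .negSucc 34, .ofNat 5, .ofNat 10, .ofNat 6, .ofNat 2,
      .ofNat 0, .ofNat 0, .ofNat 0])]), (false, [([.ofNat 20, .ofNat 20, .ofNat 20, .ofNat 20],
      [.negSucc 19, .ofNat 0, .ofNat 0, .ofNat 10, .negSucc 1, .ofNat 1, .ofNat 0, .ofNat 0,
      .ofNat 0, .ofNat 0, .ofNat 0])]), (true, []), (false, [([.ofNat 20, .ofNat 0, .ofNat 40,
      .ofNat 40, .ofNat 60, .ofNat 60], [.negSucc 59, .ofNat 0, .negSucc 19, .ofNat 30,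
      .negSucc 4, .ofNat 0, .negSucc 0, .ofNat 0, .ofNat 0, .ofNat 0, .ofNat 0])]), (false,
      [([.ofNat 2, .ofNat 4, .ofNat 0, .ofNat 8, .ofNat 10, .ofNat 12, .ofNat 14], [.negSucc 15,
      .ofNat 2, .negSucc 5, .ofNat 7, .negSucc 0, .ofNat 0, .ofNat 0, .ofNat 0, .ofNat 0,
      .ofNat 0, .ofNat 0])]), (false, [([.ofNat 1, .ofNat 1, .ofNat 1, .ofNat 0, .ofNat 1,
      .ofNat 1, .ofNat 1, .ofNat 1], [.negSucc 0, .negSucc 0, .negSucc 0, .ofNat 1, .ofNat 0,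
      .ofNat 0, .ofNat 0, .ofNat 0, .ofNat 0, .ofNat 0, .ofNat 0])]), (true, []), (true, [])]⟩

lemma e015_2_ok : okE dt e015_2 = true := by decide +kernel

/-- a fibre -/
def e015_3 : Cfg :=
    ⟨[(0, 2), (1, 1), (5, 1)], [(false, []), (false, [([.ofNat 480, .ofNat 600], [.negSucc 739,
      .negSucc 119, .ofNat 80, .ofNat 195, .ofNat 2, .negSucc 32, .negSucc 15, .negSucc 11,
      .negSucc 11, .ofNat 0, .ofNat 0])]), (false, [([.ofNat 240, .ofNat 0, .ofNat 120],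
      [.negSucc 219, .ofNat 120, .negSucc 79, .ofNat 45, .negSucc 1, .negSucc 2, .ofNat 4,
      .ofNat 12, .ofNat 0, .ofNat 0, .ofNat 0])]), (false, [([.ofNat 20, .ofNat 20, .ofNat 20,
      .ofNat 20], [.negSucc 19, .ofNat 0, .ofNat 0, .ofNat 10, .ofNat 0, .negSucc 1, .ofNat 1,
      .ofNat 0, .ofNat 0, .ofNat 0, .ofNat 0])]), (true, []), (false, [([.ofNat 240, .ofNat 0,
      .ofNat 400, .ofNat 640, .ofNat 640, .ofNat 760], [.negSucc 859, .ofNat 120, .negSucc 319,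
      .ofNat 365, .negSucc 1, .negSucc 54, .ofNat 0, .ofNat 0, .ofNat 0, .ofNat 0, .ofNat 0])]),
      (false, [([.ofNat 55, .negSucc 9, .ofNat 0, .ofNat 20, .negSucc 44, .ofNat 10, .ofNat 5],
      [.negSucc 9, .negSucc 4, .negSucc 4, .ofNat 10, .ofNat 1, .ofNat 0, .ofNat 0, .ofNat 0,
      .ofNat 0, .ofNat 0, .ofNat 0])]), (false, [([.ofNat 1, .ofNat 1, .ofNat 1, .ofNat 0,
      .ofNat 1, .ofNat 1, .ofNat 1, .ofNat 1], [.negSucc 0, .negSucc 0, .negSucc 0, .ofNat 1,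
      .ofNat 0, .ofNat 0, .ofNat 0, .ofNat 0, .ofNat 0, .ofNat 0, .ofNat 0])]), (true, []), (true,
      [])]⟩

lemma e015_3_ok : okE dt e015_3 = true := by decide +kernel

/-- the fibres with solutions -/
def E015 : List Cfg := [
    e015_0, e015_1, e015_2, e015_3]

/-- the fibres without solutions -/
def Z015 : List Cfg := [
    ⟨[(0, 1), (1, 1), (5, 3)], [(false, [([.ofNat 180], [.negSucc 279, .negSucc 599, .ofNat 560,
      .negSucc 79, .ofNat 0, .ofNat 0, .negSucc 20, .negSucc 14, .ofNat 0, .ofNat 0, .ofNat 0,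
      .negSucc 0])]), (false, [([.ofNat 240, .ofNat 120], [.negSucc 159, .negSucc 239, .ofNat 100,
      .ofNat 75, .negSucc 2, .negSucc 0, .negSucc 5, .negSucc 5, .ofNat 0, .ofNat 0, .ofNat 2,
      .ofNat 0])]), (false, [([.ofNat 20, .ofNat 40, .ofNat 60], [.negSucc 79, .ofNat 0, .ofNat 0,
      .ofNat 20, .negSucc 2, .negSucc 0, .ofNat 0, .negSucc 0, .ofNat 0, .ofNat 0, .ofNat 0,
      .ofNat 0])]), (false, [([.ofNat 20, .ofNat 20, .ofNat 20, .ofNat 20], [.negSucc 19,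
      .ofNat 0, .ofNat 0, .ofNat 10, .negSucc 1, .ofNat 1, .ofNat 0, .ofNat 0, .ofNat 0, .ofNat 0,
      .ofNat 0, .ofNat 0])]), (true, []), (false, [([.ofNat 20, .ofNat 0, .ofNat 40, .ofNat 40,
      .ofNat 60, .ofNat 60], [.negSucc 59, .ofNat 0, .negSucc 19, .ofNat 30, .negSucc 4, .ofNat 0,
      .negSucc 0, .ofNat 0, .ofNat 0, .ofNat 0, .ofNat 0, .ofNat 0])]), (false, [([.ofNat 2,
      .ofNat 4, .ofNat 0, .ofNat 8, .ofNat 10, .ofNat 12, .ofNat 14], [.negSucc 15, .ofNat 2,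
      .negSucc 5, .ofNat 7, .negSucc 0, .ofNat 0, .ofNat 0, .ofNat 0, .ofNat 0, .ofNat 0,
      .ofNat 0, .ofNat 0])]), (false, [([.ofNat 1, .ofNat 1, .ofNat 1, .ofNat 0, .ofNat 1,
      .ofNat 1, .ofNat 1, .ofNat 1], [.negSucc 0, .negSucc 0, .negSucc 0, .ofNat 1, .ofNat 0,
      .ofNat 0, .ofNat 0, .ofNat 0, .ofNat 0, .ofNat 0, .ofNat 0, .ofNat 0])]), (true, []), (true,
      [])]⟩,
    ⟨[(0, 1), (1, 2), (5, 2)], [(false, [([.ofNat 360], [.negSucc 319, .ofNat 1680, .negSucc 1419,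
      .negSucc 74, .negSucc 44, .negSucc 64, .ofNat 6, .negSucc 11, .ofNat 30, .ofNat 0, .ofNat 0,
      .negSucc 13])]), (false, [([.ofNat 280, .ofNat 200], [.negSucc 239, .ofNat 0, .negSucc 119,
      .ofNat 75, .negSucc 10, .negSucc 11, .negSucc 5, .negSucc 1, .negSucc 1, .ofNat 0, .ofNat 0,
      .ofNat 0])]), (false, [([.ofNat 40, .negSucc 199, .negSucc 79], [.ofNat 80, .ofNat 0,
      .ofNat 120, .negSucc 34, .ofNat 5, .ofNat 10, .ofNat 6, .ofNat 2, .ofNat 0, .ofNat 0,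
      .ofNat 0, .ofNat 0])]), (false, [([.ofNat 20, .ofNat 20, .ofNat 20, .ofNat 20],
      [.negSucc 19, .ofNat 0, .ofNat 0, .ofNat 10, .negSucc 1, .ofNat 1, .ofNat 0, .ofNat 0,
      .ofNat 0, .ofNat 0, .ofNat 0, .ofNat 0])]), (true, []), (false, [([.ofNat 20, .ofNat 0,
      .ofNat 40, .ofNat 40, .ofNat 60, .ofNat 60], [.negSucc 59, .ofNat 0, .negSucc 19, .ofNat 30,
      .negSucc 4, .ofNat 0, .negSucc 0, .ofNat 0, .ofNat 0, .ofNat 0, .ofNat 0, .ofNat 0])]),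
      (false, [([.ofNat 2, .ofNat 4, .ofNat 0, .ofNat 8, .ofNat 10, .ofNat 12, .ofNat 14],
      [.negSucc 15, .ofNat 2, .negSucc 5, .ofNat 7, .negSucc 0, .ofNat 0, .ofNat 0, .ofNat 0,
      .ofNat 0, .ofNat 0, .ofNat 0, .ofNat 0])]), (false, [([.ofNat 1, .ofNat 1, .ofNat 1,
      .ofNat 0, .ofNat 1, .ofNat 1, .ofNat 1, .ofNat 1], [.negSucc 0, .negSucc 0, .negSucc 0,
      .ofNat 1, .ofNat 0, .ofNat 0, .ofNat 0, .ofNat 0, .ofNat 0, .ofNat 0, .ofNat 0,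
      .ofNat 0])]), (true, []), (true, [])]⟩,
    ⟨[(0, 1), (1, 3), (5, 1)], [(false, [([.ofNat 8640], [.negSucc 9359, .ofNat 1960, .negSucc 479,
      .negSucc 14, .negSucc 344, .negSucc 439, .negSucc 191, .ofNat 34, .negSucc 13, .negSucc 119,
      .ofNat 0, .ofNat 0])]), (false, [([.ofNat 2400, .ofNat 480], [.negSucc 719, .negSucc 279,
      .negSucc 959, .ofNat 645, .negSucc 44, .negSucc 39, .negSucc 23, .negSucc 21, .ofNat 2,
      .ofNat 0, .ofNat 0, .ofNat 0])]), (false, [([.ofNat 40, .negSucc 199, .negSucc 79],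
      [.ofNat 80, .ofNat 0, .ofNat 120, .negSucc 34, .ofNat 5, .ofNat 10, .ofNat 6, .ofNat 2,
      .ofNat 0, .ofNat 0, .ofNat 0, .ofNat 0])]), (false, [([.ofNat 20, .ofNat 20, .ofNat 20,
      .ofNat 20], [.negSucc 19, .ofNat 0, .ofNat 0, .ofNat 10, .negSucc 1, .ofNat 1, .ofNat 0,
      .ofNat 0, .ofNat 0, .ofNat 0, .ofNat 0, .ofNat 0])]), (true, []), (false, [([.ofNat 20,
      .ofNat 0, .ofNat 40, .ofNat 40, .ofNat 60, .ofNat 60], [.negSucc 59, .ofNat 0, .negSucc 19,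
      .ofNat 30, .negSucc 4, .ofNat 0, .negSucc 0, .ofNat 0, .ofNat 0, .ofNat 0, .ofNat 0,
      .ofNat 0])]), (false, [([.ofNat 2, .ofNat 4, .ofNat 0, .ofNat 8, .ofNat 10, .ofNat 12,
      .ofNat 14], [.negSucc 15, .ofNat 2, .negSucc 5, .ofNat 7, .negSucc 0, .ofNat 0, .ofNat 0,
      .ofNat 0, .ofNat 0, .ofNat 0, .ofNat 0, .ofNat 0])]), (false, [([.ofNat 1, .ofNat 1,
      .ofNat 1, .ofNat 0, .ofNat 1, .ofNat 1, .ofNat 1, .ofNat 1], [.negSucc 0, .negSucc 0,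
      .negSucc 0, .ofNat 1, .ofNat 0, .ofNat 0, .ofNat 0, .ofNat 0, .ofNat 0, .ofNat 0, .ofNat 0,
      .ofNat 0])]), (true, []), (true, [])]⟩,
    ⟨[(0, 2), (1, 1), (5, 2)], [(false, [([.ofNat 360], [.negSucc 419, .ofNat 360, .negSucc 119,
      .ofNat 45, .ofNat 2, .negSucc 26, .negSucc 13, .ofNat 0, .ofNat 0, .ofNat 0, .ofNat 0,
      .negSucc 3])]), (false, [([.ofNat 480, .ofNat 600], [.negSucc 739, .negSucc 119, .ofNat 80,
      .ofNat 195, .ofNat 2, .negSucc 32, .negSucc 15, .negSucc 11, .negSucc 11, .ofNat 0,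
      .ofNat 0, .ofNat 0])]), (false, [([.ofNat 240, .ofNat 0, .ofNat 120], [.negSucc 219,
      .ofNat 120, .negSucc 79, .ofNat 45, .negSucc 1, .negSucc 2, .ofNat 4, .ofNat 12, .ofNat 0,
      .ofNat 0, .ofNat 0, .ofNat 0])]), (false, [([.ofNat 20, .ofNat 20, .ofNat 20, .ofNat 20],
      [.negSucc 19, .ofNat 0, .ofNat 0, .ofNat 10, .ofNat 0, .negSucc 1, .ofNat 1, .ofNat 0,
      .ofNat 0, .ofNat 0, .ofNat 0, .ofNat 0])]), (true, []), (false, [([.ofNat 240, .ofNat 0,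
      .ofNat 400, .ofNat 640, .ofNat 640, .ofNat 760], [.negSucc 859, .ofNat 120, .negSucc 319,
      .ofNat 365, .negSucc 1, .negSucc 54, .ofNat 0, .ofNat 0, .ofNat 0, .ofNat 0, .ofNat 0,
      .ofNat 0])]), (false, [([.ofNat 55, .negSucc 9, .ofNat 0, .ofNat 20, .negSucc 44, .ofNat 10,
      .ofNat 5], [.negSucc 9, .negSucc 4, .negSucc 4, .ofNat 10, .ofNat 1, .ofNat 0, .ofNat 0,
      .ofNat 0, .ofNat 0, .ofNat 0, .ofNat 0, .ofNat 0])]), (false, [([.ofNat 1, .ofNat 1,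
      .ofNat 1, .ofNat 0, .ofNat 1, .ofNat 1, .ofNat 1, .ofNat 1], [.negSucc 0, .negSucc 0,
      .negSucc 0, .ofNat 1, .ofNat 0, .ofNat 0, .ofNat 0, .ofNat 0, .ofNat 0, .ofNat 0, .ofNat 0,
      .ofNat 0])]), (true, []), (true, [])]⟩,
    ⟨[(0, 2), (1, 2), (5, 1)], [(false, [([.ofNat 1800], [.negSucc 2299, .negSucc 839, .ofNat 2000,
      .ofNat 465, .ofNat 14, .negSucc 98, .ofNat 32, .negSucc 11, .ofNat 24, .negSucc 59,
      .ofNat 0, .ofNat 0])]), (false, [([.ofNat 1200, .ofNat 600], [.negSucc 699, .ofNat 120,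
      .negSucc 799, .ofNat 255, .negSucc 1, .negSucc 32, .negSucc 55, .negSucc 23, .negSucc 11,
      .ofNat 0, .ofNat 0, .ofNat 0])]), (false, [([.ofNat 240, .ofNat 0, .ofNat 120],
      [.negSucc 219, .ofNat 120, .negSucc 79, .ofNat 45, .negSucc 1, .negSucc 2, .ofNat 4,
      .ofNat 12, .ofNat 0, .ofNat 0, .ofNat 0, .ofNat 0])]), (false, [([.ofNat 20, .ofNat 20,
      .ofNat 20, .ofNat 20], [.negSucc 19, .ofNat 0, .ofNat 0, .ofNat 10, .ofNat 0, .negSucc 1,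
      .ofNat 1, .ofNat 0, .ofNat 0, .ofNat 0, .ofNat 0, .ofNat 0])]), (true, []), (false,
      [([.ofNat 240, .ofNat 0, .ofNat 400, .ofNat 640, .ofNat 640, .ofNat 760], [.negSucc 859,
      .ofNat 120, .negSucc 319, .ofNat 365, .negSucc 1, .negSucc 54, .ofNat 0, .ofNat 0, .ofNat 0,
      .ofNat 0, .ofNat 0, .ofNat 0])]), (false, [([.ofNat 55, .negSucc 9, .ofNat 0, .ofNat 20,
      .negSucc 44, .ofNat 10, .ofNat 5], [.negSucc 9, .negSucc 4, .negSucc 4, .ofNat 10, .ofNat 1,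
      .ofNat 0, .ofNat 0, .ofNat 0, .ofNat 0, .ofNat 0, .ofNat 0, .ofNat 0])]), (false,
      [([.ofNat 1, .ofNat 1, .ofNat 1, .ofNat 0, .ofNat 1, .ofNat 1, .ofNat 1, .ofNat 1],
      [.negSucc 0, .negSucc 0, .negSucc 0, .ofNat 1, .ofNat 0, .ofNat 0, .ofNat 0, .ofNat 0,
      .ofNat 0, .ofNat 0, .ofNat 0, .ofNat 0])]), (true, []), (true, [])]⟩,
    ⟨[(0, 3), (1, 1), (5, 1)], [(false, [([.ofNat 180], [.negSucc 219, .ofNat 420, .negSucc 519,
      .negSucc 79, .ofNat 0, .negSucc 0, .ofNat 0, .ofNat 0, .ofNat 30, .ofNat 6, .ofNat 0,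
      .ofNat 0])]), (false, [([.ofNat 480, .ofNat 960], [.negSucc 1179, .ofNat 720, .negSucc 959,
      .ofNat 35, .ofNat 2, .negSucc 1, .negSucc 32, .negSucc 15, .ofNat 48, .ofNat 0, .ofNat 0,
      .ofNat 0])]), (false, [([.ofNat 960, .negSucc 479, .negSucc 479], [.ofNat 300, .negSucc 239,
      .ofNat 640, .ofNat 145, .negSucc 9, .ofNat 2, .ofNat 21, .ofNat 32, .ofNat 0, .ofNat 0,
      .ofNat 0, .ofNat 0])]), (false, [([.ofNat 640, .negSucc 319, .ofNat 1120, .ofNat 1120],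
      [.negSucc 939, .ofNat 240, .negSucc 639, .ofNat 175, .ofNat 10, .negSucc 1, .negSucc 84,
      .ofNat 0, .ofNat 0, .ofNat 0, .ofNat 0, .ofNat 0])]), (true, []), (false, [([.ofNat 2040,
      .ofNat 0, .negSucc 119, .ofNat 7200, .negSucc 719, .ofNat 300], [.negSucc 2139,
      .negSucc 299, .ofNat 800, .ofNat 2140, .negSucc 71, .ofNat 11, .ofNat 0, .ofNat 0, .ofNat 0,
      .ofNat 0, .ofNat 0, .ofNat 0])]), (false, [([.ofNat 55, .negSucc 9, .ofNat 0, .ofNat 20,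
      .negSucc 44, .ofNat 10, .ofNat 5], [.negSucc 9, .negSucc 4, .negSucc 4, .ofNat 10, .ofNat 1,
      .ofNat 0, .ofNat 0, .ofNat 0, .ofNat 0, .ofNat 0, .ofNat 0, .ofNat 0])]), (false,
      [([.ofNat 1, .ofNat 1, .ofNat 1, .ofNat 0, .ofNat 1, .ofNat 1, .ofNat 1, .ofNat 1],
      [.negSucc 0, .negSucc 0, .negSucc 0, .ofNat 1, .ofNat 0, .ofNat 0, .ofNat 0, .ofNat 0,
      .ofNat 0, .ofNat 0, .ofNat 0, .ofNat 0])]), (true, []), (true, [])]⟩]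

lemma E015_ok : E015.all (okE dt) = true := by
  simp only [E015, List.all_cons, List.all_nil, Bool.and_self,
    e015_0_ok, e015_1_ok, e015_2_ok, e015_3_ok]

lemma Z015_ok : Z015.all (okZ dt) = true := by decide +kernel

lemma cov015 : (prods 3).all (fun a => cov E015 Z015 (([0, 1, 5] : List (Fin 10)).zip a)) = true := by
  decide +kernel

theorem typ015 : Typ dt [0, 1, 5] E015 Z015 := ⟨E015_ok, Z015_ok, cov015, by decide +kernel⟩

/-- a fibre -/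
def e016_0 : Cfg :=
    ⟨[(0, 1), (1, 1), (6, 1)], [(false, []), (false, [([.ofNat 20, .ofNat 40], [.negSucc 59, .ofNat 0,
      .ofNat 20, .ofNat 10, .negSucc 1, .negSucc 0, .ofNat 0, .negSucc 0, .ofNat 0, .ofNat 0])]),
      (false, [([.ofNat 20, .ofNat 20, .ofNat 20], [.negSucc 19, .ofNat 0, .negSucc 19, .ofNat 10,
      .negSucc 1, .ofNat 1, .ofNat 0, .ofNat 0, .ofNat 0, .ofNat 0])]), (true, []), (false, []),
      (false, [([.ofNat 20, .ofNat 20, .ofNat 0, .ofNat 40, .ofNat 60, .ofNat 60], [.negSucc 59,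
      .ofNat 0, .negSucc 39, .ofNat 30, .negSucc 4, .ofNat 0, .negSucc 0, .ofNat 0, .ofNat 0,
      .ofNat 0])]), (false, [([.ofNat 2, .ofNat 4, .ofNat 6, .ofNat 0, .ofNat 10, .ofNat 12,
      .ofNat 14], [.negSucc 15, .ofNat 2, .negSucc 7, .ofNat 7, .negSucc 0, .ofNat 0, .ofNat 0,
      .ofNat 0, .ofNat 0, .ofNat 0])]), (false, [([.ofNat 1, .ofNat 1, .ofNat 1, .ofNat 1,
      .ofNat 0, .ofNat 1, .ofNat 1, .ofNat 1], [.negSucc 0, .negSucc 0, .negSucc 0, .ofNat 1,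
      .ofNat 0, .ofNat 0, .ofNat 0, .ofNat 0, .ofNat 0, .ofNat 0])]), (true, []), (true, [])]⟩

lemma e016_0_ok : okE dt e016_0 = true := by decide +kernel

/-- a fibre -/
def e016_1 : Cfg :=
    ⟨[(0, 1), (1, 1), (6, 2)], [(false, []), (false, [([.ofNat 20, .ofNat 40], [.negSucc 59, .ofNat 0,
      .ofNat 20, .ofNat 10, .negSucc 1, .negSucc 0, .ofNat 0, .negSucc 0, .ofNat 0, .ofNat 0,
      .ofNat 0])]), (false, [([.ofNat 20, .ofNat 20, .ofNat 20], [.negSucc 19, .ofNat 0,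
      .negSucc 19, .ofNat 10, .negSucc 1, .ofNat 1, .ofNat 0, .ofNat 0, .ofNat 0, .ofNat 0,
      .ofNat 0])]), (true, []), (false, [([.ofNat 120, .ofNat 0, .ofNat 140, .ofNat 20,
      .ofNat 260], [.negSucc 259, .ofNat 160, .negSucc 19, .ofNat 75, .negSucc 4, .ofNat 0,
      .ofNat 12, .ofNat 0, .ofNat 0, .ofNat 0, .ofNat 2])]), (false, [([.ofNat 20, .ofNat 20,
      .ofNat 0, .ofNat 40, .ofNat 60, .ofNat 60], [.negSucc 59, .ofNat 0, .negSucc 39, .ofNat 30,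
      .negSucc 4, .ofNat 0, .negSucc 0, .ofNat 0, .ofNat 0, .ofNat 0, .ofNat 0])]), (false,
      [([.ofNat 2, .ofNat 4, .ofNat 6, .ofNat 0, .ofNat 10, .ofNat 12, .ofNat 14], [.negSucc 15,
      .ofNat 2, .negSucc 7, .ofNat 7, .negSucc 0, .ofNat 0, .ofNat 0, .ofNat 0, .ofNat 0,
      .ofNat 0, .ofNat 0])]), (false, [([.ofNat 1, .ofNat 1, .ofNat 1, .ofNat 1, .ofNat 0,
      .ofNat 1, .ofNat 1, .ofNat 1], [.negSucc 0, .negSucc 0, .negSucc 0, .ofNat 1, .ofNat 0,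
      .ofNat 0, .ofNat 0, .ofNat 0, .ofNat 0, .ofNat 0, .ofNat 0])]), (true, []), (true, [])]⟩

lemma e016_1_ok : okE dt e016_1 = true := by decide +kernel

/-- a fibre -/
def e016_2 : Cfg :=
    ⟨[(0, 1), (1, 2), (6, 1)], [(false, []), (false, [([.ofNat 20, .ofNat 40], [.negSucc 59, .ofNat 0,
      .ofNat 20, .ofNat 10, .negSucc 1, .negSucc 0, .ofNat 0, .ofNat 0, .negSucc 0, .ofNat 0,
      .ofNat 0])]), (false, [([.ofNat 20, .ofNat 20, .ofNat 20], [.negSucc 19, .ofNat 0,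
      .negSucc 19, .ofNat 10, .negSucc 1, .ofNat 1, .ofNat 0, .ofNat 0, .ofNat 0, .ofNat 0,
      .ofNat 0])]), (true, []), (false, [([.ofNat 120, .ofNat 0, .ofNat 160, .ofNat 400,
      .ofNat 280], [.negSucc 279, .ofNat 0, .negSucc 199, .ofNat 135, .negSucc 24, .ofNat 0,
      .negSucc 5, .negSucc 1, .ofNat 0, .ofNat 0, .ofNat 0])]), (false, [([.ofNat 20, .ofNat 20,
      .ofNat 0, .ofNat 40, .ofNat 60, .ofNat 60], [.negSucc 59, .ofNat 0, .negSucc 39, .ofNat 30,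
      .negSucc 4, .ofNat 0, .negSucc 0, .ofNat 0, .ofNat 0, .ofNat 0, .ofNat 0])]), (false,
      [([.ofNat 2, .ofNat 4, .ofNat 6, .ofNat 0, .ofNat 10, .ofNat 12, .ofNat 14], [.negSucc 15,
      .ofNat 2, .negSucc 7, .ofNat 7, .negSucc 0, .ofNat 0, .ofNat 0, .ofNat 0, .ofNat 0,
      .ofNat 0, .ofNat 0])]), (false, [([.ofNat 1, .ofNat 1, .ofNat 1, .ofNat 1, .ofNat 0,
      .ofNat 1, .ofNat 1, .ofNat 1], [.negSucc 0, .negSucc 0, .negSucc 0, .ofNat 1, .ofNat 0,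
      .ofNat 0, .ofNat 0, .ofNat 0, .ofNat 0, .ofNat 0, .ofNat 0])]), (true, []), (true, [])]⟩

lemma e016_2_ok : okE dt e016_2 = true := by decide +kernel

/-- a fibre -/
def e016_3 : Cfg :=
    ⟨[(0, 2), (1, 1), (6, 1)], [(false, []), (false, [([.ofNat 20, .ofNat 40], [.negSucc 59, .ofNat 0,
      .ofNat 20, .ofNat 10, .ofNat 0, .negSucc 1, .negSucc 0, .ofNat 0, .negSucc 0, .ofNat 0,
      .ofNat 0])]), (false, [([.ofNat 20, .ofNat 20, .ofNat 20], [.negSucc 19, .ofNat 0,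
      .negSucc 19, .ofNat 10, .ofNat 0, .negSucc 1, .ofNat 1, .ofNat 0, .ofNat 0, .ofNat 0,
      .ofNat 0])]), (true, []), (false, [([.ofNat 80, .ofNat 0, .ofNat 160, .negSucc 79,
      .ofNat 40], [.negSucc 139, .ofNat 120, .ofNat 80, .ofNat 5, .negSucc 1, .ofNat 5, .ofNat 0,
      .ofNat 12, .ofNat 0, .ofNat 0, .ofNat 0])]), (false, [([.ofNat 240, .ofNat 320, .ofNat 0,
      .ofNat 640, .ofNat 640, .ofNat 760], [.negSucc 859, .ofNat 120, .negSucc 399, .ofNat 365,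
      .negSucc 1, .negSucc 54, .ofNat 0, .ofNat 0, .ofNat 0, .ofNat 0, .ofNat 0])]), (false,
      [([.ofNat 55, .negSucc 9, .ofNat 5, .ofNat 0, .negSucc 44, .ofNat 10, .ofNat 5],
      [.negSucc 9, .negSucc 4, .negSucc 19, .ofNat 10, .ofNat 1, .ofNat 0, .ofNat 0, .ofNat 0,
      .ofNat 0, .ofNat 0, .ofNat 0])]), (false, [([.ofNat 1, .ofNat 1, .ofNat 1, .ofNat 1,
      .ofNat 0, .ofNat 1, .ofNat 1, .ofNat 1], [.negSucc 0, .negSucc 0, .negSucc 0, .ofNat 1,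
      .ofNat 0, .ofNat 0, .ofNat 0, .ofNat 0, .ofNat 0, .ofNat 0, .ofNat 0])]), (true, []), (true,
      [])]⟩

lemma e016_3_ok : okE dt e016_3 = true := by decide +kernel

/-- the fibres with solutions -/
def E016 : List Cfg := [
    e016_0, e016_1, e016_2, e016_3]

/-- the fibres without solutions -/
def Z016 : List Cfg := [
    ⟨[(0, 1), (1, 1), (6, 3)], [(false, [([.ofNat 720], [.ofNat 480, .ofNat 320, .negSucc 759,
      .ofNat 355, .negSucc 20, .negSucc 2, .negSucc 23, .ofNat 12, .ofNat 0, .ofNat 0, .ofNat 6,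
      .ofNat 2])]), (false, [([.ofNat 20, .ofNat 40], [.negSucc 59, .ofNat 0, .ofNat 20,
      .ofNat 10, .negSucc 1, .negSucc 0, .ofNat 0, .negSucc 0, .ofNat 0, .ofNat 0, .ofNat 0,
      .ofNat 0])]), (false, [([.ofNat 20, .ofNat 20, .ofNat 20], [.negSucc 19, .ofNat 0,
      .negSucc 19, .ofNat 10, .negSucc 1, .ofNat 1, .ofNat 0, .ofNat 0, .ofNat 0, .ofNat 0,
      .ofNat 0, .ofNat 0])]), (true, []), (false, [([.ofNat 120, .ofNat 0, .ofNat 140, .ofNat 20,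
      .ofNat 260], [.negSucc 259, .ofNat 160, .negSucc 19, .ofNat 75, .negSucc 4, .ofNat 0,
      .ofNat 12, .ofNat 0, .ofNat 0, .ofNat 0, .ofNat 2, .ofNat 0])]), (false, [([.ofNat 20,
      .ofNat 20, .ofNat 0, .ofNat 40, .ofNat 60, .ofNat 60], [.negSucc 59, .ofNat 0, .negSucc 39,
      .ofNat 30, .negSucc 4, .ofNat 0, .negSucc 0, .ofNat 0, .ofNat 0, .ofNat 0, .ofNat 0,
      .ofNat 0])]), (false, [([.ofNat 2, .ofNat 4, .ofNat 6, .ofNat 0, .ofNat 10, .ofNat 12,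
      .ofNat 14], [.negSucc 15, .ofNat 2, .negSucc 7, .ofNat 7, .negSucc 0, .ofNat 0, .ofNat 0,
      .ofNat 0, .ofNat 0, .ofNat 0, .ofNat 0, .ofNat 0])]), (false, [([.ofNat 1, .ofNat 1,
      .ofNat 1, .ofNat 1, .ofNat 0, .ofNat 1, .ofNat 1, .ofNat 1], [.negSucc 0, .negSucc 0,
      .negSucc 0, .ofNat 1, .ofNat 0, .ofNat 0, .ofNat 0, .ofNat 0, .ofNat 0, .ofNat 0, .ofNat 0,
      .ofNat 0])]), (true, []), (true, [])]⟩,
    ⟨[(0, 1), (1, 2), (6, 2)], [(false, [([.ofNat 720], [.negSucc 1079, .ofNat 160, .ofNat 520,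
      .ofNat 130, .negSucc 17, .negSucc 16, .ofNat 18, .ofNat 2, .negSucc 17, .ofNat 0, .ofNat 0,
      .ofNat 2])]), (false, [([.ofNat 20, .ofNat 40], [.negSucc 59, .ofNat 0, .ofNat 20,
      .ofNat 10, .negSucc 1, .negSucc 0, .ofNat 0, .ofNat 0, .negSucc 0, .ofNat 0, .ofNat 0,
      .ofNat 0])]), (false, [([.ofNat 20, .ofNat 20, .ofNat 20], [.negSucc 19, .ofNat 0,
      .negSucc 19, .ofNat 10, .negSucc 1, .ofNat 1, .ofNat 0, .ofNat 0, .ofNat 0, .ofNat 0,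
      .ofNat 0, .ofNat 0])]), (true, []), (false, [([.ofNat 120, .ofNat 0, .ofNat 160, .ofNat 400,
      .ofNat 280], [.negSucc 279, .ofNat 0, .negSucc 199, .ofNat 135, .negSucc 24, .ofNat 0,
      .negSucc 5, .negSucc 1, .ofNat 0, .ofNat 0, .ofNat 0, .ofNat 0])]), (false, [([.ofNat 20,
      .ofNat 20, .ofNat 0, .ofNat 40, .ofNat 60, .ofNat 60], [.negSucc 59, .ofNat 0, .negSucc 39,
      .ofNat 30, .negSucc 4, .ofNat 0, .negSucc 0, .ofNat 0, .ofNat 0, .ofNat 0, .ofNat 0,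
      .ofNat 0])]), (false, [([.ofNat 2, .ofNat 4, .ofNat 6, .ofNat 0, .ofNat 10, .ofNat 12,
      .ofNat 14], [.negSucc 15, .ofNat 2, .negSucc 7, .ofNat 7, .negSucc 0, .ofNat 0, .ofNat 0,
      .ofNat 0, .ofNat 0, .ofNat 0, .ofNat 0, .ofNat 0])]), (false, [([.ofNat 1, .ofNat 1,
      .ofNat 1, .ofNat 1, .ofNat 0, .ofNat 1, .ofNat 1, .ofNat 1], [.negSucc 0, .negSucc 0,
      .negSucc 0, .ofNat 1, .ofNat 0, .ofNat 0, .ofNat 0, .ofNat 0, .ofNat 0, .ofNat 0, .ofNat 0,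
      .ofNat 0])]), (true, []), (true, [])]⟩,
    ⟨[(0, 1), (1, 3), (6, 1)], [(false, [([.ofNat 1440], [.negSucc 1679, .ofNat 280, .ofNat 160,
      .ofNat 35, .negSucc 74, .negSucc 47, .negSucc 23, .ofNat 6, .negSucc 1, .negSucc 23,
      .ofNat 0, .ofNat 0])]), (false, [([.ofNat 480, .negSucc 479], [.ofNat 240, .negSucc 279,
      .ofNat 320, .ofNat 205, .ofNat 27, .ofNat 24, .ofNat 24, .negSucc 5, .ofNat 2, .ofNat 0,
      .ofNat 0, .ofNat 0])]), (false, [([.ofNat 20, .ofNat 20, .ofNat 20], [.negSucc 19, .ofNat 0,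
      .negSucc 19, .ofNat 10, .negSucc 1, .ofNat 1, .ofNat 0, .ofNat 0, .ofNat 0, .ofNat 0,
      .ofNat 0, .ofNat 0])]), (true, []), (false, [([.ofNat 120, .ofNat 0, .ofNat 160, .ofNat 400,
      .ofNat 280], [.negSucc 279, .ofNat 0, .negSucc 199, .ofNat 135, .negSucc 24, .ofNat 0,
      .negSucc 5, .negSucc 1, .ofNat 0, .ofNat 0, .ofNat 0, .ofNat 0])]), (false, [([.ofNat 20,
      .ofNat 20, .ofNat 0, .ofNat 40, .ofNat 60, .ofNat 60], [.negSucc 59, .ofNat 0, .negSucc 39,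
      .ofNat 30, .negSucc 4, .ofNat 0, .negSucc 0, .ofNat 0, .ofNat 0, .ofNat 0, .ofNat 0,
      .ofNat 0])]), (false, [([.ofNat 2, .ofNat 4, .ofNat 6, .ofNat 0, .ofNat 10, .ofNat 12,
      .ofNat 14], [.negSucc 15, .ofNat 2, .negSucc 7, .ofNat 7, .negSucc 0, .ofNat 0, .ofNat 0,
      .ofNat 0, .ofNat 0, .ofNat 0, .ofNat 0, .ofNat 0])]), (false, [([.ofNat 1, .ofNat 1,
      .ofNat 1, .ofNat 1, .ofNat 0, .ofNat 1, .ofNat 1, .ofNat 1], [.negSucc 0, .negSucc 0,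
      .negSucc 0, .ofNat 1, .ofNat 0, .ofNat 0, .ofNat 0, .ofNat 0, .ofNat 0, .ofNat 0, .ofNat 0,
      .ofNat 0])]), (true, []), (true, [])]⟩,
    ⟨[(0, 2), (1, 1), (6, 2)], [(false, [([.ofNat 360], [.negSucc 1139, .ofNat 40, .ofNat 960,
      .ofNat 5, .negSucc 5, .negSucc 2, .negSucc 33, .ofNat 12, .negSucc 23, .ofNat 0, .ofNat 0,
      .negSucc 3])]), (false, [([.ofNat 20, .ofNat 40], [.negSucc 59, .ofNat 0, .ofNat 20,
      .ofNat 10, .ofNat 0, .negSucc 1, .negSucc 0, .ofNat 0, .negSucc 0, .ofNat 0, .ofNat 0,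
      .ofNat 0])]), (false, [([.ofNat 20, .ofNat 20, .ofNat 20], [.negSucc 19, .ofNat 0,
      .negSucc 19, .ofNat 10, .ofNat 0, .negSucc 1, .ofNat 1, .ofNat 0, .ofNat 0, .ofNat 0,
      .ofNat 0, .ofNat 0])]), (true, []), (false, [([.ofNat 80, .ofNat 0, .ofNat 160, .negSucc 79,
      .ofNat 40], [.negSucc 139, .ofNat 120, .ofNat 80, .ofNat 5, .negSucc 1, .ofNat 5, .ofNat 0,
      .ofNat 12, .ofNat 0, .ofNat 0, .ofNat 0, .ofNat 0])]), (false, [([.ofNat 240, .ofNat 320,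
      .ofNat 0, .ofNat 640, .ofNat 640, .ofNat 760], [.negSucc 859, .ofNat 120, .negSucc 399,
      .ofNat 365, .negSucc 1, .negSucc 54, .ofNat 0, .ofNat 0, .ofNat 0, .ofNat 0, .ofNat 0,
      .ofNat 0])]), (false, [([.ofNat 55, .negSucc 9, .ofNat 5, .ofNat 0, .negSucc 44, .ofNat 10,
      .ofNat 5], [.negSucc 9, .negSucc 4, .negSucc 19, .ofNat 10, .ofNat 1, .ofNat 0, .ofNat 0,
      .ofNat 0, .ofNat 0, .ofNat 0, .ofNat 0, .ofNat 0])]), (false, [([.ofNat 1, .ofNat 1,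
      .ofNat 1, .ofNat 1, .ofNat 0, .ofNat 1, .ofNat 1, .ofNat 1], [.negSucc 0, .negSucc 0,
      .negSucc 0, .ofNat 1, .ofNat 0, .ofNat 0, .ofNat 0, .ofNat 0, .ofNat 0, .ofNat 0, .ofNat 0,
      .ofNat 0])]), (true, []), (true, [])]⟩,
    ⟨[(0, 2), (1, 2), (6, 1)], [(false, [([.ofNat 1800], [.negSucc 3299, .ofNat 360, .ofNat 2000,
      .ofNat 265, .negSucc 5, .negSucc 38, .negSucc 67, .ofNat 48, .ofNat 4, .negSucc 59,
      .ofNat 0, .ofNat 0])]), (false, [([.ofNat 1200, .ofNat 600], [.negSucc 299, .negSucc 359,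
      .negSucc 799, .ofNat 335, .ofNat 6, .negSucc 80, .ofNat 8, .negSucc 47, .negSucc 3,
      .ofNat 0, .ofNat 0, .ofNat 0])]), (false, [([.ofNat 20, .ofNat 20, .ofNat 20], [.negSucc 19,
      .ofNat 0, .negSucc 19, .ofNat 10, .ofNat 0, .negSucc 1, .ofNat 1, .ofNat 0, .ofNat 0,
      .ofNat 0, .ofNat 0, .ofNat 0])]), (true, []), (false, [([.ofNat 80, .ofNat 0, .ofNat 160,
      .negSucc 79, .ofNat 40], [.negSucc 139, .ofNat 120, .ofNat 80, .ofNat 5, .negSucc 1,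
      .ofNat 5, .ofNat 0, .ofNat 12, .ofNat 0, .ofNat 0, .ofNat 0, .ofNat 0])]), (false,
      [([.ofNat 240, .ofNat 320, .ofNat 0, .ofNat 640, .ofNat 640, .ofNat 760], [.negSucc 859,
      .ofNat 120, .negSucc 399, .ofNat 365, .negSucc 1, .negSucc 54, .ofNat 0, .ofNat 0, .ofNat 0,
      .ofNat 0, .ofNat 0, .ofNat 0])]), (false, [([.ofNat 55, .negSucc 9, .ofNat 5, .ofNat 0,
      .negSucc 44, .ofNat 10, .ofNat 5], [.negSucc 9, .negSucc 4, .negSucc 19, .ofNat 10,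
      .ofNat 1, .ofNat 0, .ofNat 0, .ofNat 0, .ofNat 0, .ofNat 0, .ofNat 0, .ofNat 0])]), (false,
      [([.ofNat 1, .ofNat 1, .ofNat 1, .ofNat 1, .ofNat 0, .ofNat 1, .ofNat 1, .ofNat 1],
      [.negSucc 0, .negSucc 0, .negSucc 0, .ofNat 1, .ofNat 0, .ofNat 0, .ofNat 0, .ofNat 0,
      .ofNat 0, .ofNat 0, .ofNat 0, .ofNat 0])]), (true, []), (true, [])]⟩,
    ⟨[(0, 3), (1, 1), (6, 1)], [(false, [([.ofNat 4320], [.negSucc 8659, .ofNat 720, .ofNat 6240,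
      .ofNat 745, .negSucc 25, .ofNat 2, .negSucc 50, .negSucc 247, .ofNat 96, .negSucc 167,
      .ofNat 0, .ofNat 0])]), (false, [([.ofNat 3360, .ofNat 2400], [.negSucc 1419, .negSucc 719,
      .negSucc 2879, .ofNat 935, .ofNat 26, .negSucc 1, .negSucc 284, .ofNat 80, .negSucc 95,
      .ofNat 0, .ofNat 0, .ofNat 0])]), (false, [([.ofNat 20, .ofNat 20, .ofNat 20], [.negSucc 19,
      .ofNat 0, .negSucc 19, .ofNat 10, .ofNat 0, .ofNat 0, .negSucc 1, .ofNat 1, .ofNat 0,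
      .ofNat 0, .ofNat 0, .ofNat 0])]), (true, []), (false, [([.ofNat 640, .ofNat 0, .negSucc 319,
      .ofNat 1120, .ofNat 1120], [.negSucc 939, .ofNat 240, .negSucc 639, .ofNat 175, .ofNat 10,
      .negSucc 1, .negSucc 84, .ofNat 0, .ofNat 0, .ofNat 0, .ofNat 0, .ofNat 0])]), (false,
      [([.ofNat 2040, .negSucc 799, .ofNat 0, .ofNat 7200, .negSucc 719, .ofNat 300],
      [.negSucc 2139, .negSucc 299, .ofNat 120, .ofNat 2140, .negSucc 71, .ofNat 11, .ofNat 0,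
      .ofNat 0, .ofNat 0, .ofNat 0, .ofNat 0, .ofNat 0])]), (false, [([.ofNat 55, .negSucc 9,
      .ofNat 5, .ofNat 0, .negSucc 44, .ofNat 10, .ofNat 5], [.negSucc 9, .negSucc 4, .negSucc 19,
      .ofNat 10, .ofNat 1, .ofNat 0, .ofNat 0, .ofNat 0, .ofNat 0, .ofNat 0, .ofNat 0,
      .ofNat 0])]), (false, [([.ofNat 1, .ofNat 1, .ofNat 1, .ofNat 1, .ofNat 0, .ofNat 1,
      .ofNat 1, .ofNat 1], [.negSucc 0, .negSucc 0, .negSucc 0, .ofNat 1, .ofNat 0, .ofNat 0,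
      .ofNat 0, .ofNat 0, .ofNat 0, .ofNat 0, .ofNat 0, .ofNat 0])]), (true, []), (true, [])]⟩]

lemma E016_ok : E016.all (okE dt) = true := by
  simp only [E016, List.all_cons, List.all_nil, Bool.and_self,
    e016_0_ok, e016_1_ok, e016_2_ok, e016_3_ok]

lemma Z016_ok : Z016.all (okZ dt) = true := by decide +kernel

lemma cov016 : (prods 3).all (fun a => cov E016 Z016 (([0, 1, 6] : List (Fin 10)).zip a)) = true := by
  decide +kernel

theorem typ016 : Typ dt [0, 1, 6] E016 Z016 := ⟨E016_ok, Z016_ok, cov016, by decide +kernel⟩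

/-- a fibre -/
def e017_0 : Cfg :=
    ⟨[(0, 1), (1, 1), (7, 1)], [(false, [([.ofNat 20], [.negSucc 39, .negSucc 19, .ofNat 20, .ofNat 6,
      .negSucc 0, .ofNat 1, .ofNat 0, .negSucc 0, .negSucc 0, .ofNat 0])]), (false, [([.ofNat 20,
      .ofNat 40], [.negSucc 59, .ofNat 0, .ofNat 0, .ofNat 12, .negSucc 2, .ofNat 0, .ofNat 0,
      .negSucc 0, .ofNat 0, .ofNat 0])]), (true, []), (false, [([.ofNat 20, .ofNat 0, .ofNat 20,
      .ofNat 20], [.negSucc 19, .ofNat 0, .negSucc 19, .ofNat 10, .negSucc 1, .ofNat 1, .ofNat 0,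
      .ofNat 0, .ofNat 0, .ofNat 0])]), (false, []), (false, [([.ofNat 20, .ofNat 20, .ofNat 40,
      .ofNat 0, .ofNat 60, .ofNat 60], [.negSucc 59, .ofNat 0, .negSucc 39, .ofNat 30, .negSucc 4,
      .ofNat 0, .negSucc 0, .ofNat 0, .ofNat 0, .ofNat 0])]), (false, [([.ofNat 2, .ofNat 4,
      .ofNat 6, .ofNat 8, .ofNat 0, .ofNat 12, .ofNat 14], [.negSucc 15, .ofNat 2, .negSucc 9,
      .ofNat 7, .negSucc 0, .ofNat 0, .ofNat 0, .ofNat 0, .ofNat 0, .ofNat 0])]), (false,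
      [([.ofNat 1, .ofNat 1, .ofNat 1, .ofNat 1, .ofNat 1, .ofNat 0, .ofNat 1, .ofNat 1],
      [.negSucc 0, .negSucc 0, .negSucc 0, .ofNat 1, .ofNat 0, .ofNat 0, .ofNat 0, .ofNat 0,
      .ofNat 0, .ofNat 0])]), (true, []), (true, [])]⟩

lemma e017_0_ok : okE dt e017_0 = true := by decide +kernel

/-- the fibres with solutions -/
def E017 : List Cfg := [
    e017_0]

/-- the fibres without solutions -/
def Z017 : List Cfg := [
    ⟨[(0, 1), (1, 1), (7, 2)], [(false, [([.ofNat 20], [.negSucc 39, .negSucc 19, .ofNat 20, .ofNat 6,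
      .negSucc 0, .ofNat 1, .ofNat 0, .negSucc 0, .negSucc 0, .ofNat 0, .ofNat 0])]), (false,
      [([.ofNat 20, .ofNat 40], [.negSucc 59, .ofNat 0, .ofNat 0, .ofNat 12, .negSucc 2, .ofNat 0,
      .ofNat 0, .negSucc 0, .ofNat 0, .ofNat 0, .ofNat 0])]), (true, []), (false, [([.ofNat 20,
      .ofNat 0, .ofNat 20, .ofNat 20], [.negSucc 19, .ofNat 0, .negSucc 19, .ofNat 10, .negSucc 1,
      .ofNat 1, .ofNat 0, .ofNat 0, .ofNat 0, .ofNat 0, .ofNat 0])]), (false, [([.ofNat 80,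
      .ofNat 200, .ofNat 0, .ofNat 300, .ofNat 260], [.negSucc 339, .ofNat 0, .negSucc 179,
      .ofNat 145, .negSucc 24, .ofNat 0, .negSucc 7, .ofNat 0, .ofNat 0, .ofNat 0, .ofNat 2])]),
      (false, [([.ofNat 20, .ofNat 20, .ofNat 40, .ofNat 0, .ofNat 60, .ofNat 60], [.negSucc 59,
      .ofNat 0, .negSucc 39, .ofNat 30, .negSucc 4, .ofNat 0, .negSucc 0, .ofNat 0, .ofNat 0,
      .ofNat 0, .ofNat 0])]), (false, [([.ofNat 2, .ofNat 4, .ofNat 6, .ofNat 8, .ofNat 0,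
      .ofNat 12, .ofNat 14], [.negSucc 15, .ofNat 2, .negSucc 9, .ofNat 7, .negSucc 0, .ofNat 0,
      .ofNat 0, .ofNat 0, .ofNat 0, .ofNat 0, .ofNat 0])]), (false, [([.ofNat 1, .ofNat 1,
      .ofNat 1, .ofNat 1, .ofNat 1, .ofNat 0, .ofNat 1, .ofNat 1], [.negSucc 0, .negSucc 0,
      .negSucc 0, .ofNat 1, .ofNat 0, .ofNat 0, .ofNat 0, .ofNat 0, .ofNat 0, .ofNat 0,
      .ofNat 0])]), (true, []), (true, [])]⟩,
    ⟨[(0, 1), (1, 2), (7, 1)], [(false, [([.ofNat 20], [.negSucc 39, .negSucc 19, .ofNat 20, .ofNat 6,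
      .negSucc 0, .ofNat 1, .ofNat 0, .ofNat 0, .negSucc 0, .negSucc 0, .ofNat 0])]), (false,
      [([.ofNat 20, .ofNat 40], [.negSucc 59, .ofNat 0, .ofNat 0, .ofNat 12, .negSucc 2, .ofNat 0,
      .ofNat 0, .ofNat 0, .negSucc 0, .ofNat 0, .ofNat 0])]), (true, []), (false, [([.ofNat 20,
      .ofNat 0, .ofNat 20, .ofNat 20], [.negSucc 19, .ofNat 0, .negSucc 19, .ofNat 10, .negSucc 1,
      .ofNat 1, .ofNat 0, .ofNat 0, .ofNat 0, .ofNat 0, .ofNat 0])]), (false, [([.ofNat 120,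
      .ofNat 200, .ofNat 0, .ofNat 400, .ofNat 280], [.negSucc 279, .ofNat 0, .negSucc 159,
      .ofNat 135, .negSucc 24, .ofNat 0, .negSucc 5, .negSucc 1, .ofNat 0, .ofNat 0, .ofNat 0])]),
      (false, [([.ofNat 20, .ofNat 20, .ofNat 40, .ofNat 0, .ofNat 60, .ofNat 60], [.negSucc 59,
      .ofNat 0, .negSucc 39, .ofNat 30, .negSucc 4, .ofNat 0, .negSucc 0, .ofNat 0, .ofNat 0,
      .ofNat 0, .ofNat 0])]), (false, [([.ofNat 2, .ofNat 4, .ofNat 6, .ofNat 8, .ofNat 0,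
      .ofNat 12, .ofNat 14], [.negSucc 15, .ofNat 2, .negSucc 9, .ofNat 7, .negSucc 0, .ofNat 0,
      .ofNat 0, .ofNat 0, .ofNat 0, .ofNat 0, .ofNat 0])]), (false, [([.ofNat 1, .ofNat 1,
      .ofNat 1, .ofNat 1, .ofNat 1, .ofNat 0, .ofNat 1, .ofNat 1], [.negSucc 0, .negSucc 0,
      .negSucc 0, .ofNat 1, .ofNat 0, .ofNat 0, .ofNat 0, .ofNat 0, .ofNat 0, .ofNat 0,
      .ofNat 0])]), (true, []), (true, [])]⟩,
    ⟨[(0, 2), (1, 1), (7, 1)], [(false, [([.ofNat 20], [.negSucc 39, .negSucc 19, .ofNat 20, .ofNat 6,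
      .ofNat 0, .negSucc 0, .ofNat 1, .ofNat 0, .negSucc 0, .negSucc 0, .ofNat 0])]), (false,
      [([.ofNat 20, .ofNat 40], [.negSucc 59, .ofNat 0, .ofNat 0, .ofNat 12, .ofNat 0, .negSucc 2,
      .ofNat 0, .ofNat 0, .negSucc 0, .ofNat 0, .ofNat 0])]), (true, []), (false, [([.ofNat 20,
      .ofNat 0, .ofNat 20, .ofNat 20], [.negSucc 19, .ofNat 0, .negSucc 19, .ofNat 10, .ofNat 0,
      .negSucc 1, .ofNat 1, .ofNat 0, .ofNat 0, .ofNat 0, .ofNat 0])]), (false, [([.ofNat 80,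
      .negSucc 79, .ofNat 0, .negSucc 79, .ofNat 40], [.negSucc 139, .ofNat 120, .negSucc 159,
      .ofNat 5, .negSucc 1, .ofNat 5, .ofNat 0, .ofNat 12, .ofNat 0, .ofNat 0, .ofNat 0])]),
      (false, [([.ofNat 240, .ofNat 320, .ofNat 400, .ofNat 0, .ofNat 640, .ofNat 760],
      [.negSucc 859, .ofNat 120, .negSucc 639, .ofNat 365, .negSucc 1, .negSucc 54, .ofNat 0,
      .ofNat 0, .ofNat 0, .ofNat 0, .ofNat 0])]), (false, [([.ofNat 55, .negSucc 9, .ofNat 5,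
      .ofNat 20, .ofNat 0, .ofNat 10, .ofNat 5], [.negSucc 9, .negSucc 4, .ofNat 45, .ofNat 10,
      .ofNat 1, .ofNat 0, .ofNat 0, .ofNat 0, .ofNat 0, .ofNat 0, .ofNat 0])]), (false,
      [([.ofNat 1, .ofNat 1, .ofNat 1, .ofNat 1, .ofNat 1, .ofNat 0, .ofNat 1, .ofNat 1],
      [.negSucc 0, .negSucc 0, .negSucc 0, .ofNat 1, .ofNat 0, .ofNat 0, .ofNat 0, .ofNat 0,
      .ofNat 0, .ofNat 0, .ofNat 0])]), (true, []), (true, [])]⟩]

lemma E017_ok : E017.all (okE dt) = true := by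
  simp only [E017, List.all_cons, List.all_nil, Bool.and_self,
    e017_0_ok]

lemma Z017_ok : Z017.all (okZ dt) = true := by decide +kernel

lemma cov017 : (prods 3).all (fun a => cov E017 Z017 (([0, 1, 7] : List (Fin 10)).zip a)) = true := by
  decide +kernel

theorem typ017 : Typ dt [0, 1, 7] E017 Z017 := ⟨E017_ok, Z017_ok, cov017, by decide +kernel⟩

/-- a fibre -/
def e018_0 : Cfg :=
    ⟨[(0, 1), (1, 1), (8, 1)], [(false, [([.ofNat 20], [.negSucc 39, .ofNat 0, .ofNat 0, .ofNat 6,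
      .negSucc 1, .ofNat 0, .ofNat 0, .negSucc 0, .ofNat 0, .ofNat 0])]), (true, []), (false, []),
      (false, [([.ofNat 20, .ofNat 20, .ofNat 0, .ofNat 20], [.negSucc 19, .ofNat 0, .negSucc 19,
      .ofNat 10, .negSucc 1, .ofNat 1, .ofNat 0, .ofNat 0, .ofNat 0, .ofNat 0])]), (false,
      [([.ofNat 20, .ofNat 0, .ofNat 0, .ofNat 0, .ofNat 0], [.negSucc 19, .ofNat 0, .ofNat 20,
      .ofNat 2, .ofNat 1, .ofNat 0, .ofNat 1, .ofNat 0, .negSucc 0, .ofNat 0])]), (false,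
      [([.ofNat 20, .ofNat 20, .ofNat 40, .ofNat 40, .ofNat 0, .ofNat 60], [.negSucc 59, .ofNat 0,
      .negSucc 59, .ofNat 30, .negSucc 4, .ofNat 0, .negSucc 0, .ofNat 0, .ofNat 0, .ofNat 0])]),
      (false, [([.ofNat 2, .ofNat 4, .ofNat 6, .ofNat 8, .ofNat 10, .ofNat 0, .ofNat 14],
      [.negSucc 15, .ofNat 2, .negSucc 11, .ofNat 7, .negSucc 0, .ofNat 0, .ofNat 0, .ofNat 0,
      .ofNat 0, .ofNat 0])]), (false, [([.ofNat 1, .ofNat 1, .ofNat 1, .ofNat 1, .ofNat 1,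
      .ofNat 1, .ofNat 0, .ofNat 1], [.negSucc 0, .negSucc 0, .negSucc 0, .ofNat 1, .ofNat 0,
      .ofNat 0, .ofNat 0, .ofNat 0, .ofNat 0, .ofNat 0])]), (true, []), (true, [])]⟩

lemma e018_0_ok : okE dt e018_0 = true := by decide +kernel

/-- the fibres with solutions -/
def E018 : List Cfg := [
    e018_0]

/-- the fibres without solutions -/
def Z018 : List Cfg := [
    ⟨[(0, 1), (1, 1), (8, 2)], [(false, [([.ofNat 20], [.negSucc 39, .ofNat 0, .ofNat 0, .ofNat 6,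
      .negSucc 1, .ofNat 0, .ofNat 0, .negSucc 0, .ofNat 0, .ofNat 0, .ofNat 0])]), (true, []),
      (false, [([.ofNat 40, .ofNat 0, .ofNat 100], [.ofNat 20, .ofNat 160, .negSucc 219, .ofNat 9,
      .negSucc 14, .negSucc 3, .negSucc 7, .ofNat 0, .ofNat 8, .ofNat 0, .negSucc 1])]), (false,
      [([.ofNat 20, .ofNat 20, .ofNat 0, .ofNat 20], [.negSucc 19, .ofNat 0, .negSucc 19,
      .ofNat 10, .negSucc 1, .ofNat 1, .ofNat 0, .ofNat 0, .ofNat 0, .ofNat 0, .ofNat 0])]),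
      (false, [([.ofNat 20, .ofNat 0, .ofNat 0, .ofNat 0, .ofNat 0], [.negSucc 19, .ofNat 0,
      .ofNat 20, .ofNat 2, .ofNat 1, .ofNat 0, .ofNat 1, .ofNat 0, .negSucc 0, .ofNat 0,
      .ofNat 0])]), (false, [([.ofNat 20, .ofNat 20, .ofNat 40, .ofNat 40, .ofNat 0, .ofNat 60],
      [.negSucc 59, .ofNat 0, .negSucc 59, .ofNat 30, .negSucc 4, .ofNat 0, .negSucc 0, .ofNat 0,
      .ofNat 0, .ofNat 0, .ofNat 0])]), (false, [([.ofNat 2, .ofNat 4, .ofNat 6, .ofNat 8,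
      .ofNat 10, .ofNat 0, .ofNat 14], [.negSucc 15, .ofNat 2, .negSucc 11, .ofNat 7, .negSucc 0,
      .ofNat 0, .ofNat 0, .ofNat 0, .ofNat 0, .ofNat 0, .ofNat 0])]), (false, [([.ofNat 1,
      .ofNat 1, .ofNat 1, .ofNat 1, .ofNat 1, .ofNat 1, .ofNat 0, .ofNat 1], [.negSucc 0,
      .negSucc 0, .negSucc 0, .ofNat 1, .ofNat 0, .ofNat 0, .ofNat 0, .ofNat 0, .ofNat 0,
      .ofNat 0, .ofNat 0])]), (true, []), (true, [])]⟩,
    ⟨[(0, 1), (1, 2), (8, 1)], [(false, [([.ofNat 20], [.negSucc 39, .ofNat 0, .ofNat 0, .ofNat 6,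
      .negSucc 1, .ofNat 0, .ofNat 0, .ofNat 0, .negSucc 0, .ofNat 0, .ofNat 0])]), (true, []),
      (false, [([.ofNat 40, .ofNat 0, .negSucc 79], [.negSucc 39, .ofNat 0, .ofNat 320,
      .negSucc 22, .ofNat 11, .ofNat 10, .ofNat 12, .ofNat 2, .ofNat 0, .negSucc 5, .ofNat 0])]),
      (false, [([.ofNat 20, .ofNat 20, .ofNat 0, .ofNat 20], [.negSucc 19, .ofNat 0, .negSucc 19,
      .ofNat 10, .negSucc 1, .ofNat 1, .ofNat 0, .ofNat 0, .ofNat 0, .ofNat 0, .ofNat 0])]),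
      (false, [([.ofNat 120, .ofNat 200, .ofNat 160, .ofNat 0, .ofNat 280], [.negSucc 279,
      .ofNat 0, .negSucc 399, .ofNat 135, .negSucc 24, .ofNat 0, .negSucc 5, .negSucc 1, .ofNat 0,
      .ofNat 0, .ofNat 0])]), (false, [([.ofNat 20, .ofNat 20, .ofNat 40, .ofNat 40, .ofNat 0,
      .ofNat 60], [.negSucc 59, .ofNat 0, .negSucc 59, .ofNat 30, .negSucc 4, .ofNat 0,
      .negSucc 0, .ofNat 0, .ofNat 0, .ofNat 0, .ofNat 0])]), (false, [([.ofNat 2, .ofNat 4,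
      .ofNat 6, .ofNat 8, .ofNat 10, .ofNat 0, .ofNat 14], [.negSucc 15, .ofNat 2, .negSucc 11,
      .ofNat 7, .negSucc 0, .ofNat 0, .ofNat 0, .ofNat 0, .ofNat 0, .ofNat 0, .ofNat 0])]),
      (false, [([.ofNat 1, .ofNat 1, .ofNat 1, .ofNat 1, .ofNat 1, .ofNat 1, .ofNat 0, .ofNat 1],
      [.negSucc 0, .negSucc 0, .negSucc 0, .ofNat 1, .ofNat 0, .ofNat 0, .ofNat 0, .ofNat 0,
      .ofNat 0, .ofNat 0, .ofNat 0])]), (true, []), (true, [])]⟩,
    ⟨[(0, 2), (1, 1), (8, 1)], [(false, [([.ofNat 20], [.negSucc 39, .ofNat 0, .ofNat 0, .ofNat 6,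
      .ofNat 0, .negSucc 1, .ofNat 0, .ofNat 0, .negSucc 0, .ofNat 0, .ofNat 0])]), (true, []),
      (false, [([.ofNat 240, .ofNat 0, .ofNat 120], [.negSucc 139, .ofNat 120, .negSucc 79,
      .ofNat 37, .negSucc 1, .negSucc 6, .ofNat 4, .ofNat 8, .ofNat 0, .ofNat 4, .ofNat 0])]),
      (false, [([.ofNat 20, .ofNat 20, .ofNat 0, .ofNat 20], [.negSucc 19, .ofNat 0, .negSucc 19,
      .ofNat 10, .ofNat 0, .negSucc 1, .ofNat 1, .ofNat 0, .ofNat 0, .ofNat 0, .ofNat 0])]),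
      (false, [([.ofNat 80, .negSucc 79, .ofNat 160, .ofNat 0, .ofNat 40], [.negSucc 139,
      .ofNat 120, .ofNat 80, .ofNat 5, .negSucc 1, .ofNat 5, .ofNat 0, .ofNat 12, .ofNat 0,
      .ofNat 0, .ofNat 0])]), (false, [([.ofNat 240, .ofNat 320, .ofNat 400, .ofNat 640, .ofNat 0,
      .ofNat 760], [.negSucc 859, .ofNat 120, .negSucc 639, .ofNat 365, .negSucc 1, .negSucc 54,
      .ofNat 0, .ofNat 0, .ofNat 0, .ofNat 0, .ofNat 0])]), (false, [([.ofNat 55, .negSucc 9,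
      .ofNat 5, .ofNat 20, .negSucc 44, .ofNat 0, .ofNat 5], [.negSucc 9, .negSucc 4, .negSucc 9,
      .ofNat 10, .ofNat 1, .ofNat 0, .ofNat 0, .ofNat 0, .ofNat 0, .ofNat 0, .ofNat 0])]), (false,
      [([.ofNat 1, .ofNat 1, .ofNat 1, .ofNat 1, .ofNat 1, .ofNat 1, .ofNat 0, .ofNat 1],
      [.negSucc 0, .negSucc 0, .negSucc 0, .ofNat 1, .ofNat 0, .ofNat 0, .ofNat 0, .ofNat 0,
      .ofNat 0, .ofNat 0, .ofNat 0])]), (true, []), (true, [])]⟩]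

lemma E018_ok : E018.all (okE dt) = true := by
  simp only [E018, List.all_cons, List.all_nil, Bool.and_self,
    e018_0_ok]

lemma Z018_ok : Z018.all (okZ dt) = true := by decide +kernel

lemma cov018 : (prods 3).all (fun a => cov E018 Z018 (([0, 1, 8] : List (Fin 10)).zip a)) = true := by
  decide +kernel

theorem typ018 : Typ dt [0, 1, 8] E018 Z018 := ⟨E018_ok, Z018_ok, cov018, by decide +kernel⟩

/-- a fibre -/
def e024_0 : Cfg :=
    ⟨[(0, 1), (2, 1), (4, 1)], [(false, []), (false, [([.ofNat 20, .ofNat 40], [.negSucc 19,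
      .ofNat 20, .negSucc 19, .ofNat 8, .negSucc 0, .negSucc 0, .ofNat 0, .ofNat 0, .ofNat 2,
      .ofNat 0])]), (false, []), (false, [([.ofNat 40, .ofNat 80, .ofNat 60, .ofNat 40],
      [.negSucc 19, .ofNat 20, .negSucc 19, .ofNat 24, .negSucc 4, .ofNat 3, .ofNat 0, .ofNat 2,
      .ofNat 0, .ofNat 0])]), (false, [([.ofNat 40, .ofNat 0, .negSucc 39, .negSucc 19, .ofNat 0],
      [.negSucc 19, .ofNat 20, .negSucc 19, .ofNat 0, .ofNat 1, .negSucc 2, .ofNat 0, .ofNat 0,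
      .ofNat 0, .ofNat 0])]), (true, []), (false, [([.ofNat 12, .ofNat 0, .ofNat 4, .ofNat 0,
      .negSucc 3, .negSucc 7, .negSucc 11], [.ofNat 16, .negSucc 15, .negSucc 7, .ofNat 0,
      .ofNat 1, .ofNat 0, .ofNat 0, .ofNat 0, .ofNat 0, .ofNat 0])]), (true, []), (false,
      [([.ofNat 1, .ofNat 0, .ofNat 1, .ofNat 0, .ofNat 1, .ofNat 1, .ofNat 1, .ofNat 1,
      .ofNat 1], [.negSucc 0, .negSucc 0, .negSucc 0, .ofNat 1, .ofNat 0, .ofNat 0, .ofNat 0,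
      .ofNat 0, .ofNat 0, .ofNat 0])]), (true, [])]⟩

lemma e024_0_ok : okE dt e024_0 = true := by decide +kernel

/-- a fibre -/
def e024_1 : Cfg :=
    ⟨[(0, 1), (2, 1), (4, 2)], [(false, []), (false, [([.ofNat 20, .ofNat 40], [.negSucc 19,
      .ofNat 20, .negSucc 19, .ofNat 8, .negSucc 0, .negSucc 0, .ofNat 0, .ofNat 0, .ofNat 2,
      .ofNat 0, .ofNat 0])]), (false, [([.ofNat 480, .ofNat 140, .ofNat 440], [.negSucc 739,
      .negSucc 219, .ofNat 140, .ofNat 224, .ofNat 5, .negSucc 6, .ofNat 0, .negSucc 17, .ofNat 0,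
      .ofNat 0, .ofNat 8])]), (false, [([.ofNat 40, .ofNat 80, .ofNat 60, .ofNat 40],
      [.negSucc 19, .ofNat 20, .negSucc 19, .ofNat 24, .negSucc 4, .ofNat 3, .ofNat 0, .ofNat 2,
      .ofNat 0, .ofNat 0, .ofNat 0])]), (false, [([.ofNat 40, .ofNat 0, .negSucc 39, .negSucc 19,
      .ofNat 0], [.negSucc 19, .ofNat 20, .negSucc 19, .ofNat 0, .ofNat 1, .negSucc 2, .ofNat 0,
      .ofNat 0, .ofNat 0, .ofNat 0, .ofNat 0])]), (true, []), (false, [([.ofNat 12, .ofNat 0,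
      .ofNat 4, .ofNat 0, .negSucc 3, .negSucc 7, .negSucc 11], [.ofNat 16, .negSucc 15,
      .negSucc 7, .ofNat 0, .ofNat 1, .ofNat 0, .ofNat 0, .ofNat 0, .ofNat 0, .ofNat 0,
      .ofNat 0])]), (true, []), (false, [([.ofNat 1, .ofNat 0, .ofNat 1, .ofNat 0, .ofNat 1,
      .ofNat 1, .ofNat 1, .ofNat 1, .ofNat 1], [.negSucc 0, .negSucc 0, .negSucc 0, .ofNat 1,
      .ofNat 0, .ofNat 0, .ofNat 0, .ofNat 0, .ofNat 0, .ofNat 0, .ofNat 0])]), (true, [])]⟩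

lemma e024_1_ok : okE dt e024_1 = true := by decide +kernel

/-- a fibre -/
def e024_2 : Cfg :=
    ⟨[(0, 1), (2, 2), (4, 1)], [(false, []), (false, [([.ofNat 20, .ofNat 40], [.negSucc 19,
      .ofNat 20, .negSucc 19, .ofNat 8, .negSucc 0, .negSucc 0, .ofNat 0, .ofNat 0, .ofNat 0,
      .ofNat 2, .ofNat 0])]), (false, [([.ofNat 640, .ofNat 500, .negSucc 279], [.ofNat 100,
      .negSucc 179, .ofNat 180, .ofNat 112, .negSucc 24, .ofNat 39, .ofNat 0, .ofNat 8, .ofNat 6,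
      .ofNat 0, .ofNat 0])]), (false, [([.ofNat 60, .negSucc 199, .negSucc 159, .ofNat 200],
      [.negSucc 79, .ofNat 120, .negSucc 119, .negSucc 19, .ofNat 5, .negSucc 14, .ofNat 0,
      .negSucc 3, .ofNat 0, .ofNat 0, .ofNat 0])]), (false, [([.ofNat 40, .ofNat 0, .negSucc 39,
      .negSucc 19, .ofNat 0], [.negSucc 19, .ofNat 20, .negSucc 19, .ofNat 0, .ofNat 1,
      .negSucc 2, .ofNat 0, .ofNat 0, .ofNat 0, .ofNat 0, .ofNat 0])]), (true, []), (false,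
      [([.ofNat 12, .ofNat 0, .ofNat 4, .ofNat 0, .negSucc 3, .negSucc 7, .negSucc 11],
      [.ofNat 16, .negSucc 15, .negSucc 7, .ofNat 0, .ofNat 1, .ofNat 0, .ofNat 0, .ofNat 0,
      .ofNat 0, .ofNat 0, .ofNat 0])]), (true, []), (false, [([.ofNat 1, .ofNat 0, .ofNat 1,
      .ofNat 0, .ofNat 1, .ofNat 1, .ofNat 1, .ofNat 1, .ofNat 1], [.negSucc 0, .negSucc 0,
      .negSucc 0, .ofNat 1, .ofNat 0, .ofNat 0, .ofNat 0, .ofNat 0, .ofNat 0, .ofNat 0,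
      .ofNat 0])]), (true, [])]⟩

lemma e024_2_ok : okE dt e024_2 = true := by decide +kernel

/-- a fibre -/
def e024_3 : Cfg :=
    ⟨[(0, 2), (2, 1), (4, 1)], [(false, []), (false, [([.ofNat 20, .ofNat 40], [.negSucc 19,
      .ofNat 20, .negSucc 19, .ofNat 8, .ofNat 0, .negSucc 0, .negSucc 0, .ofNat 0, .ofNat 0,
      .ofNat 2, .ofNat 0])]), (false, [([.ofNat 640, .negSucc 59, .negSucc 279], [.ofNat 580,
      .negSucc 579, .negSucc 379, .ofNat 32, .negSucc 7, .ofNat 15, .ofNat 19, .ofNat 0, .ofNat 6,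
      .ofNat 0, .ofNat 0])]), (false, [([.ofNat 60, .negSucc 199, .ofNat 120, .ofNat 200],
      [.negSucc 319, .ofNat 320, .ofNat 160, .ofNat 20, .ofNat 4, .negSucc 14, .negSucc 4,
      .ofNat 0, .ofNat 0, .ofNat 0, .ofNat 0])]), (false, [([.ofNat 100, .negSucc 89, .ofNat 200,
      .negSucc 229, .negSucc 299], [.ofNat 430, .negSucc 429, .negSucc 289, .negSucc 29,
      .negSucc 5, .ofNat 25, .ofNat 0, .ofNat 0, .ofNat 0, .ofNat 0, .ofNat 0])]), (true, []),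
      (false, [([.ofNat 50, .ofNat 0, .ofNat 0, .ofNat 15, .negSucc 49, .ofNat 5, .ofNat 0],
      [.negSucc 4, .ofNat 5, .ofNat 15, .ofNat 5, .ofNat 1, .ofNat 0, .ofNat 0, .ofNat 0,
      .ofNat 0, .ofNat 0, .ofNat 0])]), (true, []), (false, [([.ofNat 1, .ofNat 0, .ofNat 1,
      .ofNat 0, .ofNat 1, .ofNat 1, .ofNat 1, .ofNat 1, .ofNat 1], [.negSucc 0, .negSucc 0,
      .negSucc 0, .ofNat 1, .ofNat 0, .ofNat 0, .ofNat 0, .ofNat 0, .ofNat 0, .ofNat 0,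
      .ofNat 0])]), (true, [])]⟩

lemma e024_3_ok : okE dt e024_3 = true := by decide +kernel

/-- the fibres with solutions -/
def E024 : List Cfg := [
    e024_0, e024_1, e024_2, e024_3]

/-- the fibres without solutions -/
def Z024 : List Cfg := [
    ⟨[(0, 1), (2, 1), (4, 3)], [(false, [([.ofNat 1920], [.negSucc 3539, .negSucc 2219, .ofNat 2500,
      .ofNat 124, .ofNat 102, .negSucc 47, .ofNat 0, .negSucc 134, .negSucc 48, .ofNat 0,
      .ofNat 28, .negSucc 3])]), (false, [([.ofNat 20, .ofNat 40], [.negSucc 19, .ofNat 20,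
      .negSucc 19, .ofNat 8, .negSucc 0, .negSucc 0, .ofNat 0, .ofNat 0, .ofNat 2, .ofNat 0,
      .ofNat 0, .ofNat 0])]), (false, [([.ofNat 480, .ofNat 140, .ofNat 440], [.negSucc 739,
      .negSucc 219, .ofNat 140, .ofNat 224, .ofNat 5, .negSucc 6, .ofNat 0, .negSucc 17, .ofNat 0,
      .ofNat 0, .ofNat 8, .ofNat 0])]), (false, [([.ofNat 40, .ofNat 80, .ofNat 60, .ofNat 40],
      [.negSucc 19, .ofNat 20, .negSucc 19, .ofNat 24, .negSucc 4, .ofNat 3, .ofNat 0, .ofNat 2,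
      .ofNat 0, .ofNat 0, .ofNat 0, .ofNat 0])]), (false, [([.ofNat 40, .ofNat 0, .negSucc 39,
      .negSucc 19, .ofNat 0], [.negSucc 19, .ofNat 20, .negSucc 19, .ofNat 0, .ofNat 1,
      .negSucc 2, .ofNat 0, .ofNat 0, .ofNat 0, .ofNat 0, .ofNat 0, .ofNat 0])]), (true, []),
      (false, [([.ofNat 12, .ofNat 0, .ofNat 4, .ofNat 0, .negSucc 3, .negSucc 7, .negSucc 11],
      [.ofNat 16, .negSucc 15, .negSucc 7, .ofNat 0, .ofNat 1, .ofNat 0, .ofNat 0, .ofNat 0,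
      .ofNat 0, .ofNat 0, .ofNat 0, .ofNat 0])]), (true, []), (false, [([.ofNat 1, .ofNat 0,
      .ofNat 1, .ofNat 0, .ofNat 1, .ofNat 1, .ofNat 1, .ofNat 1, .ofNat 1], [.negSucc 0,
      .negSucc 0, .negSucc 0, .ofNat 1, .ofNat 0, .ofNat 0, .ofNat 0, .ofNat 0, .ofNat 0,
      .ofNat 0, .ofNat 0, .ofNat 0])]), (true, [])]⟩,
    ⟨[(0, 1), (2, 2), (4, 2)], [(false, [([.ofNat 2240], [.negSucc 2099, .ofNat 300, .negSucc 459,
      .ofNat 468, .ofNat 24, .negSucc 95, .ofNat 0, .negSucc 11, .negSucc 44, .ofNat 47, .ofNat 0,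
      .ofNat 16])]), (false, [([.ofNat 20, .ofNat 40], [.negSucc 19, .ofNat 20, .negSucc 19,
      .ofNat 8, .negSucc 0, .negSucc 0, .ofNat 0, .ofNat 0, .ofNat 0, .ofNat 2, .ofNat 0,
      .ofNat 0])]), (false, [([.ofNat 640, .ofNat 500, .negSucc 279], [.ofNat 100, .negSucc 179,
      .ofNat 180, .ofNat 112, .negSucc 24, .ofNat 39, .ofNat 0, .ofNat 8, .ofNat 6, .ofNat 0,
      .ofNat 0, .ofNat 0])]), (false, [([.ofNat 60, .negSucc 199, .negSucc 159, .ofNat 200],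
      [.negSucc 79, .ofNat 120, .negSucc 119, .negSucc 19, .ofNat 5, .negSucc 14, .ofNat 0,
      .negSucc 3, .ofNat 0, .ofNat 0, .ofNat 0, .ofNat 0])]), (false, [([.ofNat 40, .ofNat 0,
      .negSucc 39, .negSucc 19, .ofNat 0], [.negSucc 19, .ofNat 20, .negSucc 19, .ofNat 0,
      .ofNat 1, .negSucc 2, .ofNat 0, .ofNat 0, .ofNat 0, .ofNat 0, .ofNat 0, .ofNat 0])]), (true,
      []), (false, [([.ofNat 12, .ofNat 0, .ofNat 4, .ofNat 0, .negSucc 3, .negSucc 7,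
      .negSucc 11], [.ofNat 16, .negSucc 15, .negSucc 7, .ofNat 0, .ofNat 1, .ofNat 0, .ofNat 0,
      .ofNat 0, .ofNat 0, .ofNat 0, .ofNat 0, .ofNat 0])]), (true, []), (false, [([.ofNat 1,
      .ofNat 0, .ofNat 1, .ofNat 0, .ofNat 1, .ofNat 1, .ofNat 1, .ofNat 1, .ofNat 1],
      [.negSucc 0, .negSucc 0, .negSucc 0, .ofNat 1, .ofNat 0, .ofNat 0, .ofNat 0, .ofNat 0,
      .ofNat 0, .ofNat 0, .ofNat 0, .ofNat 0])]), (true, [])]⟩,
    ⟨[(0, 1), (2, 3), (4, 1)], [(false, [([.ofNat 640], [.ofNat 1140, .negSucc 1659, .ofNat 1100,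
      .ofNat 508, .ofNat 24, .ofNat 64, .ofNat 0, .negSucc 3, .ofNat 4, .negSucc 14, .negSucc 22,
      .ofNat 0])]), (false, [([.ofNat 460, .ofNat 2200], [.ofNat 1820, .negSucc 2859, .ofNat 1740,
      .ofNat 1200, .ofNat 25, .ofNat 105, .ofNat 0, .negSucc 7, .ofNat 8, .negSucc 29, .ofNat 0,
      .ofNat 0])]), (false, [([.ofNat 800, .ofNat 740, .ofNat 200], [.ofNat 580, .negSucc 939,
      .ofNat 660, .ofNat 440, .negSucc 24, .ofNat 75, .ofNat 0, .ofNat 8, .ofNat 2, .ofNat 0,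
      .ofNat 0, .ofNat 0])]), (false, [([.ofNat 60, .negSucc 199, .negSucc 159, .ofNat 200],
      [.negSucc 79, .ofNat 120, .negSucc 119, .negSucc 19, .ofNat 5, .negSucc 14, .ofNat 0,
      .negSucc 3, .ofNat 0, .ofNat 0, .ofNat 0, .ofNat 0])]), (false, [([.ofNat 40, .ofNat 0,
      .negSucc 39, .negSucc 19, .ofNat 0], [.negSucc 19, .ofNat 20, .negSucc 19, .ofNat 0,
      .ofNat 1, .negSucc 2, .ofNat 0, .ofNat 0, .ofNat 0, .ofNat 0, .ofNat 0, .ofNat 0])]), (true,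
      []), (false, [([.ofNat 12, .ofNat 0, .ofNat 4, .ofNat 0, .negSucc 3, .negSucc 7,
      .negSucc 11], [.ofNat 16, .negSucc 15, .negSucc 7, .ofNat 0, .ofNat 1, .ofNat 0, .ofNat 0,
      .ofNat 0, .ofNat 0, .ofNat 0, .ofNat 0, .ofNat 0])]), (true, []), (false, [([.ofNat 1,
      .ofNat 0, .ofNat 1, .ofNat 0, .ofNat 1, .ofNat 1, .ofNat 1, .ofNat 1, .ofNat 1],
      [.negSucc 0, .negSucc 0, .negSucc 0, .ofNat 1, .ofNat 0, .ofNat 0, .ofNat 0, .ofNat 0,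
      .ofNat 0, .ofNat 0, .ofNat 0, .ofNat 0])]), (true, [])]⟩,
    ⟨[(0, 2), (2, 1), (4, 2)], [(false, [([.ofNat 560], [.negSucc 1979, .ofNat 60, .ofNat 1220,
      .ofNat 252, .ofNat 12, .ofNat 6, .negSucc 23, .ofNat 0, .negSucc 44, .negSucc 36, .ofNat 0,
      .ofNat 16])]), (false, [([.ofNat 20, .ofNat 40], [.negSucc 19, .ofNat 20, .negSucc 19,
      .ofNat 8, .ofNat 0, .negSucc 0, .negSucc 0, .ofNat 0, .ofNat 0, .ofNat 2, .ofNat 0,
      .ofNat 0])]), (false, [([.ofNat 640, .negSucc 59, .negSucc 279], [.ofNat 580, .negSucc 579,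
      .negSucc 379, .ofNat 32, .negSucc 7, .ofNat 15, .ofNat 19, .ofNat 0, .ofNat 6, .ofNat 0,
      .ofNat 0, .ofNat 0])]), (false, [([.ofNat 60, .negSucc 199, .ofNat 120, .ofNat 200],
      [.negSucc 319, .ofNat 320, .ofNat 160, .ofNat 20, .ofNat 4, .negSucc 14, .negSucc 4,
      .ofNat 0, .ofNat 0, .ofNat 0, .ofNat 0, .ofNat 0])]), (false, [([.ofNat 100, .negSucc 89,
      .ofNat 200, .negSucc 229, .negSucc 299], [.ofNat 430, .negSucc 429, .negSucc 289,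
      .negSucc 29, .negSucc 5, .ofNat 25, .ofNat 0, .ofNat 0, .ofNat 0, .ofNat 0, .ofNat 0,
      .ofNat 0])]), (true, []), (false, [([.ofNat 50, .ofNat 0, .ofNat 0, .ofNat 15, .negSucc 49,
      .ofNat 5, .ofNat 0], [.negSucc 4, .ofNat 5, .ofNat 15, .ofNat 5, .ofNat 1, .ofNat 0,
      .ofNat 0, .ofNat 0, .ofNat 0, .ofNat 0, .ofNat 0, .ofNat 0])]), (true, []), (false,
      [([.ofNat 1, .ofNat 0, .ofNat 1, .ofNat 0, .ofNat 1, .ofNat 1, .ofNat 1, .ofNat 1,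
      .ofNat 1], [.negSucc 0, .negSucc 0, .negSucc 0, .ofNat 1, .ofNat 0, .ofNat 0, .ofNat 0,
      .ofNat 0, .ofNat 0, .ofNat 0, .ofNat 0, .ofNat 0])]), (true, [])]⟩,
    ⟨[(0, 2), (2, 2), (4, 1)], [(false, [([.ofNat 280], [.negSucc 19, .ofNat 40, .negSucc 279,
      .ofNat 36, .negSucc 1, .ofNat 3, .negSucc 11, .ofNat 0, .negSucc 1, .ofNat 0, .ofNat 14,
      .ofNat 0])]), (false, [([.ofNat 140, .ofNat 0], [.negSucc 119, .ofNat 100, .ofNat 140,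
      .ofNat 20, .ofNat 2, .negSucc 9, .ofNat 5, .ofNat 0, .ofNat 2, .ofNat 0, .ofNat 0,
      .ofNat 0])]), (false, [([.ofNat 640, .negSucc 59, .negSucc 279], [.ofNat 580, .negSucc 579,
      .negSucc 379, .ofNat 32, .negSucc 7, .ofNat 15, .ofNat 19, .ofNat 0, .ofNat 0, .ofNat 6,
      .ofNat 0, .ofNat 0])]), (false, [([.ofNat 60, .negSucc 199, .ofNat 120, .ofNat 200],
      [.negSucc 319, .ofNat 320, .ofNat 160, .ofNat 20, .ofNat 4, .negSucc 14, .negSucc 4,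
      .ofNat 0, .ofNat 0, .ofNat 0, .ofNat 0, .ofNat 0])]), (false, [([.ofNat 100, .negSucc 89,
      .ofNat 200, .negSucc 229, .negSucc 299], [.ofNat 430, .negSucc 429, .negSucc 289,
      .negSucc 29, .negSucc 5, .ofNat 25, .ofNat 0, .ofNat 0, .ofNat 0, .ofNat 0, .ofNat 0,
      .ofNat 0])]), (true, []), (false, [([.ofNat 50, .ofNat 0, .ofNat 0, .ofNat 15, .negSucc 49,
      .ofNat 5, .ofNat 0], [.negSucc 4, .ofNat 5, .ofNat 15, .ofNat 5, .ofNat 1, .ofNat 0,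
      .ofNat 0, .ofNat 0, .ofNat 0, .ofNat 0, .ofNat 0, .ofNat 0])]), (true, []), (false,
      [([.ofNat 1, .ofNat 0, .ofNat 1, .ofNat 0, .ofNat 1, .ofNat 1, .ofNat 1, .ofNat 1,
      .ofNat 1], [.negSucc 0, .negSucc 0, .negSucc 0, .ofNat 1, .ofNat 0, .ofNat 0, .ofNat 0,
      .ofNat 0, .ofNat 0, .ofNat 0, .ofNat 0, .ofNat 0])]), (true, [])]⟩,
    ⟨[(0, 3), (2, 1), (4, 1)], [(false, [([.ofNat 1440], [.negSucc 3139, .ofNat 2580, .ofNat 300,
      .ofNat 708, .ofNat 4, .ofNat 4, .negSucc 65, .negSucc 95, .ofNat 0, .negSucc 14, .ofNat 17,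
      .ofNat 0])]), (false, [([.ofNat 340, .negSucc 2199], [.ofNat 5940, .negSucc 4819,
      .negSucc 939, .negSucc 1279, .negSucc 7, .negSucc 7, .ofNat 115, .ofNat 175, .ofNat 0,
      .ofNat 30, .ofNat 0, .ofNat 0])]), (false, [([.ofNat 400, .negSucc 79, .ofNat 100],
      [.negSucc 379, .ofNat 240, .negSucc 119, .ofNat 180, .negSucc 3, .ofNat 1, .negSucc 4,
      .negSucc 9, .ofNat 0, .ofNat 0, .ofNat 0, .ofNat 0])]), (false, [([.ofNat 120, .negSucc 799,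
      .ofNat 320, .ofNat 300], [.negSucc 259, .ofNat 400, .ofNat 440, .negSucc 139, .ofNat 12,
      .negSucc 0, .negSucc 24, .ofNat 0, .ofNat 0, .ofNat 0, .ofNat 0, .ofNat 0])]), (false,
      [([.ofNat 100, .ofNat 30, .negSucc 599, .ofNat 90, .ofNat 0], [.ofNat 170, .negSucc 29,
      .ofNat 150, .negSucc 169, .ofNat 6, .negSucc 0, .ofNat 0, .ofNat 0, .ofNat 0, .ofNat 0,
      .ofNat 0, .ofNat 0])]), (true, []), (false, [([.ofNat 50, .ofNat 0, .ofNat 0, .ofNat 15,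
      .negSucc 49, .ofNat 5, .ofNat 0], [.negSucc 4, .ofNat 5, .ofNat 15, .ofNat 5, .ofNat 1,
      .ofNat 0, .ofNat 0, .ofNat 0, .ofNat 0, .ofNat 0, .ofNat 0, .ofNat 0])]), (true, []),
      (false, [([.ofNat 1, .ofNat 0, .ofNat 1, .ofNat 0, .ofNat 1, .ofNat 1, .ofNat 1, .ofNat 1,
      .ofNat 1], [.negSucc 0, .negSucc 0, .negSucc 0, .ofNat 1, .ofNat 0, .ofNat 0, .ofNat 0,
      .ofNat 0, .ofNat 0, .ofNat 0, .ofNat 0, .ofNat 0])]), (true, [])]⟩]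

lemma E024_ok : E024.all (okE dt) = true := by
  simp only [E024, List.all_cons, List.all_nil, Bool.and_self,
    e024_0_ok, e024_1_ok, e024_2_ok, e024_3_ok]

lemma Z024_ok : Z024.all (okZ dt) = true := by decide +kernel

lemma cov024 : (prods 3).all (fun a => cov E024 Z024 (([0, 2, 4] : List (Fin 10)).zip a)) = true := by
  decide +kernel

theorem typ024 : Typ dt [0, 2, 4] E024 Z024 := ⟨E024_ok, Z024_ok, cov024, by decide +kernel⟩

/-- a fibre -/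
def e025_0 : Cfg :=
    ⟨[(0, 1), (2, 1), (5, 1)], [(false, []), (false, [([.ofNat 20, .negSucc 19], [.ofNat 60,
      .negSucc 59, .ofNat 0, .ofNat 0, .ofNat 1, .ofNat 2, .ofNat 0, .negSucc 0, .ofNat 0,
      .negSucc 2])]), (false, []), (false, [([.ofNat 60, .ofNat 120, .ofNat 80, .ofNat 40],
      [.ofNat 0, .ofNat 0, .ofNat 0, .ofNat 30, .negSucc 4, .ofNat 5, .ofNat 0, .ofNat 2,
      .ofNat 0, .ofNat 0])]), (true, []), (false, [([.ofNat 20, .ofNat 0, .ofNat 0, .negSucc 39,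
      .negSucc 19, .ofNat 0], [.negSucc 19, .ofNat 20, .negSucc 39, .ofNat 0, .ofNat 1,
      .negSucc 2, .ofNat 0, .ofNat 0, .ofNat 0, .ofNat 0])]), (false, [([.ofNat 12, .ofNat 8,
      .ofNat 0, .ofNat 0, .negSucc 3, .negSucc 7, .negSucc 11], [.ofNat 16, .negSucc 15,
      .negSucc 3, .ofNat 0, .ofNat 1, .ofNat 0, .ofNat 0, .ofNat 0, .ofNat 0, .ofNat 0])]), (true,
      []), (false, [([.ofNat 1, .ofNat 0, .ofNat 1, .ofNat 1, .ofNat 0, .ofNat 1, .ofNat 1,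
      .ofNat 1, .ofNat 1], [.negSucc 0, .negSucc 0, .negSucc 0, .ofNat 1, .ofNat 0, .ofNat 0,
      .ofNat 0, .ofNat 0, .ofNat 0, .ofNat 0])]), (true, [])]⟩

lemma e025_0_ok : okE dt e025_0 = true := by decide +kernel

/-- a fibre -/
def e025_1 : Cfg :=
    ⟨[(0, 1), (2, 1), (5, 2)], [(false, []), (false, [([.ofNat 20, .negSucc 19], [.ofNat 60,
      .negSucc 59, .ofNat 0, .ofNat 0, .ofNat 1, .ofNat 2, .ofNat 0, .negSucc 0, .ofNat 0,
      .negSucc 2, .ofNat 0])]), (false, [([.ofNat 20, .negSucc 79, .ofNat 60], [.negSucc 39,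
      .negSucc 119, .ofNat 20, .ofNat 5, .ofNat 0, .ofNat 0, .ofNat 0, .negSucc 0, .ofNat 0,
      .ofNat 0, .negSucc 1])]), (false, [([.ofNat 60, .ofNat 120, .ofNat 80, .ofNat 40],
      [.ofNat 0, .ofNat 0, .ofNat 0, .ofNat 30, .negSucc 4, .ofNat 5, .ofNat 0, .ofNat 2,
      .ofNat 0, .ofNat 0, .ofNat 0])]), (true, []), (false, [([.ofNat 20, .ofNat 0, .ofNat 0,
      .negSucc 39, .negSucc 19, .ofNat 0], [.negSucc 19, .ofNat 20, .negSucc 39, .ofNat 0,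
      .ofNat 1, .negSucc 2, .ofNat 0, .ofNat 0, .ofNat 0, .ofNat 0, .ofNat 0])]), (false,
      [([.ofNat 12, .ofNat 8, .ofNat 0, .ofNat 0, .negSucc 3, .negSucc 7, .negSucc 11],
      [.ofNat 16, .negSucc 15, .negSucc 3, .ofNat 0, .ofNat 1, .ofNat 0, .ofNat 0, .ofNat 0,
      .ofNat 0, .ofNat 0, .ofNat 0])]), (true, []), (false, [([.ofNat 1, .ofNat 0, .ofNat 1,
      .ofNat 1, .ofNat 0, .ofNat 1, .ofNat 1, .ofNat 1, .ofNat 1], [.negSucc 0, .negSucc 0,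
      .negSucc 0, .ofNat 1, .ofNat 0, .ofNat 0, .ofNat 0, .ofNat 0, .ofNat 0, .ofNat 0,
      .ofNat 0])]), (true, [])]⟩

lemma e025_1_ok : okE dt e025_1 = true := by decide +kernel

/-- a fibre -/
def e025_2 : Cfg :=
    ⟨[(0, 1), (2, 2), (5, 1)], [(false, []), (false, [([.ofNat 20, .negSucc 19], [.ofNat 60,
      .negSucc 59, .ofNat 0, .ofNat 0, .ofNat 1, .ofNat 2, .ofNat 0, .ofNat 0, .negSucc 0,
      .ofNat 0, .negSucc 2])]), (false, [([.ofNat 40, .ofNat 60, .negSucc 79], [.negSucc 19,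
      .ofNat 0, .negSucc 119, .ofNat 25, .negSucc 1, .ofNat 1, .ofNat 0, .ofNat 2, .ofNat 1,
      .ofNat 0, .ofNat 0])]), (false, [([.ofNat 60, .ofNat 40, .negSucc 39, .ofNat 200],
      [.ofNat 40, .ofNat 0, .ofNat 240, .negSucc 19, .negSucc 0, .ofNat 3, .ofNat 0, .negSucc 3,
      .ofNat 0, .ofNat 0, .ofNat 0])]), (true, []), (false, [([.ofNat 20, .ofNat 0, .ofNat 0,
      .negSucc 39, .negSucc 19, .ofNat 0], [.negSucc 19, .ofNat 20, .negSucc 39, .ofNat 0,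
      .ofNat 1, .negSucc 2, .ofNat 0, .ofNat 0, .ofNat 0, .ofNat 0, .ofNat 0])]), (false,
      [([.ofNat 12, .ofNat 8, .ofNat 0, .ofNat 0, .negSucc 3, .negSucc 7, .negSucc 11],
      [.ofNat 16, .negSucc 15, .negSucc 3, .ofNat 0, .ofNat 1, .ofNat 0, .ofNat 0, .ofNat 0,
      .ofNat 0, .ofNat 0, .ofNat 0])]), (true, []), (false, [([.ofNat 1, .ofNat 0, .ofNat 1,
      .ofNat 1, .ofNat 0, .ofNat 1, .ofNat 1, .ofNat 1, .ofNat 1], [.negSucc 0, .negSucc 0,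
      .negSucc 0, .ofNat 1, .ofNat 0, .ofNat 0, .ofNat 0, .ofNat 0, .ofNat 0, .ofNat 0,
      .ofNat 0])]), (true, [])]⟩

lemma e025_2_ok : okE dt e025_2 = true := by decide +kernel

/-- a fibre -/
def e025_3 : Cfg :=
    ⟨[(0, 2), (2, 1), (5, 1)], [(false, []), (false, [([.ofNat 20, .negSucc 19], [.ofNat 60,
      .negSucc 59, .ofNat 0, .ofNat 0, .ofNat 0, .ofNat 1, .ofNat 2, .ofNat 0, .negSucc 0,
      .ofNat 0, .negSucc 2])]), (false, [([.ofNat 320, .ofNat 60, .negSucc 79], [.ofNat 240,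
      .negSucc 239, .ofNat 160, .ofNat 5, .negSucc 1, .ofNat 1, .ofNat 17, .ofNat 0, .ofNat 1,
      .ofNat 0, .ofNat 0])]), (false, [([.ofNat 60, .negSucc 519, .negSucc 39, .ofNat 200],
      [.negSucc 479, .ofNat 480, .negSucc 319, .ofNat 20, .ofNat 4, .negSucc 6, .negSucc 28,
      .ofNat 0, .ofNat 0, .ofNat 0, .ofNat 0])]), (true, []), (false, [([.ofNat 290, .ofNat 0,
      .negSucc 89, .ofNat 200, .negSucc 229, .negSucc 299], [.ofNat 430, .negSucc 429,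
      .negSucc 99, .negSucc 29, .negSucc 5, .ofNat 25, .ofNat 0, .ofNat 0, .ofNat 0, .ofNat 0,
      .ofNat 0])]), (false, [([.ofNat 50, .negSucc 14, .ofNat 0, .ofNat 15, .negSucc 49, .ofNat 5,
      .ofNat 0], [.negSucc 4, .ofNat 5, .ofNat 0, .ofNat 5, .ofNat 1, .ofNat 0, .ofNat 0,
      .ofNat 0, .ofNat 0, .ofNat 0, .ofNat 0])]), (true, []), (false, [([.ofNat 1, .ofNat 0,
      .ofNat 1, .ofNat 1, .ofNat 0, .ofNat 1, .ofNat 1, .ofNat 1, .ofNat 1], [.negSucc 0,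
      .negSucc 0, .negSucc 0, .ofNat 1, .ofNat 0, .ofNat 0, .ofNat 0, .ofNat 0, .ofNat 0,
      .ofNat 0, .ofNat 0])]), (true, [])]⟩

lemma e025_3_ok : okE dt e025_3 = true := by decide +kernel

/-- the fibres with solutions -/
def E025 : List Cfg := [
    e025_0, e025_1, e025_2, e025_3]

/-- the fibres without solutions -/
def Z025 : List Cfg := [
    ⟨[(0, 1), (2, 1), (5, 3)], [(false, [([.ofNat 180], [.negSucc 439, .ofNat 360, .negSucc 139,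
      .ofNat 170, .negSucc 8, .negSucc 17, .ofNat 0, .ofNat 15, .ofNat 0, .ofNat 39, .ofNat 0,
      .ofNat 1])]), (false, [([.ofNat 20, .negSucc 19], [.ofNat 60, .negSucc 59, .ofNat 0,
      .ofNat 0, .ofNat 1, .ofNat 2, .ofNat 0, .negSucc 0, .ofNat 0, .negSucc 2, .ofNat 0,
      .ofNat 0])]), (false, [([.ofNat 20, .negSucc 79, .ofNat 60], [.negSucc 39, .negSucc 119,
      .ofNat 20, .ofNat 5, .ofNat 0, .ofNat 0, .ofNat 0, .negSucc 0, .ofNat 0, .ofNat 0,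
      .negSucc 1, .ofNat 0])]), (false, [([.ofNat 60, .ofNat 120, .ofNat 80, .ofNat 40],
      [.ofNat 0, .ofNat 0, .ofNat 0, .ofNat 30, .negSucc 4, .ofNat 5, .ofNat 0, .ofNat 2,
      .ofNat 0, .ofNat 0, .ofNat 0, .ofNat 0])]), (true, []), (false, [([.ofNat 20, .ofNat 0,
      .ofNat 0, .negSucc 39, .negSucc 19, .ofNat 0], [.negSucc 19, .ofNat 20, .negSucc 39,
      .ofNat 0, .ofNat 1, .negSucc 2, .ofNat 0, .ofNat 0, .ofNat 0, .ofNat 0, .ofNat 0,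
      .ofNat 0])]), (false, [([.ofNat 12, .ofNat 8, .ofNat 0, .ofNat 0, .negSucc 3, .negSucc 7,
      .negSucc 11], [.ofNat 16, .negSucc 15, .negSucc 3, .ofNat 0, .ofNat 1, .ofNat 0, .ofNat 0,
      .ofNat 0, .ofNat 0, .ofNat 0, .ofNat 0, .ofNat 0])]), (true, []), (false, [([.ofNat 1,
      .ofNat 0, .ofNat 1, .ofNat 1, .ofNat 0, .ofNat 1, .ofNat 1, .ofNat 1, .ofNat 1],
      [.negSucc 0, .negSucc 0, .negSucc 0, .ofNat 1, .ofNat 0, .ofNat 0, .ofNat 0, .ofNat 0,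
      .ofNat 0, .ofNat 0, .ofNat 0, .ofNat 0])]), (true, [])]⟩,
    ⟨[(0, 1), (2, 2), (5, 2)], [(false, [([.ofNat 20], [.negSucc 599, .ofNat 900, .negSucc 159,
      .ofNat 15, .negSucc 12, .negSucc 20, .ofNat 0, .ofNat 2, .ofNat 14, .ofNat 0, .ofNat 33,
      .ofNat 4])]), (false, [([.ofNat 20, .negSucc 19], [.ofNat 60, .negSucc 59, .ofNat 0,
      .ofNat 0, .ofNat 1, .ofNat 2, .ofNat 0, .ofNat 0, .negSucc 0, .ofNat 0, .negSucc 2,
      .ofNat 0])]), (false, [([.ofNat 40, .ofNat 60, .negSucc 79], [.negSucc 19, .ofNat 0,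
      .negSucc 119, .ofNat 25, .negSucc 1, .ofNat 1, .ofNat 0, .ofNat 2, .ofNat 1, .ofNat 0,
      .ofNat 0, .ofNat 0])]), (false, [([.ofNat 60, .ofNat 40, .negSucc 39, .ofNat 200],
      [.ofNat 40, .ofNat 0, .ofNat 240, .negSucc 19, .negSucc 0, .ofNat 3, .ofNat 0, .negSucc 3,
      .ofNat 0, .ofNat 0, .ofNat 0, .ofNat 0])]), (true, []), (false, [([.ofNat 20, .ofNat 0,
      .ofNat 0, .negSucc 39, .negSucc 19, .ofNat 0], [.negSucc 19, .ofNat 20, .negSucc 39,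
      .ofNat 0, .ofNat 1, .negSucc 2, .ofNat 0, .ofNat 0, .ofNat 0, .ofNat 0, .ofNat 0,
      .ofNat 0])]), (false, [([.ofNat 12, .ofNat 8, .ofNat 0, .ofNat 0, .negSucc 3, .negSucc 7,
      .negSucc 11], [.ofNat 16, .negSucc 15, .negSucc 3, .ofNat 0, .ofNat 1, .ofNat 0, .ofNat 0,
      .ofNat 0, .ofNat 0, .ofNat 0, .ofNat 0, .ofNat 0])]), (true, []), (false, [([.ofNat 1,
      .ofNat 0, .ofNat 1, .ofNat 1, .ofNat 0, .ofNat 1, .ofNat 1, .ofNat 1, .ofNat 1],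
      [.negSucc 0, .negSucc 0, .negSucc 0, .ofNat 1, .ofNat 0, .ofNat 0, .ofNat 0, .ofNat 0,
      .ofNat 0, .ofNat 0, .ofNat 0, .ofNat 0])]), (true, [])]⟩,
    ⟨[(0, 1), (2, 3), (5, 1)], [(false, [([.ofNat 20], [.negSucc 2919, .ofNat 2300, .negSucc 2879,
      .ofNat 765, .negSucc 60, .negSucc 96, .ofNat 0, .ofNat 34, .ofNat 2, .ofNat 56, .ofNat 0,
      .ofNat 129])]), (false, [([.ofNat 860, .negSucc 839], [.negSucc 339, .negSucc 279,
      .negSucc 2879, .ofNat 765, .negSucc 17, .negSucc 10, .ofNat 0, .ofNat 34, .ofNat 2,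
      .ofNat 13, .ofNat 0, .ofNat 0])]), (false, [([.ofNat 260, .negSucc 39, .negSucc 99],
      [.ofNat 40, .ofNat 140, .ofNat 660, .negSucc 219, .negSucc 3, .ofNat 12, .ofNat 0,
      .negSucc 3, .negSucc 0, .ofNat 0, .ofNat 0, .ofNat 0])]), (false, [([.ofNat 60, .ofNat 40,
      .negSucc 39, .ofNat 200], [.ofNat 40, .ofNat 0, .ofNat 240, .negSucc 19, .negSucc 0,
      .ofNat 3, .ofNat 0, .negSucc 3, .ofNat 0, .ofNat 0, .ofNat 0, .ofNat 0])]), (true, []),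
      (false, [([.ofNat 20, .ofNat 0, .ofNat 0, .negSucc 39, .negSucc 19, .ofNat 0], [.negSucc 19,
      .ofNat 20, .negSucc 39, .ofNat 0, .ofNat 1, .negSucc 2, .ofNat 0, .ofNat 0, .ofNat 0,
      .ofNat 0, .ofNat 0, .ofNat 0])]), (false, [([.ofNat 12, .ofNat 8, .ofNat 0, .ofNat 0,
      .negSucc 3, .negSucc 7, .negSucc 11], [.ofNat 16, .negSucc 15, .negSucc 3, .ofNat 0,
      .ofNat 1, .ofNat 0, .ofNat 0, .ofNat 0, .ofNat 0, .ofNat 0, .ofNat 0, .ofNat 0])]), (true,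
      []), (false, [([.ofNat 1, .ofNat 0, .ofNat 1, .ofNat 1, .ofNat 0, .ofNat 1, .ofNat 1,
      .ofNat 1, .ofNat 1], [.negSucc 0, .negSucc 0, .negSucc 0, .ofNat 1, .ofNat 0, .ofNat 0,
      .ofNat 0, .ofNat 0, .ofNat 0, .ofNat 0, .ofNat 0, .ofNat 0])]), (true, [])]⟩,
    ⟨[(0, 2), (2, 1), (5, 2)], [(false, [([.ofNat 300], [.negSucc 3139, .ofNat 5700, .negSucc 159,
      .negSucc 74, .negSucc 1, .negSucc 65, .negSucc 116, .ofNat 0, .ofNat 84, .ofNat 0,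
      .ofNat 201, .ofNat 32])]), (false, [([.ofNat 20, .negSucc 19], [.ofNat 60, .negSucc 59,
      .ofNat 0, .ofNat 0, .ofNat 0, .ofNat 1, .ofNat 2, .ofNat 0, .negSucc 0, .ofNat 0,
      .negSucc 2, .ofNat 0])]), (false, [([.ofNat 320, .ofNat 60, .negSucc 79], [.ofNat 240,
      .negSucc 239, .ofNat 160, .ofNat 5, .negSucc 1, .ofNat 1, .ofNat 17, .ofNat 0, .ofNat 1,
      .ofNat 0, .ofNat 0, .ofNat 0])]), (false, [([.ofNat 60, .negSucc 519, .negSucc 39,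
      .ofNat 200], [.negSucc 479, .ofNat 480, .negSucc 319, .ofNat 20, .ofNat 4, .negSucc 6,
      .negSucc 28, .ofNat 0, .ofNat 0, .ofNat 0, .ofNat 0, .ofNat 0])]), (true, []), (false,
      [([.ofNat 290, .ofNat 0, .negSucc 89, .ofNat 200, .negSucc 229, .negSucc 299], [.ofNat 430,
      .negSucc 429, .negSucc 99, .negSucc 29, .negSucc 5, .ofNat 25, .ofNat 0, .ofNat 0, .ofNat 0,
      .ofNat 0, .ofNat 0, .ofNat 0])]), (false, [([.ofNat 50, .negSucc 14, .ofNat 0, .ofNat 15,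
      .negSucc 49, .ofNat 5, .ofNat 0], [.negSucc 4, .ofNat 5, .ofNat 0, .ofNat 5, .ofNat 1,
      .ofNat 0, .ofNat 0, .ofNat 0, .ofNat 0, .ofNat 0, .ofNat 0, .ofNat 0])]), (true, []),
      (false, [([.ofNat 1, .ofNat 0, .ofNat 1, .ofNat 1, .ofNat 0, .ofNat 1, .ofNat 1, .ofNat 1,
      .ofNat 1], [.negSucc 0, .negSucc 0, .negSucc 0, .ofNat 1, .ofNat 0, .ofNat 0, .ofNat 0,
      .ofNat 0, .ofNat 0, .ofNat 0, .ofNat 0, .ofNat 0])]), (true, [])]⟩,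
    ⟨[(0, 2), (2, 2), (5, 1)], [(false, [([.ofNat 140], [.ofNat 1660, .negSucc 1499, .ofNat 1120,
      .negSucc 194, .negSucc 1, .ofNat 38, .ofNat 51, .ofNat 0, .negSucc 15, .negSucc 27,
      .ofNat 0, .negSucc 62])]), (false, [([.ofNat 420, .negSucc 559], [.negSucc 399, .ofNat 240,
      .negSucc 1119, .ofNat 195, .ofNat 2, .negSucc 16, .negSucc 8, .ofNat 0, .ofNat 16, .ofNat 7,
      .ofNat 0, .ofNat 0])]), (false, [([.ofNat 280, .ofNat 0, .ofNat 0], [.ofNat 260,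
      .negSucc 239, .ofNat 280, .negSucc 19, .negSucc 1, .ofNat 3, .ofNat 16, .ofNat 0,
      .negSucc 1, .ofNat 0, .ofNat 0, .ofNat 0])]), (false, [([.ofNat 60, .negSucc 519,
      .negSucc 39, .ofNat 200], [.negSucc 479, .ofNat 480, .negSucc 319, .ofNat 20, .ofNat 4,
      .negSucc 6, .negSucc 28, .ofNat 0, .ofNat 0, .ofNat 0, .ofNat 0, .ofNat 0])]), (true, []),
      (false, [([.ofNat 290, .ofNat 0, .negSucc 89, .ofNat 200, .negSucc 229, .negSucc 299],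
      [.ofNat 430, .negSucc 429, .negSucc 99, .negSucc 29, .negSucc 5, .ofNat 25, .ofNat 0,
      .ofNat 0, .ofNat 0, .ofNat 0, .ofNat 0, .ofNat 0])]), (false, [([.ofNat 50, .negSucc 14,
      .ofNat 0, .ofNat 15, .negSucc 49, .ofNat 5, .ofNat 0], [.negSucc 4, .ofNat 5, .ofNat 0,
      .ofNat 5, .ofNat 1, .ofNat 0, .ofNat 0, .ofNat 0, .ofNat 0, .ofNat 0, .ofNat 0,
      .ofNat 0])]), (true, []), (false, [([.ofNat 1, .ofNat 0, .ofNat 1, .ofNat 1, .ofNat 0,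
      .ofNat 1, .ofNat 1, .ofNat 1, .ofNat 1], [.negSucc 0, .negSucc 0, .negSucc 0, .ofNat 1,
      .ofNat 0, .ofNat 0, .ofNat 0, .ofNat 0, .ofNat 0, .ofNat 0, .ofNat 0, .ofNat 0])]), (true,
      [])]⟩,
    ⟨[(0, 3), (2, 1), (5, 1)], [(false, [([.ofNat 180], [.negSucc 499, .ofNat 360, .negSucc 79,
      .ofNat 170, .ofNat 0, .ofNat 1, .negSucc 8, .negSucc 17, .ofNat 0, .negSucc 5, .ofNat 0,
      .negSucc 11])]), (false, [([.ofNat 80, .negSucc 259], [.ofNat 740, .negSucc 599, .ofNat 80,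
      .negSucc 169, .ofNat 0, .negSucc 0, .ofNat 13, .ofNat 26, .ofNat 0, .ofNat 2, .ofNat 0,
      .ofNat 0])]), (false, [([.ofNat 640, .ofNat 40, .ofNat 100], [.negSucc 259, .ofNat 120,
      .ofNat 240, .ofNat 180, .negSucc 3, .ofNat 1, .negSucc 10, .ofNat 8, .ofNat 0, .ofNat 0,
      .ofNat 0, .ofNat 0])]), (false, [([.ofNat 480, .ofNat 14400, .ofNat 840, .ofNat 4500],
      [.negSucc 11379, .ofNat 7320, .ofNat 4400, .ofNat 5380, .negSucc 83, .ofNat 29,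
      .negSucc 374, .ofNat 0, .ofNat 0, .ofNat 0, .ofNat 0, .ofNat 0])]), (true, []), (false,
      [([.ofNat 150, .ofNat 0, .negSucc 29, .ofNat 600, .negSucc 89, .ofNat 0], [.negSucc 169,
      .ofNat 30, .ofNat 100, .ofNat 170, .negSucc 5, .ofNat 1, .ofNat 0, .ofNat 0, .ofNat 0,
      .ofNat 0, .ofNat 0, .ofNat 0])]), (false, [([.ofNat 50, .negSucc 14, .ofNat 0, .ofNat 15,
      .negSucc 49, .ofNat 5, .ofNat 0], [.negSucc 4, .ofNat 5, .ofNat 0, .ofNat 5, .ofNat 1,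
      .ofNat 0, .ofNat 0, .ofNat 0, .ofNat 0, .ofNat 0, .ofNat 0, .ofNat 0])]), (true, []),
      (false, [([.ofNat 1, .ofNat 0, .ofNat 1, .ofNat 1, .ofNat 0, .ofNat 1, .ofNat 1, .ofNat 1,
      .ofNat 1], [.negSucc 0, .negSucc 0, .negSucc 0, .ofNat 1, .ofNat 0, .ofNat 0, .ofNat 0,
      .ofNat 0, .ofNat 0, .ofNat 0, .ofNat 0, .ofNat 0])]), (true, [])]⟩]

lemma E025_ok : E025.all (okE dt) = true := by
  simp only [E025, List.all_cons, List.all_nil, Bool.and_self,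
    e025_0_ok, e025_1_ok, e025_2_ok, e025_3_ok]

lemma Z025_ok : Z025.all (okZ dt) = true := by decide +kernel

lemma cov025 : (prods 3).all (fun a => cov E025 Z025 (([0, 2, 5] : List (Fin 10)).zip a)) = true := by
  decide +kernel

theorem typ025 : Typ dt [0, 2, 5] E025 Z025 := ⟨E025_ok, Z025_ok, cov025, by decide +kernel⟩

/-- a fibre -/
def e026_0 : Cfg :=
    ⟨[(0, 1), (2, 1), (6, 1)], [(false, []), (false, [([.ofNat 20, .ofNat 40], [.negSucc 59, .ofNat 0,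
      .ofNat 40, .ofNat 8, .negSucc 0, .ofNat 1, .ofNat 0, .negSucc 0, .negSucc 2, .ofNat 0])]),
      (false, [([.ofNat 60, .ofNat 40, .ofNat 20], [.ofNat 0, .ofNat 0, .negSucc 39, .ofNat 16,
      .negSucc 1, .ofNat 2, .ofNat 0, .ofNat 1, .ofNat 0, .ofNat 0])]), (true, []), (false, []),
      (false, [([.ofNat 20, .ofNat 40, .ofNat 0, .negSucc 39, .negSucc 19, .ofNat 0],
      [.negSucc 19, .ofNat 20, .ofNat 0, .ofNat 0, .ofNat 1, .negSucc 2, .ofNat 0, .ofNat 0,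
      .ofNat 0, .ofNat 0])]), (false, [([.ofNat 12, .ofNat 8, .ofNat 4, .ofNat 0, .negSucc 3,
      .negSucc 7, .negSucc 11], [.ofNat 16, .negSucc 15, .ofNat 0, .ofNat 0, .ofNat 1, .ofNat 0,
      .ofNat 0, .ofNat 0, .ofNat 0, .ofNat 0])]), (true, []), (false, [([.ofNat 1, .ofNat 0,
      .ofNat 1, .ofNat 1, .ofNat 1, .ofNat 0, .ofNat 1, .ofNat 1, .ofNat 1], [.negSucc 0,
      .negSucc 0, .negSucc 0, .ofNat 1, .ofNat 0, .ofNat 0, .ofNat 0, .ofNat 0, .ofNat 0,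
      .ofNat 0])]), (true, [])]⟩

lemma e026_0_ok : okE dt e026_0 = true := by decide +kernel

/-- a fibre -/
def e026_1 : Cfg :=
    ⟨[(0, 1), (2, 1), (6, 2)], [(false, []), (false, [([.ofNat 20, .ofNat 40], [.negSucc 59, .ofNat 0,
      .ofNat 40, .ofNat 8, .negSucc 0, .ofNat 1, .ofNat 0, .negSucc 0, .negSucc 2, .ofNat 0,
      .ofNat 0])]), (false, [([.ofNat 60, .ofNat 40, .ofNat 20], [.ofNat 0, .ofNat 0, .negSucc 39,
      .ofNat 16, .negSucc 1, .ofNat 2, .ofNat 0, .ofNat 1, .ofNat 0, .ofNat 0, .ofNat 0])]),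
      (true, []), (false, [([.ofNat 240, .ofNat 0, .negSucc 239, .ofNat 0, .ofNat 0],
      [.negSucc 479, .ofNat 480, .ofNat 20, .negSucc 19, .negSucc 8, .negSucc 22, .ofNat 0,
      .ofNat 0, .ofNat 0, .ofNat 0, .negSucc 3])]), (false, [([.ofNat 20, .ofNat 40, .ofNat 0,
      .negSucc 39, .negSucc 19, .ofNat 0], [.negSucc 19, .ofNat 20, .ofNat 0, .ofNat 0, .ofNat 1,
      .negSucc 2, .ofNat 0, .ofNat 0, .ofNat 0, .ofNat 0, .ofNat 0])]), (false, [([.ofNat 12,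
      .ofNat 8, .ofNat 4, .ofNat 0, .negSucc 3, .negSucc 7, .negSucc 11], [.ofNat 16, .negSucc 15,
      .ofNat 0, .ofNat 0, .ofNat 1, .ofNat 0, .ofNat 0, .ofNat 0, .ofNat 0, .ofNat 0,
      .ofNat 0])]), (true, []), (false, [([.ofNat 1, .ofNat 0, .ofNat 1, .ofNat 1, .ofNat 1,
      .ofNat 0, .ofNat 1, .ofNat 1, .ofNat 1], [.negSucc 0, .negSucc 0, .negSucc 0, .ofNat 1,
      .ofNat 0, .ofNat 0, .ofNat 0, .ofNat 0, .ofNat 0, .ofNat 0, .ofNat 0])]), (true, [])]⟩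

lemma e026_1_ok : okE dt e026_1 = true := by decide +kernel

/-- a fibre -/
def e026_2 : Cfg :=
    ⟨[(0, 1), (2, 2), (6, 1)], [(false, []), (false, [([.ofNat 20, .ofNat 40], [.negSucc 59, .ofNat 0,
      .ofNat 40, .ofNat 8, .negSucc 0, .ofNat 1, .ofNat 0, .ofNat 0, .negSucc 0, .negSucc 2,
      .ofNat 0])]), (false, [([.ofNat 60, .ofNat 40, .ofNat 20], [.ofNat 0, .ofNat 0, .negSucc 39,
      .ofNat 16, .negSucc 1, .ofNat 2, .ofNat 0, .ofNat 0, .ofNat 1, .ofNat 0, .ofNat 0])]),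
      (true, []), (false, [([.ofNat 240, .ofNat 0, .negSucc 39, .ofNat 40, .negSucc 199],
      [.negSucc 39, .ofNat 0, .ofNat 60, .ofNat 20, .ofNat 1, .negSucc 2, .ofNat 0, .ofNat 4,
      .ofNat 0, .ofNat 0, .ofNat 0])]), (false, [([.ofNat 20, .ofNat 40, .ofNat 0, .negSucc 39,
      .negSucc 19, .ofNat 0], [.negSucc 19, .ofNat 20, .ofNat 0, .ofNat 0, .ofNat 1, .negSucc 2,
      .ofNat 0, .ofNat 0, .ofNat 0, .ofNat 0, .ofNat 0])]), (false, [([.ofNat 12, .ofNat 8,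
      .ofNat 4, .ofNat 0, .negSucc 3, .negSucc 7, .negSucc 11], [.ofNat 16, .negSucc 15, .ofNat 0,
      .ofNat 0, .ofNat 1, .ofNat 0, .ofNat 0, .ofNat 0, .ofNat 0, .ofNat 0, .ofNat 0])]), (true,
      []), (false, [([.ofNat 1, .ofNat 0, .ofNat 1, .ofNat 1, .ofNat 1, .ofNat 0, .ofNat 1,
      .ofNat 1, .ofNat 1], [.negSucc 0, .negSucc 0, .negSucc 0, .ofNat 1, .ofNat 0, .ofNat 0,
      .ofNat 0, .ofNat 0, .ofNat 0, .ofNat 0, .ofNat 0])]), (true, [])]⟩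

lemma e026_2_ok : okE dt e026_2 = true := by decide +kernel

/-- a fibre -/
def e026_3 : Cfg :=
    ⟨[(0, 2), (2, 1), (6, 1)], [(false, []), (false, [([.ofNat 20, .ofNat 40], [.negSucc 59, .ofNat 0,
      .ofNat 40, .ofNat 8, .ofNat 0, .negSucc 0, .ofNat 1, .ofNat 0, .negSucc 0, .negSucc 2,
      .ofNat 0])]), (false, [([.ofNat 60, .ofNat 40, .ofNat 20], [.ofNat 0, .ofNat 0, .negSucc 39,
      .ofNat 16, .ofNat 0, .negSucc 1, .ofNat 2, .ofNat 0, .ofNat 1, .ofNat 0, .ofNat 0])]),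
      (true, []), (false, [([.ofNat 320, .ofNat 0, .negSucc 519, .negSucc 39, .ofNat 200],
      [.negSucc 479, .ofNat 480, .negSucc 59, .ofNat 20, .ofNat 4, .negSucc 6, .negSucc 28,
      .ofNat 0, .ofNat 0, .ofNat 0, .ofNat 0])]), (false, [([.ofNat 290, .ofNat 100, .ofNat 0,
      .ofNat 200, .negSucc 229, .negSucc 299], [.ofNat 430, .negSucc 429, .ofNat 90, .negSucc 29,
      .negSucc 5, .ofNat 25, .ofNat 0, .ofNat 0, .ofNat 0, .ofNat 0, .ofNat 0])]), (false,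
      [([.ofNat 50, .negSucc 14, .ofNat 0, .ofNat 0, .negSucc 49, .ofNat 5, .ofNat 0],
      [.negSucc 4, .ofNat 5, .negSucc 14, .ofNat 5, .ofNat 1, .ofNat 0, .ofNat 0, .ofNat 0,
      .ofNat 0, .ofNat 0, .ofNat 0])]), (true, []), (false, [([.ofNat 1, .ofNat 0, .ofNat 1,
      .ofNat 1, .ofNat 1, .ofNat 0, .ofNat 1, .ofNat 1, .ofNat 1], [.negSucc 0, .negSucc 0,
      .negSucc 0, .ofNat 1, .ofNat 0, .ofNat 0, .ofNat 0, .ofNat 0, .ofNat 0, .ofNat 0,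
      .ofNat 0])]), (true, [])]⟩

lemma e026_3_ok : okE dt e026_3 = true := by decide +kernel

/-- the fibres with solutions -/
def E026 : List Cfg := [
    e026_0, e026_1, e026_2, e026_3]

/-- the fibres without solutions -/
def Z026 : List Cfg := [
    ⟨[(0, 1), (2, 1), (6, 3)], [(false, [([.ofNat 3360], [.negSucc 959, .negSucc 959, .negSucc 379,
      .ofNat 1212, .negSucc 8, .ofNat 9, .ofNat 0, .negSucc 23, .negSucc 31, .ofNat 0, .ofNat 28,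
      .ofNat 4])]), (false, [([.ofNat 20, .ofNat 40], [.negSucc 59, .ofNat 0, .ofNat 40, .ofNat 8,
      .negSucc 0, .ofNat 1, .ofNat 0, .negSucc 0, .negSucc 2, .ofNat 0, .ofNat 0, .ofNat 0])]),
      (false, [([.ofNat 60, .ofNat 40, .ofNat 20], [.ofNat 0, .ofNat 0, .negSucc 39, .ofNat 16,
      .negSucc 1, .ofNat 2, .ofNat 0, .ofNat 1, .ofNat 0, .ofNat 0, .ofNat 0, .ofNat 0])]), (true,
      []), (false, [([.ofNat 240, .ofNat 0, .negSucc 239, .ofNat 0, .ofNat 0], [.negSucc 479,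
      .ofNat 480, .ofNat 20, .negSucc 19, .negSucc 8, .negSucc 22, .ofNat 0, .ofNat 0, .ofNat 0,
      .ofNat 0, .negSucc 3, .ofNat 0])]), (false, [([.ofNat 20, .ofNat 40, .ofNat 0, .negSucc 39,
      .negSucc 19, .ofNat 0], [.negSucc 19, .ofNat 20, .ofNat 0, .ofNat 0, .ofNat 1, .negSucc 2,
      .ofNat 0, .ofNat 0, .ofNat 0, .ofNat 0, .ofNat 0, .ofNat 0])]), (false, [([.ofNat 12,
      .ofNat 8, .ofNat 4, .ofNat 0, .negSucc 3, .negSucc 7, .negSucc 11], [.ofNat 16, .negSucc 15,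
      .ofNat 0, .ofNat 0, .ofNat 1, .ofNat 0, .ofNat 0, .ofNat 0, .ofNat 0, .ofNat 0, .ofNat 0,
      .ofNat 0])]), (true, []), (false, [([.ofNat 1, .ofNat 0, .ofNat 1, .ofNat 1, .ofNat 1,
      .ofNat 0, .ofNat 1, .ofNat 1, .ofNat 1], [.negSucc 0, .negSucc 0, .negSucc 0, .ofNat 1,
      .ofNat 0, .ofNat 0, .ofNat 0, .ofNat 0, .ofNat 0, .ofNat 0, .ofNat 0, .ofNat 0])]), (true,
      [])]⟩,
    ⟨[(0, 1), (2, 2), (6, 2)], [(false, [([.ofNat 40], [.negSucc 79, .ofNat 240, .negSucc 179,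
      .negSucc 11, .negSucc 5, .negSucc 8, .ofNat 0, .negSucc 1, .ofNat 4, .ofNat 7, .ofNat 0,
      .negSucc 1])]), (false, [([.ofNat 20, .ofNat 40], [.negSucc 59, .ofNat 0, .ofNat 40,
      .ofNat 8, .negSucc 0, .ofNat 1, .ofNat 0, .ofNat 0, .negSucc 0, .negSucc 2, .ofNat 0,
      .ofNat 0])]), (false, [([.ofNat 60, .ofNat 40, .ofNat 20], [.ofNat 0, .ofNat 0, .negSucc 39,
      .ofNat 16, .negSucc 1, .ofNat 2, .ofNat 0, .ofNat 0, .ofNat 1, .ofNat 0, .ofNat 0,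
      .ofNat 0])]), (true, []), (false, [([.ofNat 240, .ofNat 0, .negSucc 39, .ofNat 40,
      .negSucc 199], [.negSucc 39, .ofNat 0, .ofNat 60, .ofNat 20, .ofNat 1, .negSucc 2, .ofNat 0,
      .ofNat 4, .ofNat 0, .ofNat 0, .ofNat 0, .ofNat 0])]), (false, [([.ofNat 20, .ofNat 40,
      .ofNat 0, .negSucc 39, .negSucc 19, .ofNat 0], [.negSucc 19, .ofNat 20, .ofNat 0, .ofNat 0,
      .ofNat 1, .negSucc 2, .ofNat 0, .ofNat 0, .ofNat 0, .ofNat 0, .ofNat 0, .ofNat 0])]),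
      (false, [([.ofNat 12, .ofNat 8, .ofNat 4, .ofNat 0, .negSucc 3, .negSucc 7, .negSucc 11],
      [.ofNat 16, .negSucc 15, .ofNat 0, .ofNat 0, .ofNat 1, .ofNat 0, .ofNat 0, .ofNat 0,
      .ofNat 0, .ofNat 0, .ofNat 0, .ofNat 0])]), (true, []), (false, [([.ofNat 1, .ofNat 0,
      .ofNat 1, .ofNat 1, .ofNat 1, .ofNat 0, .ofNat 1, .ofNat 1, .ofNat 1], [.negSucc 0,
      .negSucc 0, .negSucc 0, .ofNat 1, .ofNat 0, .ofNat 0, .ofNat 0, .ofNat 0, .ofNat 0,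
      .ofNat 0, .ofNat 0, .ofNat 0])]), (true, [])]⟩,
    ⟨[(0, 1), (2, 3), (6, 1)], [(false, [([.ofNat 2560], [.ofNat 640, .negSucc 559, .negSucc 1299,
      .ofNat 772, .negSucc 8, .negSucc 0, .ofNat 0, .negSucc 27, .ofNat 4, .ofNat 16, .ofNat 18,
      .ofNat 0])]), (false, [([.ofNat 120, .ofNat 2800], [.ofNat 280, .negSucc 559, .negSucc 1059,
      .ofNat 820, .negSucc 14, .ofNat 5, .ofNat 0, .negSucc 27, .ofNat 4, .ofNat 10, .ofNat 0,
      .ofNat 0])]), (false, [([.ofNat 600, .ofNat 280, .negSucc 2599], [.negSucc 279, .ofNat 560,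
      .ofNat 660, .negSucc 659, .negSucc 4, .ofNat 15, .ofNat 0, .ofNat 28, .negSucc 3, .ofNat 0,
      .ofNat 0, .ofNat 0])]), (true, []), (false, [([.ofNat 240, .ofNat 0, .negSucc 39, .ofNat 40,
      .negSucc 199], [.negSucc 39, .ofNat 0, .ofNat 60, .ofNat 20, .ofNat 1, .negSucc 2, .ofNat 0,
      .ofNat 4, .ofNat 0, .ofNat 0, .ofNat 0, .ofNat 0])]), (false, [([.ofNat 20, .ofNat 40,
      .ofNat 0, .negSucc 39, .negSucc 19, .ofNat 0], [.negSucc 19, .ofNat 20, .ofNat 0, .ofNat 0,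
      .ofNat 1, .negSucc 2, .ofNat 0, .ofNat 0, .ofNat 0, .ofNat 0, .ofNat 0, .ofNat 0])]),
      (false, [([.ofNat 12, .ofNat 8, .ofNat 4, .ofNat 0, .negSucc 3, .negSucc 7, .negSucc 11],
      [.ofNat 16, .negSucc 15, .ofNat 0, .ofNat 0, .ofNat 1, .ofNat 0, .ofNat 0, .ofNat 0,
      .ofNat 0, .ofNat 0, .ofNat 0, .ofNat 0])]), (true, []), (false, [([.ofNat 1, .ofNat 0,
      .ofNat 1, .ofNat 1, .ofNat 1, .ofNat 0, .ofNat 1, .ofNat 1, .ofNat 1], [.negSucc 0,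
      .negSucc 0, .negSucc 0, .ofNat 1, .ofNat 0, .ofNat 0, .ofNat 0, .ofNat 0, .ofNat 0,
      .ofNat 0, .ofNat 0, .ofNat 0])]), (true, [])]⟩,
    ⟨[(0, 2), (2, 1), (6, 2)], [(false, [([.ofNat 240], [.ofNat 1320, .negSucc 479, .negSucc 1219,
      .ofNat 188, .ofNat 12, .ofNat 9, .ofNat 11, .ofNat 0, .ofNat 24, .ofNat 42, .ofNat 0,
      .ofNat 16])]), (false, [([.ofNat 20, .ofNat 40], [.negSucc 59, .ofNat 0, .ofNat 40,
      .ofNat 8, .ofNat 0, .negSucc 0, .ofNat 1, .ofNat 0, .negSucc 0, .negSucc 2, .ofNat 0,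
      .ofNat 0])]), (false, [([.ofNat 60, .ofNat 40, .ofNat 20], [.ofNat 0, .ofNat 0, .negSucc 39,
      .ofNat 16, .ofNat 0, .negSucc 1, .ofNat 2, .ofNat 0, .ofNat 1, .ofNat 0, .ofNat 0,
      .ofNat 0])]), (true, []), (false, [([.ofNat 320, .ofNat 0, .negSucc 519, .negSucc 39,
      .ofNat 200], [.negSucc 479, .ofNat 480, .negSucc 59, .ofNat 20, .ofNat 4, .negSucc 6,
      .negSucc 28, .ofNat 0, .ofNat 0, .ofNat 0, .ofNat 0, .ofNat 0])]), (false, [([.ofNat 290,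
      .ofNat 100, .ofNat 0, .ofNat 200, .negSucc 229, .negSucc 299], [.ofNat 430, .negSucc 429,
      .ofNat 90, .negSucc 29, .negSucc 5, .ofNat 25, .ofNat 0, .ofNat 0, .ofNat 0, .ofNat 0,
      .ofNat 0, .ofNat 0])]), (false, [([.ofNat 50, .negSucc 14, .ofNat 0, .ofNat 0, .negSucc 49,
      .ofNat 5, .ofNat 0], [.negSucc 4, .ofNat 5, .negSucc 14, .ofNat 5, .ofNat 1, .ofNat 0,
      .ofNat 0, .ofNat 0, .ofNat 0, .ofNat 0, .ofNat 0, .ofNat 0])]), (true, []), (false,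
      [([.ofNat 1, .ofNat 0, .ofNat 1, .ofNat 1, .ofNat 1, .ofNat 0, .ofNat 1, .ofNat 1,
      .ofNat 1], [.negSucc 0, .negSucc 0, .negSucc 0, .ofNat 1, .ofNat 0, .ofNat 0, .ofNat 0,
      .ofNat 0, .ofNat 0, .ofNat 0, .ofNat 0, .ofNat 0])]), (true, [])]⟩,
    ⟨[(0, 2), (2, 2), (6, 1)], [(false, [([.ofNat 560], [.ofNat 680, .ofNat 1440, .negSucc 2659,
      .ofNat 92, .ofNat 12, .negSucc 38, .negSucc 60, .ofNat 0, .negSucc 15, .ofNat 56, .ofNat 98,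
      .ofNat 0])]), (false, [([.ofNat 1960, .ofNat 5600], [.negSucc 3839, .ofNat 4320,
      .negSucc 4059, .ofNat 1060, .ofNat 36, .negSucc 214, .negSucc 84, .ofNat 0, .negSucc 47,
      .ofNat 70, .ofNat 0, .ofNat 0])]), (false, [([.ofNat 1400, .ofNat 280, .negSucc 1399],
      [.ofNat 1280, .negSucc 1439, .ofNat 420, .ofNat 20, .negSucc 11, .ofNat 25, .ofNat 75,
      .ofNat 0, .ofNat 16, .ofNat 0, .ofNat 0, .ofNat 0])]), (true, []), (false, [([.ofNat 320,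
      .ofNat 0, .negSucc 519, .negSucc 39, .ofNat 200], [.negSucc 479, .ofNat 480, .negSucc 59,
      .ofNat 20, .ofNat 4, .negSucc 6, .negSucc 28, .ofNat 0, .ofNat 0, .ofNat 0, .ofNat 0,
      .ofNat 0])]), (false, [([.ofNat 290, .ofNat 100, .ofNat 0, .ofNat 200, .negSucc 229,
      .negSucc 299], [.ofNat 430, .negSucc 429, .ofNat 90, .negSucc 29, .negSucc 5, .ofNat 25,
      .ofNat 0, .ofNat 0, .ofNat 0, .ofNat 0, .ofNat 0, .ofNat 0])]), (false, [([.ofNat 50,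
      .negSucc 14, .ofNat 0, .ofNat 0, .negSucc 49, .ofNat 5, .ofNat 0], [.negSucc 4, .ofNat 5,
      .negSucc 14, .ofNat 5, .ofNat 1, .ofNat 0, .ofNat 0, .ofNat 0, .ofNat 0, .ofNat 0, .ofNat 0,
      .ofNat 0])]), (true, []), (false, [([.ofNat 1, .ofNat 0, .ofNat 1, .ofNat 1, .ofNat 1,
      .ofNat 0, .ofNat 1, .ofNat 1, .ofNat 1], [.negSucc 0, .negSucc 0, .negSucc 0, .ofNat 1,
      .ofNat 0, .ofNat 0, .ofNat 0, .ofNat 0, .ofNat 0, .ofNat 0, .ofNat 0, .ofNat 0])]), (true,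
      [])]⟩,
    ⟨[(0, 3), (2, 1), (6, 1)], [(false, [([.ofNat 1920], [.negSucc 4359, .ofNat 1920, .ofNat 1740,
      .ofNat 764, .negSucc 3, .ofNat 4, .negSucc 62, .negSucc 56, .ofNat 0, .negSucc 47,
      .negSucc 93, .ofNat 0])]), (false, [([.ofNat 1880, .negSucc 1999], [.ofNat 7440,
      .negSucc 5759, .negSucc 1459, .negSucc 1539, .ofNat 12, .negSucc 11, .ofNat 95, .ofNat 265,
      .ofNat 0, .ofNat 50, .ofNat 0, .ofNat 0])]), (false, [([.ofNat 1000, .ofNat 40,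
      .ofNat 1000], [.negSucc 2479, .ofNat 1920, .negSucc 179, .ofNat 780, .negSucc 3, .ofNat 4,
      .negSucc 64, .negSucc 54, .ofNat 0, .ofNat 0, .ofNat 0, .ofNat 0])]), (true, []), (false,
      [([.ofNat 4400, .ofNat 0, .negSucc 14399, .negSucc 839, .negSucc 4499], [.ofNat 11380,
      .negSucc 7319, .ofNat 480, .negSucc 5379, .ofNat 84, .negSucc 28, .ofNat 375, .ofNat 0,
      .ofNat 0, .ofNat 0, .ofNat 0, .ofNat 0])]), (false, [([.ofNat 150, .negSucc 99, .ofNat 0,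
      .ofNat 600, .negSucc 89, .ofNat 0], [.negSucc 169, .ofNat 30, .ofNat 30, .ofNat 170,
      .negSucc 5, .ofNat 1, .ofNat 0, .ofNat 0, .ofNat 0, .ofNat 0, .ofNat 0, .ofNat 0])]),
      (false, [([.ofNat 50, .negSucc 14, .ofNat 0, .ofNat 0, .negSucc 49, .ofNat 5, .ofNat 0],
      [.negSucc 4, .ofNat 5, .negSucc 14, .ofNat 5, .ofNat 1, .ofNat 0, .ofNat 0, .ofNat 0,
      .ofNat 0, .ofNat 0, .ofNat 0, .ofNat 0])]), (true, []), (false, [([.ofNat 1, .ofNat 0,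
      .ofNat 1, .ofNat 1, .ofNat 1, .ofNat 0, .ofNat 1, .ofNat 1, .ofNat 1], [.negSucc 0,
      .negSucc 0, .negSucc 0, .ofNat 1, .ofNat 0, .ofNat 0, .ofNat 0, .ofNat 0, .ofNat 0,
      .ofNat 0, .ofNat 0, .ofNat 0])]), (true, [])]⟩]

lemma E026_ok : E026.all (okE dt) = true := by
  simp only [E026, List.all_cons, List.all_nil, Bool.and_self,
    e026_0_ok, e026_1_ok, e026_2_ok, e026_3_ok]

lemma Z026_ok : Z026.all (okZ dt) = true := by decide +kernel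

lemma cov026 : (prods 3).all (fun a => cov E026 Z026 (([0, 2, 6] : List (Fin 10)).zip a)) = true := by
  decide +kernel

theorem typ026 : Typ dt [0, 2, 6] E026 Z026 := ⟨E026_ok, Z026_ok, cov026, by decide +kernel⟩

/-- a fibre -/
def e027_0 : Cfg :=
    ⟨[(0, 1), (2, 1), (7, 1)], [(false, []), (false, []), (true, []), (false, [([.ofNat 60, .ofNat 0,
      .ofNat 80, .ofNat 40], [.ofNat 0, .ofNat 0, .negSucc 119, .ofNat 30, .negSucc 2, .ofNat 3,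
      .ofNat 0, .ofNat 2, .ofNat 0, .ofNat 0])]), (false, [([.ofNat 40, .negSucc 19, .ofNat 0,
      .negSucc 39, .ofNat 0], [.negSucc 39, .ofNat 40, .ofNat 80, .negSucc 9, .ofNat 1,
      .negSucc 2, .ofNat 0, .ofNat 0, .ofNat 0, .ofNat 2])]), (false, [([.ofNat 20, .ofNat 40,
      .ofNat 0, .ofNat 0, .negSucc 19, .ofNat 0], [.negSucc 19, .ofNat 20, .ofNat 40, .ofNat 0,
      .ofNat 1, .negSucc 2, .ofNat 0, .ofNat 0, .ofNat 0, .ofNat 0])]), (false, [([.ofNat 12,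
      .ofNat 8, .ofNat 4, .ofNat 0, .ofNat 0, .negSucc 7, .negSucc 11], [.ofNat 16, .negSucc 15,
      .ofNat 4, .ofNat 0, .ofNat 1, .ofNat 0, .ofNat 0, .ofNat 0, .ofNat 0, .ofNat 0])]), (true,
      []), (false, [([.ofNat 1, .ofNat 0, .ofNat 1, .ofNat 1, .ofNat 1, .ofNat 1, .ofNat 0,
      .ofNat 1, .ofNat 1], [.negSucc 0, .negSucc 0, .negSucc 0, .ofNat 1, .ofNat 0, .ofNat 0,
      .ofNat 0, .ofNat 0, .ofNat 0, .ofNat 0])]), (true, [])]⟩

lemma e027_0_ok : okE dt e027_0 = true := by decide +kernel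

/-- a fibre -/
def e027_1 : Cfg :=
    ⟨[(0, 1), (2, 1), (7, 2)], [(false, [([.ofNat 20], [.ofNat 80, .ofNat 80, .ofNat 20, .negSucc 24,
      .negSucc 1, .ofNat 6, .ofNat 0, .ofNat 5, .ofNat 0, .ofNat 12, .negSucc 1])]), (false, []),
      (true, []), (false, [([.ofNat 60, .ofNat 0, .ofNat 80, .ofNat 40], [.ofNat 0, .ofNat 0,
      .negSucc 119, .ofNat 30, .negSucc 2, .ofNat 3, .ofNat 0, .ofNat 2, .ofNat 0, .ofNat 0,
      .ofNat 0])]), (false, [([.ofNat 40, .negSucc 19, .ofNat 0, .negSucc 39, .ofNat 0],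
      [.negSucc 39, .ofNat 40, .ofNat 80, .negSucc 9, .ofNat 1, .negSucc 2, .ofNat 0, .ofNat 0,
      .ofNat 0, .ofNat 2, .ofNat 0])]), (false, [([.ofNat 20, .ofNat 40, .ofNat 0, .ofNat 0,
      .negSucc 19, .ofNat 0], [.negSucc 19, .ofNat 20, .ofNat 40, .ofNat 0, .ofNat 1, .negSucc 2,
      .ofNat 0, .ofNat 0, .ofNat 0, .ofNat 0, .ofNat 0])]), (false, [([.ofNat 12, .ofNat 8,
      .ofNat 4, .ofNat 0, .ofNat 0, .negSucc 7, .negSucc 11], [.ofNat 16, .negSucc 15, .ofNat 4,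
      .ofNat 0, .ofNat 1, .ofNat 0, .ofNat 0, .ofNat 0, .ofNat 0, .ofNat 0, .ofNat 0])]), (true,
      []), (false, [([.ofNat 1, .ofNat 0, .ofNat 1, .ofNat 1, .ofNat 1, .ofNat 1, .ofNat 0,
      .ofNat 1, .ofNat 1], [.negSucc 0, .negSucc 0, .negSucc 0, .ofNat 1, .ofNat 0, .ofNat 0,
      .ofNat 0, .ofNat 0, .ofNat 0, .ofNat 0, .ofNat 0])]), (true, [])]⟩

lemma e027_1_ok : okE dt e027_1 = true := by decide +kernel

/-- a fibre -/
def e027_2 : Cfg :=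
    ⟨[(0, 1), (2, 2), (7, 1)], [(false, []), (false, [([.ofNat 100, .negSucc 119], [.ofNat 100,
      .negSucc 119, .negSucc 159, .ofNat 25, .negSucc 0, .ofNat 6, .ofNat 0, .ofNat 2, .negSucc 0,
      .ofNat 0, .negSucc 5])]), (true, []), (false, [([.ofNat 60, .ofNat 0, .ofNat 80, .ofNat 40],
      [.ofNat 0, .ofNat 0, .negSucc 119, .ofNat 30, .negSucc 2, .ofNat 3, .ofNat 0, .ofNat 0,
      .ofNat 2, .ofNat 0, .ofNat 0])]), (false, [([.ofNat 240, .negSucc 59, .ofNat 0, .ofNat 40,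
      .negSucc 199], [.negSucc 39, .ofNat 0, .ofNat 40, .ofNat 20, .ofNat 1, .negSucc 2, .ofNat 0,
      .ofNat 4, .ofNat 0, .ofNat 0, .ofNat 0])]), (false, [([.ofNat 20, .ofNat 40, .ofNat 0,
      .ofNat 0, .negSucc 19, .ofNat 0], [.negSucc 19, .ofNat 20, .ofNat 40, .ofNat 0, .ofNat 1,
      .negSucc 2, .ofNat 0, .ofNat 0, .ofNat 0, .ofNat 0, .ofNat 0])]), (false, [([.ofNat 12,
      .ofNat 8, .ofNat 4, .ofNat 0, .ofNat 0, .negSucc 7, .negSucc 11], [.ofNat 16, .negSucc 15,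
      .ofNat 4, .ofNat 0, .ofNat 1, .ofNat 0, .ofNat 0, .ofNat 0, .ofNat 0, .ofNat 0,
      .ofNat 0])]), (true, []), (false, [([.ofNat 1, .ofNat 0, .ofNat 1, .ofNat 1, .ofNat 1,
      .ofNat 1, .ofNat 0, .ofNat 1, .ofNat 1], [.negSucc 0, .negSucc 0, .negSucc 0, .ofNat 1,
      .ofNat 0, .ofNat 0, .ofNat 0, .ofNat 0, .ofNat 0, .ofNat 0, .ofNat 0])]), (true, [])]⟩

lemma e027_2_ok : okE dt e027_2 = true := by decide +kernel

/-- a fibre -/
def e027_3 : Cfg :=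
    ⟨[(0, 2), (2, 1), (7, 1)], [(false, []), (false, [([.ofNat 20, .negSucc 79], [.ofNat 240,
      .negSucc 239, .negSucc 479, .ofNat 15, .negSucc 5, .ofNat 6, .ofNat 24, .ofNat 0, .ofNat 11,
      .ofNat 0, .ofNat 24])]), (true, []), (false, [([.ofNat 60, .ofNat 0, .ofNat 80, .ofNat 40],
      [.ofNat 0, .ofNat 0, .negSucc 119, .ofNat 30, .ofNat 0, .negSucc 2, .ofNat 3, .ofNat 0,
      .ofNat 2, .ofNat 0, .ofNat 0])]), (false, [([.ofNat 320, .ofNat 60, .ofNat 0, .negSucc 39,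
      .ofNat 200], [.negSucc 479, .ofNat 480, .ofNat 520, .ofNat 20, .ofNat 4, .negSucc 6,
      .negSucc 28, .ofNat 0, .ofNat 0, .ofNat 0, .ofNat 0])]), (false, [([.ofNat 290, .ofNat 100,
      .negSucc 89, .ofNat 0, .negSucc 229, .negSucc 299], [.ofNat 430, .negSucc 429, .negSucc 199,
      .negSucc 29, .negSucc 5, .ofNat 25, .ofNat 0, .ofNat 0, .ofNat 0, .ofNat 0, .ofNat 0])]),
      (false, [([.ofNat 50, .negSucc 14, .ofNat 0, .ofNat 15, .ofNat 0, .ofNat 5, .ofNat 0],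
      [.negSucc 4, .ofNat 5, .ofNat 50, .ofNat 5, .ofNat 1, .ofNat 0, .ofNat 0, .ofNat 0,
      .ofNat 0, .ofNat 0, .ofNat 0])]), (true, []), (false, [([.ofNat 1, .ofNat 0, .ofNat 1,
      .ofNat 1, .ofNat 1, .ofNat 1, .ofNat 0, .ofNat 1, .ofNat 1], [.negSucc 0, .negSucc 0,
      .negSucc 0, .ofNat 1, .ofNat 0, .ofNat 0, .ofNat 0, .ofNat 0, .ofNat 0, .ofNat 0,
      .ofNat 0])]), (true, [])]⟩

lemma e027_3_ok : okE dt e027_3 = true := by decide +kernel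

/-- the fibres with solutions -/
def E027 : List Cfg := [
    e027_0, e027_1, e027_2, e027_3]

/-- the fibres without solutions -/
def Z027 : List Cfg := [
    ⟨[(0, 1), (2, 1), (7, 3)], [(false, [([.ofNat 20], [.ofNat 80, .ofNat 80, .ofNat 20, .negSucc 24,
      .negSucc 1, .ofNat 6, .ofNat 0, .ofNat 5, .ofNat 0, .ofNat 12, .negSucc 1, .ofNat 0])]),
      (false, [([.ofNat 60, .ofNat 120], [.negSucc 599, .ofNat 520, .negSucc 139, .ofNat 170,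
      .negSucc 14, .ofNat 9, .ofNat 0, .ofNat 12, .ofNat 0, .ofNat 30, .ofNat 0, .ofNat 1])]),
      (true, []), (false, [([.ofNat 60, .ofNat 0, .ofNat 80, .ofNat 40], [.ofNat 0, .ofNat 0,
      .negSucc 119, .ofNat 30, .negSucc 2, .ofNat 3, .ofNat 0, .ofNat 2, .ofNat 0, .ofNat 0,
      .ofNat 0, .ofNat 0])]), (false, [([.ofNat 40, .negSucc 19, .ofNat 0, .negSucc 39, .ofNat 0],
      [.negSucc 39, .ofNat 40, .ofNat 80, .negSucc 9, .ofNat 1, .negSucc 2, .ofNat 0, .ofNat 0,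
      .ofNat 0, .ofNat 2, .ofNat 0, .ofNat 0])]), (false, [([.ofNat 20, .ofNat 40, .ofNat 0,
      .ofNat 0, .negSucc 19, .ofNat 0], [.negSucc 19, .ofNat 20, .ofNat 40, .ofNat 0, .ofNat 1,
      .negSucc 2, .ofNat 0, .ofNat 0, .ofNat 0, .ofNat 0, .ofNat 0, .ofNat 0])]), (false,
      [([.ofNat 12, .ofNat 8, .ofNat 4, .ofNat 0, .ofNat 0, .negSucc 7, .negSucc 11], [.ofNat 16,
      .negSucc 15, .ofNat 4, .ofNat 0, .ofNat 1, .ofNat 0, .ofNat 0, .ofNat 0, .ofNat 0, .ofNat 0,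
      .ofNat 0, .ofNat 0])]), (true, []), (false, [([.ofNat 1, .ofNat 0, .ofNat 1, .ofNat 1,
      .ofNat 1, .ofNat 1, .ofNat 0, .ofNat 1, .ofNat 1], [.negSucc 0, .negSucc 0, .negSucc 0,
      .ofNat 1, .ofNat 0, .ofNat 0, .ofNat 0, .ofNat 0, .ofNat 0, .ofNat 0, .ofNat 0,
      .ofNat 0])]), (true, [])]⟩,
    ⟨[(0, 1), (2, 2), (7, 2)], [(false, [([.ofNat 20], [.ofNat 80, .ofNat 80, .ofNat 20, .negSucc 24,
      .negSucc 1, .ofNat 6, .ofNat 0, .ofNat 0, .ofNat 5, .ofNat 0, .ofNat 12, .negSucc 1])]),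
      (false, [([.ofNat 100, .negSucc 119], [.ofNat 100, .negSucc 119, .negSucc 159, .ofNat 25,
      .negSucc 0, .ofNat 6, .ofNat 0, .ofNat 2, .negSucc 0, .ofNat 0, .negSucc 5, .ofNat 0])]),
      (true, []), (false, [([.ofNat 60, .ofNat 0, .ofNat 80, .ofNat 40], [.ofNat 0, .ofNat 0,
      .negSucc 119, .ofNat 30, .negSucc 2, .ofNat 3, .ofNat 0, .ofNat 0, .ofNat 2, .ofNat 0,
      .ofNat 0, .ofNat 0])]), (false, [([.ofNat 240, .negSucc 59, .ofNat 0, .ofNat 40,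
      .negSucc 199], [.negSucc 39, .ofNat 0, .ofNat 40, .ofNat 20, .ofNat 1, .negSucc 2, .ofNat 0,
      .ofNat 4, .ofNat 0, .ofNat 0, .ofNat 0, .ofNat 0])]), (false, [([.ofNat 20, .ofNat 40,
      .ofNat 0, .ofNat 0, .negSucc 19, .ofNat 0], [.negSucc 19, .ofNat 20, .ofNat 40, .ofNat 0,
      .ofNat 1, .negSucc 2, .ofNat 0, .ofNat 0, .ofNat 0, .ofNat 0, .ofNat 0, .ofNat 0])]),
      (false, [([.ofNat 12, .ofNat 8, .ofNat 4, .ofNat 0, .ofNat 0, .negSucc 7, .negSucc 11],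
      [.ofNat 16, .negSucc 15, .ofNat 4, .ofNat 0, .ofNat 1, .ofNat 0, .ofNat 0, .ofNat 0,
      .ofNat 0, .ofNat 0, .ofNat 0, .ofNat 0])]), (true, []), (false, [([.ofNat 1, .ofNat 0,
      .ofNat 1, .ofNat 1, .ofNat 1, .ofNat 1, .ofNat 0, .ofNat 1, .ofNat 1], [.negSucc 0,
      .negSucc 0, .negSucc 0, .ofNat 1, .ofNat 0, .ofNat 0, .ofNat 0, .ofNat 0, .ofNat 0,
      .ofNat 0, .ofNat 0, .ofNat 0])]), (true, [])]⟩,
    ⟨[(0, 1), (2, 3), (7, 1)], [(false, [([.ofNat 960], [.ofNat 1800, .negSucc 2439, .ofNat 80,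
      .ofNat 775, .ofNat 33, .ofNat 27, .ofNat 0, .negSucc 5, .ofNat 5, .negSucc 41, .ofNat 0,
      .negSucc 86])]), (false, [([.ofNat 580, .negSucc 1079], [.negSucc 139, .ofNat 280,
      .negSucc 959, .negSucc 164, .negSucc 18, .ofNat 24, .ofNat 0, .ofNat 14, .negSucc 1,
      .ofNat 11, .ofNat 0, .ofNat 0])]), (true, []), (false, [([.ofNat 660, .ofNat 0,
      .negSucc 279, .ofNat 2600], [.ofNat 280, .negSucc 559, .ofNat 600, .ofNat 660, .ofNat 5,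
      .negSucc 14, .ofNat 0, .negSucc 27, .ofNat 4, .ofNat 0, .ofNat 0, .ofNat 0])]), (false,
      [([.ofNat 240, .negSucc 59, .ofNat 0, .ofNat 40, .negSucc 199], [.negSucc 39, .ofNat 0,
      .ofNat 40, .ofNat 20, .ofNat 1, .negSucc 2, .ofNat 0, .ofNat 4, .ofNat 0, .ofNat 0,
      .ofNat 0, .ofNat 0])]), (false, [([.ofNat 20, .ofNat 40, .ofNat 0, .ofNat 0, .negSucc 19,
      .ofNat 0], [.negSucc 19, .ofNat 20, .ofNat 40, .ofNat 0, .ofNat 1, .negSucc 2, .ofNat 0,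
      .ofNat 0, .ofNat 0, .ofNat 0, .ofNat 0, .ofNat 0])]), (false, [([.ofNat 12, .ofNat 8,
      .ofNat 4, .ofNat 0, .ofNat 0, .negSucc 7, .negSucc 11], [.ofNat 16, .negSucc 15, .ofNat 4,
      .ofNat 0, .ofNat 1, .ofNat 0, .ofNat 0, .ofNat 0, .ofNat 0, .ofNat 0, .ofNat 0,
      .ofNat 0])]), (true, []), (false, [([.ofNat 1, .ofNat 0, .ofNat 1, .ofNat 1, .ofNat 1,
      .ofNat 1, .ofNat 0, .ofNat 1, .ofNat 1], [.negSucc 0, .negSucc 0, .negSucc 0, .ofNat 1,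
      .ofNat 0, .ofNat 0, .ofNat 0, .ofNat 0, .ofNat 0, .ofNat 0, .ofNat 0, .ofNat 0])]), (true,
      [])]⟩,
    ⟨[(0, 2), (2, 1), (7, 2)], [(false, [([.ofNat 20], [.ofNat 80, .ofNat 80, .ofNat 20, .negSucc 24,
      .ofNat 0, .negSucc 1, .ofNat 6, .ofNat 0, .ofNat 5, .ofNat 0, .ofNat 12, .negSucc 1])]),
      (false, [([.ofNat 20, .negSucc 79], [.ofNat 240, .negSucc 239, .negSucc 479, .ofNat 15,
      .negSucc 5, .ofNat 6, .ofNat 24, .ofNat 0, .ofNat 11, .ofNat 0, .ofNat 24, .ofNat 0])]),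
      (true, []), (false, [([.ofNat 60, .ofNat 0, .ofNat 80, .ofNat 40], [.ofNat 0, .ofNat 0,
      .negSucc 119, .ofNat 30, .ofNat 0, .negSucc 2, .ofNat 3, .ofNat 0, .ofNat 2, .ofNat 0,
      .ofNat 0, .ofNat 0])]), (false, [([.ofNat 320, .ofNat 60, .ofNat 0, .negSucc 39,
      .ofNat 200], [.negSucc 479, .ofNat 480, .ofNat 520, .ofNat 20, .ofNat 4, .negSucc 6,
      .negSucc 28, .ofNat 0, .ofNat 0, .ofNat 0, .ofNat 0, .ofNat 0])]), (false, [([.ofNat 290,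
      .ofNat 100, .negSucc 89, .ofNat 0, .negSucc 229, .negSucc 299], [.ofNat 430, .negSucc 429,
      .negSucc 199, .negSucc 29, .negSucc 5, .ofNat 25, .ofNat 0, .ofNat 0, .ofNat 0, .ofNat 0,
      .ofNat 0, .ofNat 0])]), (false, [([.ofNat 50, .negSucc 14, .ofNat 0, .ofNat 15, .ofNat 0,
      .ofNat 5, .ofNat 0], [.negSucc 4, .ofNat 5, .ofNat 50, .ofNat 5, .ofNat 1, .ofNat 0,
      .ofNat 0, .ofNat 0, .ofNat 0, .ofNat 0, .ofNat 0, .ofNat 0])]), (true, []), (false,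
      [([.ofNat 1, .ofNat 0, .ofNat 1, .ofNat 1, .ofNat 1, .ofNat 1, .ofNat 0, .ofNat 1,
      .ofNat 1], [.negSucc 0, .negSucc 0, .negSucc 0, .ofNat 1, .ofNat 0, .ofNat 0, .ofNat 0,
      .ofNat 0, .ofNat 0, .ofNat 0, .ofNat 0, .ofNat 0])]), (true, [])]⟩,
    ⟨[(0, 2), (2, 2), (7, 1)], [(false, [([.ofNat 280], [.negSucc 1099, .ofNat 1080, .ofNat 2240,
      .negSucc 49, .ofNat 30, .negSucc 30, .negSucc 113, .ofNat 0, .ofNat 2, .negSucc 55,
      .ofNat 0, .negSucc 125])]), (false, [([.ofNat 420, .negSucc 559], [.ofNat 640, .negSucc 719,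
      .negSucc 1119, .ofNat 115, .negSucc 5, .ofNat 2, .ofNat 48, .ofNat 0, .ofNat 8, .ofNat 7,
      .ofNat 0, .ofNat 0])]), (true, []), (false, [([.ofNat 420, .ofNat 0, .negSucc 279,
      .ofNat 1400], [.negSucc 1279, .ofNat 1440, .ofNat 1400, .negSucc 19, .ofNat 12, .negSucc 24,
      .negSucc 74, .ofNat 0, .negSucc 15, .ofNat 0, .ofNat 0, .ofNat 0])]), (false, [([.ofNat 320,
      .ofNat 60, .ofNat 0, .negSucc 39, .ofNat 200], [.negSucc 479, .ofNat 480, .ofNat 520,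
      .ofNat 20, .ofNat 4, .negSucc 6, .negSucc 28, .ofNat 0, .ofNat 0, .ofNat 0, .ofNat 0,
      .ofNat 0])]), (false, [([.ofNat 290, .ofNat 100, .negSucc 89, .ofNat 0, .negSucc 229,
      .negSucc 299], [.ofNat 430, .negSucc 429, .negSucc 199, .negSucc 29, .negSucc 5, .ofNat 25,
      .ofNat 0, .ofNat 0, .ofNat 0, .ofNat 0, .ofNat 0, .ofNat 0])]), (false, [([.ofNat 50,
      .negSucc 14, .ofNat 0, .ofNat 15, .ofNat 0, .ofNat 5, .ofNat 0], [.negSucc 4, .ofNat 5,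
      .ofNat 50, .ofNat 5, .ofNat 1, .ofNat 0, .ofNat 0, .ofNat 0, .ofNat 0, .ofNat 0, .ofNat 0,
      .ofNat 0])]), (true, []), (false, [([.ofNat 1, .ofNat 0, .ofNat 1, .ofNat 1, .ofNat 1,
      .ofNat 1, .ofNat 0, .ofNat 1, .ofNat 1], [.negSucc 0, .negSucc 0, .negSucc 0, .ofNat 1,
      .ofNat 0, .ofNat 0, .ofNat 0, .ofNat 0, .ofNat 0, .ofNat 0, .ofNat 0, .ofNat 0])]), (true,
      [])]⟩,
    ⟨[(0, 3), (2, 1), (7, 1)], [(false, [([.ofNat 20], [.negSucc 19, .negSucc 119, .negSucc 1359,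
      .ofNat 210, .negSucc 15, .ofNat 1, .ofNat 1, .ofNat 44, .ofNat 0, .ofNat 26, .ofNat 0,
      .ofNat 60])]), (false, [([.ofNat 100, .negSucc 439], [.ofNat 1240, .negSucc 959, .ofNat 320,
      .negSucc 344, .ofNat 2, .negSucc 1, .ofNat 28, .ofNat 32, .ofNat 0, .ofNat 3, .ofNat 0,
      .ofNat 0])]), (true, []), (false, [([.ofNat 180, .ofNat 0, .ofNat 40, .ofNat 1000],
      [.negSucc 2479, .ofNat 1920, .negSucc 999, .ofNat 780, .negSucc 3, .ofNat 4, .negSucc 64,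
      .negSucc 54, .ofNat 0, .ofNat 0, .ofNat 0, .ofNat 0])]), (false, [([.ofNat 4400,
      .negSucc 479, .ofNat 0, .negSucc 839, .negSucc 4499], [.ofNat 11380, .negSucc 7319,
      .ofNat 14400, .negSucc 5379, .ofNat 84, .negSucc 28, .ofNat 375, .ofNat 0, .ofNat 0,
      .ofNat 0, .ofNat 0, .ofNat 0])]), (false, [([.ofNat 150, .negSucc 99, .negSucc 29, .ofNat 0,
      .negSucc 89, .ofNat 0], [.negSucc 169, .ofNat 30, .negSucc 599, .ofNat 170, .negSucc 5,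
      .ofNat 1, .ofNat 0, .ofNat 0, .ofNat 0, .ofNat 0, .ofNat 0, .ofNat 0])]), (false,
      [([.ofNat 50, .negSucc 14, .ofNat 0, .ofNat 15, .ofNat 0, .ofNat 5, .ofNat 0], [.negSucc 4,
      .ofNat 5, .ofNat 50, .ofNat 5, .ofNat 1, .ofNat 0, .ofNat 0, .ofNat 0, .ofNat 0, .ofNat 0,
      .ofNat 0, .ofNat 0])]), (true, []), (false, [([.ofNat 1, .ofNat 0, .ofNat 1, .ofNat 1,
      .ofNat 1, .ofNat 1, .ofNat 0, .ofNat 1, .ofNat 1], [.negSucc 0, .negSucc 0, .negSucc 0,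
      .ofNat 1, .ofNat 0, .ofNat 0, .ofNat 0, .ofNat 0, .ofNat 0, .ofNat 0, .ofNat 0,
      .ofNat 0])]), (true, [])]⟩]

lemma E027_ok : E027.all (okE dt) = true := by
  simp only [E027, List.all_cons, List.all_nil, Bool.and_self,
    e027_0_ok, e027_1_ok, e027_2_ok, e027_3_ok]

lemma Z027_ok : Z027.all (okZ dt) = true := by decide +kernel

lemma cov027 : (prods 3).all (fun a => cov E027 Z027 (([0, 2, 7] : List (Fin 10)).zip a)) = true := by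
  decide +kernel

theorem typ027 : Typ dt [0, 2, 7] E027 Z027 := ⟨E027_ok, Z027_ok, cov027, by decide +kernel⟩

/-- a fibre -/
def e036_0 : Cfg :=
    ⟨[(0, 1), (3, 1), (6, 1)], [(false, [([.ofNat 20], [.negSucc 39, .ofNat 0, .ofNat 60, .ofNat 0,
      .ofNat 1, .ofNat 2, .ofNat 3, .negSucc 0, .negSucc 1, .ofNat 0])]), (false, [([.ofNat 40,
      .ofNat 20], [.ofNat 0, .ofNat 0, .negSucc 59, .ofNat 12, .negSucc 2, .negSucc 1, .negSucc 4,
      .ofNat 1, .ofNat 0, .ofNat 0])]), (false, [([.ofNat 20, .ofNat 0, .ofNat 0], [.ofNat 0,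
      .ofNat 0, .ofNat 20, .ofNat 0, .ofNat 1, .ofNat 2, .ofNat 3, .ofNat 0, .ofNat 0,
      .ofNat 0])]), (true, []), (false, []), (false, [([.ofNat 60, .ofNat 120, .ofNat 0,
      .negSucc 39, .negSucc 119, .negSucc 59], [.ofNat 0, .ofNat 0, .negSucc 39, .ofNat 0,
      .ofNat 4, .negSucc 6, .ofNat 0, .ofNat 0, .ofNat 0, .ofNat 0])]), (true, []), (false,
      [([.ofNat 14, .ofNat 0, .ofNat 22, .ofNat 16, .ofNat 0, .ofNat 4, .negSucc 1, .negSucc 7],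
      [.ofNat 14, .negSucc 27, .negSucc 9, .ofNat 7, .ofNat 1, .ofNat 0, .ofNat 0, .ofNat 0,
      .ofNat 0, .ofNat 0])]), (false, [([.ofNat 1, .ofNat 1, .ofNat 0, .ofNat 1, .ofNat 1,
      .ofNat 0, .ofNat 1, .ofNat 1, .ofNat 1], [.negSucc 0, .negSucc 0, .negSucc 0, .ofNat 1,
      .ofNat 0, .ofNat 0, .ofNat 0, .ofNat 0, .ofNat 0, .ofNat 0])]), (true, [])]⟩

lemma e036_0_ok : okE dt e036_0 = true := by decide +kernel

/-- the fibres with solutions -/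
def E036 : List Cfg := [
    e036_0]

/-- the fibres without solutions -/
def Z036 : List Cfg := [
    ⟨[(0, 1), (3, 1), (6, 2)], [(false, [([.ofNat 20], [.negSucc 39, .ofNat 0, .ofNat 60, .ofNat 0,
      .ofNat 1, .ofNat 2, .ofNat 3, .negSucc 0, .negSucc 1, .ofNat 0, .ofNat 0])]), (false,
      [([.ofNat 40, .ofNat 20], [.ofNat 0, .ofNat 0, .negSucc 59, .ofNat 12, .negSucc 2,
      .negSucc 1, .negSucc 4, .ofNat 1, .ofNat 0, .ofNat 0, .ofNat 0])]), (false, [([.ofNat 20,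
      .ofNat 0, .ofNat 0], [.ofNat 0, .ofNat 0, .ofNat 20, .ofNat 0, .ofNat 1, .ofNat 2, .ofNat 3,
      .ofNat 0, .ofNat 0, .ofNat 0, .ofNat 0])]), (true, []), (false, [([.ofNat 120, .ofNat 0,
      .negSucc 99, .negSucc 239, .ofNat 240], [.ofNat 0, .ofNat 480, .negSucc 39, .negSucc 14,
      .ofNat 1, .negSucc 12, .ofNat 0, .ofNat 0, .ofNat 0, .ofNat 0, .ofNat 6])]), (false,
      [([.ofNat 60, .ofNat 120, .ofNat 0, .negSucc 39, .negSucc 119, .negSucc 59], [.ofNat 0,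
      .ofNat 0, .negSucc 39, .ofNat 0, .ofNat 4, .negSucc 6, .ofNat 0, .ofNat 0, .ofNat 0,
      .ofNat 0, .ofNat 0])]), (true, []), (false, [([.ofNat 14, .ofNat 0, .ofNat 22, .ofNat 16,
      .ofNat 0, .ofNat 4, .negSucc 1, .negSucc 7], [.ofNat 14, .negSucc 27, .negSucc 9, .ofNat 7,
      .ofNat 1, .ofNat 0, .ofNat 0, .ofNat 0, .ofNat 0, .ofNat 0, .ofNat 0])]), (false,
      [([.ofNat 1, .ofNat 1, .ofNat 0, .ofNat 1, .ofNat 1, .ofNat 0, .ofNat 1, .ofNat 1,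
      .ofNat 1], [.negSucc 0, .negSucc 0, .negSucc 0, .ofNat 1, .ofNat 0, .ofNat 0, .ofNat 0,
      .ofNat 0, .ofNat 0, .ofNat 0, .ofNat 0])]), (true, [])]⟩,
    ⟨[(0, 1), (3, 2), (6, 1)], [(false, [([.ofNat 20], [.negSucc 39, .ofNat 0, .ofNat 60, .ofNat 0,
      .ofNat 1, .ofNat 2, .ofNat 3, .ofNat 0, .negSucc 0, .negSucc 1, .ofNat 0])]), (false,
      [([.ofNat 40, .ofNat 20], [.ofNat 0, .ofNat 0, .negSucc 59, .ofNat 12, .negSucc 2,
      .negSucc 1, .negSucc 4, .ofNat 0, .ofNat 1, .ofNat 0, .ofNat 0])]), (false, [([.ofNat 20,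
      .ofNat 0, .ofNat 0], [.ofNat 0, .ofNat 0, .ofNat 20, .ofNat 0, .ofNat 1, .ofNat 2, .ofNat 3,
      .ofNat 0, .ofNat 0, .ofNat 0, .ofNat 0])]), (true, []), (false, [([.ofNat 60, .ofNat 0,
      .ofNat 100, .ofNat 0, .negSucc 59], [.negSucc 359, .ofNat 60, .ofNat 280, .negSucc 14,
      .negSucc 0, .negSucc 1, .ofNat 0, .negSucc 5, .ofNat 0, .ofNat 0, .ofNat 0])]), (false,
      [([.ofNat 60, .ofNat 120, .ofNat 0, .negSucc 39, .negSucc 119, .negSucc 59], [.ofNat 0,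
      .ofNat 0, .negSucc 39, .ofNat 0, .ofNat 4, .negSucc 6, .ofNat 0, .ofNat 0, .ofNat 0,
      .ofNat 0, .ofNat 0])]), (true, []), (false, [([.ofNat 14, .ofNat 0, .ofNat 22, .ofNat 16,
      .ofNat 0, .ofNat 4, .negSucc 1, .negSucc 7], [.ofNat 14, .negSucc 27, .negSucc 9, .ofNat 7,
      .ofNat 1, .ofNat 0, .ofNat 0, .ofNat 0, .ofNat 0, .ofNat 0, .ofNat 0])]), (false,
      [([.ofNat 1, .ofNat 1, .ofNat 0, .ofNat 1, .ofNat 1, .ofNat 0, .ofNat 1, .ofNat 1,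
      .ofNat 1], [.negSucc 0, .negSucc 0, .negSucc 0, .ofNat 1, .ofNat 0, .ofNat 0, .ofNat 0,
      .ofNat 0, .ofNat 0, .ofNat 0, .ofNat 0])]), (true, [])]⟩,
    ⟨[(0, 2), (3, 1), (6, 1)], [(false, [([.ofNat 20], [.negSucc 39, .ofNat 0, .ofNat 60, .ofNat 0,
      .ofNat 0, .ofNat 1, .ofNat 2, .ofNat 3, .negSucc 0, .negSucc 1, .ofNat 0])]), (false,
      [([.ofNat 40, .ofNat 20], [.ofNat 0, .ofNat 0, .negSucc 59, .ofNat 12, .ofNat 0, .negSucc 2,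
      .negSucc 1, .negSucc 4, .ofNat 1, .ofNat 0, .ofNat 0])]), (false, [([.ofNat 20, .ofNat 0,
      .ofNat 0], [.ofNat 0, .ofNat 0, .ofNat 20, .ofNat 0, .ofNat 0, .ofNat 1, .ofNat 2, .ofNat 3,
      .ofNat 0, .ofNat 0, .ofNat 0])]), (true, []), (false, [([.ofNat 120, .ofNat 0, .negSucc 319,
      .negSucc 59, .negSucc 59], [.ofNat 0, .negSucc 359, .negSucc 139, .ofNat 45, .ofNat 6,
      .ofNat 5, .negSucc 4, .ofNat 0, .ofNat 0, .ofNat 0, .ofNat 0])]), (false, [([.ofNat 100,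
      .negSucc 79, .ofNat 0, .ofNat 680, .negSucc 59, .ofNat 40], [.ofNat 0, .ofNat 840,
      .ofNat 260, .negSucc 104, .negSucc 13, .negSucc 4, .ofNat 0, .ofNat 0, .ofNat 0, .ofNat 0,
      .ofNat 0])]), (true, []), (false, [([.ofNat 5, .ofNat 0, .ofNat 15, .ofNat 0, .ofNat 0,
      .ofNat 50, .negSucc 4, .ofNat 0], [.ofNat 5, .ofNat 50, .ofNat 15, .negSucc 4, .negSucc 0,
      .ofNat 0, .ofNat 0, .ofNat 0, .ofNat 0, .ofNat 0, .ofNat 0])]), (false, [([.ofNat 1,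
      .ofNat 1, .ofNat 0, .ofNat 1, .ofNat 1, .ofNat 0, .ofNat 1, .ofNat 1, .ofNat 1],
      [.negSucc 0, .negSucc 0, .negSucc 0, .ofNat 1, .ofNat 0, .ofNat 0, .ofNat 0, .ofNat 0,
      .ofNat 0, .ofNat 0, .ofNat 0])]), (true, [])]⟩]

lemma E036_ok : E036.all (okE dt) = true := by
  simp only [E036, List.all_cons, List.all_nil, Bool.and_self,
    e036_0_ok]

lemma Z036_ok : Z036.all (okZ dt) = true := by decide +kernel

lemma cov036 : (prods 3).all (fun a => cov E036 Z036 (([0, 3, 6] : List (Fin 10)).zip a)) = true := by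
  decide +kernel

theorem typ036 : Typ dt [0, 3, 6] E036 Z036 := ⟨E036_ok, Z036_ok, cov036, by decide +kernel⟩

end Pool.Agent.X10.Ca
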