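import Pool.Agent.Lib_helper60.X10a.F0
import Pool.Agent.Lib_helper60.X10a.F1
import Pool.Agent.Lib_helper60.X10a.F2
import Pool.Agent.Lib_helper60.X10a.F3

/-!
# A point of order ten, `t = -1`: all types of fibres
-/

set_option autoImplicit false

namespace Pool.Agent.X10.Ca

lemma all_typ : ∀ T ∈ TT, ∃ E Z, Typ dt T E Z := by
  intro T hT
  simp only [TT, List.mem_cons, List.not_mem_nil, or_false] at hT
  rcases hT with rfl | rfl | rfl | rfl | rfl | rfl | rfl | rfl | rfl | rfl | rfl | rfl | rfl | rfl | rfl |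
    rfl | rfl | rfl
  · exact ⟨_, _, typ0⟩
  · exact ⟨_, _, typ01⟩
  · exact ⟨_, _, typ02⟩
  · exact ⟨_, _, typ03⟩
  · exact ⟨_, _, typ04⟩
  · exact ⟨_, _, typ05⟩
  · exact ⟨_, _, typ012⟩
  · exact ⟨_, _, typ013⟩
  · exact ⟨_, _, typ014⟩
  · exact ⟨_, _, typ015⟩
  · exact ⟨_, _, typ016⟩
  · exact ⟨_, _, typ017⟩
  · exact ⟨_, _, typ018⟩
  · exact ⟨_, _, typ024⟩
  · exact ⟨_, _, typ025⟩
  · exact ⟨_, _, typ026⟩
  · exact ⟨_, _, typ027⟩
  · exact ⟨_, _, typ036⟩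

end Pool.Agent.X10.Ca
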