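import Pool.Agent.Lib_helper60.X10.G

/-!
# A point of order ten, `t = -1`: the linear forms
-/

set_option autoImplicit false

namespace Pool.Agent.X10.Ca

/-- the coefficients in terms of the divisor -/
def kap : Fin 11 → Fin 10 → ℤ :=
  ![![0, 0, 0, 0, 0, 0, 0, 0, 0, 3240000],
    ![0, -54000, 540000, -162000, 0, 162000, -540000, 54000, 0, 162000],
    ![0, 108000, 0, 0, 0, 0, 0, 0, 0, 108000],
    ![0, -3600, -72000, -32400, 36000, -10800, -144000, 25200, 0, -104400],
    ![0, 7200, 18000, -3600, -18000, 10800, -18000, -3600, 18000, 7200],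
    ![0, 1680, -6000, 2880, 8400, -4320, -8400, 480, 0, -4320],
    ![0, -3360, -1800, -360, -4200, -360, -4200, -360, -1800, -3360],
    ![0, 100, 560, 900, 280, 300, 160, -700, 0, 400],
    ![0, -200, -260, 100, -140, -300, -140, 100, -260, -200],
    ![0, -5, -10, 45, -20, -5, 10, -55, 0, -5],
    ![0, 10, 10, 10, 10, 10, 10, 10, 10, 10]]

/-- exponents of `2` -/
def nu2 : Fin 10 → ℤ := ![0, -9, -16, -21, -24, -25, -24, -21, -16, -9]

/-- exponents of `3` -/
def nu3 : Fin 10 → ℤ := ![0, -8, -12, -12, -8, 0, -8, -12, -12, -8]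

/-- exponents of `5` -/
def nu5 : Fin 10 → ℤ := ![0, 15, 20, 15, 20, 15, 20, 15, 20, 15]

/-- the exponents -/
def nus : List (Fin 10 → ℤ) := [nu2, nu3, nu5]

end Pool.Agent.X10.Ca
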