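import Pool.Agent.Lib_helper60.X10a.D
import Pool.Agent.Lib_helper60.X10a.Da

/-!
# A point of order ten, `t = -1`: the classes are solutions
-/

set_option autoImplicit false
set_option linter.unusedSectionVars false
set_option linter.unusedSimpArgs false
set_option linter.unusedVariables false

namespace Pool.Agent.X10.Ca

open Polynomial WeierstrassCurve.Affine WithZero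
open Pool.Agent.TN Pool.Agent.KC72

/-- the generators at the next point -/
def nxR : List Mo := [(true, [-2, 0, 0, 0, 0, 1, 0, 0, 0, 1, 1, -2]),
  (false, [-2, -1, 0, 0, 0, 1, 1, 0, 0, 1, 1, -2]),
  (true, [-2, 0, -1, 0, 0, 0, 1, 1, 0, 1, 1, -1]),
  (true, [-2, 0, 0, -1, 0, 0, 0, 1, 1, 1, 1, -2]),
  (false, [-2, 0, 0, 0, -1, 0, 0, 0, 2, 1, 0, -1]),
  (false, [-3, -1, 0, 0, 0, 1, 1, 0, 0, 2, 2, -4]),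
  (false, [-3, -1, -1, 0, 0, 1, 1, 1, 0, 2, 2, -3]),
  (true, [-3, 0, -1, -1, 0, 0, 1, 1, 1, 2, 2, -3]),
  (false, [-3, 0, 0, -1, -1, 0, 0, 1, 2, 2, 1, -3]),
  (false, [0, 0, 0, 0, 0, 0, 0, 0, 0, 1, 0, 0]),
  (false, [0, 0, 0, 0, 0, 0, 0, 0, 0, 0, 1, 0]),
  (false, [0, 0, 0, 0, 0, 0, 0, 0, 0, 0, 0, 1])]

/-- a monomial at the next point -/
def trM (m : Mo) : Mo := (xor m.1 (trl nxR m.2).1, (trl nxR m.2).2)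

/-- the types of classes: numerators and the denominator -/
def bt : ℕ → Mo × Mo × Mo
  | 0 => (nM false [0, 0, 0, 0, 1, 0, 0, 0, 0, 0, 0, 1], nM true [0, 0, 0, 0, 0, 0, 0, 0, 0, 1, 0, 0],
      nM false [1, 0, 0, 0, 0, 0, 0, 0, 0, 0, 0, 1])
  | 1 => (nM true [0, 0, 0, 0, 0, 0, 0, 0, 0, 3, 0, 0], nM false [0, 0, 0, 0, 1, 0, 0, 0, 0, 0, 0, 1],
      nM false [0, 0, 1, 0, 0, 0, 0, 0, 0, 0, 0, 1])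
  | 2 => (nM true [0, 0, 0, 0, 0, 0, 0, 0, 0, 3, 1, 0], nM false [0, 0, 0, 1, 0, 0, 0, 0, 0, 0, 0, 2],
      nM false [0, 0, 1, 0, 0, 0, 0, 0, 0, 0, 0, 2])
  | 3 => (nM false [0, 0, 0, 0, 0, 0, 0, 0, 0, 2, 1, 0], nM false [0, 0, 0, 1, 0, 0, 0, 0, 0, 0, 0, 2],
      nM false [0, 1, 0, 0, 0, 0, 0, 0, 0, 0, 0, 2])
  | 4 => (nM false [0, 0, 0, 0, 0, 0, 0, 0, 0, 1, 1, 0], nM false [0, 0, 0, 1, 0, 0, 0, 0, 0, 0, 0, 2],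
      nM false [1, 0, 0, 0, 0, 0, 0, 0, 0, 0, 0, 2])
  | 5 => (nM false [0, 0, 0, 0, 0, 0, 0, 0, 0, 2, 2, 0], nM false [0, 0, 1, 0, 0, 0, 0, 0, 0, 0, 0, 2],
      nM false [0, 1, 0, 0, 0, 0, 0, 0, 0, 0, 0, 2])
  | 6 => (nM false [0, 0, 0, 0, 0, 0, 0, 0, 0, 1, 1, 0], nM false [0, 0, 1, 0, 0, 0, 0, 0, 0, 0, 0, 1],
      nM false [1, 0, 0, 0, 0, 0, 0, 0, 0, 0, 0, 1])
  | 7 => (nM true [0, 0, 0, 0, 0, 0, 0, 0, 0, 1, 1, 0], nM false [0, 1, 0, 0, 0, 0, 0, 0, 0, 0, 0, 2],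
      nM false [1, 0, 0, 0, 0, 0, 0, 0, 0, 0, 0, 2])
  | 8 => (nM false [0, 0, 0, 0, 0, 0, 0, 0, 1, 0, 0, 1], nM false [1, 0, 0, 0, 0, 0, 0, 0, 0, 1, 0, 0],
      nM false [0, 0, 0, 0, 0, 1, 0, 0, 0, 0, 0, 1])
  | 9 => (nM false [0, 0, 0, 0, 0, 0, 0, 0, 1, 0, 0, 1], nM true [1, 0, 0, 0, 0, 0, 0, 0, 0, 2, 0, 0],
      nM false [0, 0, 0, 0, 0, 0, 1, 0, 0, 0, 0, 1])
  | 10 => (nM true [1, 0, 0, 0, 0, 0, 0, 0, 0, 2, 1, 0], nM false [0, 0, 0, 0, 0, 0, 0, 1, 0, 0, 0, 1],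
      nM false [0, 0, 0, 0, 0, 0, 1, 0, 0, 0, 0, 1])
  | 11 => (nM true [1, 0, 0, 0, 0, 0, 0, 0, 0, 1, 1, 0], nM false [0, 0, 0, 0, 0, 0, 0, 1, 0, 0, 0, 1],
      nM false [0, 0, 0, 0, 0, 1, 0, 0, 0, 0, 0, 1])
  | 12 => (nM false [1, 0, 0, 0, 0, 0, 0, 0, 0, 1, 1, 0], nM false [0, 0, 0, 0, 0, 0, 1, 0, 0, 0, 0, 1],
      nM false [0, 0, 0, 0, 0, 1, 0, 0, 0, 0, 0, 1])
  | 13 => (nM true [0, 0, 0, 1, 0, 0, 0, 0, 0, 0, 0, 0], nM false [1, 0, 0, 0, 0, 0, 0, 0, 0, 1, 0, 0],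
      nM false [0, 1, 0, 0, 0, 0, 0, 0, 0, 0, 0, 0])
  | 14 => (nM false [0, 0, 0, 1, 0, 0, 0, 0, 0, 0, 1, 0], nM true [0, 1, 0, 0, 0, 0, 0, 0, 0, 1, 0, 0],
      nM false [0, 0, 1, 0, 0, 0, 0, 0, 0, 0, 0, 0])
  | 15 => (nM true [0, 0, 0, 0, 0, 0, 0, 1, 0, 0, 0, 0], nM false [0, 0, 0, 0, 0, 1, 0, 0, 0, 1, 0, 0],
      nM false [0, 0, 0, 0, 0, 0, 1, 0, 0, 0, 0, 0])
  | 16 => (nM false [3, 1, 0, 0, 0, 0, 0, 0, 0, 1, 1, 0], nM true [0, 0, 1, 0, 0, 1, 1, 0, 0, 0, 0, 0],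
      nM false [0, 1, 0, 0, 0, 2, 0, 0, 0, 0, 0, 1])
  | 17 => (nM true [0, 0, 1, 0, 0, 1, 0, 0, 0, 2, 2, 0], nM false [0, 1, 0, 0, 0, 0, 1, 1, 0, 0, 0, 3],
      nM false [0, 0, 1, 0, 0, 2, 0, 0, 0, 0, 0, 3])
  | 18 => (nM false [0, 0, 0, 0, 0, 2, 0, 0, 0, 0, 0, 1], nM true [0, 0, 1, 0, 0, 1, 0, 0, 0, 0, 0, 0],
      nM false [2, 1, 0, 0, 0, 0, 0, 0, 0, 0, 0, 1])
  | 19 => (nM false [0, 0, 0, 0, 0, 0, 0, 0, 0, 2, 2, 0], nM false [0, 1, 0, 1, 0, 0, 0, 0, 0, 0, 0, 4],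
      nM false [2, 0, 0, 0, 0, 0, 0, 0, 0, 0, 0, 4])
  | 20 => (nM false [2, 0, 0, 0, 0, 0, 0, 0, 0, 2, 2, 0], nM false [0, 0, 0, 0, 0, 0, 1, 1, 0, 0, 0, 2],
      nM false [0, 0, 0, 0, 0, 2, 0, 0, 0, 0, 0, 2])
  | 21 => (nM false [1, 0, 0, 0, 0, 0, 0, 0, 0, 3, 1, 0], nM false [0, 0, 0, 2, 0, 0, 0, 0, 0, 0, 0, 2],
      nM false [0, 2, 0, 0, 0, 0, 0, 0, 0, 0, 0, 2])
  | 22 => (nM true [1, 0, 0, 0, 0, 1, 0, 0, 0, 3, 1, 0], nM false [0, 0, 0, 0, 0, 0, 0, 2, 0, 0, 0, 1],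
      nM false [0, 0, 0, 0, 0, 0, 2, 0, 0, 0, 0, 1])
  | _ => (nM false [0, 0, 0, 0, 1, 0, 0, 0, 0, 1, 2, 0], nM false [0, 1, 1, 0, 0, 0, 0, 0, 0, 0, 0, 2],
      nM false [1, 0, 0, 1, 0, 0, 0, 0, 0, 0, 0, 2])


/-- the classes of a type after `i` translations -/
def bc (i r : ℕ) : Mo × Mo :=
  (trM^[i] ((bt r).1.div (bt r).2.2), trM^[i] ((bt r).2.1.div (bt r).2.2))

/-- the type, the translation and the index of each class -/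
def tix : List (ℕ × ℕ × ℕ) := [(0, 6, 0), (1, 1, 0), (1, 6, 1), (0, 1, 1), (2, 1, 0), (3, 1, 0), (4, 1, 0),
  (5, 1, 0), (6, 1, 0), (7, 1, 0), (8, 6, 0), (9, 1, 1), (8, 1, 1), (10, 1, 0),
  (11, 1, 0), (12, 1, 0), (0, 2, 3), (4, 2, 5), (6, 2, 5), (7, 2, 5), (0, 7, 0),
  (1, 2, 0), (1, 7, 1), (2, 2, 0), (3, 2, 0), (5, 2, 0), (4, 7, 1), (3, 7, 1),
  (2, 7, 1), (13, 7, 0), (13, 2, 1), (14, 7, 0), (8, 2, 3), (11, 2, 5), (12, 2, 5),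
  (8, 7, 0), (9, 2, 1), (10, 2, 0), (7, 3, 5), (0, 3, 3), (4, 3, 5), (6, 3, 5),
  (1, 8, 3), (3, 3, 5), (5, 3, 5), (0, 8, 0), (1, 3, 0), (2, 3, 0), (11, 7, 1),
  (10, 7, 1), (15, 2, 1), (2, 8, 3), (13, 3, 3), (14, 8, 5), (4, 8, 1), (3, 8, 1),
  (13, 8, 0), (12, 3, 5), (8, 3, 3), (11, 3, 5), (9, 3, 3), (10, 3, 5), (8, 8, 0),
  (7, 4, 5), (6, 4, 5), (0, 4, 3), (4, 4, 5), (5, 4, 5), (1, 9, 3), (3, 4, 5),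
  (1, 4, 5), (2, 4, 5), (0, 9, 0), (6, 8, 1), (5, 8, 1), (14, 3, 1), (10, 8, 3),
  (15, 3, 3), (11, 8, 1), (14, 9, 5), (2, 9, 3), (13, 4, 3), (3, 9, 3), (13, 9, 5),
  (4, 9, 1), (12, 4, 5), (11, 4, 5), (8, 4, 3), (10, 4, 5), (9, 4, 3), (8, 9, 5),
  (7, 5, 5), (6, 5, 5), (4, 5, 5), (0, 5, 3), (5, 5, 5), (3, 5, 5), (1, 0, 3),
  (2, 5, 5), (1, 5, 5), (0, 0, 5), (12, 8, 1), (5, 9, 3), (14, 4, 3), (6, 9, 1),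
  (15, 4, 3), (10, 9, 3), (11, 9, 3), (14, 0, 5), (13, 5, 3), (2, 0, 3), (13, 0, 5),
  (3, 0, 3), (4, 0, 3), (12, 5, 5), (11, 5, 5), (8, 5, 3), (10, 5, 5), (9, 0, 5),
  (8, 0, 5), (7, 6, 5), (6, 6, 5), (4, 6, 5), (5, 6, 5), (3, 6, 5), (2, 6, 5),
  (7, 9, 1), (12, 9, 3), (14, 5, 3), (5, 0, 3), (6, 0, 3), (15, 0, 5), (10, 0, 3),
  (11, 0, 3), (14, 1, 5), (13, 6, 3), (13, 1, 5), (12, 6, 5), (11, 6, 5), (10, 6, 5),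
  (7, 7, 5), (6, 7, 5), (5, 7, 5), (7, 0, 3), (12, 0, 3), (14, 6, 3), (15, 1, 5),
  (14, 2, 5), (12, 7, 5), (7, 8, 5), (16, 0, 0), (17, 1, 0), (17, 2, 5), (16, 1, 0),
  (16, 2, 5), (17, 3, 5), (18, 2, 0), (18, 3, 4), (16, 3, 5), (17, 4, 5), (16, 8, 1),
  (17, 7, 1), (18, 4, 4), (16, 4, 5), (17, 5, 5), (16, 9, 3), (17, 8, 1), (18, 5, 4),
  (16, 5, 5), (17, 6, 5), (17, 9, 3), (18, 6, 4), (16, 6, 5), (18, 0, 4), (18, 1, 3),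
  (18, 8, 3), (18, 9, 0), (17, 0, 3), (18, 7, 4), (16, 7, 5), (19, 1, 0), (20, 1, 0),
  (19, 2, 5), (21, 2, 0), (21, 7, 1), (20, 2, 5), (19, 3, 5), (22, 2, 0), (21, 3, 5),
  (22, 7, 1), (21, 8, 1), (20, 3, 5), (19, 4, 5), (22, 3, 5), (21, 4, 5), (22, 8, 3),
  (21, 9, 3), (20, 4, 5), (19, 5, 5), (20, 8, 1), (22, 4, 5), (21, 5, 5), (23, 1, 0),
  (22, 9, 3), (21, 0, 3), (20, 5, 5), (19, 6, 5), (19, 9, 1), (23, 4, 1), (20, 9, 3),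
  (22, 5, 5), (21, 6, 5), (23, 2, 5), (22, 0, 3), (21, 1, 3), (20, 6, 5), (19, 7, 5),
  (19, 0, 3), (23, 0, 3), (20, 0, 3), (22, 6, 5), (23, 3, 5), (22, 1, 3), (20, 7, 5),
  (19, 8, 5)]

/-- the check of a class -/
def tixc (c : ℕ) : Bool :=
  eqM (cls10.getD c default).1 (orb6 (bc (tix.getD c default).2.1 (tix.getD c default).1).1
    (bc (tix.getD c default).2.1 (tix.getD c default).1).2 (tix.getD c default).2.2) &&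
  eqM (cls10.getD c default).2 (orb6 (bc (tix.getD c default).2.1 (tix.getD c default).1).1
    (bc (tix.getD c default).2.1 (tix.getD c default).1).2 (cm6 (tix.getD c default).2.2))

lemma tix0 : (List.range 25).all (fun j => tixc (0 + j)) = true := by
  decide +kernel

lemma tix1 : (List.range 25).all (fun j => tixc (25 + j)) = true := by
  decide +kernel

lemma tix2 : (List.range 25).all (fun j => tixc (50 + j)) = true := by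
  decide +kernel

lemma tix3 : (List.range 25).all (fun j => tixc (75 + j)) = true := by
  decide +kernel

lemma tix4 : (List.range 25).all (fun j => tixc (100 + j)) = true := by
  decide +kernel

lemma tix5 : (List.range 25).all (fun j => tixc (125 + j)) = true := by
  decide +kernel

lemma tix6 : (List.range 25).all (fun j => tixc (150 + j)) = true := by
  decide +kernel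

lemma tix7 : (List.range 25).all (fun j => tixc (175 + j)) = true := by
  decide +kernel

lemma tix8 : (List.range 25).all (fun j => tixc (200 + j)) = true := by
  decide +kernel

lemma tix_ok : ∀ c < 225, tixc c = true := by
  intro i hi
  by_cases h0 : i < 25
  · exact all_of tix0 (by omega) (by omega)
  by_cases h1 : i < 50
  · exact all_of tix1 (by omega) (by omega)
  by_cases h2 : i < 75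
  · exact all_of tix2 (by omega) (by omega)
  by_cases h3 : i < 100
  · exact all_of tix3 (by omega) (by omega)
  by_cases h4 : i < 125
  · exact all_of tix4 (by omega) (by omega)
  by_cases h5 : i < 150
  · exact all_of tix5 (by omega) (by omega)
  by_cases h6 : i < 175
  · exact all_of tix6 (by omega) (by omega)
  by_cases h7 : i < 200
  · exact all_of tix7 (by omega) (by omega)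
  exact all_of tix8 (by omega) (by omega)

section

variable {F : Type*} [Field F]

/-- the generators -/
def G10 (x y : F) : Fin 12 → F := ![x, x + 6 / 25, x - 6 / 5, x - 6 / 25, x + 2 / 5, y, y - 6 / 5 * x, y + 6 / 5 * x, y - 2 / 5 * x, 2, 3, 5]

lemma ev_G10 (x y : F) (s : Bool) (l : List ℤ) : KC72.ev (List.ofFn (G10 x y)) (s, l) =
    (bif s then -1 else 1) * (x ^ l.getD 0 0 * (x + 6 / 25) ^ l.getD 1 0 * (x - 6 / 5) ^ l.getD 2 0 * (x - 6 / 25) ^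
      l.getD 3 0 * (x + 2 / 5) ^ l.getD 4 0 * y ^ l.getD 5 0 * (y - 6 / 5 * x) ^ l.getD 6 0 * (y
      + 6 / 5 * x) ^ l.getD 7 0 * (y - 2 / 5 * x) ^ l.getD 8 0 * 2 ^ l.getD 9 0 * 3 ^ l.getD 10
      0 * 5 ^ l.getD 11 0) := by
  unfold KC72.ev
  rw [evl_ofFn, Fin.prod_univ_castSucc, Fin.prod_univ_castSucc, Fin.prod_univ_castSucc,
    Fin.prod_univ_castSucc, Fin.prod_univ_eight]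
  rfl

lemma ev_nM (x y : F) (s : Bool) (l : List ℕ) : KC72.ev (List.ofFn (G10 x y)) (nM s l) =
    (bif s then -1 else 1) * (x ^ l.getD 0 0 * (x + 6 / 25) ^ l.getD 1 0 * (x - 6 / 5) ^ l.getD 2 0 * (x - 6 / 25) ^
      l.getD 3 0 * (x + 2 / 5) ^ l.getD 4 0 * y ^ l.getD 5 0 * (y - 6 / 5 * x) ^ l.getD 6 0 * (y
      + 6 / 5 * x) ^ l.getD 7 0 * (y - 2 / 5 * x) ^ l.getD 8 0 * 2 ^ l.getD 9 0 * 3 ^ l.getD 10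
      0 * 5 ^ l.getD 11 0) := by
  have key : ∀ j : ℕ, (l.map Int.ofNat).getD j 0 = ((l.getD j 0 : ℕ) : ℤ) := by
    intro j
    exact List.getD_map l (0 : ℕ) Int.ofNat
  unfold nM
  rw [ev_G10]
  simp only [key, zpow_natCast]

/-- the translated generators in terms of the generators -/
lemma nx_abs [CharZero F] {a0 a1 a2 a3 a4 b1 b2 b3 b4 : F} (ha0 : a0 ≠ 0) (ha1 : a1 ≠ 0) (ha2 : a2 ≠ 0) (ha3 : a3 ≠ 0) (ha4 : a4 ≠ 0) (hb1 : b1 ≠ 0) (hb2 : b2 ≠ 0) (hb3 : b3 ≠ 0) (hb4 : b4 ≠ 0) :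
    (-1) * (a0 ^ (-2 : ℤ) * a1 ^ (0 : ℤ) * a2 ^ (0 : ℤ) * a3 ^ (0 : ℤ) * a4 ^ (0 : ℤ) * b1 ^ (1 : ℤ) * b2 ^ (0 : ℤ) * b3 ^ (0 : ℤ) * b4 ^ (0 : ℤ) * 2 ^ (1 : ℤ) * 3 ^ (1 : ℤ) * 5 ^ (-2 : ℤ)) = (-(30 * (125 * b1) / (25 * a0) ^ 2)) / 25 ∧
    (1) * (a0 ^ (-2 : ℤ) * a1 ^ (-1 : ℤ) * a2 ^ (0 : ℤ) * a3 ^ (0 : ℤ) * a4 ^ (0 : ℤ) * b1 ^ (1 : ℤ) * b2 ^ (1 : ℤ) * b3 ^ (0 : ℤ) * b4 ^ (0 : ℤ) * 2 ^ (1 : ℤ) * 3 ^ (1 : ℤ) * 5 ^ (-2 : ℤ)) = (6 * (125 * b1) * (125 * b2) / ((25 * a0) ^ 2 * (25 * a1))) / 25 ∧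
    (-1) * (a0 ^ (-2 : ℤ) * a1 ^ (0 : ℤ) * a2 ^ (-1 : ℤ) * a3 ^ (0 : ℤ) * a4 ^ (0 : ℤ) * b1 ^ (0 : ℤ) * b2 ^ (1 : ℤ) * b3 ^ (1 : ℤ) * b4 ^ (0 : ℤ) * 2 ^ (1 : ℤ) * 3 ^ (1 : ℤ) * 5 ^ (-1 : ℤ)) = (-(30 * (125 * b2) * (125 * b3) / ((25 * a0) ^ 2 * (25 * a2)))) / 25 ∧
    (-1) * (a0 ^ (-2 : ℤ) * a1 ^ (0 : ℤ) * a2 ^ (0 : ℤ) * a3 ^ (-1 : ℤ) * a4 ^ (0 : ℤ) * b1 ^ (0 : ℤ) * b2 ^ (0 : ℤ) * b3 ^ (1 : ℤ) * b4 ^ (1 : ℤ) * 2 ^ (1 : ℤ) * 3 ^ (1 : ℤ) * 5 ^ (-2 : ℤ)) = (-(6 * (125 * b3) * (125 * b4) / ((25 * a0) ^ 2 * (25 * a3)))) / 25 ∧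
    (1) * (a0 ^ (-2 : ℤ) * a1 ^ (0 : ℤ) * a2 ^ (0 : ℤ) * a3 ^ (0 : ℤ) * a4 ^ (-1 : ℤ) * b1 ^ (0 : ℤ) * b2 ^ (0 : ℤ) * b3 ^ (0 : ℤ) * b4 ^ (2 : ℤ) * 2 ^ (1 : ℤ) * 3 ^ (0 : ℤ) * 5 ^ (-1 : ℤ)) = (10 * (125 * b4) ^ 2 / ((25 * a0) ^ 2 * (25 * a4))) / 25 ∧
    (1) * (a0 ^ (-3 : ℤ) * a1 ^ (-1 : ℤ) * a2 ^ (0 : ℤ) * a3 ^ (0 : ℤ) * a4 ^ (0 : ℤ) * b1 ^ (1 : ℤ) * b2 ^ (1 : ℤ) * b3 ^ (0 : ℤ) * b4 ^ (0 : ℤ) * 2 ^ (2 : ℤ) * 3 ^ (2 : ℤ) * 5 ^ (-4 : ℤ)) = (180 * (125 * b1) * (125 * b2) / ((25 * a0) ^ 3 * (25 * a1))) / 125 ∧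
    (1) * (a0 ^ (-3 : ℤ) * a1 ^ (-1 : ℤ) * a2 ^ (-1 : ℤ) * a3 ^ (0 : ℤ) * a4 ^ (0 : ℤ) * b1 ^ (1 : ℤ) * b2 ^ (1 : ℤ) * b3 ^ (1 : ℤ) * b4 ^ (0 : ℤ) * 2 ^ (2 : ℤ) * 3 ^ (2 : ℤ) * 5 ^ (-3 : ℤ)) = (180 * (125 * b1) * (125 * b2) * (125 * b3) / ((25 * a0) ^ 3 * (25 * a1) * (25 * a2))) / 125 ∧
    (-1) * (a0 ^ (-3 : ℤ) * a1 ^ (0 : ℤ) * a2 ^ (-1 : ℤ) * a3 ^ (-1 : ℤ) * a4 ^ (0 : ℤ) * b1 ^ (0 : ℤ) * b2 ^ (1 : ℤ) * b3 ^ (1 : ℤ) * b4 ^ (1 : ℤ) * 2 ^ (2 : ℤ) * 3 ^ (2 : ℤ) * 5 ^ (-3 : ℤ)) = (-(180 * (125 * b2) * (125 * b3) * (125 * b4) / ((25 * a0) ^ 3 * (25 * a2) * (25 * a3)))) / 125 ∧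
    (1) * (a0 ^ (-3 : ℤ) * a1 ^ (0 : ℤ) * a2 ^ (0 : ℤ) * a3 ^ (-1 : ℤ) * a4 ^ (-1 : ℤ) * b1 ^ (0 : ℤ) * b2 ^ (0 : ℤ) * b3 ^ (1 : ℤ) * b4 ^ (2 : ℤ) * 2 ^ (2 : ℤ) * 3 ^ (1 : ℤ) * 5 ^ (-3 : ℤ)) = (60 * (125 * b3) * (125 * b4) ^ 2 / ((25 * a0) ^ 3 * (25 * a3) * (25 * a4))) / 125 := by
  refine ⟨?_, ?_, ?_, ?_, ?_, ?_, ?_, ?_, ?_⟩
  · simp only [zpow_neg, zpow_zero, zpow_one, zpow_ofNat]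
    field_simp
    try ring
  · simp only [zpow_neg, zpow_zero, zpow_one, zpow_ofNat]
    field_simp
    try ring
  · simp only [zpow_neg, zpow_zero, zpow_one, zpow_ofNat]
    field_simp
    try ring
  · simp only [zpow_neg, zpow_zero, zpow_one, zpow_ofNat]
    field_simp
    try ring
  · simp only [zpow_neg, zpow_zero, zpow_one, zpow_ofNat]
    field_simp
    try ring
  · simp only [zpow_neg, zpow_zero, zpow_one, zpow_ofNat]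
    field_simp
    try ring
  · simp only [zpow_neg, zpow_zero, zpow_one, zpow_ofNat]
    field_simp
    try ring
  · simp only [zpow_neg, zpow_zero, zpow_one, zpow_ofNat]
    field_simp
    try ring
  · simp only [zpow_neg, zpow_zero, zpow_one, zpow_ofNat]
    field_simp
    try ring

end

section

variable {k : Type*} [Field k] {F : Type*} [Field F] [Algebra k F] {x y : F}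

lemma G10_ne [CharZero k] (h : Gen (-6 / 25 : k) (6 / 5) x y) (i : Fin 12) : G10 x y i ≠ 0 := by
  have := charF k F
  fin_cases i
  · exact uF_ne h 0
  · exact uF_ne h 1
  · exact uF_ne h 2
  · exact uF_ne h 3
  · exact uF_ne h 4
  · exact uF_ne h 5
  · exact uF_ne h 6
  · exact uF_ne h 7
  · exact uF_ne h 8
  · exact (by norm_num : (2 : F) ≠ 0)
  · exact (by norm_num : (3 : F) ≠ 0)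
  · exact (by norm_num : (5 : F) ≠ 0)

lemma G10l_ne [CharZero k] (h : Gen (-6 / 25 : k) (6 / 5) x y) :
    ∀ z ∈ List.ofFn (G10 x y), z ≠ 0 := by
  intro z hz
  rw [List.mem_ofFn] at hz
  obtain ⟨i, rfl⟩ := hz
  exact G10_ne h i

lemma curveU [CharZero k] (h : Gen (-6 / 25 : k) (6 / 5) x y) :
    y ^ 2 + (1 - (6 / 5)) * x * y - (-6 / 25) * y = x ^ 3 - (-6 / 25) * x ^ 2 := by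
  have h1 := h.eq
  simp only [map_div₀, map_neg, map_ofNat, map_one, map_zero] at h1
  linear_combination h1

/-- the identities of the types -/
lemma bt_sol [CharZero k] (h : Gen (-6 / 25 : k) (6 / 5) x y) (r : ℕ) :
    KC72.ev (List.ofFn (G10 x y)) (bt r).1 + KC72.ev (List.ofFn (G10 x y)) (bt r).2.1 =
      KC72.ev (List.ofFn (G10 x y)) (bt r).2.2 := by
  have := charF k F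
  have he := curveU h
  rcases r with _ | _ | _ | _ | _ | _ | _ | _ | _ | _ | _ | _ | _ | _ | _ | _ | _ | _ | _ | _ | _ | _ | _ | r
  · show KC72.ev _ (nM false [0, 0, 0, 0, 1, 0, 0, 0, 0, 0, 0, 1]) + KC72.ev _ (nM true [0, 0, 0, 0, 0, 0, 0, 0, 0, 1, 0, 0]) =
      KC72.ev _ (nM false [1, 0, 0, 0, 0, 0, 0, 0, 0, 0, 0, 1])
    rw [ev_nM, ev_nM, ev_nM]
    show 1 * (x ^ 0 * (x + 6 / 25) ^ 0 * (x - 6 / 5) ^ 0 * (x - 6 / 25) ^ 0 * (x + 2 / 5) ^ 1 * y ^ 0 * (y - 6 / 5 * x) ^ 0 * (y + 6 / 5 * x) ^ 0 * (y - 2 / 5 * x) ^ 0 * 2 ^ 0 * 3 ^ 0 * 5 ^ 1) +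
      (-1) * (x ^ 0 * (x + 6 / 25) ^ 0 * (x - 6 / 5) ^ 0 * (x - 6 / 25) ^ 0 * (x + 2 / 5) ^ 0 * y ^ 0 * (y - 6 / 5 * x) ^ 0 * (y + 6 / 5 * x) ^ 0 * (y - 2 / 5 * x) ^ 0 * 2 ^ 1 * 3 ^ 0 * 5 ^ 0) =
      1 * (x ^ 1 * (x + 6 / 25) ^ 0 * (x - 6 / 5) ^ 0 * (x - 6 / 25) ^ 0 * (x + 2 / 5) ^ 0 * y ^ 0 * (y - 6 / 5 * x) ^ 0 * (y + 6 / 5 * x) ^ 0 * (y - 2 / 5 * x) ^ 0 * 2 ^ 0 * 3 ^ 0 * 5 ^ 1)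
    ring
  · show KC72.ev _ (nM true [0, 0, 0, 0, 0, 0, 0, 0, 0, 3, 0, 0]) + KC72.ev _ (nM false [0, 0, 0, 0, 1, 0, 0, 0, 0, 0, 0, 1]) =
      KC72.ev _ (nM false [0, 0, 1, 0, 0, 0, 0, 0, 0, 0, 0, 1])
    rw [ev_nM, ev_nM, ev_nM]
    show (-1) * (x ^ 0 * (x + 6 / 25) ^ 0 * (x - 6 / 5) ^ 0 * (x - 6 / 25) ^ 0 * (x + 2 / 5) ^ 0 * y ^ 0 * (y - 6 / 5 * x) ^ 0 * (y + 6 / 5 * x) ^ 0 * (y - 2 / 5 * x) ^ 0 * 2 ^ 3 * 3 ^ 0 * 5 ^ 0) +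
      1 * (x ^ 0 * (x + 6 / 25) ^ 0 * (x - 6 / 5) ^ 0 * (x - 6 / 25) ^ 0 * (x + 2 / 5) ^ 1 * y ^ 0 * (y - 6 / 5 * x) ^ 0 * (y + 6 / 5 * x) ^ 0 * (y - 2 / 5 * x) ^ 0 * 2 ^ 0 * 3 ^ 0 * 5 ^ 1) =
      1 * (x ^ 0 * (x + 6 / 25) ^ 0 * (x - 6 / 5) ^ 1 * (x - 6 / 25) ^ 0 * (x + 2 / 5) ^ 0 * y ^ 0 * (y - 6 / 5 * x) ^ 0 * (y + 6 / 5 * x) ^ 0 * (y - 2 / 5 * x) ^ 0 * 2 ^ 0 * 3 ^ 0 * 5 ^ 1)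
    ring
  · show KC72.ev _ (nM true [0, 0, 0, 0, 0, 0, 0, 0, 0, 3, 1, 0]) + KC72.ev _ (nM false [0, 0, 0, 1, 0, 0, 0, 0, 0, 0, 0, 2]) =
      KC72.ev _ (nM false [0, 0, 1, 0, 0, 0, 0, 0, 0, 0, 0, 2])
    rw [ev_nM, ev_nM, ev_nM]
    show (-1) * (x ^ 0 * (x + 6 / 25) ^ 0 * (x - 6 / 5) ^ 0 * (x - 6 / 25) ^ 0 * (x + 2 / 5) ^ 0 * y ^ 0 * (y - 6 / 5 * x) ^ 0 * (y + 6 / 5 * x) ^ 0 * (y - 2 / 5 * x) ^ 0 * 2 ^ 3 * 3 ^ 1 * 5 ^ 0) +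
      1 * (x ^ 0 * (x + 6 / 25) ^ 0 * (x - 6 / 5) ^ 0 * (x - 6 / 25) ^ 1 * (x + 2 / 5) ^ 0 * y ^ 0 * (y - 6 / 5 * x) ^ 0 * (y + 6 / 5 * x) ^ 0 * (y - 2 / 5 * x) ^ 0 * 2 ^ 0 * 3 ^ 0 * 5 ^ 2) =
      1 * (x ^ 0 * (x + 6 / 25) ^ 0 * (x - 6 / 5) ^ 1 * (x - 6 / 25) ^ 0 * (x + 2 / 5) ^ 0 * y ^ 0 * (y - 6 / 5 * x) ^ 0 * (y + 6 / 5 * x) ^ 0 * (y - 2 / 5 * x) ^ 0 * 2 ^ 0 * 3 ^ 0 * 5 ^ 2)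
    ring
  · show KC72.ev _ (nM false [0, 0, 0, 0, 0, 0, 0, 0, 0, 2, 1, 0]) + KC72.ev _ (nM false [0, 0, 0, 1, 0, 0, 0, 0, 0, 0, 0, 2]) =
      KC72.ev _ (nM false [0, 1, 0, 0, 0, 0, 0, 0, 0, 0, 0, 2])
    rw [ev_nM, ev_nM, ev_nM]
    show 1 * (x ^ 0 * (x + 6 / 25) ^ 0 * (x - 6 / 5) ^ 0 * (x - 6 / 25) ^ 0 * (x + 2 / 5) ^ 0 * y ^ 0 * (y - 6 / 5 * x) ^ 0 * (y + 6 / 5 * x) ^ 0 * (y - 2 / 5 * x) ^ 0 * 2 ^ 2 * 3 ^ 1 * 5 ^ 0) +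
      1 * (x ^ 0 * (x + 6 / 25) ^ 0 * (x - 6 / 5) ^ 0 * (x - 6 / 25) ^ 1 * (x + 2 / 5) ^ 0 * y ^ 0 * (y - 6 / 5 * x) ^ 0 * (y + 6 / 5 * x) ^ 0 * (y - 2 / 5 * x) ^ 0 * 2 ^ 0 * 3 ^ 0 * 5 ^ 2) =
      1 * (x ^ 0 * (x + 6 / 25) ^ 1 * (x - 6 / 5) ^ 0 * (x - 6 / 25) ^ 0 * (x + 2 / 5) ^ 0 * y ^ 0 * (y - 6 / 5 * x) ^ 0 * (y + 6 / 5 * x) ^ 0 * (y - 2 / 5 * x) ^ 0 * 2 ^ 0 * 3 ^ 0 * 5 ^ 2)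
    ring
  · show KC72.ev _ (nM false [0, 0, 0, 0, 0, 0, 0, 0, 0, 1, 1, 0]) + KC72.ev _ (nM false [0, 0, 0, 1, 0, 0, 0, 0, 0, 0, 0, 2]) =
      KC72.ev _ (nM false [1, 0, 0, 0, 0, 0, 0, 0, 0, 0, 0, 2])
    rw [ev_nM, ev_nM, ev_nM]
    show 1 * (x ^ 0 * (x + 6 / 25) ^ 0 * (x - 6 / 5) ^ 0 * (x - 6 / 25) ^ 0 * (x + 2 / 5) ^ 0 * y ^ 0 * (y - 6 / 5 * x) ^ 0 * (y + 6 / 5 * x) ^ 0 * (y - 2 / 5 * x) ^ 0 * 2 ^ 1 * 3 ^ 1 * 5 ^ 0) +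
      1 * (x ^ 0 * (x + 6 / 25) ^ 0 * (x - 6 / 5) ^ 0 * (x - 6 / 25) ^ 1 * (x + 2 / 5) ^ 0 * y ^ 0 * (y - 6 / 5 * x) ^ 0 * (y + 6 / 5 * x) ^ 0 * (y - 2 / 5 * x) ^ 0 * 2 ^ 0 * 3 ^ 0 * 5 ^ 2) =
      1 * (x ^ 1 * (x + 6 / 25) ^ 0 * (x - 6 / 5) ^ 0 * (x - 6 / 25) ^ 0 * (x + 2 / 5) ^ 0 * y ^ 0 * (y - 6 / 5 * x) ^ 0 * (y + 6 / 5 * x) ^ 0 * (y - 2 / 5 * x) ^ 0 * 2 ^ 0 * 3 ^ 0 * 5 ^ 2)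
    ring
  · show KC72.ev _ (nM false [0, 0, 0, 0, 0, 0, 0, 0, 0, 2, 2, 0]) + KC72.ev _ (nM false [0, 0, 1, 0, 0, 0, 0, 0, 0, 0, 0, 2]) =
      KC72.ev _ (nM false [0, 1, 0, 0, 0, 0, 0, 0, 0, 0, 0, 2])
    rw [ev_nM, ev_nM, ev_nM]
    show 1 * (x ^ 0 * (x + 6 / 25) ^ 0 * (x - 6 / 5) ^ 0 * (x - 6 / 25) ^ 0 * (x + 2 / 5) ^ 0 * y ^ 0 * (y - 6 / 5 * x) ^ 0 * (y + 6 / 5 * x) ^ 0 * (y - 2 / 5 * x) ^ 0 * 2 ^ 2 * 3 ^ 2 * 5 ^ 0) +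
      1 * (x ^ 0 * (x + 6 / 25) ^ 0 * (x - 6 / 5) ^ 1 * (x - 6 / 25) ^ 0 * (x + 2 / 5) ^ 0 * y ^ 0 * (y - 6 / 5 * x) ^ 0 * (y + 6 / 5 * x) ^ 0 * (y - 2 / 5 * x) ^ 0 * 2 ^ 0 * 3 ^ 0 * 5 ^ 2) =
      1 * (x ^ 0 * (x + 6 / 25) ^ 1 * (x - 6 / 5) ^ 0 * (x - 6 / 25) ^ 0 * (x + 2 / 5) ^ 0 * y ^ 0 * (y - 6 / 5 * x) ^ 0 * (y + 6 / 5 * x) ^ 0 * (y - 2 / 5 * x) ^ 0 * 2 ^ 0 * 3 ^ 0 * 5 ^ 2)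
    ring
  · show KC72.ev _ (nM false [0, 0, 0, 0, 0, 0, 0, 0, 0, 1, 1, 0]) + KC72.ev _ (nM false [0, 0, 1, 0, 0, 0, 0, 0, 0, 0, 0, 1]) =
      KC72.ev _ (nM false [1, 0, 0, 0, 0, 0, 0, 0, 0, 0, 0, 1])
    rw [ev_nM, ev_nM, ev_nM]
    show 1 * (x ^ 0 * (x + 6 / 25) ^ 0 * (x - 6 / 5) ^ 0 * (x - 6 / 25) ^ 0 * (x + 2 / 5) ^ 0 * y ^ 0 * (y - 6 / 5 * x) ^ 0 * (y + 6 / 5 * x) ^ 0 * (y - 2 / 5 * x) ^ 0 * 2 ^ 1 * 3 ^ 1 * 5 ^ 0) +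
      1 * (x ^ 0 * (x + 6 / 25) ^ 0 * (x - 6 / 5) ^ 1 * (x - 6 / 25) ^ 0 * (x + 2 / 5) ^ 0 * y ^ 0 * (y - 6 / 5 * x) ^ 0 * (y + 6 / 5 * x) ^ 0 * (y - 2 / 5 * x) ^ 0 * 2 ^ 0 * 3 ^ 0 * 5 ^ 1) =
      1 * (x ^ 1 * (x + 6 / 25) ^ 0 * (x - 6 / 5) ^ 0 * (x - 6 / 25) ^ 0 * (x + 2 / 5) ^ 0 * y ^ 0 * (y - 6 / 5 * x) ^ 0 * (y + 6 / 5 * x) ^ 0 * (y - 2 / 5 * x) ^ 0 * 2 ^ 0 * 3 ^ 0 * 5 ^ 1)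
    ring
  · show KC72.ev _ (nM true [0, 0, 0, 0, 0, 0, 0, 0, 0, 1, 1, 0]) + KC72.ev _ (nM false [0, 1, 0, 0, 0, 0, 0, 0, 0, 0, 0, 2]) =
      KC72.ev _ (nM false [1, 0, 0, 0, 0, 0, 0, 0, 0, 0, 0, 2])
    rw [ev_nM, ev_nM, ev_nM]
    show (-1) * (x ^ 0 * (x + 6 / 25) ^ 0 * (x - 6 / 5) ^ 0 * (x - 6 / 25) ^ 0 * (x + 2 / 5) ^ 0 * y ^ 0 * (y - 6 / 5 * x) ^ 0 * (y + 6 / 5 * x) ^ 0 * (y - 2 / 5 * x) ^ 0 * 2 ^ 1 * 3 ^ 1 * 5 ^ 0) +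
      1 * (x ^ 0 * (x + 6 / 25) ^ 1 * (x - 6 / 5) ^ 0 * (x - 6 / 25) ^ 0 * (x + 2 / 5) ^ 0 * y ^ 0 * (y - 6 / 5 * x) ^ 0 * (y + 6 / 5 * x) ^ 0 * (y - 2 / 5 * x) ^ 0 * 2 ^ 0 * 3 ^ 0 * 5 ^ 2) =
      1 * (x ^ 1 * (x + 6 / 25) ^ 0 * (x - 6 / 5) ^ 0 * (x - 6 / 25) ^ 0 * (x + 2 / 5) ^ 0 * y ^ 0 * (y - 6 / 5 * x) ^ 0 * (y + 6 / 5 * x) ^ 0 * (y - 2 / 5 * x) ^ 0 * 2 ^ 0 * 3 ^ 0 * 5 ^ 2)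
    ring
  · show KC72.ev _ (nM false [0, 0, 0, 0, 0, 0, 0, 0, 1, 0, 0, 1]) + KC72.ev _ (nM false [1, 0, 0, 0, 0, 0, 0, 0, 0, 1, 0, 0]) =
      KC72.ev _ (nM false [0, 0, 0, 0, 0, 1, 0, 0, 0, 0, 0, 1])
    rw [ev_nM, ev_nM, ev_nM]
    show 1 * (x ^ 0 * (x + 6 / 25) ^ 0 * (x - 6 / 5) ^ 0 * (x - 6 / 25) ^ 0 * (x + 2 / 5) ^ 0 * y ^ 0 * (y - 6 / 5 * x) ^ 0 * (y + 6 / 5 * x) ^ 0 * (y - 2 / 5 * x) ^ 1 * 2 ^ 0 * 3 ^ 0 * 5 ^ 1) +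
      1 * (x ^ 1 * (x + 6 / 25) ^ 0 * (x - 6 / 5) ^ 0 * (x - 6 / 25) ^ 0 * (x + 2 / 5) ^ 0 * y ^ 0 * (y - 6 / 5 * x) ^ 0 * (y + 6 / 5 * x) ^ 0 * (y - 2 / 5 * x) ^ 0 * 2 ^ 1 * 3 ^ 0 * 5 ^ 0) =
      1 * (x ^ 0 * (x + 6 / 25) ^ 0 * (x - 6 / 5) ^ 0 * (x - 6 / 25) ^ 0 * (x + 2 / 5) ^ 0 * y ^ 1 * (y - 6 / 5 * x) ^ 0 * (y + 6 / 5 * x) ^ 0 * (y - 2 / 5 * x) ^ 0 * 2 ^ 0 * 3 ^ 0 * 5 ^ 1)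
    ring
  · show KC72.ev _ (nM false [0, 0, 0, 0, 0, 0, 0, 0, 1, 0, 0, 1]) + KC72.ev _ (nM true [1, 0, 0, 0, 0, 0, 0, 0, 0, 2, 0, 0]) =
      KC72.ev _ (nM false [0, 0, 0, 0, 0, 0, 1, 0, 0, 0, 0, 1])
    rw [ev_nM, ev_nM, ev_nM]
    show 1 * (x ^ 0 * (x + 6 / 25) ^ 0 * (x - 6 / 5) ^ 0 * (x - 6 / 25) ^ 0 * (x + 2 / 5) ^ 0 * y ^ 0 * (y - 6 / 5 * x) ^ 0 * (y + 6 / 5 * x) ^ 0 * (y - 2 / 5 * x) ^ 1 * 2 ^ 0 * 3 ^ 0 * 5 ^ 1) +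
      (-1) * (x ^ 1 * (x + 6 / 25) ^ 0 * (x - 6 / 5) ^ 0 * (x - 6 / 25) ^ 0 * (x + 2 / 5) ^ 0 * y ^ 0 * (y - 6 / 5 * x) ^ 0 * (y + 6 / 5 * x) ^ 0 * (y - 2 / 5 * x) ^ 0 * 2 ^ 2 * 3 ^ 0 * 5 ^ 0) =
      1 * (x ^ 0 * (x + 6 / 25) ^ 0 * (x - 6 / 5) ^ 0 * (x - 6 / 25) ^ 0 * (x + 2 / 5) ^ 0 * y ^ 0 * (y - 6 / 5 * x) ^ 1 * (y + 6 / 5 * x) ^ 0 * (y - 2 / 5 * x) ^ 0 * 2 ^ 0 * 3 ^ 0 * 5 ^ 1)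
    ring
  · show KC72.ev _ (nM true [1, 0, 0, 0, 0, 0, 0, 0, 0, 2, 1, 0]) + KC72.ev _ (nM false [0, 0, 0, 0, 0, 0, 0, 1, 0, 0, 0, 1]) =
      KC72.ev _ (nM false [0, 0, 0, 0, 0, 0, 1, 0, 0, 0, 0, 1])
    rw [ev_nM, ev_nM, ev_nM]
    show (-1) * (x ^ 1 * (x + 6 / 25) ^ 0 * (x - 6 / 5) ^ 0 * (x - 6 / 25) ^ 0 * (x + 2 / 5) ^ 0 * y ^ 0 * (y - 6 / 5 * x) ^ 0 * (y + 6 / 5 * x) ^ 0 * (y - 2 / 5 * x) ^ 0 * 2 ^ 2 * 3 ^ 1 * 5 ^ 0) +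
      1 * (x ^ 0 * (x + 6 / 25) ^ 0 * (x - 6 / 5) ^ 0 * (x - 6 / 25) ^ 0 * (x + 2 / 5) ^ 0 * y ^ 0 * (y - 6 / 5 * x) ^ 0 * (y + 6 / 5 * x) ^ 1 * (y - 2 / 5 * x) ^ 0 * 2 ^ 0 * 3 ^ 0 * 5 ^ 1) =
      1 * (x ^ 0 * (x + 6 / 25) ^ 0 * (x - 6 / 5) ^ 0 * (x - 6 / 25) ^ 0 * (x + 2 / 5) ^ 0 * y ^ 0 * (y - 6 / 5 * x) ^ 1 * (y + 6 / 5 * x) ^ 0 * (y - 2 / 5 * x) ^ 0 * 2 ^ 0 * 3 ^ 0 * 5 ^ 1)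
    ring
  · show KC72.ev _ (nM true [1, 0, 0, 0, 0, 0, 0, 0, 0, 1, 1, 0]) + KC72.ev _ (nM false [0, 0, 0, 0, 0, 0, 0, 1, 0, 0, 0, 1]) =
      KC72.ev _ (nM false [0, 0, 0, 0, 0, 1, 0, 0, 0, 0, 0, 1])
    rw [ev_nM, ev_nM, ev_nM]
    show (-1) * (x ^ 1 * (x + 6 / 25) ^ 0 * (x - 6 / 5) ^ 0 * (x - 6 / 25) ^ 0 * (x + 2 / 5) ^ 0 * y ^ 0 * (y - 6 / 5 * x) ^ 0 * (y + 6 / 5 * x) ^ 0 * (y - 2 / 5 * x) ^ 0 * 2 ^ 1 * 3 ^ 1 * 5 ^ 0) +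
      1 * (x ^ 0 * (x + 6 / 25) ^ 0 * (x - 6 / 5) ^ 0 * (x - 6 / 25) ^ 0 * (x + 2 / 5) ^ 0 * y ^ 0 * (y - 6 / 5 * x) ^ 0 * (y + 6 / 5 * x) ^ 1 * (y - 2 / 5 * x) ^ 0 * 2 ^ 0 * 3 ^ 0 * 5 ^ 1) =
      1 * (x ^ 0 * (x + 6 / 25) ^ 0 * (x - 6 / 5) ^ 0 * (x - 6 / 25) ^ 0 * (x + 2 / 5) ^ 0 * y ^ 1 * (y - 6 / 5 * x) ^ 0 * (y + 6 / 5 * x) ^ 0 * (y - 2 / 5 * x) ^ 0 * 2 ^ 0 * 3 ^ 0 * 5 ^ 1)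
    ring
  · show KC72.ev _ (nM false [1, 0, 0, 0, 0, 0, 0, 0, 0, 1, 1, 0]) + KC72.ev _ (nM false [0, 0, 0, 0, 0, 0, 1, 0, 0, 0, 0, 1]) =
      KC72.ev _ (nM false [0, 0, 0, 0, 0, 1, 0, 0, 0, 0, 0, 1])
    rw [ev_nM, ev_nM, ev_nM]
    show 1 * (x ^ 1 * (x + 6 / 25) ^ 0 * (x - 6 / 5) ^ 0 * (x - 6 / 25) ^ 0 * (x + 2 / 5) ^ 0 * y ^ 0 * (y - 6 / 5 * x) ^ 0 * (y + 6 / 5 * x) ^ 0 * (y - 2 / 5 * x) ^ 0 * 2 ^ 1 * 3 ^ 1 * 5 ^ 0) +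
      1 * (x ^ 0 * (x + 6 / 25) ^ 0 * (x - 6 / 5) ^ 0 * (x - 6 / 25) ^ 0 * (x + 2 / 5) ^ 0 * y ^ 0 * (y - 6 / 5 * x) ^ 1 * (y + 6 / 5 * x) ^ 0 * (y - 2 / 5 * x) ^ 0 * 2 ^ 0 * 3 ^ 0 * 5 ^ 1) =
      1 * (x ^ 0 * (x + 6 / 25) ^ 0 * (x - 6 / 5) ^ 0 * (x - 6 / 25) ^ 0 * (x + 2 / 5) ^ 0 * y ^ 1 * (y - 6 / 5 * x) ^ 0 * (y + 6 / 5 * x) ^ 0 * (y - 2 / 5 * x) ^ 0 * 2 ^ 0 * 3 ^ 0 * 5 ^ 1)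
    ring
  · show KC72.ev _ (nM true [0, 0, 0, 1, 0, 0, 0, 0, 0, 0, 0, 0]) + KC72.ev _ (nM false [1, 0, 0, 0, 0, 0, 0, 0, 0, 1, 0, 0]) =
      KC72.ev _ (nM false [0, 1, 0, 0, 0, 0, 0, 0, 0, 0, 0, 0])
    rw [ev_nM, ev_nM, ev_nM]
    show (-1) * (x ^ 0 * (x + 6 / 25) ^ 0 * (x - 6 / 5) ^ 0 * (x - 6 / 25) ^ 1 * (x + 2 / 5) ^ 0 * y ^ 0 * (y - 6 / 5 * x) ^ 0 * (y + 6 / 5 * x) ^ 0 * (y - 2 / 5 * x) ^ 0 * 2 ^ 0 * 3 ^ 0 * 5 ^ 0) +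
      1 * (x ^ 1 * (x + 6 / 25) ^ 0 * (x - 6 / 5) ^ 0 * (x - 6 / 25) ^ 0 * (x + 2 / 5) ^ 0 * y ^ 0 * (y - 6 / 5 * x) ^ 0 * (y + 6 / 5 * x) ^ 0 * (y - 2 / 5 * x) ^ 0 * 2 ^ 1 * 3 ^ 0 * 5 ^ 0) =
      1 * (x ^ 0 * (x + 6 / 25) ^ 1 * (x - 6 / 5) ^ 0 * (x - 6 / 25) ^ 0 * (x + 2 / 5) ^ 0 * y ^ 0 * (y - 6 / 5 * x) ^ 0 * (y + 6 / 5 * x) ^ 0 * (y - 2 / 5 * x) ^ 0 * 2 ^ 0 * 3 ^ 0 * 5 ^ 0)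
    ring
  · show KC72.ev _ (nM false [0, 0, 0, 1, 0, 0, 0, 0, 0, 0, 1, 0]) + KC72.ev _ (nM true [0, 1, 0, 0, 0, 0, 0, 0, 0, 1, 0, 0]) =
      KC72.ev _ (nM false [0, 0, 1, 0, 0, 0, 0, 0, 0, 0, 0, 0])
    rw [ev_nM, ev_nM, ev_nM]
    show 1 * (x ^ 0 * (x + 6 / 25) ^ 0 * (x - 6 / 5) ^ 0 * (x - 6 / 25) ^ 1 * (x + 2 / 5) ^ 0 * y ^ 0 * (y - 6 / 5 * x) ^ 0 * (y + 6 / 5 * x) ^ 0 * (y - 2 / 5 * x) ^ 0 * 2 ^ 0 * 3 ^ 1 * 5 ^ 0) +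
      (-1) * (x ^ 0 * (x + 6 / 25) ^ 1 * (x - 6 / 5) ^ 0 * (x - 6 / 25) ^ 0 * (x + 2 / 5) ^ 0 * y ^ 0 * (y - 6 / 5 * x) ^ 0 * (y + 6 / 5 * x) ^ 0 * (y - 2 / 5 * x) ^ 0 * 2 ^ 1 * 3 ^ 0 * 5 ^ 0) =
      1 * (x ^ 0 * (x + 6 / 25) ^ 0 * (x - 6 / 5) ^ 1 * (x - 6 / 25) ^ 0 * (x + 2 / 5) ^ 0 * y ^ 0 * (y - 6 / 5 * x) ^ 0 * (y + 6 / 5 * x) ^ 0 * (y - 2 / 5 * x) ^ 0 * 2 ^ 0 * 3 ^ 0 * 5 ^ 0)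
    ring
  · show KC72.ev _ (nM true [0, 0, 0, 0, 0, 0, 0, 1, 0, 0, 0, 0]) + KC72.ev _ (nM false [0, 0, 0, 0, 0, 1, 0, 0, 0, 1, 0, 0]) =
      KC72.ev _ (nM false [0, 0, 0, 0, 0, 0, 1, 0, 0, 0, 0, 0])
    rw [ev_nM, ev_nM, ev_nM]
    show (-1) * (x ^ 0 * (x + 6 / 25) ^ 0 * (x - 6 / 5) ^ 0 * (x - 6 / 25) ^ 0 * (x + 2 / 5) ^ 0 * y ^ 0 * (y - 6 / 5 * x) ^ 0 * (y + 6 / 5 * x) ^ 1 * (y - 2 / 5 * x) ^ 0 * 2 ^ 0 * 3 ^ 0 * 5 ^ 0) +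
      1 * (x ^ 0 * (x + 6 / 25) ^ 0 * (x - 6 / 5) ^ 0 * (x - 6 / 25) ^ 0 * (x + 2 / 5) ^ 0 * y ^ 1 * (y - 6 / 5 * x) ^ 0 * (y + 6 / 5 * x) ^ 0 * (y - 2 / 5 * x) ^ 0 * 2 ^ 1 * 3 ^ 0 * 5 ^ 0) =
      1 * (x ^ 0 * (x + 6 / 25) ^ 0 * (x - 6 / 5) ^ 0 * (x - 6 / 25) ^ 0 * (x + 2 / 5) ^ 0 * y ^ 0 * (y - 6 / 5 * x) ^ 1 * (y + 6 / 5 * x) ^ 0 * (y - 2 / 5 * x) ^ 0 * 2 ^ 0 * 3 ^ 0 * 5 ^ 0)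
    ring
  · show KC72.ev _ (nM false [3, 1, 0, 0, 0, 0, 0, 0, 0, 1, 1, 0]) + KC72.ev _ (nM true [0, 0, 1, 0, 0, 1, 1, 0, 0, 0, 0, 0]) =
      KC72.ev _ (nM false [0, 1, 0, 0, 0, 2, 0, 0, 0, 0, 0, 1])
    rw [ev_nM, ev_nM, ev_nM]
    show 1 * (x ^ 3 * (x + 6 / 25) ^ 1 * (x - 6 / 5) ^ 0 * (x - 6 / 25) ^ 0 * (x + 2 / 5) ^ 0 * y ^ 0 * (y - 6 / 5 * x) ^ 0 * (y + 6 / 5 * x) ^ 0 * (y - 2 / 5 * x) ^ 0 * 2 ^ 1 * 3 ^ 1 * 5 ^ 0) +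
      (-1) * (x ^ 0 * (x + 6 / 25) ^ 0 * (x - 6 / 5) ^ 1 * (x - 6 / 25) ^ 0 * (x + 2 / 5) ^ 0 * y ^ 1 * (y - 6 / 5 * x) ^ 1 * (y + 6 / 5 * x) ^ 0 * (y - 2 / 5 * x) ^ 0 * 2 ^ 0 * 3 ^ 0 * 5 ^ 0) =
      1 * (x ^ 0 * (x + 6 / 25) ^ 1 * (x - 6 / 5) ^ 0 * (x - 6 / 25) ^ 0 * (x + 2 / 5) ^ 0 * y ^ 2 * (y - 6 / 5 * x) ^ 0 * (y + 6 / 5 * x) ^ 0 * (y - 2 / 5 * x) ^ 0 * 2 ^ 0 * 3 ^ 0 * 5 ^ 1)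
    linear_combination (-6 * x) * he
  · show KC72.ev _ (nM true [0, 0, 1, 0, 0, 1, 0, 0, 0, 2, 2, 0]) + KC72.ev _ (nM false [0, 1, 0, 0, 0, 0, 1, 1, 0, 0, 0, 3]) =
      KC72.ev _ (nM false [0, 0, 1, 0, 0, 2, 0, 0, 0, 0, 0, 3])
    rw [ev_nM, ev_nM, ev_nM]
    show (-1) * (x ^ 0 * (x + 6 / 25) ^ 0 * (x - 6 / 5) ^ 1 * (x - 6 / 25) ^ 0 * (x + 2 / 5) ^ 0 * y ^ 1 * (y - 6 / 5 * x) ^ 0 * (y + 6 / 5 * x) ^ 0 * (y - 2 / 5 * x) ^ 0 * 2 ^ 2 * 3 ^ 2 * 5 ^ 0) +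
      1 * (x ^ 0 * (x + 6 / 25) ^ 1 * (x - 6 / 5) ^ 0 * (x - 6 / 25) ^ 0 * (x + 2 / 5) ^ 0 * y ^ 0 * (y - 6 / 5 * x) ^ 1 * (y + 6 / 5 * x) ^ 1 * (y - 2 / 5 * x) ^ 0 * 2 ^ 0 * 3 ^ 0 * 5 ^ 3) =
      1 * (x ^ 0 * (x + 6 / 25) ^ 0 * (x - 6 / 5) ^ 1 * (x - 6 / 25) ^ 0 * (x + 2 / 5) ^ 0 * y ^ 2 * (y - 6 / 5 * x) ^ 0 * (y + 6 / 5 * x) ^ 0 * (y - 2 / 5 * x) ^ 0 * 2 ^ 0 * 3 ^ 0 * 5 ^ 3)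
    linear_combination (180) * he
  · show KC72.ev _ (nM false [0, 0, 0, 0, 0, 2, 0, 0, 0, 0, 0, 1]) + KC72.ev _ (nM true [0, 0, 1, 0, 0, 1, 0, 0, 0, 0, 0, 0]) =
      KC72.ev _ (nM false [2, 1, 0, 0, 0, 0, 0, 0, 0, 0, 0, 1])
    rw [ev_nM, ev_nM, ev_nM]
    show 1 * (x ^ 0 * (x + 6 / 25) ^ 0 * (x - 6 / 5) ^ 0 * (x - 6 / 25) ^ 0 * (x + 2 / 5) ^ 0 * y ^ 2 * (y - 6 / 5 * x) ^ 0 * (y + 6 / 5 * x) ^ 0 * (y - 2 / 5 * x) ^ 0 * 2 ^ 0 * 3 ^ 0 * 5 ^ 1) +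
      (-1) * (x ^ 0 * (x + 6 / 25) ^ 0 * (x - 6 / 5) ^ 1 * (x - 6 / 25) ^ 0 * (x + 2 / 5) ^ 0 * y ^ 1 * (y - 6 / 5 * x) ^ 0 * (y + 6 / 5 * x) ^ 0 * (y - 2 / 5 * x) ^ 0 * 2 ^ 0 * 3 ^ 0 * 5 ^ 0) =
      1 * (x ^ 2 * (x + 6 / 25) ^ 1 * (x - 6 / 5) ^ 0 * (x - 6 / 25) ^ 0 * (x + 2 / 5) ^ 0 * y ^ 0 * (y - 6 / 5 * x) ^ 0 * (y + 6 / 5 * x) ^ 0 * (y - 2 / 5 * x) ^ 0 * 2 ^ 0 * 3 ^ 0 * 5 ^ 1)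
    linear_combination (5) * he
  · show KC72.ev _ (nM false [0, 0, 0, 0, 0, 0, 0, 0, 0, 2, 2, 0]) + KC72.ev _ (nM false [0, 1, 0, 1, 0, 0, 0, 0, 0, 0, 0, 4]) =
      KC72.ev _ (nM false [2, 0, 0, 0, 0, 0, 0, 0, 0, 0, 0, 4])
    rw [ev_nM, ev_nM, ev_nM]
    show 1 * (x ^ 0 * (x + 6 / 25) ^ 0 * (x - 6 / 5) ^ 0 * (x - 6 / 25) ^ 0 * (x + 2 / 5) ^ 0 * y ^ 0 * (y - 6 / 5 * x) ^ 0 * (y + 6 / 5 * x) ^ 0 * (y - 2 / 5 * x) ^ 0 * 2 ^ 2 * 3 ^ 2 * 5 ^ 0) +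
      1 * (x ^ 0 * (x + 6 / 25) ^ 1 * (x - 6 / 5) ^ 0 * (x - 6 / 25) ^ 1 * (x + 2 / 5) ^ 0 * y ^ 0 * (y - 6 / 5 * x) ^ 0 * (y + 6 / 5 * x) ^ 0 * (y - 2 / 5 * x) ^ 0 * 2 ^ 0 * 3 ^ 0 * 5 ^ 4) =
      1 * (x ^ 2 * (x + 6 / 25) ^ 0 * (x - 6 / 5) ^ 0 * (x - 6 / 25) ^ 0 * (x + 2 / 5) ^ 0 * y ^ 0 * (y - 6 / 5 * x) ^ 0 * (y + 6 / 5 * x) ^ 0 * (y - 2 / 5 * x) ^ 0 * 2 ^ 0 * 3 ^ 0 * 5 ^ 4)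
    ring
  · show KC72.ev _ (nM false [2, 0, 0, 0, 0, 0, 0, 0, 0, 2, 2, 0]) + KC72.ev _ (nM false [0, 0, 0, 0, 0, 0, 1, 1, 0, 0, 0, 2]) =
      KC72.ev _ (nM false [0, 0, 0, 0, 0, 2, 0, 0, 0, 0, 0, 2])
    rw [ev_nM, ev_nM, ev_nM]
    show 1 * (x ^ 2 * (x + 6 / 25) ^ 0 * (x - 6 / 5) ^ 0 * (x - 6 / 25) ^ 0 * (x + 2 / 5) ^ 0 * y ^ 0 * (y - 6 / 5 * x) ^ 0 * (y + 6 / 5 * x) ^ 0 * (y - 2 / 5 * x) ^ 0 * 2 ^ 2 * 3 ^ 2 * 5 ^ 0) +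
      1 * (x ^ 0 * (x + 6 / 25) ^ 0 * (x - 6 / 5) ^ 0 * (x - 6 / 25) ^ 0 * (x + 2 / 5) ^ 0 * y ^ 0 * (y - 6 / 5 * x) ^ 1 * (y + 6 / 5 * x) ^ 1 * (y - 2 / 5 * x) ^ 0 * 2 ^ 0 * 3 ^ 0 * 5 ^ 2) =
      1 * (x ^ 0 * (x + 6 / 25) ^ 0 * (x - 6 / 5) ^ 0 * (x - 6 / 25) ^ 0 * (x + 2 / 5) ^ 0 * y ^ 2 * (y - 6 / 5 * x) ^ 0 * (y + 6 / 5 * x) ^ 0 * (y - 2 / 5 * x) ^ 0 * 2 ^ 0 * 3 ^ 0 * 5 ^ 2)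
    ring
  · show KC72.ev _ (nM false [1, 0, 0, 0, 0, 0, 0, 0, 0, 3, 1, 0]) + KC72.ev _ (nM false [0, 0, 0, 2, 0, 0, 0, 0, 0, 0, 0, 2]) =
      KC72.ev _ (nM false [0, 2, 0, 0, 0, 0, 0, 0, 0, 0, 0, 2])
    rw [ev_nM, ev_nM, ev_nM]
    show 1 * (x ^ 1 * (x + 6 / 25) ^ 0 * (x - 6 / 5) ^ 0 * (x - 6 / 25) ^ 0 * (x + 2 / 5) ^ 0 * y ^ 0 * (y - 6 / 5 * x) ^ 0 * (y + 6 / 5 * x) ^ 0 * (y - 2 / 5 * x) ^ 0 * 2 ^ 3 * 3 ^ 1 * 5 ^ 0) +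
      1 * (x ^ 0 * (x + 6 / 25) ^ 0 * (x - 6 / 5) ^ 0 * (x - 6 / 25) ^ 2 * (x + 2 / 5) ^ 0 * y ^ 0 * (y - 6 / 5 * x) ^ 0 * (y + 6 / 5 * x) ^ 0 * (y - 2 / 5 * x) ^ 0 * 2 ^ 0 * 3 ^ 0 * 5 ^ 2) =
      1 * (x ^ 0 * (x + 6 / 25) ^ 2 * (x - 6 / 5) ^ 0 * (x - 6 / 25) ^ 0 * (x + 2 / 5) ^ 0 * y ^ 0 * (y - 6 / 5 * x) ^ 0 * (y + 6 / 5 * x) ^ 0 * (y - 2 / 5 * x) ^ 0 * 2 ^ 0 * 3 ^ 0 * 5 ^ 2)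
    ring
  · show KC72.ev _ (nM true [1, 0, 0, 0, 0, 1, 0, 0, 0, 3, 1, 0]) + KC72.ev _ (nM false [0, 0, 0, 0, 0, 0, 0, 2, 0, 0, 0, 1]) =
      KC72.ev _ (nM false [0, 0, 0, 0, 0, 0, 2, 0, 0, 0, 0, 1])
    rw [ev_nM, ev_nM, ev_nM]
    show (-1) * (x ^ 1 * (x + 6 / 25) ^ 0 * (x - 6 / 5) ^ 0 * (x - 6 / 25) ^ 0 * (x + 2 / 5) ^ 0 * y ^ 1 * (y - 6 / 5 * x) ^ 0 * (y + 6 / 5 * x) ^ 0 * (y - 2 / 5 * x) ^ 0 * 2 ^ 3 * 3 ^ 1 * 5 ^ 0) +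
      1 * (x ^ 0 * (x + 6 / 25) ^ 0 * (x - 6 / 5) ^ 0 * (x - 6 / 25) ^ 0 * (x + 2 / 5) ^ 0 * y ^ 0 * (y - 6 / 5 * x) ^ 0 * (y + 6 / 5 * x) ^ 2 * (y - 2 / 5 * x) ^ 0 * 2 ^ 0 * 3 ^ 0 * 5 ^ 1) =
      1 * (x ^ 0 * (x + 6 / 25) ^ 0 * (x - 6 / 5) ^ 0 * (x - 6 / 25) ^ 0 * (x + 2 / 5) ^ 0 * y ^ 0 * (y - 6 / 5 * x) ^ 2 * (y + 6 / 5 * x) ^ 0 * (y - 2 / 5 * x) ^ 0 * 2 ^ 0 * 3 ^ 0 * 5 ^ 1)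
    ring
  · show KC72.ev _ (nM false [0, 0, 0, 0, 1, 0, 0, 0, 0, 1, 2, 0]) + KC72.ev _ (nM false [0, 1, 1, 0, 0, 0, 0, 0, 0, 0, 0, 2]) =
      KC72.ev _ (nM false [1, 0, 0, 1, 0, 0, 0, 0, 0, 0, 0, 2])
    rw [ev_nM, ev_nM, ev_nM]
    show 1 * (x ^ 0 * (x + 6 / 25) ^ 0 * (x - 6 / 5) ^ 0 * (x - 6 / 25) ^ 0 * (x + 2 / 5) ^ 1 * y ^ 0 * (y - 6 / 5 * x) ^ 0 * (y + 6 / 5 * x) ^ 0 * (y - 2 / 5 * x) ^ 0 * 2 ^ 1 * 3 ^ 2 * 5 ^ 0) +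
      1 * (x ^ 0 * (x + 6 / 25) ^ 1 * (x - 6 / 5) ^ 1 * (x - 6 / 25) ^ 0 * (x + 2 / 5) ^ 0 * y ^ 0 * (y - 6 / 5 * x) ^ 0 * (y + 6 / 5 * x) ^ 0 * (y - 2 / 5 * x) ^ 0 * 2 ^ 0 * 3 ^ 0 * 5 ^ 2) =
      1 * (x ^ 1 * (x + 6 / 25) ^ 0 * (x - 6 / 5) ^ 0 * (x - 6 / 25) ^ 1 * (x + 2 / 5) ^ 0 * y ^ 0 * (y - 6 / 5 * x) ^ 0 * (y + 6 / 5 * x) ^ 0 * (y - 2 / 5 * x) ^ 0 * 2 ^ 0 * 3 ^ 0 * 5 ^ 2)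
    ring

/-- the scaled basis at the next point -/
lemma nextS [CharZero k] (h : Gen (-6 / 25 : k) (6 / 5) x y) :
    25 * nx x y = -(30 * (125 * y) / (25 * x) ^ 2) ∧
    25 * nx x y + 6 = 6 * (125 * y) * (125 * y - 6 * (25 * x)) / ((25 * x) ^ 2 * (25 * x + 6)) ∧
    25 * nx x y - 30 = -(30 * (125 * y - 6 * (25 * x)) * (125 * y + 6 * (25 * x)) / ((25 * x) ^ 2 * (25 * x - 30))) ∧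
    25 * nx x y - 6 = -(6 * (125 * y + 6 * (25 * x)) * (125 * y - 2 * (25 * x)) / ((25 * x) ^ 2 * (25 * x - 6))) ∧
    25 * nx x y + 10 = 10 * (125 * y - 2 * (25 * x)) ^ 2 / ((25 * x) ^ 2 * (25 * x + 10)) ∧
    125 * ny x y = 180 * (125 * y) * (125 * y - 6 * (25 * x)) / ((25 * x) ^ 3 * (25 * x + 6)) ∧
    125 * ny x y - 6 * (25 * nx x y) = 180 * (125 * y) * (125 * y - 6 * (25 * x)) * (125 * y + 6 * (25 * x)) / ((25 * x) ^ 3 * (25 * x + 6) * (25 * x - 30)) ∧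
    125 * ny x y + 6 * (25 * nx x y) = -(180 * (125 * y - 6 * (25 * x)) * (125 * y + 6 * (25 * x)) * (125 * y - 2 * (25 * x)) / ((25 * x) ^ 3 * (25 * x - 30) * (25 * x - 6))) ∧
    125 * ny x y - 2 * (25 * nx x y) = 60 * (125 * y + 6 * (25 * x)) * (125 * y - 2 * (25 * x)) ^ 2 / ((25 * x) ^ 3 * (25 * x - 6) * (25 * x + 10)) := by
  have := charF k F
  have hu := uF_ne h
  obtain ⟨s0, s1, s2, s3, s4, s5, s6, s7, s8⟩ := sF_eq x y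
  have h25 : (25 : F) ≠ 0 := by norm_num
  have h125 : (125 : F) ≠ 0 := by norm_num
  have hp0 : 25 * x ≠ 0 := by
    rw [s0]; exact mul_ne_zero h25 (hu 0)
  have hp1 : 25 * x + 6 ≠ 0 := by
    rw [s1]; exact mul_ne_zero h25 (hu 1)
  have hp2 : 25 * x - 30 ≠ 0 := by
    rw [s2]; exact mul_ne_zero h25 (hu 2)
  have hp3 : 25 * x - 6 ≠ 0 := by
    rw [s3]; exact mul_ne_zero h25 (hu 3)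
  have hp4 : 25 * x + 10 ≠ 0 := by
    rw [s4]; exact mul_ne_zero h25 (hu 4)
  have hp5 : 125 * y ≠ 0 := by
    rw [s5]; exact mul_ne_zero h125 (hu 5)
  have hp6 : 125 * y - 6 * (25 * x) ≠ 0 := by
    rw [s6]; exact mul_ne_zero h125 (hu 6)
  have hp7 : 125 * y + 6 * (25 * x) ≠ 0 := by
    rw [s7]; exact mul_ne_zero h125 (hu 7)
  have hp8 : 125 * y - 2 * (25 * x) ≠ 0 := by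
    rw [s8]; exact mul_ne_zero h125 (hu 8)
  have hc := curve h
  obtain ⟨n0, n5⟩ := sF_next h
  obtain ⟨n1, n2, n3, n4, m5, n6, n7, n8⟩ := next_alg (X := 25 * x) (Y := 125 * y)
    (by linear_combination hc) hp0 hp1 hp2 hp3 hp4 hp5 hp6 hp7 hp8
  exact ⟨n0, (by rw [n0]; exact n1), (by rw [n0]; exact n2), (by rw [n0]; exact n3), (by rw [n0]; exact n4), (by rw [n5]; exact m5), (by rw [n5, n0]; exact n6), (by rw [n5, n0]; exact n7), (by rw [n5, n0]; exact n8)⟩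

/-- the generators at the next point -/
lemma nx_ev [CharZero k] (h : Gen (-6 / 25 : k) (6 / 5) x y) :
    List.Forall₂ (fun R z => KC72.ev (List.ofFn (G10 x y)) R = z) nxR
      (List.ofFn (G10 (nx x y) (ny x y))) := by
  have := charF k F
  have hu := uF_ne h
  obtain ⟨m0, m1, m2, m3, m4, m5, m6, m7, m8⟩ := nextS h
  obtain ⟨s0, s1, s2, s3, s4, s5, s6, s7, s8⟩ := sF_eq x y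
  obtain ⟨t0, t1, t2, t3, t4, t5, t6, t7, t8⟩ := nx_abs (F := F) (a0 := x) (a1 := x + 6 / 25) (a2 := x - 6 / 5) (a3 := x - 6 / 25) (a4 := x + 2 / 5) (b1 := y) (b2 := y - 6 / 5 * x) (b3 := y + 6 / 5 * x) (b4 := y - 2 / 5 * x) (hu 0) (hu 1) (hu 2) (hu 3) (hu 4) (hu 5) (hu 6) (hu 7) (hu 8)
  simp only [← s1, ← s2, ← s3, ← s4, ← s6, ← s7, ← s8] at t0 t1 t2 t3 t4 t5 t6 t7 t8
  show List.Forall₂ _ _ [nx x y, nx x y + 6 / 25, nx x y - 6 / 5, nx x y - 6 / 25, nx x y + 2 / 5, ny x y, ny x y - 6 / 5 * nx x y, ny x y + 6 / 5 * nx x y, ny x y - 2 / 5 * nx x y, 2, 3, 5]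
  unfold nxR
  refine .cons ?_ (.cons ?_ (.cons ?_ (.cons ?_ (.cons ?_ (.cons ?_ (.cons ?_ (.cons ?_ (.cons ?_ (.cons ?_ (.cons ?_ (.cons ?_ .nil)))))))))))
  · rw [ev_G10]
    refine t0.trans ?_
    rw [← m0]
    ring
  · rw [ev_G10]
    refine t1.trans ?_
    rw [← m1]
    ring
  · rw [ev_G10]
    refine t2.trans ?_
    rw [← m2]
    ring
  · rw [ev_G10]
    refine t3.trans ?_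
    rw [← m3]
    ring
  · rw [ev_G10]
    refine t4.trans ?_
    rw [← m4]
    ring
  · rw [ev_G10]
    refine t5.trans ?_
    rw [← m5]
    ring
  · rw [ev_G10]
    refine t6.trans ?_
    rw [← m6]
    ring
  · rw [ev_G10]
    refine t7.trans ?_
    rw [← m7]
    ring
  · rw [ev_G10]
    refine t8.trans ?_
    rw [← m8]
    ring
  · rw [ev_G10]
    show 1 * (x ^ (0 : ℤ) * (x + 6 / 25) ^ (0 : ℤ) * (x - 6 / 5) ^ (0 : ℤ) * (x - 6 / 25) ^ (0 : ℤ) * (x + 2 / 5) ^ (0 : ℤ) * y ^ (0 : ℤ) * (y - 6 / 5 * x) ^ (0 : ℤ) * (y + 6 / 5 * x) ^ (0 : ℤ) * (y - 2 / 5 * x) ^ (0 : ℤ) * 2 ^ (1 : ℤ) * 3 ^ (0 : ℤ) * 5 ^ (0 : ℤ)) = _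
    simp only [zpow_zero, zpow_one, mul_one, one_mul]
  · rw [ev_G10]
    show 1 * (x ^ (0 : ℤ) * (x + 6 / 25) ^ (0 : ℤ) * (x - 6 / 5) ^ (0 : ℤ) * (x - 6 / 25) ^ (0 : ℤ) * (x + 2 / 5) ^ (0 : ℤ) * y ^ (0 : ℤ) * (y - 6 / 5 * x) ^ (0 : ℤ) * (y + 6 / 5 * x) ^ (0 : ℤ) * (y - 2 / 5 * x) ^ (0 : ℤ) * 2 ^ (0 : ℤ) * 3 ^ (1 : ℤ) * 5 ^ (0 : ℤ)) = _
    simp only [zpow_zero, zpow_one, mul_one, one_mul]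
  · rw [ev_G10]
    show 1 * (x ^ (0 : ℤ) * (x + 6 / 25) ^ (0 : ℤ) * (x - 6 / 5) ^ (0 : ℤ) * (x - 6 / 25) ^ (0 : ℤ) * (x + 2 / 5) ^ (0 : ℤ) * y ^ (0 : ℤ) * (y - 6 / 5 * x) ^ (0 : ℤ) * (y + 6 / 5 * x) ^ (0 : ℤ) * (y - 2 / 5 * x) ^ (0 : ℤ) * 2 ^ (0 : ℤ) * 3 ^ (0 : ℤ) * 5 ^ (1 : ℤ)) = _
    simp only [zpow_zero, zpow_one, mul_one, one_mul]

/-- translation of monomials -/
lemma ev_trM [CharZero k] (h : Gen (-6 / 25 : k) (6 / 5) x y) (m : Mo) :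
    KC72.ev (List.ofFn (G10 x y)) (trM m) = KC72.ev (List.ofFn (G10 (nx x y) (ny x y))) m := by
  have h1 := ev_trl (G10l_ne h) (nx_ev h) m.2
  obtain ⟨s, l⟩ := m
  unfold trM
  unfold KC72.ev at h1 ⊢
  simp only at h1 ⊢
  rw [← h1]
  rcases s with _ | _ <;> rcases (trl nxR l).1 with _ | _ <;> simp

/-- the classes of a type are solutions -/
lemma bc_sol [CharZero k] (r : ℕ) : ∀ (i : ℕ) {x y : F} (h : Gen (-6 / 25 : k) (6 / 5) x y),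
    KC72.ev (List.ofFn (G10 x y)) (bc i r).1 + KC72.ev (List.ofFn (G10 x y)) (bc i r).2 = 1 := by
  have key : ∀ (i : ℕ) {x y : F} (h : Gen (-6 / 25 : k) (6 / 5) x y) (f g : Mo),
      (∀ {x y : F} (h : Gen (-6 / 25 : k) (6 / 5) x y), KC72.ev (List.ofFn (G10 x y)) f +
        KC72.ev (List.ofFn (G10 x y)) g = 1) →
      KC72.ev (List.ofFn (G10 x y)) (trM^[i] f) + KC72.ev (List.ofFn (G10 x y)) (trM^[i] g) = 1 := by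
    intro i
    induction i with
    | zero => intro x y h f g H; exact H h
    | succ i ih =>
      intro x y h f g H
      rw [Function.iterate_succ_apply, Function.iterate_succ_apply]
      refine ih h (trM f) (trM g) ?_
      intro x y h
      rw [ev_trM h, ev_trM h]
      exact H (Gen.next' h)
  intro i x y h
  refine key i h _ _ ?_
  intro x y h
  have hg := G10l_ne h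
  rw [ev_div hg, ev_div hg, ← add_div, bt_sol h, div_self (ev_ne hg _)]

/-- **the classes are solutions** -/
theorem sols10 [CharZero k] (h : Gen (-6 / 25 : k) (6 / 5) x y) : Sols (List.ofFn (G10 x y)) cls10 := by
  intro p hp
  have hg := G10l_ne h
  obtain ⟨c, hc, hcp⟩ := List.getElem_of_mem hp
  have h3 : p = cls10.getD c default := by rw [List.getD_eq_getElem _ _ hc, hcp]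
  rw [cls10_len] at hc
  have h2 := tix_ok c hc
  unfold tixc at h2
  rw [Bool.and_eq_true] at h2
  rw [h3, ev_eqM hg h2.1, ev_eqM hg h2.2]
  exact orb6_add hg (bc_sol _ _ h) _

end

end Pool.Agent.X10.Ca
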