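import Pool.Agent.Lib_helper60.X10a.E
import Pool.Agent.Lib_helper60.X10a.F
import Pool.Agent.Lib_helper60.X10a.T4

/-!
# A point of order ten, `t = -1`: the unit equation
-/

set_option autoImplicit false
set_option linter.unusedSectionVars false
set_option linter.unusedSimpArgs false
set_option linter.unusedVariables false

namespace Pool.Agent.X10.Ca

open Polynomial WeierstrassCurve.Affine WithZero
open Pool.Agent.TN Pool.Agent.KC72 Pool.Agent.K9

lemma dot9 (a : Fin 9 → ℤ) (l : List ℤ) : dot [a 0, a 1, a 2, a 3, a 4, a 5, a 6, a 7, a 8] l =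
    ∑ j : Fin 9, l.getD j.val 0 * a j := by
  rw [Fin.sum_univ_castSucc, Fin.sum_univ_eight]
  show _ = l.getD 0 0 * a 0 + l.getD 1 0 * a 1 + l.getD 2 0 * a 2 + l.getD 3 0 * a 3 +
    l.getD 4 0 * a 4 + l.getD 5 0 * a 5 + l.getD 6 0 * a 6 + l.getD 7 0 * a 7 + l.getD 8 0 * a 8
  rcases l with _ | ⟨l0, _ | ⟨l1, _ | ⟨l2, _ | ⟨l3, _ | ⟨l4, _ | ⟨l5, _ | ⟨l6, _ | ⟨l7, _ |
    ⟨l8, l⟩⟩⟩⟩⟩⟩⟩⟩⟩ <;>
    simp [dot] <;> ring

lemma orow_eq : orow = (List.finRange 10).map (fun m => [oU 0 (-m), oU 1 (-m), oU 2 (-m),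
    oU 3 (-m), oU 4 (-m), oU 5 (-m), oU 6 (-m), oU 7 (-m), oU 8 (-m)]) := by decide +kernel

lemma divl_eq (l : List ℤ) :
    divl dt l = tl (fun m => Dn (fun j : Fin 9 => l.getD j.val 0) (-m)) := by
  have key : ∀ m : Fin 10, dot [oU 0 (-m), oU 1 (-m), oU 2 (-m), oU 3 (-m), oU 4 (-m),
      oU 5 (-m), oU 6 (-m), oU 7 (-m), oU 8 (-m)] l =
        Dn (fun j : Fin 9 => l.getD j.val 0) (-m) :=
    fun m => dot9 (fun j => oU j (-m)) l
  show orow.map (fun r => dot r l) = _
  rw [orow_eq, List.map_map]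
  show [dot _ l, dot _ l, dot _ l, dot _ l, dot _ l, dot _ l, dot _ l, dot _ l, dot _ l,
    dot _ l] = _
  simp only [key]
  rfl

lemma NN_of {e : Fin 10 → ℤ} {l : List ℤ} (h : divl dt l = tl (OO e)) :
    (fun j : Fin 9 => l.getD j.val 0) = NN e := by
  rw [divl_eq] at h
  apply Dn_inj
  intro i
  have h2 := tl_inj h (-i)
  simp only [neg_neg] at h2
  rw [h2, Dn_NN]

section

variable {k : Type*} [Field k] {F : Type*} [Field F] [Algebra k F] {x y : F}

lemma ev_MU (s : Bool) (l : List ℤ) : KC72.ev (List.ofFn (G10 x y)) (s, l) =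
    algebraMap k F ((bif s then -1 else 1) * (2 ^ l.getD 9 0 * 3 ^ l.getD 10 0 *
      5 ^ l.getD 11 0)) * MU x y (fun j => l.getD j.val 0) := by
  rw [ev_G10]
  unfold MU
  rw [Fin.prod_univ_castSucc, Fin.prod_univ_eight, map_mul, map_mul, map_mul, map_zpow₀,
    map_zpow₀, map_zpow₀, map_ofNat, map_ofNat, map_ofNat]
  have hs : algebraMap k F (bif s then -1 else 1) = bif s then -1 else 1 := by
    cases s <;> simp
  rw [hs]
  show _ = _ * (x ^ l.getD 0 0 * (x + 6 / 25) ^ l.getD 1 0 * (x - 6 / 5) ^ l.getD 2 0 * (x - 6 / 25) ^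
      l.getD 3 0 * (x + 2 / 5) ^ l.getD 4 0 * y ^ l.getD 5 0 * (y - 6 / 5 * x) ^ l.getD 6 0 *
      (y + 6 / 5 * x) ^ l.getD 7 0 * (y - 2 / 5 * x) ^ l.getD 8 0)
  ring

/-- **identification** -/
theorem t10_id [CharZero k] (h : Gen (-6 / 25 : k) (6 / 5) x y) {c₀ c₁ : k} {e e' : Fin 10 → ℤ}
    (hu : algebraMap k F c₀ * mon x y e + algebraMap k F c₁ * mon x y e' = 1)
    (he : ∃ s, OO e s ≠ 0) (hl : InT dt (tl (OO e)) (tl (OO e'))) :
    ∃ p ∈ cls10, Orb (KC72.ev (List.ofFn (G10 x y)) p.1) (algebraMap k F c₀ * mon x y e) := by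
  have HS := sols10 h
  obtain ⟨p, hp, hp', q1, q2⟩ := hl
  have hg := G10l_ne h
  have r1 := NN_of q1
  have r2 := NN_of q2
  have hp0 : p.1 < cls10.length := hp
  have v1 : KC72.ev (List.ofFn (G10 x y)) (oo cls10 p) = algebraMap k F
      ((bif (oo cls10 p).1 then -1 else 1) * (2 ^ ((oo cls10 p).2.getD 9 0) *
        3 ^ ((oo cls10 p).2.getD 10 0) * 5 ^ ((oo cls10 p).2.getD 11 0))) *
          MU x y (NN e) := by rw [← r1]; exact ev_MU _ _
  have v2 : KC72.ev (List.ofFn (G10 x y)) (co cls10 p) = algebraMap k F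
      ((bif (co cls10 p).1 then -1 else 1) * (2 ^ ((co cls10 p).2.getD 9 0) *
        3 ^ ((co cls10 p).2.getD 10 0) * 5 ^ ((co cls10 p).2.getD 11 0))) *
          MU x y (NN e') := by rw [← r2]; exact ev_MU _ _
  have v3 := oo_co hg HS hp0
  rw [v1, v2] at v3
  rw [mon_eq h, mon_eq h, ← mul_assoc, ← mul_assoc, ← map_mul, ← map_mul] at hu
  have hn : NN e ≠ 0 := by
    intro h'
    obtain ⟨s, hs⟩ := he
    apply hs
    have := Dn_NN e (-s)
    rw [neg_neg] at this
    rw [← this, h']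
    simp [Dn]
  have v4 := MU_uniq h hn v3 hu
  refine ⟨cls10.getD p.1 default, ?_, ?_⟩
  · rw [List.getD_eq_getElem _ _ hp0]
    exact List.getElem_mem hp0
  · have v5 := orb6_orb hg (HS.getD hp0) p.2
    have v6 : algebraMap k F c₀ * mon x y e =
        KC72.ev (List.ofFn (G10 x y)) (oo cls10 p) := by
      rw [v1, v4, mon_eq h, ← mul_assoc, ← map_mul]
    rw [v6]
    exact v5

/-- **the unit equation** -/
theorem unit10' [CharZero k] (h : Gen (-6 / 25 : k) (6 / 5) x y) {c₀ c₁ : k} (h0 : c₀ ≠ 0) (h1 : c₁ ≠ 0)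
    {e e' : Fin 10 → ℤ}
    (hu : algebraMap k F c₀ * mon x y e + algebraMap k F c₁ * mon x y e' = 1) :
    (∃ s : k, algebraMap k F c₀ * mon x y e = algebraMap k F s) ∨
    ∃ p ∈ cls10, Orb (KC72.ev (List.ofFn (G10 x y)) p.1) (algebraMap k F c₀ * mon x y e) := by
  have n0 : algebraMap k F c₀ ≠ 0 := (_root_.map_ne_zero _).mpr h0
  have n1 : algebraMap k F c₁ ≠ 0 := (_root_.map_ne_zero _).mpr h1
  have hg := G10l_ne h
  have m0 := mon_ne h e
  by_cases he : ∃ s, OO e s ≠ 0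
  · by_cases he' : ∃ s, OO e' s ≠ 0
    · right
      have B := (shp h h0 h1 hu).alt
      have ne : ∀ p ∈ cls10, KC72.ev (List.ofFn (G10 x y)) p.1 ≠ 0 ∧
          KC72.ev (List.ofFn (G10 x y)) p.1 ≠ 1 := by
        intro p hp
        refine ⟨ev_ne hg _, fun h2 => ?_⟩
        have h3 := sols10 h p hp
        rw [h2] at h3
        exact ev_ne hg p.2 (by linear_combination h3)
      have hq : QQ k F (OO e) (OO e') := ⟨x, y, h, c₀, c₁, e, e', h0, h1, hu, rfl, rfl⟩
      rcases X10.main dok all_typ (sym k F) hq he he' with hl | hl | hl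
      · exact t10_id h hu he hl
      · have hu' : algebraMap k F c₁ * mon x y e' +
            algebraMap k F c₀ * mon x y e = 1 := by rw [add_comm]; exact hu
        obtain ⟨p, hp, h2⟩ := t10_id h hu' he' hl
        refine ⟨p, hp, ?_⟩
        have h3 := Orb.compl' (ne p hp).1 (ne p hp).2 h2
        have h4 : algebraMap k F c₀ * mon x y e =
            1 - algebraMap k F c₁ * mon x y e' := by linear_combination hu
        rw [h4]
        exact h3
      · have hu' : algebraMap k F c₀⁻¹ * mon x y (fun i => - e i) +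
            algebraMap k F (-(c₁ * c₀⁻¹)) * mon x y (fun i => e' i - e i) = 1 := by
          rw [mon_neg, mon_sub h, map_neg, map_mul, map_inv₀]
          field_simp
          linear_combination -hu
        have o1 : OO (fun i => - e i) = fun s => - OO e s := by
          funext s; unfold OO; ring
        have o2 : OO (fun i => e' i - e i) = fun s => OO e' s - OO e s := by
          funext s; unfold OO; ring
        rw [← o1, ← o2] at hl
        have q1 : ∃ s, OO (fun i => - e i) s ≠ 0 := by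
          obtain ⟨s, hs⟩ := he
          exact ⟨s, by rw [o1]; exact neg_ne_zero.mpr hs⟩
        obtain ⟨p, hp, h2⟩ := t10_id h hu' q1 hl
        refine ⟨p, hp, ?_⟩
        have h3 := Orb.inv' (ne p hp).1 (ne p hp).2 h2
        rw [mon_neg, map_inv₀, ← mul_inv, inv_inv] at h3
        exact h3
    · left
      push Not at he'
      rw [mon_const h he'] at hu
      refine ⟨1 - c₁ * ∏ i, lam k i ^ e' i, ?_⟩
      rw [map_sub, map_one, map_mul]
      linear_combination hu
  · left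
    push Not at he
    rw [mon_const h he]
    exact ⟨c₀ * ∏ i, lam k i ^ e i, by rw [map_mul]⟩

/-- functions supported on the multiples of `P` -/
def U10 (k : Type*) [Field k] {F : Type*} [Field F] [Algebra k F] (x y f : F) : Prop :=
  ∃ (d : k) (n : Fin 9 → ℤ), d ≠ 0 ∧ f = algebraMap k F d * MU x y n

/-- **the unit equation for the point of order ten** -/
theorem unit10 [CharZero k] (h : Gen (-6 / 25 : k) (6 / 5) x y) {f : F}
    (hf : U10 k x y f) (hf1 : U10 k x y (1 - f)) :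
    (∃ c : k, f = algebraMap k F c) ∨
    ∃ p ∈ cls10, Orb (KC72.ev (List.ofFn (G10 x y)) p.1) f := by
  obtain ⟨d, n, hd, rfl⟩ := hf
  obtain ⟨d', n', hd', h2⟩ := hf1
  have l0 : ∀ n : Fin 9 → ℤ, (∏ i, lam k i ^ SE n i)⁻¹ ≠ 0 := fun n =>
    inv_ne_zero (Finset.prod_ne_zero_iff.mpr fun i _ => zpow_ne_zero _ (lam_ne i))
  have key := unit10' h (mul_ne_zero hd (l0 n)) (mul_ne_zero hd' (l0 n'))
    (e := SE n) (e' := SE n')
  rw [map_mul, map_mul, mul_assoc, mul_assoc, ← MU_eq h, ← MU_eq h] at key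
  exact key (by rw [← h2]; ring)

lemma G10_const (i : Fin 12) (hi : 9 ≤ i.val) : ∃ c : k, G10 x y i = algebraMap k F c := by
  fin_cases i <;> simp at hi
  · exact ⟨2, (map_ofNat (algebraMap k F) 2).symm⟩
  · exact ⟨3, (map_ofNat (algebraMap k F) 3).symm⟩
  · exact ⟨5, (map_ofNat (algebraMap k F) 5).symm⟩

/-- a monomial in the first nine generators is constant only if it is trivial -/
lemma G10_hM' [CharZero k] (h : Gen (-6 / 25 : k) (6 / 5) x y) (hrn : 9 ≤ 12) (e : Fin 9 → ℤ) (c : k)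
    (_ : c ≠ 0) (he : ∏ i, G10 x y (Fin.castLE hrn i) ^ e i = algebraMap k F c) : e = 0 := by
  apply MU_const h (n := e) (s := c)
  rw [← he]
  unfold MU
  refine Finset.prod_congr rfl fun j _ => ?_
  fin_cases j <;> rfl

/-- the constants are independent -/
lemma G10_hc [CharZero k] (h : Gen (-6 / 25 : k) (6 / 5) x y) (e : Fin 12 → ℤ)
    (he : ∀ i : Fin 12, i.val < 9 → e i = 0) (hp : ∏ i, G10 x y i ^ e i = 1) : e = 0 := by
  have e0 := he 0 (by decide)
  have e1 := he 1 (by decide)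
  have e2 := he 2 (by decide)
  have e3 := he 3 (by decide)
  have e4 := he 4 (by decide)
  have e5 := he 5 (by decide)
  have e6 := he 6 (by decide)
  have e7 := he 7 (by decide)
  have e8 := he 8 (by decide)
  rw [Fin.prod_univ_castSucc, Fin.prod_univ_castSucc, Fin.prod_univ_castSucc,
    Fin.prod_univ_castSucc, Fin.prod_univ_eight] at hp
  have hp' : G10 x y 0 ^ e 0 * G10 x y 1 ^ e 1 * G10 x y 2 ^ e 2 * G10 x y 3 ^ e 3 *
    G10 x y 4 ^ e 4 * G10 x y 5 ^ e 5 * G10 x y 6 ^ e 6 * G10 x y 7 ^ e 7 *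
    G10 x y 8 ^ e 8 * (2 : F) ^ e 9 * (3 : F) ^ e 10 * (5 : F) ^ e 11 = 1 := hp
  rw [e0, e1, e2, e3, e4, e5, e6, e7, e8] at hp'
  simp only [zpow_zero, one_mul] at hp'
  have h2 : (2 : k) ^ e 9 * 3 ^ e 10 * ((5 : ℕ) : k) ^ e 11 = 1 := by
    apply (algebraMap k F).injective
    rw [map_mul, map_mul, map_zpow₀, map_zpow₀, map_zpow₀, map_ofNat, map_ofNat, map_natCast,
      map_one]
    exact hp'
  obtain ⟨e9, e10, e11⟩ := indep3 (p := 5) (by norm_num) (by norm_num) (by norm_num) h2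
  funext i
  fin_cases i <;> assumption

end

end Pool.Agent.X10.Ca
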