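import Pool.Agent.Lib_helper60.X10.H

/-!
# A point of order ten, `t = -1`: the units, their logarithmic derivatives
-/

set_option autoImplicit false
set_option linter.unusedSectionVars false
set_option linter.unusedSimpArgs false
set_option linter.unusedVariables false

namespace Pool.Agent.X10.Ca

open Polynomial WeierstrassCurve.Affine WithZero
open Pool.Agent.TN Pool.Agent.K7

/-- the coefficients of `q u'/u` in the basis `1, X, Y, X², XY, .., X⁵, X⁴Y`, `X = 25 x`,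
`Y = 125 y` -/
def rz : Fin 9 → Fin 11 → ℤ :=
  ![![324000, 10800, 21600, -10800, 1440, -264, -672, 50, -40, -1, 2],
    ![0, 54000, 0, -7200, 3600, -600, -360, 56, -52, -1, 2],
    ![0, -10800, 0, -720, -720, 336, -72, 20, 20, -1, 2],
    ![0, -54000, 0, -10800, -3600, 0, -840, 44, -28, -1, 2],
    ![0, 32400, 0, -2160, 2160, -864, -72, 60, -60, -1, 2],
    ![648000, 86400, 21600, -28080, 3240, -1464, -852, 136, -66, -2, 3],
    ![324000, 0, 10800, -13680, 2160, -144, -552, 130, -36, 4, 3],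
    ![324000, 21600, 10800, -4320, -1440, 456, -792, -2, -24, -8, 3],
    ![324000, -21600, 10800, -25920, 0, -1704, -792, 86, -64, 0, 3]]

/-- the orders of the basis at `0, P, .., 9P` -/
def oU : Fin 9 → Fin 10 → ℤ :=
  ![![-2, 1, 0, 0, 0, 0, 0, 0, 0, 1],
    ![-2, 0, 1, 0, 0, 0, 0, 0, 1, 0],
    ![-2, 0, 0, 1, 0, 0, 0, 1, 0, 0],
    ![-2, 0, 0, 0, 1, 0, 1, 0, 0, 0],
    ![-2, 0, 0, 0, 0, 2, 0, 0, 0, 0],
    ![-3, 2, 0, 0, 0, 0, 0, 0, 1, 0],
    ![-3, 1, 1, 0, 0, 0, 0, 1, 0, 0],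
    ![-3, 1, 0, 1, 0, 0, 1, 0, 0, 0],
    ![-3, 1, 0, 0, 1, 1, 0, 0, 0, 0]]

/-- the order at `iP` of a monomial -/
def Dn (n : Fin 9 → ℤ) (i : Fin 10) : ℤ := ∑ j, n j * oU j i

lemma rz_top (j : Fin 9) : rz j 10 = - oU j 0 := by
  fin_cases j <;> rfl

section K

variable {k : Type*} [Field k]

variable (k) in
/-- the curve with the point `(0,0)` of order ten -/
abbrev W10 : WeierstrassCurve.Affine k := Wt (-6 / 25 : k) (6 / 5)

/-- the basis of the units -/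
noncomputable def uK : Fin 9 → K (W10 k) :=
  ![xK, xK - cK (-6 / 25), xK - cK (6 / 5), xK - cK (6 / 25), xK - cK (-2 / 5), yK, yK - cK (6 / 5) * xK, yK - cK (-6 / 5) * xK, yK - cK (2 / 5) * xK]

lemma LC_uK (j : Fin 9) : LC (uK (k := k) j) (- oU j 0) 1 := by
  fin_cases j
  · exact LC_x
  · exact LC_xc _
  · exact LC_xc _
  · exact LC_xc _
  · exact LC_xc _
  · exact LC_y
  · exact LC_yx _
  · exact LC_yx _
  · exact LC_yx _

lemma uK_ne (j : Fin 9) : uK (k := k) j ≠ 0 := (LC_uK j).ne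

/-- the scaled coordinate -/
noncomputable def xS : K (W10 k) := 25 * xK

/-- the scaled coordinate -/
noncomputable def yS : K (W10 k) := 125 * yK

/-- the function with zeros at the nine points -/
noncomputable def qK : K (W10 k) := 5 * (xS * (xS + 6) * (xS - 30) * (xS - 6) * (xS + 10))

lemma cK_int (a : ℤ) : (cK ((a : ℤ) : k) : K (W10 k)) = (a : K (W10 k)) := map_intCast _ a

lemma charK [CharZero k] : CharZero (K (W10 k)) :=
  charZero_of_injective_algebraMap (cK (W := W10 k)).injective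

lemma c_b [CharZero k] : (cK (-6 / 25 : k) : K (W10 k)) = -6 / 25 := by
  simp only [map_div₀, map_neg, map_ofNat, map_one, map_zero]

lemma c_c [CharZero k] : (cK (6 / 5 : k) : K (W10 k)) = 6 / 5 := by
  simp only [map_div₀, map_neg, map_ofNat, map_one, map_zero]

lemma hdx [CharZero k] : 125 * (dx : K (W10 k)) = 2 * yS - xS + 30 := by
  have := charK (k := k)
  show 125 * (2 * yK + cK (1 - (6 / 5)) * xK + cK (- (-6 / 25))) = _
  simp only [map_sub, map_div₀, map_neg, map_ofNat, map_one, map_zero]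
  unfold xS yS; ring

lemma hdy [CharZero k] : 625 * (dy : K (W10 k)) = 3 * xS ^ 2 + 12 * xS + yS := by
  have := charK (k := k)
  show 625 * (3 * xK ^ 2 + 2 * cK (- (-6 / 25)) * xK + cK 0 - cK (1 - (6 / 5)) * yK) = _
  simp only [map_sub, map_div₀, map_neg, map_ofNat, map_one, map_zero]
  unfold xS yS; ring

lemma dv_cmul (a : k) (z : K (W10 k)) : dv (cK a * z) = cK a * dv z := by
  rw [dv_mul, dv_c, mul_zero, add_zero]

lemma dv_sub' (z w : K (W10 k)) : dv (z - w) = dv z - dv w := by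
  have h := dv_add (z - w) w
  rw [sub_add_cancel] at h
  linear_combination -h

lemma dv_w (a : k) : dv (yK - cK a * xK : K (W10 k)) = dy - cK a * dx := by
  rw [dv_sub', dv_cmul, dv_x, dv_y]

/-- the derivatives of the basis -/
lemma dv_uK (j : Fin 9) : dv (uK (k := k) j) = (![dx, dx, dx, dx, dx, dy, dy - cK (6 / 5) * dx, dy - cK (-6 / 5) * dx, dy - cK (2 / 5) * dx] : Fin 9 → K (W10 k)) j := by
  fin_cases j
  · exact dv_x
  · exact (dv_sub_c _ _).trans dv_x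
  · exact (dv_sub_c _ _).trans dv_x
  · exact (dv_sub_c _ _).trans dv_x
  · exact (dv_sub_c _ _).trans dv_x
  · exact dv_y
  · exact dv_w _
  · exact dv_w _
  · exact dv_w _

lemma eqS [CharZero k] : (yS ^ 2 - xS * yS + 30 * yS : K (W10 k)) = xS ^ 3 + 6 * xS ^ 2 := by
  have := charK (k := k)
  have h : (yK : K (W10 k)) ^ 2 + (1 - cK (6 / 5)) * xK * yK - cK (-6 / 25) * yK =
    xK ^ 3 - cK (-6 / 25) * xK ^ 2 := eqW
  simp only [map_div₀, map_neg, map_ofNat, map_one, map_zero] at h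
  unfold xS yS
  linear_combination 15625 * h

/-- the coefficients of `q u'/u` -/
def rr (j : Fin 9) (m : Fin 11) : k := (5 : k) ^ (ordm m) * ((rz j m : ℤ) : k)

lemma NV_rr (j : Fin 9) : (NV (rr (k := k) j) : K (W10 k)) =
    (rz j 0 : K (W10 k)) +
    (rz j 1 : K (W10 k)) * xS +
    (rz j 2 : K (W10 k)) * yS +
    (rz j 3 : K (W10 k)) * xS ^ 2 +
    (rz j 4 : K (W10 k)) * (xS * yS) +
    (rz j 5 : K (W10 k)) * xS ^ 3 +
    (rz j 6 : K (W10 k)) * (xS ^ 2 * yS) +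
    (rz j 7 : K (W10 k)) * xS ^ 4 +
    (rz j 8 : K (W10 k)) * (xS ^ 3 * yS) +
    (rz j 9 : K (W10 k)) * xS ^ 5 +
    (rz j 10 : K (W10 k)) * (xS ^ 4 * yS) := by
  have c5 : ∀ n : ℤ, (cK ((5 : k) ^ n) : K (W10 k)) = 5 ^ n := fun n => by
    rw [map_zpow₀, map_ofNat]
  unfold NV K9.N9 N7 rr
  simp only [map_mul, cK_int, c5]
  show ((5 : K (W10 k)) ^ (0 : ℤ) * _ + 5 ^ (2 : ℤ) * _ * _ + 5 ^ (3 : ℤ) * _ * _ +
    5 ^ (4 : ℤ) * _ * _ + 5 ^ (5 : ℤ) * _ * _ + 5 ^ (6 : ℤ) * _ * _ + 5 ^ (7 : ℤ) * _ * _) +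
    5 ^ (8 : ℤ) * _ * _ + 5 ^ (9 : ℤ) * _ * _ + 5 ^ (10 : ℤ) * _ * _ + 5 ^ (11 : ℤ) * _ * _ = _
  simp only [zpow_zero, zpow_ofNat]
  unfold xS yS
  ring

lemma ld0 [CharZero k] : qK * dx = (NV (rr (k := k) 0) : K (W10 k)) * xK := by
  have := charK (k := k)
  have h1 := hdx (k := k)
  have hu : 25 * xK = (xS : K (W10 k)) := by
    unfold xS; ring
  have h25 : (25 : K (W10 k)) ≠ 0 := by norm_num
  rw [NV_rr]
  show qK * dx = ((((324000 : ℤ)) : K (W10 k)) +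
      (((10800 : ℤ)) : K (W10 k)) * xS +
      (((21600 : ℤ)) : K (W10 k)) * yS +
      (((-10800 : ℤ)) : K (W10 k)) * xS ^ 2 +
      (((1440 : ℤ)) : K (W10 k)) * (xS * yS) +
      (((-264 : ℤ)) : K (W10 k)) * xS ^ 3 +
      (((-672 : ℤ)) : K (W10 k)) * (xS ^ 2 * yS) +
      (((50 : ℤ)) : K (W10 k)) * xS ^ 4 +
      (((-40 : ℤ)) : K (W10 k)) * (xS ^ 3 * yS) +
      (((-1 : ℤ)) : K (W10 k)) * xS ^ 5 +
      (((2 : ℤ)) : K (W10 k)) * (xS ^ 4 * yS)) * xK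
  apply mul_left_cancel₀ h25
  push_cast
  unfold qK
  linear_combination (xS * (xS + 6) * (xS - 30) * (xS - 6) * (xS + 10)) * h1 - (-xS ^ 5 + 2 * xS ^ 4 * yS + 50 * xS ^ 4 - 40 * xS ^ 3 * yS - 264 * xS ^ 3 - 672 * xS ^ 2 * yS - 10800 * xS ^ 2 + 1440 * xS * yS + 10800 * xS + 21600 * yS + 324000) * hu

lemma ld1 [CharZero k] : qK * dx = (NV (rr (k := k) 1) : K (W10 k)) * (xK - cK (-6 / 25)) := by
  have := charK (k := k)
  have h1 := hdx (k := k)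
  have hc : (cK (-6 / 25) : K (W10 k)) = -6 / 25 := by
    simp only [map_div₀, map_neg, map_ofNat, map_one, map_zero]
  have hu : 25 * (xK - cK (-6 / 25)) = ((xS + 6) : K (W10 k)) := by
    rw [hc]; unfold xS; ring
  have h25 : (25 : K (W10 k)) ≠ 0 := by norm_num
  rw [NV_rr]
  show qK * dx = ((((0 : ℤ)) : K (W10 k)) +
      (((54000 : ℤ)) : K (W10 k)) * xS +
      (((0 : ℤ)) : K (W10 k)) * yS +
      (((-7200 : ℤ)) : K (W10 k)) * xS ^ 2 +
      (((3600 : ℤ)) : K (W10 k)) * (xS * yS) +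
      (((-600 : ℤ)) : K (W10 k)) * xS ^ 3 +
      (((-360 : ℤ)) : K (W10 k)) * (xS ^ 2 * yS) +
      (((56 : ℤ)) : K (W10 k)) * xS ^ 4 +
      (((-52 : ℤ)) : K (W10 k)) * (xS ^ 3 * yS) +
      (((-1 : ℤ)) : K (W10 k)) * xS ^ 5 +
      (((2 : ℤ)) : K (W10 k)) * (xS ^ 4 * yS)) * (xK - cK (-6 / 25))
  apply mul_left_cancel₀ h25
  push_cast
  unfold qK
  linear_combination (xS * (xS + 6) * (xS - 30) * (xS - 6) * (xS + 10)) * h1 - (-xS ^ 5 + 2 * xS ^ 4 * yS + 56 * xS ^ 4 - 52 * xS ^ 3 * yS - 600 * xS ^ 3 - 360 * xS ^ 2 * yS - 7200 * xS ^ 2 + 3600 * xS * yS + 54000 * xS) * hu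

lemma ld2 [CharZero k] : qK * dx = (NV (rr (k := k) 2) : K (W10 k)) * (xK - cK (6 / 5)) := by
  have := charK (k := k)
  have h1 := hdx (k := k)
  have hc : (cK (6 / 5) : K (W10 k)) = 6 / 5 := by
    simp only [map_div₀, map_neg, map_ofNat, map_one, map_zero]
  have hu : 25 * (xK - cK (6 / 5)) = ((xS - 30) : K (W10 k)) := by
    rw [hc]; unfold xS; ring
  have h25 : (25 : K (W10 k)) ≠ 0 := by norm_num
  rw [NV_rr]
  show qK * dx = ((((0 : ℤ)) : K (W10 k)) +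
      (((-10800 : ℤ)) : K (W10 k)) * xS +
      (((0 : ℤ)) : K (W10 k)) * yS +
      (((-720 : ℤ)) : K (W10 k)) * xS ^ 2 +
      (((-720 : ℤ)) : K (W10 k)) * (xS * yS) +
      (((336 : ℤ)) : K (W10 k)) * xS ^ 3 +
      (((-72 : ℤ)) : K (W10 k)) * (xS ^ 2 * yS) +
      (((20 : ℤ)) : K (W10 k)) * xS ^ 4 +
      (((20 : ℤ)) : K (W10 k)) * (xS ^ 3 * yS) +
      (((-1 : ℤ)) : K (W10 k)) * xS ^ 5 +
      (((2 : ℤ)) : K (W10 k)) * (xS ^ 4 * yS)) * (xK - cK (6 / 5))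
  apply mul_left_cancel₀ h25
  push_cast
  unfold qK
  linear_combination (xS * (xS + 6) * (xS - 30) * (xS - 6) * (xS + 10)) * h1 - (-xS ^ 5 + 2 * xS ^ 4 * yS + 20 * xS ^ 4 + 20 * xS ^ 3 * yS + 336 * xS ^ 3 - 72 * xS ^ 2 * yS - 720 * xS ^ 2 - 720 * xS * yS - 10800 * xS) * hu

lemma ld3 [CharZero k] : qK * dx = (NV (rr (k := k) 3) : K (W10 k)) * (xK - cK (6 / 25)) := by
  have := charK (k := k)
  have h1 := hdx (k := k)
  have hc : (cK (6 / 25) : K (W10 k)) = 6 / 25 := by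
    simp only [map_div₀, map_neg, map_ofNat, map_one, map_zero]
  have hu : 25 * (xK - cK (6 / 25)) = ((xS - 6) : K (W10 k)) := by
    rw [hc]; unfold xS; ring
  have h25 : (25 : K (W10 k)) ≠ 0 := by norm_num
  rw [NV_rr]
  show qK * dx = ((((0 : ℤ)) : K (W10 k)) +
      (((-54000 : ℤ)) : K (W10 k)) * xS +
      (((0 : ℤ)) : K (W10 k)) * yS +
      (((-10800 : ℤ)) : K (W10 k)) * xS ^ 2 +
      (((-3600 : ℤ)) : K (W10 k)) * (xS * yS) +
      (((0 : ℤ)) : K (W10 k)) * xS ^ 3 +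
      (((-840 : ℤ)) : K (W10 k)) * (xS ^ 2 * yS) +
      (((44 : ℤ)) : K (W10 k)) * xS ^ 4 +
      (((-28 : ℤ)) : K (W10 k)) * (xS ^ 3 * yS) +
      (((-1 : ℤ)) : K (W10 k)) * xS ^ 5 +
      (((2 : ℤ)) : K (W10 k)) * (xS ^ 4 * yS)) * (xK - cK (6 / 25))
  apply mul_left_cancel₀ h25
  push_cast
  unfold qK
  linear_combination (xS * (xS + 6) * (xS - 30) * (xS - 6) * (xS + 10)) * h1 - (-xS ^ 5 + 2 * xS ^ 4 * yS + 44 * xS ^ 4 - 28 * xS ^ 3 * yS - 840 * xS ^ 2 * yS - 10800 * xS ^ 2 - 3600 * xS * yS - 54000 * xS) * hu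

lemma ld4 [CharZero k] : qK * dx = (NV (rr (k := k) 4) : K (W10 k)) * (xK - cK (-2 / 5)) := by
  have := charK (k := k)
  have h1 := hdx (k := k)
  have hc : (cK (-2 / 5) : K (W10 k)) = -2 / 5 := by
    simp only [map_div₀, map_neg, map_ofNat, map_one, map_zero]
  have hu : 25 * (xK - cK (-2 / 5)) = ((xS + 10) : K (W10 k)) := by
    rw [hc]; unfold xS; ring
  have h25 : (25 : K (W10 k)) ≠ 0 := by norm_num
  rw [NV_rr]
  show qK * dx = ((((0 : ℤ)) : K (W10 k)) +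
      (((32400 : ℤ)) : K (W10 k)) * xS +
      (((0 : ℤ)) : K (W10 k)) * yS +
      (((-2160 : ℤ)) : K (W10 k)) * xS ^ 2 +
      (((2160 : ℤ)) : K (W10 k)) * (xS * yS) +
      (((-864 : ℤ)) : K (W10 k)) * xS ^ 3 +
      (((-72 : ℤ)) : K (W10 k)) * (xS ^ 2 * yS) +
      (((60 : ℤ)) : K (W10 k)) * xS ^ 4 +
      (((-60 : ℤ)) : K (W10 k)) * (xS ^ 3 * yS) +
      (((-1 : ℤ)) : K (W10 k)) * xS ^ 5 +
      (((2 : ℤ)) : K (W10 k)) * (xS ^ 4 * yS)) * (xK - cK (-2 / 5))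
  apply mul_left_cancel₀ h25
  push_cast
  unfold qK
  linear_combination (xS * (xS + 6) * (xS - 30) * (xS - 6) * (xS + 10)) * h1 - (-xS ^ 5 + 2 * xS ^ 4 * yS + 60 * xS ^ 4 - 60 * xS ^ 3 * yS - 864 * xS ^ 3 - 72 * xS ^ 2 * yS - 2160 * xS ^ 2 + 2160 * xS * yS + 32400 * xS) * hu

lemma ld5 [CharZero k] : qK * dy = (NV (rr (k := k) 5) : K (W10 k)) * yK := by
  have := charK (k := k)
  have h1 := hdx (k := k)
  have h2 := hdy (k := k)
  have hu : 125 * yK = (yS : K (W10 k)) := by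
    unfold yS; ring
  have h125 : (125 : K (W10 k)) ≠ 0 := by norm_num
  rw [NV_rr]
  show qK * dy = ((((648000 : ℤ)) : K (W10 k)) +
      (((86400 : ℤ)) : K (W10 k)) * xS +
      (((21600 : ℤ)) : K (W10 k)) * yS +
      (((-28080 : ℤ)) : K (W10 k)) * xS ^ 2 +
      (((3240 : ℤ)) : K (W10 k)) * (xS * yS) +
      (((-1464 : ℤ)) : K (W10 k)) * xS ^ 3 +
      (((-852 : ℤ)) : K (W10 k)) * (xS ^ 2 * yS) +
      (((136 : ℤ)) : K (W10 k)) * xS ^ 4 +
      (((-66 : ℤ)) : K (W10 k)) * (xS ^ 3 * yS) +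
      (((-2 : ℤ)) : K (W10 k)) * xS ^ 5 +
      (((3 : ℤ)) : K (W10 k)) * (xS ^ 4 * yS)) * yK
  apply mul_left_cancel₀ h125
  push_cast
  unfold qK
  linear_combination (xS * (xS + 6) * (xS - 30) * (xS - 6) * (xS + 10)) * (h2) - (-2 * xS ^ 5 + 3 * xS ^ 4 * yS + 136 * xS ^ 4 - 66 * xS ^ 3 * yS - 1464 * xS ^ 3 - 852 * xS ^ 2 * yS - 28080 * xS ^ 2 + 3240 * xS * yS + 86400 * xS + 21600 * yS + 648000) * hu + (-3 * xS ^ 4 + 66 * xS ^ 3 + 852 * xS ^ 2 - 3240 * xS - 21600) * eqS (k := k)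

lemma ld6 [CharZero k] : qK * (dy - cK (6 / 5) * dx) = (NV (rr (k := k) 6) : K (W10 k)) * (yK - cK (6 / 5) * xK) := by
  have := charK (k := k)
  have h1 := hdx (k := k)
  have h2 := hdy (k := k)
  have hc : (cK (6 / 5) : K (W10 k)) = 6 / 5 := by
    simp only [map_div₀, map_neg, map_ofNat, map_one, map_zero]
  have hu : 125 * (yK - cK (6 / 5) * xK) = ((yS - 6 * xS) : K (W10 k)) := by
    rw [hc]; unfold xS yS; ring
  have h125 : (125 : K (W10 k)) ≠ 0 := by norm_num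
  rw [NV_rr]
  show qK * (dy - cK (6 / 5) * dx) = ((((324000 : ℤ)) : K (W10 k)) +
      (((0 : ℤ)) : K (W10 k)) * xS +
      (((10800 : ℤ)) : K (W10 k)) * yS +
      (((-13680 : ℤ)) : K (W10 k)) * xS ^ 2 +
      (((2160 : ℤ)) : K (W10 k)) * (xS * yS) +
      (((-144 : ℤ)) : K (W10 k)) * xS ^ 3 +
      (((-552 : ℤ)) : K (W10 k)) * (xS ^ 2 * yS) +
      (((130 : ℤ)) : K (W10 k)) * xS ^ 4 +
      (((-36 : ℤ)) : K (W10 k)) * (xS ^ 3 * yS) +
      (((4 : ℤ)) : K (W10 k)) * xS ^ 5 +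
      (((3 : ℤ)) : K (W10 k)) * (xS ^ 4 * yS)) * (yK - cK (6 / 5) * xK)
  apply mul_left_cancel₀ h125
  push_cast
  rw [hc] at hu ⊢
  unfold qK
  linear_combination (xS * (xS + 6) * (xS - 30) * (xS - 6) * (xS + 10)) * (h2 - 6 * h1) - (4 * xS ^ 5 + 3 * xS ^ 4 * yS + 130 * xS ^ 4 - 36 * xS ^ 3 * yS - 144 * xS ^ 3 - 552 * xS ^ 2 * yS - 13680 * xS ^ 2 + 2160 * xS * yS + 10800 * yS + 324000) * hu + (-3 * xS ^ 4 + 36 * xS ^ 3 + 552 * xS ^ 2 - 2160 * xS - 10800) * eqS (k := k)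

lemma ld7 [CharZero k] : qK * (dy - cK (-6 / 5) * dx) = (NV (rr (k := k) 7) : K (W10 k)) * (yK - cK (-6 / 5) * xK) := by
  have := charK (k := k)
  have h1 := hdx (k := k)
  have h2 := hdy (k := k)
  have hc : (cK (-6 / 5) : K (W10 k)) = -6 / 5 := by
    simp only [map_div₀, map_neg, map_ofNat, map_one, map_zero]
  have hu : 125 * (yK - cK (-6 / 5) * xK) = ((yS + 6 * xS) : K (W10 k)) := by
    rw [hc]; unfold xS yS; ring
  have h125 : (125 : K (W10 k)) ≠ 0 := by norm_num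
  rw [NV_rr]
  show qK * (dy - cK (-6 / 5) * dx) = ((((324000 : ℤ)) : K (W10 k)) +
      (((21600 : ℤ)) : K (W10 k)) * xS +
      (((10800 : ℤ)) : K (W10 k)) * yS +
      (((-4320 : ℤ)) : K (W10 k)) * xS ^ 2 +
      (((-1440 : ℤ)) : K (W10 k)) * (xS * yS) +
      (((456 : ℤ)) : K (W10 k)) * xS ^ 3 +
      (((-792 : ℤ)) : K (W10 k)) * (xS ^ 2 * yS) +
      (((-2 : ℤ)) : K (W10 k)) * xS ^ 4 +
      (((-24 : ℤ)) : K (W10 k)) * (xS ^ 3 * yS) +
      (((-8 : ℤ)) : K (W10 k)) * xS ^ 5 +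
      (((3 : ℤ)) : K (W10 k)) * (xS ^ 4 * yS)) * (yK - cK (-6 / 5) * xK)
  apply mul_left_cancel₀ h125
  push_cast
  rw [hc] at hu ⊢
  unfold qK
  linear_combination (xS * (xS + 6) * (xS - 30) * (xS - 6) * (xS + 10)) * (h2 + 6 * h1) - (-8 * xS ^ 5 + 3 * xS ^ 4 * yS - 2 * xS ^ 4 - 24 * xS ^ 3 * yS + 456 * xS ^ 3 - 792 * xS ^ 2 * yS - 4320 * xS ^ 2 - 1440 * xS * yS + 21600 * xS + 10800 * yS + 324000) * hu + (-3 * xS ^ 4 + 24 * xS ^ 3 + 792 * xS ^ 2 + 1440 * xS - 10800) * eqS (k := k)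

lemma ld8 [CharZero k] : qK * (dy - cK (2 / 5) * dx) = (NV (rr (k := k) 8) : K (W10 k)) * (yK - cK (2 / 5) * xK) := by
  have := charK (k := k)
  have h1 := hdx (k := k)
  have h2 := hdy (k := k)
  have hc : (cK (2 / 5) : K (W10 k)) = 2 / 5 := by
    simp only [map_div₀, map_neg, map_ofNat, map_one, map_zero]
  have hu : 125 * (yK - cK (2 / 5) * xK) = ((yS - 2 * xS) : K (W10 k)) := by
    rw [hc]; unfold xS yS; ring
  have h125 : (125 : K (W10 k)) ≠ 0 := by norm_num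
  rw [NV_rr]
  show qK * (dy - cK (2 / 5) * dx) = ((((324000 : ℤ)) : K (W10 k)) +
      (((-21600 : ℤ)) : K (W10 k)) * xS +
      (((10800 : ℤ)) : K (W10 k)) * yS +
      (((-25920 : ℤ)) : K (W10 k)) * xS ^ 2 +
      (((0 : ℤ)) : K (W10 k)) * (xS * yS) +
      (((-1704 : ℤ)) : K (W10 k)) * xS ^ 3 +
      (((-792 : ℤ)) : K (W10 k)) * (xS ^ 2 * yS) +
      (((86 : ℤ)) : K (W10 k)) * xS ^ 4 +
      (((-64 : ℤ)) : K (W10 k)) * (xS ^ 3 * yS) +
      (((0 : ℤ)) : K (W10 k)) * xS ^ 5 +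
      (((3 : ℤ)) : K (W10 k)) * (xS ^ 4 * yS)) * (yK - cK (2 / 5) * xK)
  apply mul_left_cancel₀ h125
  push_cast
  rw [hc] at hu ⊢
  unfold qK
  linear_combination (xS * (xS + 6) * (xS - 30) * (xS - 6) * (xS + 10)) * (h2 - 2 * h1) - (3 * xS ^ 4 * yS + 86 * xS ^ 4 - 64 * xS ^ 3 * yS - 1704 * xS ^ 3 - 792 * xS ^ 2 * yS - 25920 * xS ^ 2 - 21600 * xS + 10800 * yS + 324000) * hu + (-3 * xS ^ 4 + 64 * xS ^ 3 + 792 * xS ^ 2 - 10800) * eqS (k := k)

lemma ld_uK [CharZero k] (j : Fin 9) : qK * ld (uK (k := k) j) = NV (rr j) := by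
  have hu := uK_ne (k := k) j
  unfold ld
  rw [← mul_div_assoc, div_eq_iff hu, dv_uK]
  fin_cases j
  · exact ld0
  · exact ld1
  · exact ld2
  · exact ld3
  · exact ld4
  · exact ld5
  · exact ld6
  · exact ld7
  · exact ld8

/-! ### monomials -/

/-- a monomial -/
noncomputable def mo (n : Fin 9 → ℤ) : K (W10 k) := ∏ j, uK j ^ n j

/-- the coefficients of `q f'/f` for a monomial `f` -/
noncomputable def RR (n : Fin 9 → ℤ) : Fin 11 → k := ∑ j, ((n j : ℤ) : k) • rr j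

lemma LC_mo (n : Fin 9 → ℤ) : LC (mo (k := k) n) (- Dn n 0) 1 := by
  have h := LC_prod Finset.univ (z := fun j => uK (k := k) j ^ n j) (n := fun j => n j * (- oU j 0))
    (a := fun j => (1 : k) ^ n j) (fun j _ => (LC_uK j).zpow (n j))
  simp only [one_zpow, Finset.prod_const_one] at h
  have e : - Dn n 0 = ∑ j, n j * (- oU j 0) := by
    unfold Dn; rw [← Finset.sum_neg_distrib]; exact Finset.sum_congr rfl fun j _ => by ring
  rw [e]; exact h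

lemma mo_ne (n : Fin 9 → ℤ) : mo (k := k) n ≠ 0 := (LC_mo n).ne

lemma ld_prod {ι : Type*} (s : Finset ι) (z : ι → K (W10 k)) (hz : ∀ i ∈ s, z i ≠ 0) :
    ld (∏ i ∈ s, z i) = ∑ i ∈ s, ld (z i) := by
  classical
  induction s using Finset.induction_on with
  | empty => simpa using ld_one
  | insert i s hi ih =>
    have h1 := hz i (Finset.mem_insert_self _ _)
    have h2 : ∀ j ∈ s, z j ≠ 0 := fun j hj => hz j (Finset.mem_insert_of_mem hj)
    rw [Finset.prod_insert hi, Finset.sum_insert hi, ld_mul h1 (Finset.prod_ne_zero_iff.mpr h2),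
      ih h2]

lemma ld_mo [CharZero k] (n : Fin 9 → ℤ) : qK * ld (mo (k := k) n) = NV (RR n) := by
  unfold mo RR
  rw [ld_prod _ _ (fun j _ => zpow_ne_zero _ (uK_ne j)), NV_sum, Finset.mul_sum]
  refine Finset.sum_congr rfl fun j _ => ?_
  rw [ld_zpow (uK_ne j), ← ld_uK]
  rw [cK_int]; ring

lemma RR_int (n : Fin 9 → ℤ) (m : Fin 11) : RR (k := k) n m =
    (5 : k) ^ (ordm m) * ((∑ j, n j * rz j m : ℤ) : k) := by
  unfold RR rr
  rw [Finset.sum_apply]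
  push_cast
  rw [Finset.mul_sum]
  refine Finset.sum_congr rfl fun j _ => ?_
  rw [Pi.smul_apply, smul_eq_mul]
  ring

lemma five_ne [CharZero k] (n : ℤ) : (5 : k) ^ n ≠ 0 := zpow_ne_zero _ (by norm_num)

lemma RR_zero [CharZero k] {n : Fin 9 → ℤ} {m : Fin 11} :
    RR (k := k) n m = 0 ↔ ∑ j, n j * rz j m = 0 := by
  rw [RR_int, mul_eq_zero_iff_left (five_ne _), Int.cast_eq_zero]

lemma RR_top [CharZero k] {n : Fin 9 → ℤ} : RR (k := k) n 10 = 0 ↔ Dn n 0 = 0 := by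
  rw [RR_zero]
  unfold Dn
  have : ∑ j, n j * rz j 10 = - ∑ j, n j * oU j 0 := by
    rw [← Finset.sum_neg_distrib]
    exact Finset.sum_congr rfl fun j _ => by rw [rz_top]; ring
  rw [this, neg_eq_zero]

/-- **the bound at the origin** -/
theorem bound_K [CharZero k] {c₀ c₁ : k} (h0 : c₀ ≠ 0) (h1 : c₁ ≠ 0)
    {n n' : Fin 9 → ℤ} (h : cK c₀ * mo n + cK c₁ * mo n' = 1) :
    (Dn n 0 = 0 ∧ Dn n' 0 = 0) ∨ (1 ≤ Dn n 0 ∧ Dn n' 0 = 0 ∧ c₁ = 1) ∨
    (Dn n 0 = 0 ∧ 1 ≤ Dn n' 0) ∨ (Dn n 0 = Dn n' 0 ∧ Dn n 0 ≤ -1) := by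
  have hc0 : (cK c₀ : K (W10 k)) ≠ 0 := ne_of_v (v_c h0)
  have hc1 : (cK c₁ : K (W10 k)) ≠ 0 := ne_of_v (v_c h1)
  have Lf : LC (cK c₀ * mo n) (- Dn n 0) c₀ := by
    have := (LC_c (W := W10 k) h0).mul (LC_mo n); rwa [zero_add, mul_one] at this
  have Lg : LC (cK c₁ * mo n') (- Dn n' 0) c₁ := by
    have := (LC_c (W := W10 k) h1).mul (LC_mo n'); rwa [zero_add, mul_one] at this
  have lf : NV (RR n) = qK * ld (cK c₀ * mo n) := by
    rw [ld_mul hc0 (mo_ne _), ld_c, zero_add, ld_mo]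
  have lg : NV (RR n') = qK * ld (cK c₁ * mo n') := by
    rw [ld_mul hc1 (mo_ne _), ld_c, zero_add, ld_mo]
  have key : ∀ r : Fin 11 → k, (NV r : K (W10 k)) = 0 ∨ ∃ i : ℤ, v (NV r : K (W10 k)) = exp i := by
    intro r
    rcases v_NV (W := W10 k) r with rfl | ⟨M, -, -, hi⟩
    · exact Or.inl NV_zero
    · exact Or.inr ⟨_, hi⟩
  rcases wr2 h lf lg Lf.v_eq Lg.v_eq (key _) (key _) (by rw [← NV_sub]; exact key _) with
    ⟨h2, h3⟩ | ⟨i, j, l, hi, hj, hl, e1, e2, h2⟩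
  · left
    exact ⟨RR_top.mp (by rw [NV_eq_zero h2]; rfl), RR_top.mp (by rw [NV_eq_zero h3]; rfl)⟩
  · have val2 : Dn n' 0 = 0 → Dn n 0 ≥ 1 → c₁ = 1 := by
      intro a1 a2
      rw [a1, neg_zero] at Lg
      refine Lg.unique LC_one ?_
      have : cK c₁ * mo n' - 1 = - (cK c₀ * mo n) := by rw [← h]; ring
      rw [this, Valuation.map_neg, Lf.v_eq, ← exp_zero, exp_lt_exp]; omega
    rcases h2 with h2 | h2 | h2 | h2
    · right; right; right; omega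
    · left; omega
    · right; left
      exact ⟨by omega, by omega, val2 (by omega) (by omega)⟩
    · right; right; left; omega

/-- **a zero of `f` at the origin**: the coefficients of `q g'/g` vanish -/
theorem van_K [CharZero k] {c₀ c₁ : k} (h0 : c₀ ≠ 0) (h1 : c₁ ≠ 0)
    {n n' : Fin 9 → ℤ} (h : cK c₀ * mo n + cK c₁ * mo n' = 1) (hn : 1 ≤ Dn n 0)
    (hn' : Dn n' 0 = 0) :
    ∃ M : Fin 11, ordm M = 11 - Dn n 0 ∧ ∀ m, M < m → RR (k := k) n' m = 0 := by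
  have hc0 : (cK c₀ : K (W10 k)) ≠ 0 := ne_of_v (v_c h0)
  have hc1 : (cK c₁ : K (W10 k)) ≠ 0 := ne_of_v (v_c h1)
  have Lf : LC (cK c₀ * mo n) (- Dn n 0) c₀ := by
    have := (LC_c (W := W10 k) h0).mul (LC_mo n); rwa [zero_add, mul_one] at this
  have Lg : LC (cK c₁ * mo n') (- Dn n' 0) c₁ := by
    have := (LC_c (W := W10 k) h1).mul (LC_mo n'); rwa [zero_add, mul_one] at this
  have lf : NV (RR n) = qK * ld (cK c₀ * mo n) := by
    rw [ld_mul hc0 (mo_ne _), ld_c, zero_add, ld_mo]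
  have lg : NV (RR n') = qK * ld (cK c₁ * mo n') := by
    rw [ld_mul hc1 (mo_ne _), ld_c, zero_add, ld_mo]
  have key : ∀ r : Fin 11 → k, (NV r : K (W10 k)) = 0 ∨ ∃ i : ℤ, v (NV r : K (W10 k)) = exp i := by
    intro r
    rcases v_NV (W := W10 k) r with rfl | ⟨M, -, -, hi⟩
    · exact Or.inl NV_zero
    · exact Or.inr ⟨_, hi⟩
  have top : RR (k := k) n 10 ≠ 0 := by
    rw [Ne, RR_top]
    omega
  have top' : RR (k := k) n' 10 = 0 := RR_top.mpr hn'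
  rcases wr2 h lf lg Lf.v_eq Lg.v_eq (key _) (key _) (by rw [← NV_sub]; exact key _) with
    ⟨h2, h3⟩ | ⟨i, j, l, hi, hj, hl, e1, e2, h2⟩
  · exact absurd (by rw [NV_eq_zero h2]; rfl) top
  · have l9 : l = 11 := by
      rw [← NV_sub] at hl
      rcases v_NV (W := W10 k) (RR n - RR n') with h3 | ⟨M, hM, hM', hv⟩
      · rw [h3, NV_zero, map_zero] at hl; exact absurd hl.symm exp_ne_zero
      · rw [hl, exp_inj] at hv
        have : M = 10 := by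
          by_contra hne
          have h4 := hM' 10 (lt_of_le_of_ne (Fin.le_last M) hne)
          rw [Pi.sub_apply, top', sub_zero] at h4
          exact top h4
        rw [hv, this]; rfl
    rcases v_NV (W := W10 k) (RR n') with h3 | ⟨M, hM, hM', hv⟩
    · rw [h3, NV_zero, map_zero] at hj; exact absurd hj.symm exp_ne_zero
    · rw [hj, exp_inj] at hv
      exact ⟨M, by omega, hM'⟩

end K

end Pool.Agent.X10.Ca
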