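import Pool.Agent.Lib_helper60.X10a.B

/-!
# A point of order ten, `t = -1`: the functions `x(z + iP)`, the ten points
-/

set_option autoImplicit false
set_option linter.unusedSectionVars false
set_option linter.unusedSimpArgs false
set_option linter.unusedVariables false

namespace Pool.Agent.X10.Ca

open Polynomial WeierstrassCurve.Affine WithZero
open Pool.Agent.TN Pool.Agent.K7

/-- the exponents of `X i` in the basis -/
def ex : Fin 10 → Fin 9 → ℤ :=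
  ![![1, 0, 0, 0, 0, 0, 0, 0, 0],
    ![-2, 0, 0, 0, 0, 1, 0, 0, 0],
    ![1, -1, 0, 0, 0, -1, 1, 0, 0],
    ![0, 1, -1, 0, 0, 0, -1, 1, 0],
    ![0, 0, 1, -1, 0, 0, 0, -1, 1],
    ![0, 0, 0, 1, -1, 0, 0, 0, 0],
    ![0, 0, 0, -1, 1, 0, 0, 1, -1],
    ![0, 0, -1, 1, 0, 0, 1, -1, 0],
    ![0, -1, 1, 0, 0, 1, -1, 0, 0],
    ![0, 1, 0, 0, 0, -1, 0, 0, 0]]

/-- the leading coefficient of `X i` at the origin -/
def lz : Fin 10 → ℤ := ![25, -6, -6, 30, 6, -10, 6, 30, -6, 6]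

/-- the exponents in the basis -/
def NN (e : Fin 10 → ℤ) (j : Fin 9) : ℤ := ∑ i, e i * ex i j

lemma Dn_NN (e : Fin 10 → ℤ) (m : Fin 10) : Dn (NN e) m = OO e (-m) := by
  have key : ∀ i m : Fin 10, ∑ j, ex i j * oU j m = (if i = -m + 1 then 1 else 0) +
      (if i = -m - 1 then 1 else 0) - 2 * (if i = -m then 1 else 0) := by decide +kernel
  unfold Dn NN OO
  have h1 : ∑ j, (∑ i, e i * ex i j) * oU j m = ∑ i, e i * ∑ j, ex i j * oU j m := by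
    rw [show (∑ j, (∑ i, e i * ex i j) * oU j m) = ∑ j, ∑ i, e i * (ex i j * oU j m) from
      Finset.sum_congr rfl fun j _ => by
        rw [Finset.sum_mul]; exact Finset.sum_congr rfl fun i _ => by ring, Finset.sum_comm]
    exact Finset.sum_congr rfl fun i _ => (Finset.mul_sum _ _ _).symm
  rw [h1]
  simp only [key, mul_sub, mul_add, Finset.sum_sub_distrib, Finset.sum_add_distrib]
  simp only [mul_ite, mul_one, mul_zero, Finset.sum_ite_eq', Finset.mem_univ, if_true]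
  ring

section Alg

variable {F : Type*} [Field F]

/-- the ten functions in terms of the scaled units -/
def Xf (p0 p1 p2 p3 p4 q1 q2 q3 q4 : F) : Fin 10 → F :=
  ![p0, -(30 * q1 / p0 ^ 2), -(6 * p0 * q2 / (p1 * q1)), 30 * p1 * q3 / (p2 * q2), 6 * p2 * q4 / (p3 * q3), -(10 * p3 / p4), 6 * p4 * q3 / (p3 * q4), 30 * p3 * q2 / (p2 * q3), -(6 * p2 * q1 / (p1 * q2)), 30 * p1 / q1]

lemma Xf_next [CharZero F] {p0 p1 p2 p3 p4 q1 q2 q3 q4 p0' p1' p2' p3' p4' q1' q2' q3' q4' : F} (hp0 : p0 ≠ 0) (hp1 : p1 ≠ 0) (hp2 : p2 ≠ 0) (hp3 : p3 ≠ 0) (hp4 : p4 ≠ 0) (hq1 : q1 ≠ 0) (hq2 : q2 ≠ 0) (hq3 : q3 ≠ 0) (hq4 : q4 ≠ 0)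
    (ep0 : p0' = -(30 * q1 / p0 ^ 2))
    (ep1 : p1' = 6 * q1 * q2 / (p0 ^ 2 * p1))
    (ep2 : p2' = -(30 * q2 * q3 / (p0 ^ 2 * p2)))
    (ep3 : p3' = -(6 * q3 * q4 / (p0 ^ 2 * p3)))
    (ep4 : p4' = 10 * q4 ^ 2 / (p0 ^ 2 * p4))
    (eq1 : q1' = 180 * q1 * q2 / (p0 ^ 3 * p1))
    (eq2 : q2' = 180 * q1 * q2 * q3 / (p0 ^ 3 * p1 * p2))
    (eq3 : q3' = -(180 * q2 * q3 * q4 / (p0 ^ 3 * p2 * p3)))
    (eq4 : q4' = 60 * q3 * q4 ^ 2 / (p0 ^ 3 * p3 * p4)) (i : Fin 10) :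
    Xf p0' p1' p2' p3' p4' q1' q2' q3' q4' i = Xf p0 p1 p2 p3 p4 q1 q2 q3 q4 (i + 1) := by
  subst ep0 ep1 ep2 ep3 ep4 eq1 eq2 eq3 eq4
  fin_cases i
  · show -(30 * q1 / p0 ^ 2) = -(30 * q1 / p0 ^ 2)
    field_simp
    try ring
  · show -(30 * (180 * q1 * q2 / (p0 ^ 3 * p1)) / ((-(30 * q1 / p0 ^ 2)) ^ 2)) = -(6 * p0 * q2 / (p1 * q1))
    field_simp
    try ring
  · show -(6 * -(30 * q1 / p0 ^ 2) * (180 * q1 * q2 * q3 / (p0 ^ 3 * p1 * p2)) / ((6 * q1 * q2 / (p0 ^ 2 * p1)) * (180 * q1 * q2 / (p0 ^ 3 * p1)))) = 30 * p1 * q3 / (p2 * q2)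
    field_simp
    try ring
  · show 30 * (6 * q1 * q2 / (p0 ^ 2 * p1)) * -(180 * q2 * q3 * q4 / (p0 ^ 3 * p2 * p3)) / (-(30 * q2 * q3 / (p0 ^ 2 * p2)) * (180 * q1 * q2 * q3 / (p0 ^ 3 * p1 * p2))) = 6 * p2 * q4 / (p3 * q3)
    field_simp
    try ring
  · show 6 * -(30 * q2 * q3 / (p0 ^ 2 * p2)) * (60 * q3 * q4 ^ 2 / (p0 ^ 3 * p3 * p4)) / (-(6 * q3 * q4 / (p0 ^ 2 * p3)) * -(180 * q2 * q3 * q4 / (p0 ^ 3 * p2 * p3))) = -(10 * p3 / p4)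
    field_simp
    try ring
  · show -(10 * -(6 * q3 * q4 / (p0 ^ 2 * p3)) / ((10 * q4 ^ 2 / (p0 ^ 2 * p4)))) = 6 * p4 * q3 / (p3 * q4)
    field_simp
    try ring
  · show 6 * (10 * q4 ^ 2 / (p0 ^ 2 * p4)) * -(180 * q2 * q3 * q4 / (p0 ^ 3 * p2 * p3)) / (-(6 * q3 * q4 / (p0 ^ 2 * p3)) * (60 * q3 * q4 ^ 2 / (p0 ^ 3 * p3 * p4))) = 30 * p3 * q2 / (p2 * q3)
    field_simp
    try ring
  · show 30 * -(6 * q3 * q4 / (p0 ^ 2 * p3)) * (180 * q1 * q2 * q3 / (p0 ^ 3 * p1 * p2)) / (-(30 * q2 * q3 / (p0 ^ 2 * p2)) * -(180 * q2 * q3 * q4 / (p0 ^ 3 * p2 * p3))) = -(6 * p2 * q1 / (p1 * q2))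
    field_simp
    try ring
  · show -(6 * -(30 * q2 * q3 / (p0 ^ 2 * p2)) * (180 * q1 * q2 / (p0 ^ 3 * p1)) / ((6 * q1 * q2 / (p0 ^ 2 * p1)) * (180 * q1 * q2 * q3 / (p0 ^ 3 * p1 * p2)))) = 30 * p1 / q1
    field_simp
    try ring
  · show 30 * (6 * q1 * q2 / (p0 ^ 2 * p1)) / ((180 * q1 * q2 / (p0 ^ 3 * p1))) = p0
    field_simp
    try ring

/-- the scaled units at the next point -/
lemma next_alg [CharZero F] {X Y : F} (he : Y ^ 2 - X * Y + 30 * Y = X ^ 3 + 6 * X ^ 2)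
    (h0 : X ≠ 0) (h1 : X + 6 ≠ 0) (h2 : X - 30 ≠ 0) (h3 : X - 6 ≠ 0) (h4 : X + 10 ≠ 0) (h5 : Y ≠ 0) (h6 : Y - 6 * X ≠ 0) (h7 : Y + 6 * X ≠ 0) (h8 : Y - 2 * X ≠ 0) :
    -(30 * Y / X ^ 2) + 6 = 6 * Y * (Y - 6 * X) / (X ^ 2 * (X + 6)) ∧
    -(30 * Y / X ^ 2) - 30 = -(30 * (Y - 6 * X) * (Y + 6 * X) / (X ^ 2 * (X - 30))) ∧
    -(30 * Y / X ^ 2) - 6 = -(6 * (Y + 6 * X) * (Y - 2 * X) / (X ^ 2 * (X - 6))) ∧
    -(30 * Y / X ^ 2) + 10 = 10 * (Y - 2 * X) ^ 2 / (X ^ 2 * (X + 10)) ∧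
    180 * (X ^ 2 - 5 * Y) / X ^ 3 = 180 * Y * (Y - 6 * X) / (X ^ 3 * (X + 6)) ∧
    180 * (X ^ 2 - 5 * Y) / X ^ 3 - 6 * -(30 * Y / X ^ 2) = 180 * Y * (Y - 6 * X) * (Y + 6 * X) / (X ^ 3 * (X + 6) * (X - 30)) ∧
    180 * (X ^ 2 - 5 * Y) / X ^ 3 + 6 * -(30 * Y / X ^ 2) = -(180 * (Y - 6 * X) * (Y + 6 * X) * (Y - 2 * X) / (X ^ 3 * (X - 30) * (X - 6))) ∧
    180 * (X ^ 2 - 5 * Y) / X ^ 3 - 2 * -(30 * Y / X ^ 2) = 60 * (Y + 6 * X) * (Y - 2 * X) ^ 2 / (X ^ 3 * (X - 6) * (X + 10)) := by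
  refine ⟨?_, ?_, ?_, ?_, ?_, ?_, ?_, ?_⟩
  · rw [← sub_eq_zero]
    have : -(30 * Y / X ^ 2) + 6 - (6 * Y * (Y - 6 * X) / (X ^ 2 * (X + 6))) =
      (-6) * ((Y ^ 2 - X * Y + 30 * Y) - (X ^ 3 + 6 * X ^ 2)) / (X ^ 2 * (X + 6)) := by
      field_simp; ring
    rw [this, he, sub_self, mul_zero, zero_div]
  · rw [← sub_eq_zero]
    have : -(30 * Y / X ^ 2) - 30 - -(30 * (Y - 6 * X) * (Y + 6 * X) / (X ^ 2 * (X - 30))) =
      (30) * ((Y ^ 2 - X * Y + 30 * Y) - (X ^ 3 + 6 * X ^ 2)) / (X ^ 2 * (X - 30)) := by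
      field_simp; ring
    rw [this, he, sub_self, mul_zero, zero_div]
  · rw [← sub_eq_zero]
    have : -(30 * Y / X ^ 2) - 6 - -(6 * (Y + 6 * X) * (Y - 2 * X) / (X ^ 2 * (X - 6))) =
      (6) * ((Y ^ 2 - X * Y + 30 * Y) - (X ^ 3 + 6 * X ^ 2)) / (X ^ 2 * (X - 6)) := by
      field_simp; ring
    rw [this, he, sub_self, mul_zero, zero_div]
  · rw [← sub_eq_zero]
    have : -(30 * Y / X ^ 2) + 10 - (10 * (Y - 2 * X) ^ 2 / (X ^ 2 * (X + 10))) =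
      (-10) * ((Y ^ 2 - X * Y + 30 * Y) - (X ^ 3 + 6 * X ^ 2)) / (X ^ 2 * (X + 10)) := by
      field_simp; ring
    rw [this, he, sub_self, mul_zero, zero_div]
  · rw [← sub_eq_zero]
    have : 180 * (X ^ 2 - 5 * Y) / X ^ 3 - (180 * Y * (Y - 6 * X) / (X ^ 3 * (X + 6))) =
      (-180) * ((Y ^ 2 - X * Y + 30 * Y) - (X ^ 3 + 6 * X ^ 2)) / (X ^ 3 * (X + 6)) := by
      field_simp; ring
    rw [this, he, sub_self, mul_zero, zero_div]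
  · rw [← sub_eq_zero]
    have : 180 * (X ^ 2 - 5 * Y) / X ^ 3 - 6 * -(30 * Y / X ^ 2) - (180 * Y * (Y - 6 * X) * (Y + 6 * X) / (X ^ 3 * (X + 6) * (X - 30))) =
      (-180 * X - 180 * Y + 5400) * ((Y ^ 2 - X * Y + 30 * Y) - (X ^ 3 + 6 * X ^ 2)) / (X ^ 3 * (X + 6) * (X - 30)) := by
      field_simp; ring
    rw [this, he, sub_self, mul_zero, zero_div]
  · rw [← sub_eq_zero]
    have : 180 * (X ^ 2 - 5 * Y) / X ^ 3 + 6 * -(30 * Y / X ^ 2) - -(180 * (Y - 6 * X) * (Y + 6 * X) * (Y - 2 * X) / (X ^ 3 * (X - 30) * (X - 6))) =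
      (-180 * X + 180 * Y - 5400) * ((Y ^ 2 - X * Y + 30 * Y) - (X ^ 3 + 6 * X ^ 2)) / (X ^ 3 * (X - 30) * (X - 6)) := by
      field_simp; ring
    rw [this, he, sub_self, mul_zero, zero_div]
  · rw [← sub_eq_zero]
    have : 180 * (X ^ 2 - 5 * Y) / X ^ 3 - 2 * -(30 * Y / X ^ 2) - (60 * (Y + 6 * X) * (Y - 2 * X) ^ 2 / (X ^ 3 * (X - 6) * (X + 10))) =
      (-180 * X - 60 * Y + 1800) * ((Y ^ 2 - X * Y + 30 * Y) - (X ^ 3 + 6 * X ^ 2)) / (X ^ 3 * (X - 6) * (X + 10)) := by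
      field_simp; ring
    rw [this, he, sub_self, mul_zero, zero_div]

end Alg

section F

variable {k : Type*} [Field k] {F : Type*} [Field F] [Algebra k F] {x y : F}

variable (x y) in
/-- the basis -/
def uF : Fin 9 → F := ![x, x + 6 / 25, x - 6 / 5, x - 6 / 25, x + 2 / 5, y, y - 6 / 5 * x, y + 6 / 5 * x, y - 2 / 5 * x]

variable (x y) in
/-- the functions `25 x(z + iP)` -/
def XF : Fin 10 → F := Xf (25 * x) (25 * x + 6) (25 * x - 30) (25 * x - 6) (25 * x + 10) (125 * y) (125 * y - 6 * (25 * x)) (125 * y + 6 * (25 * x)) (125 * y - 2 * (25 * x))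

variable (x y) in
/-- monomials -/
def mon (e : Fin 10 → ℤ) : F := ∏ i, XF x y i ^ e i

variable (x y) in
/-- monomials in the basis -/
def MU (n : Fin 9 → ℤ) : F := ∏ j, uF x y j ^ n j

lemma charF (k : Type*) [Field k] [CharZero k] (F : Type*) [Field F] [Algebra k F] : CharZero F :=
  charZero_of_injective_algebraMap (algebraMap k F).injective

lemma io_uK (h : Gen (-6 / 25 : k) (6 / 5) x y) (j : Fin 9) : TN.io h (uK j) = uF x y j := by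
  have e1 : TN.io h xK = x := io_x h
  have e2 : TN.io h yK = y := io_y h
  have e3 : ∀ a : k, TN.io h (xK - cK a) = x - algebraMap k F a := fun a => by
    rw [map_sub, io_x, io_c]
  have e4 : ∀ a : k, TN.io h (yK - cK a * xK) = y - algebraMap k F a * x := fun a => by
    rw [map_sub, map_mul, io_x, io_y, io_c]
  fin_cases j
  · exact e1
  · refine (e3 (-6 / 25)).trans ?_
    simp only [map_div₀, map_neg, map_ofNat, map_one, map_zero]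
    show _ = x + 6 / 25
    ring
  · refine (e3 (6 / 5)).trans ?_
    simp only [map_div₀, map_neg, map_ofNat, map_one, map_zero]
    show _ = x - 6 / 5
    ring
  · refine (e3 (6 / 25)).trans ?_
    simp only [map_div₀, map_neg, map_ofNat, map_one, map_zero]
    show _ = x - 6 / 25
    ring
  · refine (e3 (-2 / 5)).trans ?_
    simp only [map_div₀, map_neg, map_ofNat, map_one, map_zero]
    show _ = x + 2 / 5
    ring
  · exact e2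
  · refine (e4 (6 / 5)).trans ?_
    simp only [map_div₀, map_neg, map_ofNat, map_one, map_zero]
    show _ = y - 6 / 5 * x
    ring
  · refine (e4 (-6 / 5)).trans ?_
    simp only [map_div₀, map_neg, map_ofNat, map_one, map_zero]
    show _ = y + 6 / 5 * x
    ring
  · refine (e4 (2 / 5)).trans ?_
    simp only [map_div₀, map_neg, map_ofNat, map_one, map_zero]
    show _ = y - 2 / 5 * x
    ring

lemma uF_ne (h : Gen (-6 / 25 : k) (6 / 5) x y) (j : Fin 9) : uF x y j ≠ 0 := by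
  rw [← io_uK h]; exact (_root_.map_ne_zero _).mpr (uK_ne j)

lemma io_mo (h : Gen (-6 / 25 : k) (6 / 5) x y) (n : Fin 9 → ℤ) : TN.io h (mo n) = MU x y n := by
  unfold mo MU
  rw [map_prod]
  refine Finset.prod_congr rfl fun j _ => ?_
  rw [map_zpow₀, io_uK]

lemma curve [CharZero k] (h : Gen (-6 / 25 : k) (6 / 5) x y) :
    (125 * y) ^ 2 - (25 * x) * (125 * y) + 30 * (125 * y) = (25 * x) ^ 3 + 6 * (25 * x) ^ 2 := by
  have := charF k F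
  have h1 := h.eq
  simp only [map_div₀, map_neg, map_ofNat, map_one, map_zero] at h1
  linear_combination 15625 * h1

/-- the scaled units and the units -/
lemma sF_eq [CharZero F] (x y : F) :
    25 * x = 25 * x ∧
    25 * x + 6 = 25 * (x + 6 / 25) ∧
    25 * x - 30 = 25 * (x - 6 / 5) ∧
    25 * x - 6 = 25 * (x - 6 / 25) ∧
    25 * x + 10 = 25 * (x + 2 / 5) ∧
    125 * y = 125 * y ∧
    125 * y - 6 * (25 * x) = 125 * (y - 6 / 5 * x) ∧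
    125 * y + 6 * (25 * x) = 125 * (y + 6 / 5 * x) ∧
    125 * y - 2 * (25 * x) = 125 * (y - 2 / 5 * x) := by
  refine ⟨?_, ?_, ?_, ?_, ?_, ?_, ?_, ?_, ?_⟩ <;> ring

/-- the leading coefficient of `X i` at the origin -/
def lam (k : Type*) [Field k] (i : Fin 10) : k := ((lz i : ℤ) : k)

lemma lam_ne [CharZero k] (i : Fin 10) : lam k i ≠ 0 := by
  have : ∀ i, lz i ≠ 0 := by decide
  exact Int.cast_ne_zero.mpr (this i)

lemma Xf_eq [CharZero F] {a0 a1 a2 a3 a4 b1 b2 b3 b4 : F} (ha0 : a0 ≠ 0) (ha1 : a1 ≠ 0) (ha2 : a2 ≠ 0) (ha3 : a3 ≠ 0) (ha4 : a4 ≠ 0) (hb1 : b1 ≠ 0) (hb2 : b2 ≠ 0) (hb3 : b3 ≠ 0) (hb4 : b4 ≠ 0) (i : Fin 10) :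
    Xf (25 * a0) (25 * a1) (25 * a2) (25 * a3) (25 * a4) (125 * b1) (125 * b2) (125 * b3) (125 * b4) i = ((lz i : ℤ) : F) *
      (a0 ^ (ex i 0) * a1 ^ (ex i 1) * a2 ^ (ex i 2) * a3 ^ (ex i 3) * a4 ^ (ex i 4) * b1 ^ (ex i 5) * b2 ^ (ex i 6) * b3 ^ (ex i 7) * b4 ^ (ex i 8)) := by
  fin_cases i
  · show (25 * a0) = ((25 : ℤ) : F) * (a0 ^ (1 : ℤ) * a1 ^ (0 : ℤ) * a2 ^ (0 : ℤ) * a3 ^ (0 : ℤ) * a4 ^ (0 : ℤ) * b1 ^ (0 : ℤ) * b2 ^ (0 : ℤ) * b3 ^ (0 : ℤ) * b4 ^ (0 : ℤ))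
    simp only [zpow_neg, zpow_zero, zpow_one, zpow_ofNat]
    push_cast
    field_simp
    try ring
  · show -(30 * (125 * b1) / (25 * a0) ^ 2) = ((-6 : ℤ) : F) * (a0 ^ (-2 : ℤ) * a1 ^ (0 : ℤ) * a2 ^ (0 : ℤ) * a3 ^ (0 : ℤ) * a4 ^ (0 : ℤ) * b1 ^ (1 : ℤ) * b2 ^ (0 : ℤ) * b3 ^ (0 : ℤ) * b4 ^ (0 : ℤ))
    simp only [zpow_neg, zpow_zero, zpow_one, zpow_ofNat]
    push_cast
    field_simp
    try ring
  · show -(6 * (25 * a0) * (125 * b2) / ((25 * a1) * (125 * b1))) = ((-6 : ℤ) : F) * (a0 ^ (1 : ℤ) * a1 ^ (-1 : ℤ) * a2 ^ (0 : ℤ) * a3 ^ (0 : ℤ) * a4 ^ (0 : ℤ) * b1 ^ (-1 : ℤ) * b2 ^ (1 : ℤ) * b3 ^ (0 : ℤ) * b4 ^ (0 : ℤ))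
    simp only [zpow_neg, zpow_zero, zpow_one, zpow_ofNat]
    push_cast
    field_simp
    try ring
  · show 30 * (25 * a1) * (125 * b3) / ((25 * a2) * (125 * b2)) = ((30 : ℤ) : F) * (a0 ^ (0 : ℤ) * a1 ^ (1 : ℤ) * a2 ^ (-1 : ℤ) * a3 ^ (0 : ℤ) * a4 ^ (0 : ℤ) * b1 ^ (0 : ℤ) * b2 ^ (-1 : ℤ) * b3 ^ (1 : ℤ) * b4 ^ (0 : ℤ))
    simp only [zpow_neg, zpow_zero, zpow_one, zpow_ofNat]
    push_cast
    field_simp
    try ring
  · show 6 * (25 * a2) * (125 * b4) / ((25 * a3) * (125 * b3)) = ((6 : ℤ) : F) * (a0 ^ (0 : ℤ) * a1 ^ (0 : ℤ) * a2 ^ (1 : ℤ) * a3 ^ (-1 : ℤ) * a4 ^ (0 : ℤ) * b1 ^ (0 : ℤ) * b2 ^ (0 : ℤ) * b3 ^ (-1 : ℤ) * b4 ^ (1 : ℤ))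
    simp only [zpow_neg, zpow_zero, zpow_one, zpow_ofNat]
    push_cast
    field_simp
    try ring
  · show -(10 * (25 * a3) / (25 * a4)) = ((-10 : ℤ) : F) * (a0 ^ (0 : ℤ) * a1 ^ (0 : ℤ) * a2 ^ (0 : ℤ) * a3 ^ (1 : ℤ) * a4 ^ (-1 : ℤ) * b1 ^ (0 : ℤ) * b2 ^ (0 : ℤ) * b3 ^ (0 : ℤ) * b4 ^ (0 : ℤ))
    simp only [zpow_neg, zpow_zero, zpow_one, zpow_ofNat]
    push_cast
    field_simp
    try ring
  · show 6 * (25 * a4) * (125 * b3) / ((25 * a3) * (125 * b4)) = ((6 : ℤ) : F) * (a0 ^ (0 : ℤ) * a1 ^ (0 : ℤ) * a2 ^ (0 : ℤ) * a3 ^ (-1 : ℤ) * a4 ^ (1 : ℤ) * b1 ^ (0 : ℤ) * b2 ^ (0 : ℤ) * b3 ^ (1 : ℤ) * b4 ^ (-1 : ℤ))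
    simp only [zpow_neg, zpow_zero, zpow_one, zpow_ofNat]
    push_cast
    field_simp
    try ring
  · show 30 * (25 * a3) * (125 * b2) / ((25 * a2) * (125 * b3)) = ((30 : ℤ) : F) * (a0 ^ (0 : ℤ) * a1 ^ (0 : ℤ) * a2 ^ (-1 : ℤ) * a3 ^ (1 : ℤ) * a4 ^ (0 : ℤ) * b1 ^ (0 : ℤ) * b2 ^ (1 : ℤ) * b3 ^ (-1 : ℤ) * b4 ^ (0 : ℤ))
    simp only [zpow_neg, zpow_zero, zpow_one, zpow_ofNat]
    push_cast
    field_simp
    try ring
  · show -(6 * (25 * a2) * (125 * b1) / ((25 * a1) * (125 * b2))) = ((-6 : ℤ) : F) * (a0 ^ (0 : ℤ) * a1 ^ (-1 : ℤ) * a2 ^ (1 : ℤ) * a3 ^ (0 : ℤ) * a4 ^ (0 : ℤ) * b1 ^ (1 : ℤ) * b2 ^ (-1 : ℤ) * b3 ^ (0 : ℤ) * b4 ^ (0 : ℤ))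
    simp only [zpow_neg, zpow_zero, zpow_one, zpow_ofNat]
    push_cast
    field_simp
    try ring
  · show 30 * (25 * a1) / (125 * b1) = ((6 : ℤ) : F) * (a0 ^ (0 : ℤ) * a1 ^ (1 : ℤ) * a2 ^ (0 : ℤ) * a3 ^ (0 : ℤ) * a4 ^ (0 : ℤ) * b1 ^ (-1 : ℤ) * b2 ^ (0 : ℤ) * b3 ^ (0 : ℤ) * b4 ^ (0 : ℤ))
    simp only [zpow_neg, zpow_zero, zpow_one, zpow_ofNat]
    push_cast
    field_simp
    try ring

lemma XF_eq [CharZero k] (h : Gen (-6 / 25 : k) (6 / 5) x y) (i : Fin 10) :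
    XF x y i = algebraMap k F (lam k i) * ∏ j, uF x y j ^ ex i j := by
  have := charF k F
  have hu := uF_ne h
  have hl : algebraMap k F (lam k i) = ((lz i : ℤ) : F) := map_intCast _ _
  obtain ⟨s0, s1, s2, s3, s4, s5, s6, s7, s8⟩ := sF_eq x y
  rw [hl, Fin.prod_univ_castSucc, Fin.prod_univ_eight]
  unfold XF
  rw [s1, s2, s3, s4, s6, s7, s8]
  exact Xf_eq (hu 0) (hu 1) (hu 2) (hu 3) (hu 4) (hu 5) (hu 6) (hu 7) (hu 8) i

lemma XF_ne [CharZero k] (h : Gen (-6 / 25 : k) (6 / 5) x y) (i : Fin 10) : XF x y i ≠ 0 := by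
  rw [XF_eq h]
  exact mul_ne_zero ((_root_.map_ne_zero _).mpr (lam_ne i))
    (Finset.prod_ne_zero_iff.mpr fun j _ => zpow_ne_zero _ (uF_ne h j))

lemma mon_eq [CharZero k] (h : Gen (-6 / 25 : k) (6 / 5) x y) (e : Fin 10 → ℤ) :
    mon x y e = algebraMap k F (∏ i, lam k i ^ e i) * MU x y (NN e) := by
  rw [map_prod]
  unfold mon MU
  simp only [XF_eq h]
  rw [show (∏ j, uF x y j ^ NN e j) = ∏ i, (∏ j, uF x y j ^ ex i j) ^ e i by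
    rw [show (∏ i, (∏ j, uF x y j ^ ex i j) ^ e i) =
      ∏ i, ∏ j, uF x y j ^ (e i * ex i j) from Finset.prod_congr rfl fun i _ => by
        rw [← Finset.prod_zpow]
        refine Finset.prod_congr rfl fun j _ => ?_
        rw [← zpow_mul, mul_comm], Finset.prod_comm]
    refine Finset.prod_congr rfl fun j _ => ?_
    unfold NN
    have : ∀ (s : Finset (Fin 10)) (a : Fin 10 → ℤ), uF x y j ^ (∑ i ∈ s, a i) =
        ∏ i ∈ s, uF x y j ^ a i := by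
      intro s a
      induction s using Finset.induction_on with
      | empty => simp
      | insert i s hi ih => rw [Finset.sum_insert hi, Finset.prod_insert hi,
          zpow_add₀ (uF_ne h j), ih]
    exact this _ _]
  rw [← Finset.prod_mul_distrib]
  refine Finset.prod_congr rfl fun i _ => ?_
  rw [mul_zpow, map_zpow₀]

/-! ### translation -/

variable (x y) in
/-- the first coordinate of `z + P` -/
def nx : F := -6 / 25 * y / x ^ 2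

variable (x y) in
/-- the second coordinate of `z + P` -/
def ny : F := (-6 / 25) ^ 2 * (x ^ 2 - y) / x ^ 3

lemma Gen.next' [CharZero k] (h : Gen (-6 / 25 : k) (6 / 5) x y) :
    Gen (-6 / 25 : k) (6 / 5) (nx x y) (ny x y) := by
  have := TN.Gen.next (b := (-6 / 25 : k)) (by norm_num) h
  simp only [map_div₀, map_neg, map_ofNat, map_one, map_zero] at this
  exact this

/-- the scaled basis at the next point -/
lemma sF_next [CharZero k] (h : Gen (-6 / 25 : k) (6 / 5) x y) :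
    25 * nx x y = -(30 * (125 * y) / (25 * x) ^ 2) ∧
    125 * ny x y = 180 * ((25 * x) ^ 2 - 5 * (125 * y)) / (25 * x) ^ 3 := by
  have := charF k F
  have hx : x ≠ 0 := uF_ne h 0
  unfold nx ny
  constructor
  · field_simp
    try ring
  · field_simp
    try ring

lemma XF_next [CharZero k] (h : Gen (-6 / 25 : k) (6 / 5) x y) (i : Fin 10) :
    XF (nx x y) (ny x y) i = XF x y (i + 1) := by
  have := charF k F
  have hu := uF_ne h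
  obtain ⟨s0, s1, s2, s3, s4, s5, s6, s7, s8⟩ := sF_eq x y
  have h25 : (25 : F) ≠ 0 := by norm_num
  have h125 : (125 : F) ≠ 0 := by norm_num
  have hp0 : 25 * x ≠ 0 := by
    rw [s0]; exact mul_ne_zero h25 (hu 0)
  have hp1 : 25 * x + 6 ≠ 0 := by
    rw [s1]; exact mul_ne_zero h25 (hu 1)
  have hp2 : 25 * x - 30 ≠ 0 := by
    rw [s2]; exact mul_ne_zero h25 (hu 2)
  have hp3 : 25 * x - 6 ≠ 0 := by
    rw [s3]; exact mul_ne_zero h25 (hu 3)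
  have hp4 : 25 * x + 10 ≠ 0 := by
    rw [s4]; exact mul_ne_zero h25 (hu 4)
  have hp5 : 125 * y ≠ 0 := by
    rw [s5]; exact mul_ne_zero h125 (hu 5)
  have hp6 : 125 * y - 6 * (25 * x) ≠ 0 := by
    rw [s6]; exact mul_ne_zero h125 (hu 6)
  have hp7 : 125 * y + 6 * (25 * x) ≠ 0 := by
    rw [s7]; exact mul_ne_zero h125 (hu 7)
  have hp8 : 125 * y - 2 * (25 * x) ≠ 0 := by
    rw [s8]; exact mul_ne_zero h125 (hu 8)
  have hc := curve h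
  obtain ⟨n0, n5⟩ := sF_next h
  obtain ⟨n1, n2, n3, n4, m5, n6, n7, n8⟩ := next_alg (X := 25 * x) (Y := 125 * y)
    (by linear_combination hc) hp0 hp1 hp2 hp3 hp4 hp5 hp6 hp7 hp8
  unfold XF
  exact Xf_next hp0 hp1 hp2 hp3 hp4 hp5 hp6 hp7 hp8 n0 (by rw [n0]; exact n1) (by rw [n0]; exact n2) (by rw [n0]; exact n3) (by rw [n0]; exact n4) (by rw [n5]; exact m5) (by rw [n5, n0]; exact n6) (by rw [n5, n0]; exact n7) (by rw [n5, n0]; exact n8) i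

/-- generic points after `s` translations -/
lemma exists_shift [CharZero k] (h : Gen (-6 / 25 : k) (6 / 5) x y) (s : Fin 10) :
    ∃ x' y' : F, Gen (-6 / 25 : k) (6 / 5) x' y' ∧ ∀ i, XF x' y' i = XF x y (i + s) := by
  have key : ∀ n : ℕ, ∃ x' y' : F, Gen (-6 / 25 : k) (6 / 5) x' y' ∧
      ∀ i, XF x' y' i = XF x y (i + n • 1) := by
    intro n
    induction n with
    | zero => exact ⟨x, y, h, fun i => by simp⟩
    | succ n ih =>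
      obtain ⟨x', y', h', hi⟩ := ih
      refine ⟨nx x' y', ny x' y', Gen.next' h', fun i => ?_⟩
      rw [XF_next h', hi]
      congr 1
      rw [succ_nsmul]
      abel
  obtain ⟨x', y', h', hi⟩ := key s.val
  refine ⟨x', y', h', fun i => ?_⟩
  have h9 : ∀ s : Fin 10, s.val • (1 : Fin 10) = s := by decide
  rw [hi, h9]

lemma mon_shift {x' y' : F} (s : Fin 10) (hs : ∀ i, XF x' y' i = XF x y (i + s))
    (e : Fin 10 → ℤ) : mon x y e = mon x' y' (fun i => e (i + s)) := by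
  unfold mon
  rw [← Equiv.prod_comp (Equiv.addRight s) (fun i => XF x y i ^ e i)]
  refine Finset.prod_congr rfl fun i _ => ?_
  rw [hs]; rfl

/-- the leading coefficient of `c ∏ X i ^ e i` at `-sP` -/
def Lc (c : k) (e : Fin 10 → ℤ) (s : Fin 10) : k := c * ∏ i, lam k i ^ e (i + s)

lemma Lc_ne [CharZero k] {c : k} (hc : c ≠ 0) (e : Fin 10 → ℤ) (s : Fin 10) : Lc c e s ≠ 0 :=
  mul_ne_zero hc (Finset.prod_ne_zero_iff.mpr fun i _ => zpow_ne_zero _ (lam_ne i))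

/-- the unit equation at the origin of the translate -/
lemma at_s [CharZero k] (h : Gen (-6 / 25 : k) (6 / 5) x y) {c₀ c₁ : k} {e e' : Fin 10 → ℤ}
    (hu : algebraMap k F c₀ * mon x y e + algebraMap k F c₁ * mon x y e' = 1) (s : Fin 10) :
    (cK (Lc c₀ e s) * mo (NN fun i => e (i + s)) + cK (Lc c₁ e' s) * mo (NN fun i => e' (i + s)) :
      K (W10 k)) = 1 := by
  obtain ⟨x', y', h', hx⟩ := exists_shift h s
  rw [mon_shift s hx e, mon_shift s hx e', mon_eq h', mon_eq h', ← mul_assoc, ← mul_assoc,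
    ← map_mul, ← map_mul, ← io_mo h', ← io_mo h', ← io_c h', ← io_c h', ← map_mul, ← map_mul,
    ← map_add] at hu
  exact io_inj h' (hu.trans (map_one _).symm)

lemma Dn_at (e : Fin 10 → ℤ) (s : Fin 10) : Dn (NN fun i => e (i + s)) 0 = OO e s := by
  rw [Dn_NN, OO_shift, neg_zero, zero_add]

/-- **the alternatives at a point** -/
theorem bound10 [CharZero k] (h : Gen (-6 / 25 : k) (6 / 5) x y) {c₀ c₁ : k}
    (h0 : c₀ ≠ 0) (h1 : c₁ ≠ 0) {e e' : Fin 10 → ℤ}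
    (hu : algebraMap k F c₀ * mon x y e + algebraMap k F c₁ * mon x y e' = 1) (s : Fin 10) :
    (OO e s = 0 ∧ OO e' s = 0) ∨ (1 ≤ OO e s ∧ OO e' s = 0 ∧ Lc c₁ e' s = 1) ∨
    (OO e s = 0 ∧ 1 ≤ OO e' s) ∨ (OO e s = OO e' s ∧ OO e s ≤ -1) := by
  have key := bound_K (Lc_ne h0 e s) (Lc_ne h1 e' s) (at_s h hu s)
  rwa [Dn_at, Dn_at] at key

/-- **a zero of `f` at `-sP`** -/
theorem van10 [CharZero k] (h : Gen (-6 / 25 : k) (6 / 5) x y) {c₀ c₁ : k}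
    (h0 : c₀ ≠ 0) (h1 : c₁ ≠ 0) {e e' : Fin 10 → ℤ}
    (hu : algebraMap k F c₀ * mon x y e + algebraMap k F c₁ * mon x y e' = 1) (s : Fin 10)
    (hs : 1 ≤ OO e s) (hs' : OO e' s = 0) :
    ∃ M : Fin 11, ordm M = 11 - OO e s ∧
      ∀ m, M < m → RR (k := k) (NN fun i => e' (i + s)) m = 0 := by
  have key := van_K (Lc_ne h0 e s) (Lc_ne h1 e' s) (at_s h hu s) (by rw [Dn_at]; exact hs)
    (by rw [Dn_at]; exact hs')
  rwa [Dn_at] at key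

end F

end Pool.Agent.X10.Ca
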