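import Pool.Agent.Lib_helper60.X10a.D
import Pool.Agent.Lib_helper60.X10a.Ka

/-!
# A point of order ten, `t = -1`: the linear forms in the divisor
-/

set_option autoImplicit false
set_option linter.unusedSectionVars false
set_option linter.unusedSimpArgs false
set_option linter.unusedVariables false

namespace Pool.Agent.X10.Ca

open Polynomial WeierstrassCurve.Affine WithZero
open Pool.Agent.TN Pool.Agent.K7

lemma kz_eq (m : Fin 11) (e : Fin 10 → ℤ) :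
    10 * ∑ j, NN e j * rz j m = ∑ c, kap m c * OO e c := by
  have key : ∀ (m : Fin 11) (i : Fin 10), 10 * ∑ j, ex i j * rz j m =
      kap m (i - 1) + kap m (i + 1) - 2 * kap m i := by decide +kernel
  have h1 : 10 * ∑ j, NN e j * rz j m = ∑ i, e i * (10 * ∑ j, ex i j * rz j m) := by
    unfold NN
    rw [Finset.mul_sum]
    rw [show (∑ j, 10 * ((∑ i, e i * ex i j) * rz j m)) =
      ∑ j, ∑ i, e i * (10 * (ex i j * rz j m)) from Finset.sum_congr rfl fun j _ => by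
        rw [Finset.sum_mul, Finset.mul_sum]
        exact Finset.sum_congr rfl fun i _ => by ring, Finset.sum_comm]
    refine Finset.sum_congr rfl fun i _ => ?_
    rw [Finset.mul_sum, Finset.mul_sum]
  rw [h1, OO_sum]
  simp only [key]

lemma lt_ordm : ∀ M m : Fin 11, ordm M < ordm m → M < m := by decide

lemma ordm_nn : ∀ M : Fin 11, (0 : ℤ) ≤ ordm M := by decide

section

variable {k : Type*} [Field k] {F : Type*} [Field F] [Algebra k F] {x y : F}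

lemma van2 [CharZero k] (h : Gen (-6 / 25 : k) (6 / 5) x y) {c₀ c₁ : k} (h0 : c₀ ≠ 0) (h1 : c₁ ≠ 0)
    {e e' : Fin 10 → ℤ}
    (hu : algebraMap k F c₀ * mon x y e + algebraMap k F c₁ * mon x y e' = 1) (s : Fin 10)
    (hs : 1 ≤ OO e s) (hs' : OO e' s = 0) : OO e s ≤ 11 ∧ VanAt kap (OO e') s (OO e s) := by
  obtain ⟨M, hM, hv⟩ := van10 h h0 h1 hu s hs hs'
  have hM0 := ordm_nn M
  refine ⟨by omega, fun m hm => ?_⟩
  have hlt : M < m := by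
    rw [← hM] at hm
    exact lt_ordm M m (by omega)
  have h2 := hv m hlt
  rw [RR_zero] at h2
  have h4 := kz_eq m (fun i => e' (i + s))
  rw [h2, mul_zero] at h4
  rw [h4]
  refine Finset.sum_congr rfl fun c _ => ?_
  rw [OO_shift]

/-- the exponents of `2` in the leading coefficients -/
def v2 : Fin 10 → ℤ := ![0, 1, 1, 1, 1, 1, 1, 1, 1, 1]

/-- the exponents of `3` in the leading coefficients -/
def v3 : Fin 10 → ℤ := ![0, 1, 1, 1, 1, 0, 1, 1, 1, 1]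

/-- the exponents of `5` in the leading coefficients -/
def v5 : Fin 10 → ℤ := ![2, 0, 0, 1, 0, 1, 0, 1, 0, 0]

lemma lam_sq [CharZero k] (i : Fin 10) : lam k i ^ 2 =
    ((2 : k) ^ v2 i * 3 ^ v3 i * ((5 : ℕ) : k) ^ v5 i) ^ 2 := by
  fin_cases i
  · show (((25 : ℤ)) : k) ^ 2 = ((2 : k) ^ (0 : ℤ) * 3 ^ (0 : ℤ) * ((5 : ℕ) : k) ^ (2 : ℤ)) ^ 2
    norm_num
  · show (((-6 : ℤ)) : k) ^ 2 = ((2 : k) ^ (1 : ℤ) * 3 ^ (1 : ℤ) * ((5 : ℕ) : k) ^ (0 : ℤ)) ^ 2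
    norm_num
  · show (((-6 : ℤ)) : k) ^ 2 = ((2 : k) ^ (1 : ℤ) * 3 ^ (1 : ℤ) * ((5 : ℕ) : k) ^ (0 : ℤ)) ^ 2
    norm_num
  · show (((30 : ℤ)) : k) ^ 2 = ((2 : k) ^ (1 : ℤ) * 3 ^ (1 : ℤ) * ((5 : ℕ) : k) ^ (1 : ℤ)) ^ 2
    norm_num
  · show (((6 : ℤ)) : k) ^ 2 = ((2 : k) ^ (1 : ℤ) * 3 ^ (1 : ℤ) * ((5 : ℕ) : k) ^ (0 : ℤ)) ^ 2
    norm_num
  · show (((-10 : ℤ)) : k) ^ 2 = ((2 : k) ^ (1 : ℤ) * 3 ^ (0 : ℤ) * ((5 : ℕ) : k) ^ (1 : ℤ)) ^ 2
    norm_num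
  · show (((6 : ℤ)) : k) ^ 2 = ((2 : k) ^ (1 : ℤ) * 3 ^ (1 : ℤ) * ((5 : ℕ) : k) ^ (0 : ℤ)) ^ 2
    norm_num
  · show (((30 : ℤ)) : k) ^ 2 = ((2 : k) ^ (1 : ℤ) * 3 ^ (1 : ℤ) * ((5 : ℕ) : k) ^ (1 : ℤ)) ^ 2
    norm_num
  · show (((-6 : ℤ)) : k) ^ 2 = ((2 : k) ^ (1 : ℤ) * 3 ^ (1 : ℤ) * ((5 : ℕ) : k) ^ (0 : ℤ)) ^ 2
    norm_num
  · show (((6 : ℤ)) : k) ^ 2 = ((2 : k) ^ (1 : ℤ) * 3 ^ (1 : ℤ) * ((5 : ℕ) : k) ^ (0 : ℤ)) ^ 2
    norm_num

/-- the exponents of equal leading coefficients -/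
lemma Lc_nu [CharZero k] {c : k} {e : Fin 10 → ℤ} {s s' : Fin 10} (h : Lc c e s = 1)
    (h' : Lc c e s' = 1) : ∀ nu ∈ nus, ∑ c, nu (c - s) * OO e c = ∑ c, nu (c - s') * OO e c := by
  obtain ⟨a1, a2, a3⟩ := Lc_gen (k := k) (p := 5) (by norm_num) (by norm_num) (by norm_num)
    lam_sq h h'
  have k2 := nu_gen v2 nu2 18 (by decide +kernel) e
  have k3 := nu_gen v3 nu3 16 (by decide +kernel) e
  have k5 := nu_gen v5 nu5 10 (by decide +kernel) e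
  intro nu hn
  simp only [nus, List.mem_cons, List.not_mem_nil, or_false] at hn
  rcases hn with rfl | rfl | rfl
  · linarith [k2 s, k2 s']
  · linarith [k3 s, k3 s']
  · linarith [k5 s, k5 s']

lemma shp [CharZero k] (h : Gen (-6 / 25 : k) (6 / 5) x y) {c₀ c₁ : k} (h0 : c₀ ≠ 0)
    (h1 : c₁ ≠ 0) {e e' : Fin 10 → ℤ}
    (hu : algebraMap k F c₀ * mon x y e + algebraMap k F c₁ * mon x y e' = 1) :
    Shp kap nus (OO e) (OO e') := by
  have B := bound10 h h0 h1 hu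
  have L : ∀ s, 1 ≤ OO e s → Lc c₁ e' s = 1 := by
    intro s hs
    rcases B s with h | ⟨_, _, h⟩ | h | h
    · omega
    · exact h
    · omega
    · omega
  refine ⟨?_, sum_OO e, sum_OO e', ?_, ?_, ?_, ?_⟩
  · intro s
    rcases B s with h | ⟨h, h', _⟩ | ⟨h, h'⟩ | ⟨h, h'⟩
    · exact Or.inl h
    · exact Or.inr (Or.inl ⟨h, h'⟩)
    · exact Or.inr (Or.inr (Or.inl ⟨h, h'⟩))
    · exact Or.inr (Or.inr (Or.inr ⟨h, h'⟩))
  · rw [wt_OO]; omega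
  · rw [wt_OO]; omega
  · intro s hs
    have hs' : OO e' s = 0 := by
      rcases B s with h | ⟨h, h', _⟩ | ⟨h, h'⟩ | ⟨h, h'⟩ <;> omega
    exact van2 h h0 h1 hu s hs hs'
  · intro s s' hs hs'
    exact Lc_nu (L s hs) (L s' hs')

end

/-- the pairs of divisors of the solutions -/
def QQ (k F : Type*) [Field k] [Field F] [Algebra k F] (D D' : Fin 10 → ℤ) : Prop :=
  ∃ x y : F, Gen (-6 / 25 : k) (6 / 5) x y ∧ ∃ (c₀ c₁ : k) (e e' : Fin 10 → ℤ), c₀ ≠ 0 ∧ c₁ ≠ 0 ∧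
    algebraMap k F c₀ * mon x y e + algebraMap k F c₁ * mon x y e' = 1 ∧ OO e = D ∧ OO e' = D'

/-- the pairs of divisors of the solutions satisfy the conditions -/
theorem sym (k F : Type*) [Field k] [CharZero k] [Field F] [Algebra k F] :
    Sym kap nus (QQ k F) := by
  refine ⟨?_, ?_, ?_, ?_⟩
  · rintro D D' ⟨x, y, h, c₀, c₁, e, e', h0, h1, hu, rfl, rfl⟩
    exact shp h h0 h1 hu
  · rintro D D' ⟨x, y, h, c₀, c₁, e, e', h0, h1, hu, rfl, rfl⟩ τ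
    obtain ⟨x', y', h', hs⟩ := exists_shift h τ
    rw [mon_shift τ hs e, mon_shift τ hs e'] at hu
    exact ⟨x', y', h', c₀, c₁, _, _, h0, h1, hu, funext fun i => OO_shift e τ i,
      funext fun i => OO_shift e' τ i⟩
  · rintro D D' ⟨x, y, h, c₀, c₁, e, e', h0, h1, hu, rfl, rfl⟩
    exact ⟨x, y, h, c₁, c₀, e', e, h1, h0, by rw [add_comm]; exact hu, rfl, rfl⟩
  · rintro D D' ⟨x, y, h, c₀, c₁, e, e', h0, h1, hu, rfl, rfl⟩
    have n0 : algebraMap k F c₀ ≠ 0 := (_root_.map_ne_zero _).mpr h0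
    have m0 := mon_ne h e
    refine ⟨x, y, h, c₀⁻¹, -(c₁ * c₀⁻¹), (fun i => - e i), (fun i => e' i - e i),
      inv_ne_zero h0, neg_ne_zero.mpr (mul_ne_zero h1 (inv_ne_zero h0)), ?_, ?_, ?_⟩
    · rw [mon_neg, mon_sub h, map_neg, map_mul, map_inv₀]
      field_simp
      linear_combination -hu
    · funext i; unfold OO; ring
    · funext i; unfold OO; ring

end Pool.Agent.X10.Ca
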