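import Pool.Agent.Lib_helper60.X10a.Da

/-!
# A point of order ten, `t = -1`: the fibres
-/

set_option autoImplicit false
set_option maxRecDepth 100000

namespace Pool.Agent.X10.Ca

/-- a fibre -/
def e0_0 : Cfg :=
    ⟨[(0, 1)], [(false, []), (false, []), (false, []), (false, []), (false, []), (false, []), (false,
      []), (false, []), (false, [([.ofNat 1, .ofNat 1, .ofNat 1, .ofNat 1, .ofNat 1, .ofNat 1,
      .ofNat 1, .ofNat 1, .ofNat 1], [.negSucc 0, .ofNat 1])]), (true, [])]⟩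

lemma e0_0_ok : okE dt e0_0 = true := by decide +kernel

/-- a fibre -/
def e0_1 : Cfg :=
    ⟨[(0, 2)], [(false, []), (false, []), (false, []), (false, []), (false, []), (false, []), (false,
      []), (false, [([.ofNat 5, .negSucc 49, .ofNat 15, .ofNat 0, .negSucc 14, .ofNat 50,
      .negSucc 4, .ofNat 0], [.ofNat 5, .negSucc 4, .negSucc 0])]), (false, [([.ofNat 1, .ofNat 1,
      .ofNat 1, .ofNat 1, .ofNat 1, .ofNat 1, .ofNat 1, .ofNat 1, .ofNat 1], [.negSucc 0,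
      .ofNat 1, .ofNat 0])]), (true, [])]⟩

lemma e0_1_ok : okE dt e0_1 = true := by decide +kernel

/-- a fibre -/
def e0_2 : Cfg :=
    ⟨[(0, 3)], [(false, []), (false, []), (false, []), (false, []), (false, []), (false, []), (false,
      [([.ofNat 300, .negSucc 239, .ofNat 100, .ofNat 120, .negSucc 899, .ofNat 120, .ofNat 0],
      [.ofNat 140, .negSucc 139, .ofNat 12, .negSucc 0])]), (false, [([.ofNat 5, .negSucc 49,
      .ofNat 15, .ofNat 0, .negSucc 14, .ofNat 50, .negSucc 4, .ofNat 0], [.ofNat 5, .negSucc 4,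
      .negSucc 0, .ofNat 0])]), (false, [([.ofNat 1, .ofNat 1, .ofNat 1, .ofNat 1, .ofNat 1,
      .ofNat 1, .ofNat 1, .ofNat 1, .ofNat 1], [.negSucc 0, .ofNat 1, .ofNat 0, .ofNat 0])]),
      (true, [])]⟩

lemma e0_2_ok : okE dt e0_2 = true := by decide +kernel

/-- a fibre -/
def e0_3 : Cfg :=
    ⟨[(0, 4)], [(false, []), (false, []), (false, []), (false, []), (false, []), (false,
      [([.ofNat 3120, .negSucc 1599, .negSucc 719, .ofNat 10800, .negSucc 1799, .ofNat 300],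
      [.negSucc 2879, .ofNat 2880, .negSucc 123, .ofNat 18, .ofNat 1])]), (false, [([.ofNat 300,
      .negSucc 239, .ofNat 100, .ofNat 120, .negSucc 899, .ofNat 120, .ofNat 0], [.ofNat 140,
      .negSucc 139, .ofNat 12, .negSucc 0, .ofNat 0])]), (false, [([.ofNat 5, .negSucc 49,
      .ofNat 15, .ofNat 0, .negSucc 14, .ofNat 50, .negSucc 4, .ofNat 0], [.ofNat 5, .negSucc 4,
      .negSucc 0, .ofNat 0, .ofNat 0])]), (false, [([.ofNat 1, .ofNat 1, .ofNat 1, .ofNat 1,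
      .ofNat 1, .ofNat 1, .ofNat 1, .ofNat 1, .ofNat 1], [.negSucc 0, .ofNat 1, .ofNat 0,
      .ofNat 0, .ofNat 0])]), (true, [])]⟩

lemma e0_3_ok : okE dt e0_3 = true := by decide +kernel

/-- a fibre -/
def e0_4 : Cfg :=
    ⟨[(0, 5)], [(false, []), (false, []), (false, []), (false, []), (false, [([.ofNat 1600,
      .negSucc 1439, .ofNat 10800, .ofNat 1080, .negSucc 899], [.negSucc 4959, .ofNat 4960,
      .negSucc 59, .ofNat 8, .negSucc 2, .ofNat 1])]), (false, [([.ofNat 3120, .negSucc 1599,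
      .negSucc 719, .ofNat 10800, .negSucc 1799, .ofNat 300], [.negSucc 2879, .ofNat 2880,
      .negSucc 123, .ofNat 18, .ofNat 1, .ofNat 0])]), (false, [([.ofNat 300, .negSucc 239,
      .ofNat 100, .ofNat 120, .negSucc 899, .ofNat 120, .ofNat 0], [.ofNat 140, .negSucc 139,
      .ofNat 12, .negSucc 0, .ofNat 0, .ofNat 0])]), (false, [([.ofNat 5, .negSucc 49, .ofNat 15,
      .ofNat 0, .negSucc 14, .ofNat 50, .negSucc 4, .ofNat 0], [.ofNat 5, .negSucc 4, .negSucc 0,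
      .ofNat 0, .ofNat 0, .ofNat 0])]), (false, [([.ofNat 1, .ofNat 1, .ofNat 1, .ofNat 1,
      .ofNat 1, .ofNat 1, .ofNat 1, .ofNat 1, .ofNat 1], [.negSucc 0, .ofNat 1, .ofNat 0,
      .ofNat 0, .ofNat 0, .ofNat 0])]), (true, [])]⟩

lemma e0_4_ok : okE dt e0_4 = true := by decide +kernel

/-- a fibre -/
def e0_5 : Cfg :=
    ⟨[(0, 6)], [(false, []), (false, []), (false, []), (false, [([.ofNat 89280, .ofNat 885600,
      .negSucc 10799, .ofNat 14400], [.negSucc 350559, .ofNat 350560, .negSucc 5151, .ofNat 1196,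
      .negSucc 211, .ofNat 28, .negSucc 12])]), (false, [([.ofNat 1600, .negSucc 1439,
      .ofNat 10800, .ofNat 1080, .negSucc 899], [.negSucc 4959, .ofNat 4960, .negSucc 59,
      .ofNat 8, .negSucc 2, .ofNat 1, .ofNat 0])]), (false, [([.ofNat 3120, .negSucc 1599,
      .negSucc 719, .ofNat 10800, .negSucc 1799, .ofNat 300], [.negSucc 2879, .ofNat 2880,
      .negSucc 123, .ofNat 18, .ofNat 1, .ofNat 0, .ofNat 0])]), (false, [([.ofNat 300,
      .negSucc 239, .ofNat 100, .ofNat 120, .negSucc 899, .ofNat 120, .ofNat 0], [.ofNat 140,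
      .negSucc 139, .ofNat 12, .negSucc 0, .ofNat 0, .ofNat 0, .ofNat 0])]), (false, [([.ofNat 5,
      .negSucc 49, .ofNat 15, .ofNat 0, .negSucc 14, .ofNat 50, .negSucc 4, .ofNat 0], [.ofNat 5,
      .negSucc 4, .negSucc 0, .ofNat 0, .ofNat 0, .ofNat 0, .ofNat 0])]), (false, [([.ofNat 1,
      .ofNat 1, .ofNat 1, .ofNat 1, .ofNat 1, .ofNat 1, .ofNat 1, .ofNat 1, .ofNat 1],
      [.negSucc 0, .ofNat 1, .ofNat 0, .ofNat 0, .ofNat 0, .ofNat 0, .ofNat 0])]), (true, [])]⟩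

lemma e0_5_ok : okE dt e0_5 = true := by decide +kernel

/-- a fibre -/
def e0_6 : Cfg :=
    ⟨[(0, 7)], [(false, []), (false, []), (false, [([.ofNat 20476800, .ofNat 47520, .negSucc 163799],
      [.negSucc 8027359, .ofNat 8027360, .negSucc 128263, .ofNat 27424, .negSucc 4485, .ofNat 782,
      .negSucc 196, .ofNat 31])]), (false, [([.ofNat 89280, .ofNat 885600, .negSucc 10799,
      .ofNat 14400], [.negSucc 350559, .ofNat 350560, .negSucc 5151, .ofNat 1196, .negSucc 211,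
      .ofNat 28, .negSucc 12, .ofNat 0])]), (false, [([.ofNat 1600, .negSucc 1439, .ofNat 10800,
      .ofNat 1080, .negSucc 899], [.negSucc 4959, .ofNat 4960, .negSucc 59, .ofNat 8, .negSucc 2,
      .ofNat 1, .ofNat 0, .ofNat 0])]), (false, [([.ofNat 3120, .negSucc 1599, .negSucc 719,
      .ofNat 10800, .negSucc 1799, .ofNat 300], [.negSucc 2879, .ofNat 2880, .negSucc 123,
      .ofNat 18, .ofNat 1, .ofNat 0, .ofNat 0, .ofNat 0])]), (false, [([.ofNat 300, .negSucc 239,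
      .ofNat 100, .ofNat 120, .negSucc 899, .ofNat 120, .ofNat 0], [.ofNat 140, .negSucc 139,
      .ofNat 12, .negSucc 0, .ofNat 0, .ofNat 0, .ofNat 0, .ofNat 0])]), (false, [([.ofNat 5,
      .negSucc 49, .ofNat 15, .ofNat 0, .negSucc 14, .ofNat 50, .negSucc 4, .ofNat 0], [.ofNat 5,
      .negSucc 4, .negSucc 0, .ofNat 0, .ofNat 0, .ofNat 0, .ofNat 0, .ofNat 0])]), (false,
      [([.ofNat 1, .ofNat 1, .ofNat 1, .ofNat 1, .ofNat 1, .ofNat 1, .ofNat 1, .ofNat 1,
      .ofNat 1], [.negSucc 0, .ofNat 1, .ofNat 0, .ofNat 0, .ofNat 0, .ofNat 0, .ofNat 0,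
      .ofNat 0])]), (true, [])]⟩

lemma e0_6_ok : okE dt e0_6 = true := by decide +kernel

/-- a fibre -/
def e0_7 : Cfg :=
    ⟨[(0, 8)], [(false, []), (false, [([.ofNat 1572480, .ofNat 1638000], [.negSucc 445439,
      .ofNat 445440, .negSucc 5375, .negSucc 13223, .negSucc 3803, .ofNat 1344, .ofNat 864,
      .ofNat 6, .negSucc 78])]), (false, [([.ofNat 20476800, .ofNat 47520, .negSucc 163799],
      [.negSucc 8027359, .ofNat 8027360, .negSucc 128263, .ofNat 27424, .negSucc 4485, .ofNat 782,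
      .negSucc 196, .ofNat 31, .ofNat 0])]), (false, [([.ofNat 89280, .ofNat 885600,
      .negSucc 10799, .ofNat 14400], [.negSucc 350559, .ofNat 350560, .negSucc 5151, .ofNat 1196,
      .negSucc 211, .ofNat 28, .negSucc 12, .ofNat 0, .ofNat 0])]), (false, [([.ofNat 1600,
      .negSucc 1439, .ofNat 10800, .ofNat 1080, .negSucc 899], [.negSucc 4959, .ofNat 4960,
      .negSucc 59, .ofNat 8, .negSucc 2, .ofNat 1, .ofNat 0, .ofNat 0, .ofNat 0])]), (false,
      [([.ofNat 3120, .negSucc 1599, .negSucc 719, .ofNat 10800, .negSucc 1799, .ofNat 300],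
      [.negSucc 2879, .ofNat 2880, .negSucc 123, .ofNat 18, .ofNat 1, .ofNat 0, .ofNat 0,
      .ofNat 0, .ofNat 0])]), (false, [([.ofNat 300, .negSucc 239, .ofNat 100, .ofNat 120,
      .negSucc 899, .ofNat 120, .ofNat 0], [.ofNat 140, .negSucc 139, .ofNat 12, .negSucc 0,
      .ofNat 0, .ofNat 0, .ofNat 0, .ofNat 0, .ofNat 0])]), (false, [([.ofNat 5, .negSucc 49,
      .ofNat 15, .ofNat 0, .negSucc 14, .ofNat 50, .negSucc 4, .ofNat 0], [.ofNat 5, .negSucc 4,
      .negSucc 0, .ofNat 0, .ofNat 0, .ofNat 0, .ofNat 0, .ofNat 0, .ofNat 0])]), (false,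
      [([.ofNat 1, .ofNat 1, .ofNat 1, .ofNat 1, .ofNat 1, .ofNat 1, .ofNat 1, .ofNat 1,
      .ofNat 1], [.negSucc 0, .ofNat 1, .ofNat 0, .ofNat 0, .ofNat 0, .ofNat 0, .ofNat 0,
      .ofNat 0, .ofNat 0])]), (true, [])]⟩

lemma e0_7_ok : okE dt e0_7 = true := by decide +kernel

/-- the fibres with solutions -/
def E0 : List Cfg := [
    e0_0, e0_1, e0_2, e0_3, e0_4, e0_5, e0_6, e0_7]

/-- the fibres without solutions -/
def Z0 : List Cfg := [
    ⟨[(0, 9)], [(false, [([.ofNat 19656000], [.negSucc 1227999, .ofNat 1228000, .negSucc 246399,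
      .negSucc 102999, .negSucc 16399, .ofNat 12460, .ofNat 6320, .negSucc 309, .negSucc 619,
      .ofNat 91])]), (false, [([.ofNat 1572480, .ofNat 1638000], [.negSucc 445439, .ofNat 445440,
      .negSucc 5375, .negSucc 13223, .negSucc 3803, .ofNat 1344, .ofNat 864, .ofNat 6,
      .negSucc 78, .ofNat 0])]), (false, [([.ofNat 20476800, .ofNat 47520, .negSucc 163799],
      [.negSucc 8027359, .ofNat 8027360, .negSucc 128263, .ofNat 27424, .negSucc 4485, .ofNat 782,
      .negSucc 196, .ofNat 31, .ofNat 0, .ofNat 0])]), (false, [([.ofNat 89280, .ofNat 885600,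
      .negSucc 10799, .ofNat 14400], [.negSucc 350559, .ofNat 350560, .negSucc 5151, .ofNat 1196,
      .negSucc 211, .ofNat 28, .negSucc 12, .ofNat 0, .ofNat 0, .ofNat 0])]), (false,
      [([.ofNat 1600, .negSucc 1439, .ofNat 10800, .ofNat 1080, .negSucc 899], [.negSucc 4959,
      .ofNat 4960, .negSucc 59, .ofNat 8, .negSucc 2, .ofNat 1, .ofNat 0, .ofNat 0, .ofNat 0,
      .ofNat 0])]), (false, [([.ofNat 3120, .negSucc 1599, .negSucc 719, .ofNat 10800,
      .negSucc 1799, .ofNat 300], [.negSucc 2879, .ofNat 2880, .negSucc 123, .ofNat 18, .ofNat 1,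
      .ofNat 0, .ofNat 0, .ofNat 0, .ofNat 0, .ofNat 0])]), (false, [([.ofNat 300, .negSucc 239,
      .ofNat 100, .ofNat 120, .negSucc 899, .ofNat 120, .ofNat 0], [.ofNat 140, .negSucc 139,
      .ofNat 12, .negSucc 0, .ofNat 0, .ofNat 0, .ofNat 0, .ofNat 0, .ofNat 0, .ofNat 0])]),
      (false, [([.ofNat 5, .negSucc 49, .ofNat 15, .ofNat 0, .negSucc 14, .ofNat 50, .negSucc 4,
      .ofNat 0], [.ofNat 5, .negSucc 4, .negSucc 0, .ofNat 0, .ofNat 0, .ofNat 0, .ofNat 0,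
      .ofNat 0, .ofNat 0, .ofNat 0])]), (false, [([.ofNat 1, .ofNat 1, .ofNat 1, .ofNat 1,
      .ofNat 1, .ofNat 1, .ofNat 1, .ofNat 1, .ofNat 1], [.negSucc 0, .ofNat 1, .ofNat 0,
      .ofNat 0, .ofNat 0, .ofNat 0, .ofNat 0, .ofNat 0, .ofNat 0, .ofNat 0])]), (true, [])]⟩]

lemma E0_ok : E0.all (okE dt) = true := by
  simp only [E0, List.all_cons, List.all_nil, Bool.and_self,
    e0_0_ok, e0_1_ok, e0_2_ok, e0_3_ok, e0_4_ok, e0_5_ok, e0_6_ok, e0_7_ok]

lemma Z0_ok : Z0.all (okZ dt) = true := by decide +kernel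

lemma cov0 : (prods 1).all (fun a => cov E0 Z0 (([0] : List (Fin 10)).zip a)) = true := by
  decide +kernel

theorem typ0 : Typ dt [0] E0 Z0 := ⟨E0_ok, Z0_ok, cov0, by decide +kernel⟩

end Pool.Agent.X10.Ca
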